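import Mathlib
import Pool.Agent.N792.Defs2
import Pool.Agent.N792.QStm
import Pool.Agent.N791.C2.Ap

/-!
Definitions and statements (as propositions) for the sums of the Liouville function over the values of quadratic
polynomials, for almost all constant terms `c ≤ C`, `C ≥ x^(5/6+ε)` (helper792).
-/

set_option autoImplicit false

namespace Pool.Agent.N792.CH

open Finset Filter Topology
open Pool.Agent.N792 (Fn rho Rough R2)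
open Pool.Agent.N791.C2 (lam)

/-- the part of `N` composed of the primes `≤ z` -/
def sm (z N : ℕ) : ℕ := ∏ p ∈ N.primeFactors.filter (fun p => p ≤ z), p ^ N.factorization p

/-- the part of `N` composed of the primes `> z` -/
def ro (z N : ℕ) : ℕ := ∏ p ∈ N.primeFactors.filter (fun p => z < p), p ^ N.factorization p

/-- the product of the prime factors of `N` in `(w, z]` -/
def rd (w z N : ℕ) : ℕ := ∏ p ∈ N.primeFactors.filter (fun p => w < p ∧ p ≤ z), p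

/-- the parity of the number of the prime factors of `N` in `(w, z]` -/
noncomputable def sg (w z N : ℕ) : ℝ := (-1) ^ #(N.primeFactors.filter (fun p => w < p ∧ p ≤ z))

/-! ### bad values -/

open Classical in
/-- TK: almost all numbers in short intervals have a prime factor between `exp (√log x)` and `z ≥ x^η` -/
def TK : Prop := ∀ η τ : ℝ, 0 < η → 0 < τ → ∃ x0 : ℕ, ∀ x : ℕ, x0 ≤ x → ∀ C z h : ℕ, (x : ℝ) ^ (1 / 2 : ℝ) ≤ C →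
  (x : ℝ) ^ η ≤ z →
  (#((Icc 1 C).filter (fun c => ∀ p : ℕ, p.Prime → p ≤ z → p ∣ h + c → (p : ℝ) < 2 * Real.exp (√(Real.log x)))) : ℝ) ≤ τ * C

open Classical in
/-- BL: the numbers in short intervals with a large part composed of small primes -/
def BL : Prop := ∀ A : ℝ, 1 ≤ A → ∃ K : ℝ, 0 < K ∧ ∀ δ η : ℝ, 0 < δ → δ ≤ 1 / 10 → 0 < η → η ≤ 1 / 10 →
  ∃ x0 : ℕ, ∀ x : ℕ, x0 ≤ x → ∀ C z h : ℕ, (x : ℝ) ^ (1 / 2 : ℝ) ≤ C → (x : ℝ) ^ (η / 2) ≤ z → (z : ℝ) ≤ (x : ℝ) ^ η →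
  (#((Icc 1 C).filter (fun c => (x : ℝ) ^ δ < (rd 1 z (h + c) : ℕ))) : ℝ) ≤ K * Real.exp (-(A * δ / η)) * C

open Classical in
/-- BP: the numbers in short intervals divisible by a high power of a small prime -/
def BP : Prop := ∀ w k : ℕ, ∃ x0 : ℕ, ∀ x : ℕ, x0 ≤ x → ∀ C h : ℕ, (x : ℝ) ^ (1 / 2 : ℝ) ≤ C →
  (#((Icc 1 C).filter (fun c => ∃ p : ℕ, p.Prime ∧ p ≤ w ∧ p ^ k ∣ h + c)) : ℝ) ≤ 2 * w / 2 ^ k * C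

open Classical in
/-- BS: the values divisible by the square of a prime `p > w` -/
def BS (a b : ℤ) : Prop := ∀ R w : ℕ, 1 ≤ w → ∃ x0 : ℕ, ∀ x : ℕ, x0 ≤ x → ∀ x1 C : ℕ, x1 < x → x ≤ R * x1 →
  (x : ℝ) ^ (3 / 4 : ℝ) ≤ C → C ≤ x →
  ∑ c ∈ Icc 1 C, (#((Ioc x1 x).filter (fun n => ∃ p : ℕ, p.Prime ∧ w < p ∧ p ^ 2 ∣ Fn a b n + c)) : ℝ) ≤
    3 / w * (C * x)

/-- CL: the number of the values divisible by `J`, on average over `c ≤ C`, where `J` may be larger than `x` -/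
def CL (a b : ℤ) : Prop := ∃ K : ℝ, 0 < K ∧ ∀ R : ℕ, ∃ x0 : ℕ, ∀ x : ℕ, x0 ≤ x → ∀ x1 C J : ℕ, x1 < x → x ≤ R * x1 →
  (x : ℝ) ^ (4 / 5 : ℝ) ≤ C → C ≤ x → 1 ≤ J → (J : ℝ) ≤ (x : ℝ) ^ (1 + 1 / 100 : ℝ) →
  ∑ c ∈ Icc 1 C, (#((Ioc x1 x).filter (fun n => J ∣ Fn a b n + c)) : ℝ) ≤ K * (C * x / J)

open Classical in
/-- RW: the sum of `1 / j` over the rough numbers in a logarithmically short window -/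
def RW : Prop := ∃ K : ℝ, 0 < K ∧ ∀ η κ : ℝ, 0 < η → η ≤ 1 / 10 → 0 < κ → κ ≤ 1 / 100 →
  ∃ x0 : ℕ, ∀ x : ℕ, x0 ≤ x → ∀ z : ℕ, ∀ u : ℝ, (x : ℝ) ^ (η / 2) ≤ z → (x : ℝ) ^ (1 / 4 : ℝ) ≤ u →
  u * (x : ℝ) ^ κ ≤ (x : ℝ) ^ (1 + 1 / 100 : ℝ) →
  ∑ j ∈ (Icc 1 (x ^ 2)).filter (fun j => Rough z j ∧ Squarefree j ∧ u < j ∧ (j : ℝ) ≤ u * (x : ℝ) ^ κ), 1 / (j : ℝ) ≤
    K * (κ / η ^ 2)

open Classical in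
/-- WN: the values with a rough divisor in a logarithmically short window -/
def WN (a b : ℤ) : Prop := ∃ K : ℝ, 0 < K ∧ ∀ (R : ℕ) (η κ : ℝ), 0 < η → η ≤ 1 / 10 → 0 < κ → κ ≤ 1 / 100 →
  ∃ x0 : ℕ, ∀ x : ℕ, x0 ≤ x → ∀ x1 C z : ℕ, ∀ u : ℝ, x1 < x → x ≤ R * x1 → (x : ℝ) ^ (4 / 5 : ℝ) ≤ C → C ≤ x →
  (x : ℝ) ^ (η / 2) ≤ z → (x : ℝ) ^ (1 / 4 : ℝ) ≤ u → u * (x : ℝ) ^ κ ≤ (x : ℝ) ^ (1 + 1 / 100 : ℝ) →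
  ∑ c ∈ Icc 1 C, (#((Ioc x1 x).filter (fun n => ∃ j : ℕ, Rough z j ∧ Squarefree j ∧ u < j ∧
    (j : ℝ) ≤ u * (x : ℝ) ^ κ ∧ j ∣ Fn a b n + c)) : ℝ) ≤ K * (κ / η ^ 2) * (C * x)

/-! ### type I -/

/-- TA: the sums of the signs `sg` over the values divisible by `j`, from the fundamental lemma -/
def TA (a b : ℤ) : Prop := ∃ K : ℝ, 1 ≤ K ∧ ∀ δ : ℝ, 0 < δ → δ ≤ 1 / 20 → ∃ η0 : ℝ, 0 < η0 ∧ η0 ≤ 1 / 10 ∧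
  ∀ η : ℝ, 0 < η → η ≤ η0 →
  ∀ w P : ℕ, a.natAbs + 4 ≤ w → 1 ≤ P → (∀ p : ℕ, p.Prime → p ∣ P → p ≤ w) → ∃ x0 : ℕ, ∀ x : ℕ, x0 ≤ x →
  ∀ x1 J c r j : ℕ, x1 < x → b.natAbs ≤ x1 → (x : ℝ) ^ (η / 2) ≤ ((2 ^ 2 ^ J : ℕ) : ℝ) →
  ((2 ^ 2 ^ J : ℕ) : ℝ) ≤ (x : ℝ) ^ η → Rough (2 ^ 2 ^ J) j →
  |∑ n ∈ (Ioc x1 x).filter (fun n => n ≡ r [MOD P] ∧ j ∣ Fn a b n + c ∧
      ((rd w (2 ^ 2 ^ J) (Fn a b n + c) : ℕ) : ℝ) ≤ (x : ℝ) ^ δ), sg w (2 ^ 2 ^ J) (Fn a b n + c)| ≤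
    (rho a b c j : ℝ) / (j * P) * x * (∏ p ∈ (Ioc w (2 ^ 2 ^ J)).filter Nat.Prime, (1 - 2 * (rho a b c p : ℝ) / p) +
      K * (2 : ℝ) ^ (-(δ / (K * η)))) + rho a b c j * (x : ℝ) ^ (2 * δ)

/-- GD: the product is small for almost all `c` -/
def GD (a b : ℤ) : Prop := ∀ (w : ℕ) (τ η : ℝ), a.natAbs + 4 ≤ w → 0 < τ → 0 < η → ∃ x0 : ℕ, ∀ x : ℕ, x0 ≤ x →
  ∀ C z : ℕ, (x : ℝ) ^ (1 / 2 : ℝ) ≤ C → (x : ℝ) ^ η ≤ z →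
  (#((Icc 1 C).filter (fun c : ℕ => τ < ∏ p ∈ (Ioc w z).filter Nat.Prime, (1 - 2 * (rho a b c p : ℝ) / p))) : ℝ) ≤ τ * C

open Classical in
/-- TS: the type I sums -/
def TS (a b : ℤ) : Prop := ∃ K : ℝ, 1 ≤ K ∧ ∀ δ : ℝ, 0 < δ → δ ≤ 1 / 20 → ∃ η0 : ℝ, 0 < η0 ∧ η0 ≤ 1 / 10 ∧
  ∀ η : ℝ, 0 < η → η ≤ η0 →
  ∀ w P : ℕ, a.natAbs + 4 ≤ w → 1 ≤ P → (∀ p : ℕ, p.Prime → p ∣ P → p ≤ w) → ∀ (τ : ℝ) (R : ℕ), 0 < τ →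
  ∃ x0 : ℕ, ∀ x : ℕ, x0 ≤ x → ∀ x1 C J s : ℕ, x1 < x → x ≤ R * x1 → (x : ℝ) ^ (3 / 5 : ℝ) ≤ C → C ≤ x →
  (x : ℝ) ^ (η / 2) ≤ ((2 ^ 2 ^ J : ℕ) : ℝ) → ((2 ^ 2 ^ J : ℕ) : ℝ) ≤ (x : ℝ) ^ η → (s : ℝ) ≤ (x : ℝ) ^ (3 / 4 : ℝ) →
  ∃ Ex ⊆ Icc 1 C, (#Ex : ℝ) ≤ τ * C ∧ ∀ ψ : ℕ → ℕ → ℝ, (∀ c n, |ψ c n| ≤ 1) →
    (∀ c n n', n ≡ n' [MOD P] → ψ c n = ψ c n') →
    ∑ c ∈ Icc 1 C \ Ex, ∑ j ∈ (Icc 1 s).filter (fun j => Rough (2 ^ 2 ^ J) j ∧ Squarefree j),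
      (2 : ℝ) ^ #j.primeFactors * |∑ n ∈ (Ioc x1 x).filter (fun n => j ∣ Fn a b n + c ∧
        ((rd w (2 ^ 2 ^ J) (Fn a b n + c) : ℕ) : ℝ) ≤ (x : ℝ) ^ δ), ψ c n * sg w (2 ^ 2 ^ J) (Fn a b n + c)| ≤
      (K * (2 : ℝ) ^ (-(δ / (K * η))) / η ^ 2 + τ) * (C * x)

/-! ### type II -/

/-- the coefficients of the decomposition of `λ(d) G(D')` -/
noncomputable def gt (G : ℕ → ℝ) (k : ℕ) : ℝ :=
  ∑ i ∈ k.divisors, G i * |((ArithmeticFunction.moebius (k / i) : ℤ) : ℝ)|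

open Classical in
/-- the part of `λ(sm k) G(ro k)` with small sums in progressions -/
noncomputable def bet (z Y : ℕ) (G : ℕ → ℝ) (k : ℕ) : ℝ :=
  ∑ i ∈ k.divisors.filter (fun i => Rough z i ∧ Y ≤ k / i), gt G i * lam (k / i)

open Classical in
/-- TI: the decomposition of `λ(sm k) G(ro k)` -/
def TI : Prop := ∀ (z : ℕ) (G : ℕ → ℝ) (k : ℕ), 1 ≤ k →
  ∑ i ∈ k.divisors.filter (fun i => Rough z i), gt G i * lam (k / i) = lam (sm z k) * G (ro z k)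

/-- TB: `bet` is bounded, and equal to `λ(sm k) G(ro k)` unless `sm k < Y` -/
def TB : Prop := ∀ η : ℝ, 0 < η → ∃ K : ℝ, 1 ≤ K ∧ ∀ x z Y k : ℕ, 2 ≤ x → (x : ℝ) ^ (η / 2) ≤ z → 1 ≤ k → k ≤ x ^ 3 →
  ∀ G : ℕ → ℝ, (∀ i, |G i| ≤ 1) →
  |bet z Y G k| ≤ K ∧ (Y ≤ sm z k → bet z Y G k = lam (sm z k) * G (ro z k))

/-- TN: the function `bet` has small sums in progressions -/
def TN : Prop := ∀ (η : ℝ) (U E : ℕ), 0 < η → ∃ x0 : ℕ, ∀ x : ℕ, x0 ≤ x → ∀ z Y : ℕ, (x : ℝ) ^ (η / 2) ≤ z → z ≤ x →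
  Real.exp (√(Real.log x)) ≤ Y → (Y : ℝ) ≤ 2 * Real.exp (√(Real.log x)) →
  ∀ G : ℕ → ℝ, (∀ k, |G k| ≤ 1) →
  ∀ i v q r : ℕ, x ≤ 2 ^ i → 2 ^ (i + 1) ≤ x ^ 2 → 2 ^ i ≤ v → v ≤ 2 ^ (i + 1) → 1 ≤ q → (q : ℝ) ≤ Real.log x ^ E →
  |∑ k ∈ (Ioc (2 ^ i) v).filter (fun k => k ≡ r [MOD q]), bet z Y G k| ≤ (2 : ℝ) ^ i / Real.log x ^ U

/-- TL: the type II sums -/
def TL (a b : ℤ) : Prop := ∀ (ε η τ : ℝ) (R : ℕ), 0 < ε → ε ≤ 1 / 100 → 0 < η → η ≤ 1 / 10 → 0 < τ →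
  ∃ x0 : ℕ, ∀ x : ℕ, x0 ≤ x → ∀ x1 C U y z : ℕ, x1 < x → x ≤ R * x1 → (x : ℝ) ^ (3 / 2 + ε) ≤ C * U →
  (x : ℝ) ^ (3 / 5 : ℝ) ≤ C → C ≤ x → (y : ℝ) ≤ (x : ℝ) ^ (1 - ε) → (x : ℝ) ^ (η / 2) ≤ z → (z : ℝ) ≤ (x : ℝ) ^ η →
  ∀ S ⊆ Ioc U y, (∀ m ∈ S, Rough z m) → (∀ m ∈ S, Squarefree m) → ∀ G : ℕ → ℝ, (∀ k, |G k| ≤ 1) →
  ∑ c ∈ Icc 1 C, ∑ m ∈ S, |∑ n ∈ (Ioc x1 x).filter (fun n => m ∣ Fn a b n + c),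
    lam (sm z ((Fn a b n + c) / m)) * G (ro z ((Fn a b n + c) / m))| ≤ τ * (C * x)

/-! ### patterns -/

/-- the cell of a prime -/
noncomputable def cell (κ : ℝ) (x p : ℕ) : ℕ := ⌊Real.log p / (κ * Real.log x)⌋₊

/-- the pattern of a number: the cells of the prime factors -/
noncomputable def pat (κ : ℝ) (x N : ℕ) : Multiset ℕ := N.primeFactors.val.map (cell κ x)

open Classical in
/-- the type I function -/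
noncomputable def Ti (s N : ℕ) : ℝ :=
  -∑ j ∈ N.divisors.filter (fun j => j ≤ s ∧ Squarefree j), (-2 : ℝ) ^ #j.primeFactors

open Classical in
/-- the value of the remaining function at a pattern -/
noncomputable def Phi0 (κ σ0 σ1 : ℝ) (π : Multiset ℕ) : ℝ :=
  if ∃ B ≤ π, σ0 < κ * (B.sum : ℕ) ∧ κ * (B.sum : ℕ) ≤ σ1 then
    (-1) ^ (Multiset.card π) +
      ((π.powerset.filter (fun B : Multiset ℕ => κ * (B.sum : ℕ) ≤ σ0)).map (fun B => (-2 : ℝ) ^ (Multiset.card B))).sum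
  else 0

/-- CB: the remaining function is a function of the pattern -/
def CB : Prop := ∀ (κ κ' ε η : ℝ) (N s x z : ℕ), 0 < κ → 0 < ε → ε < 1 → 0 < η → 2 ≤ x → 1 ≤ s →
  Squarefree N → Rough z N → (x : ℝ) ^ (η / 2) ≤ z → N ≤ x ^ 3 → κ * (6 / η) ≤ κ' →
  (∀ j : ℕ, j ∣ N → ¬ ((s : ℝ) < j ∧ (j : ℝ) ≤ s * (x : ℝ) ^ κ')) →
  (∀ j : ℕ, j ∣ N → ¬ ((x : ℝ) ^ (1 - ε) < j ∧ (j : ℝ) ≤ (x : ℝ) ^ (1 + ε))) →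
  s ^ 3 < N → (N : ℝ) ≤ (x : ℝ) ^ (2 + 2 * ε) → (s : ℝ) ≤ (x : ℝ) ^ (1 - ε) →
  lam N - Ti s N = Phi0 κ (Real.log s / Real.log x) (1 - ε) (pat κ x N)

/-- PT: the number of the divisors with a given pattern -/
def PT : Prop := ∀ (κ : ℝ) (x N : ℕ) (π B : Multiset ℕ), Squarefree N → B ≤ π →
  #(N.divisors.filter (fun m => pat κ x m = B ∧ pat κ x (N / m) = π - B)) =
    if pat κ x N = π then π.powerset.count B else 0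

/-- PF: there are finitely many patterns -/
def PF : Prop := ∀ η κ : ℝ, 0 < η → 0 < κ → ∃ Q : Finset (Multiset ℕ), ∀ x z N : ℕ, 2 ≤ x → Rough z N →
  (x : ℝ) ^ (η / 2) ≤ z → N ≤ x ^ 3 → pat κ x N ∈ Q

/-- PM: the size of the numbers with a given pattern -/
def PM : Prop := ∀ (κ κ' η σ : ℝ) (x z m : ℕ), 0 < κ → 0 < η → 2 ≤ x → Rough z m → Squarefree m →
  (x : ℝ) ^ (η / 2) ≤ z → m ≤ x ^ 3 → κ * (6 / η) ≤ κ' →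
  (σ < κ * ((pat κ x m).sum : ℕ) → (x : ℝ) ^ σ < m) ∧ (κ * ((pat κ x m).sum : ℕ) ≤ σ → (m : ℝ) ≤ (x : ℝ) ^ (σ + κ'))

/-- PB: the size of the function of the patterns -/
def PB : Prop := ∀ (κ σ0 σ1 η : ℝ) (x z N : ℕ), 0 < η → 2 ≤ x → Rough z N → (x : ℝ) ^ (η / 2) ≤ z → N ≤ x ^ 3 →
  |Phi0 κ σ0 σ1 (pat κ x N)| ≤ 1 + (3 : ℝ) ^ (6 / η)

open Classical in
/-- the type II part -/
noncomputable def tII (κ σ0 σ1 : ℝ) (x z v : ℕ) : ℝ :=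
  lam (sm z v) * (if Squarefree (ro z v) then Phi0 κ σ0 σ1 (pat κ x (ro z v)) else 0)

/-- T2: the sum of the type II part -/
def T2 (a b : ℤ) : Prop := ∀ (ε η κ κ' τ : ℝ) (R : ℕ), 0 < ε → ε ≤ 1 / 100 → 0 < η → η ≤ 1 / 10 → 0 < τ → 0 < κ →
  κ * (6 / η) ≤ κ' → κ' ≤ ε → ∃ x0 : ℕ, ∀ x : ℕ, x0 ≤ x → ∀ x1 C s z : ℕ, x1 < x → x ≤ R * x1 →
  (x : ℝ) ^ (3 / 2 + ε) ≤ C * s → (x : ℝ) ^ (3 / 4 : ℝ) ≤ C → C ≤ x → (x : ℝ) ^ (η / 2) ≤ z → (z : ℝ) ≤ (x : ℝ) ^ η →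
  ∑ c ∈ Icc 1 C, |∑ n ∈ Ioc x1 x, tII κ (Real.log s / Real.log x) (1 - 2 * ε) x z (Fn a b n + c)| ≤ τ * (C * x)

/-! ### the pointwise identity -/

/-- the product of the `k`-th powers of the primes `≤ w` -/
def Pw (w k : ℕ) : ℕ := ∏ p ∈ (Icc 1 w).filter Nat.Prime, p ^ k

open Classical in
/-- `λ` of the part of `v` composed of the primes `≤ w`, unless this part is divisible by the `k`-th power of a prime -/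
noncomputable def psi (w k v : ℕ) : ℝ := if ∀ p : ℕ, p.Prime → p ≤ w → ¬ p ^ k ∣ v then lam (sm w v) else 0

open Classical in
/-- the type I part -/
noncomputable def tI (w k s z : ℕ) (D : ℝ) (v : ℕ) : ℝ :=
  -∑ j ∈ (Icc 1 s).filter (fun j => Rough z j ∧ Squarefree j ∧ j ∣ v),
    (-2 : ℝ) ^ #j.primeFactors * (if ((rd w z v : ℕ) : ℝ) ≤ D then psi w k v * sg w z v else 0)

/-- the good values -/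
def Good (w k s z x : ℕ) (κ' ε D : ℝ) (v : ℕ) : Prop :=
  ((rd w z v : ℕ) : ℝ) ≤ D ∧ (∀ p : ℕ, p.Prime → w < p → ¬ p ^ 2 ∣ v) ∧ (∀ p : ℕ, p.Prime → p ≤ w → ¬ p ^ k ∣ v) ∧
  (∀ j : ℕ, Rough z j → Squarefree j → j ∣ v → ¬ ((s : ℝ) < j ∧ (j : ℝ) ≤ s * (x : ℝ) ^ κ')) ∧
  (∀ j : ℕ, Rough z j → Squarefree j → j ∣ v → ¬ ((x : ℝ) ^ (1 - ε) < j ∧ (j : ℝ) ≤ (x : ℝ) ^ (1 + ε)))

/-- PW: the identity at the good values -/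
def PW : Prop := ∀ (κ κ' ε η D : ℝ) (v w k s x z : ℕ), 0 < κ → 0 < ε → ε < 1 → 0 < η → 1 ≤ D → 2 ≤ x → 1 ≤ s → w ≤ z →
  (x : ℝ) ^ (η / 2) ≤ z → 1 ≤ v → v ≤ x ^ 3 → κ * (6 / η) ≤ κ' → Good w k s z x κ' ε D v →
  (s : ℝ) ^ 3 * Pw w k * D < v → (v : ℝ) ≤ (x : ℝ) ^ (2 + 2 * ε) → (s : ℝ) ≤ (x : ℝ) ^ (1 - ε) →
  lam v = tI w k s z D v + tII κ (Real.log s / Real.log x) (1 - ε) x z v

/-- PV: the size of the two parts -/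
def PV : Prop := ∀ (κ σ0 σ1 η D : ℝ) (v w k s x z : ℕ), 0 < η → 2 ≤ x → (x : ℝ) ^ (η / 2) ≤ z → 1 ≤ v → v ≤ x ^ 3 →
  |tI w k s z D v| ≤ (3 : ℝ) ^ (6 / η) ∧ |tII κ σ0 σ1 x z v| ≤ 1 + (3 : ℝ) ^ (6 / η)

/-- PS: the function `psi` is periodic -/
def PS : Prop := ∀ w k v v' : ℕ, 1 ≤ v → 1 ≤ v' → v ≡ v' [MOD Pw w k] → psi w k v = psi w k v'

/-! ### the main estimate -/

/-- MV: the mean value of the Liouville function at the values of the polynomial, for almost all `c ≤ C` -/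
def MV (a b : ℤ) : Prop := ∀ (ε τ : ℝ) (R : ℕ), 0 < ε → 0 < τ → ∃ x0 : ℕ, ∀ x : ℕ, x0 ≤ x → ∀ x1 C : ℕ,
  x1 < x → x ≤ R * x1 → (x : ℝ) ^ (5 / 6 + ε) ≤ C → C ≤ x →
  ∑ c ∈ Icc 1 C, |∑ n ∈ Ioc x1 x, lam (Fn a b n + c)| ≤ τ * (C * x)

end Pool.Agent.N792.CH
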