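import Mathlib
import Pool.Agent.N792.CH.Stm
import Pool.Agent.Helper923.HMertens

/-!
Project CH of helper792, file BL: Rankin's bound in a short interval (helper918).
-/

set_option autoImplicit false

namespace Pool.Agent.N792.CH

open Finset Filter Topology
open Pool.Agent.N792 (Fn rho Rough rg)

/-- the number of the multiples of `f` in a short interval -/
lemma count_mult (h C f : ℕ) (hf : 1 ≤ f) :
    (#((Icc 1 C).filter (fun c => f ∣ h + c)) : ℝ) ≤ C / f + 1 := by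
  have h1 : #((Icc 1 C).filter (fun c => f ∣ h + c)) + #((Ioc 0 h).filter (fun c => f ∣ c)) ≤
      #((Ioc 0 (h + C)).filter (fun c => f ∣ c)) := by
    rw [← card_image_of_injective ((Icc 1 C).filter (fun c => f ∣ h + c)) (add_right_injective h), ← card_union_of_disjoint]
    · refine card_le_card ?_
      intro c hc
      rw [mem_union, mem_image, mem_filter, mem_Ioc] at hc
      rw [mem_filter, mem_Ioc]
      rcases hc with ⟨d, hd, rfl⟩ | hc
      · rw [mem_filter, mem_Icc] at hd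
        exact ⟨by omega, hd.2⟩
      · exact ⟨by omega, hc.2⟩
    · rw [disjoint_left]
      intro c hc hc2
      rw [mem_image] at hc
      obtain ⟨d, hd, rfl⟩ := hc
      rw [mem_filter, mem_Icc] at hd
      rw [mem_filter, mem_Ioc] at hc2
      omega
  rw [Nat.Ioc_filter_dvd_card_eq_div, Nat.Ioc_filter_dvd_card_eq_div] at h1
  have h2 : (#((Icc 1 C).filter (fun c => f ∣ h + c)) : ℝ) + ((h / f : ℕ) : ℝ) ≤ (((h + C) / f : ℕ) : ℝ) := by
    exact_mod_cast h1
  have h3 : (((h + C) / f : ℕ) : ℝ) ≤ ((h + C : ℕ) : ℝ) / f := Nat.cast_div_le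
  have h4 : (h : ℝ) / f ≤ ((h / f : ℕ) : ℝ) + 1 := by
    have hf0 : (0 : ℝ) < f := by exact_mod_cast hf
    rw [div_le_iff₀ hf0]
    have h5 : h < f * (h / f + 1) := Nat.lt_mul_div_succ h hf
    have h6 : (h : ℝ) < f * ((h / f : ℕ) + 1) := by exact_mod_cast h5
    linarith
  push_cast at h3
  rw [add_div] at h3
  linarith

/-- a subset with a product of a given size -/
lemma exists_sub (P : Finset ℕ) (z : ℕ) (t : ℝ) (ht : 1 ≤ t) (hP : ∀ p ∈ P, 1 ≤ p ∧ p ≤ z)
    (h : t < ∏ p ∈ P, (p : ℝ)) : ∃ Q ⊆ P, t < ∏ p ∈ Q, (p : ℝ) ∧ ∏ p ∈ Q, (p : ℝ) ≤ t * z := by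
  classical
  induction P using Finset.induction_on with
  | empty => simp at h; linarith
  | insert q P hq ih =>
    rw [prod_insert hq] at h
    have hq1 := hP q (mem_insert_self _ _)
    rcases lt_or_ge t (∏ p ∈ P, (p : ℝ)) with h1 | h1
    · obtain ⟨Q, hQ, h2, h3⟩ := ih (fun p hp => hP p (mem_insert_of_mem hp)) h1
      exact ⟨Q, hQ.trans (subset_insert _ _), h2, h3⟩
    · refine ⟨insert q P, subset_rfl, by rw [prod_insert hq]; exact h, ?_⟩
      rw [prod_insert hq]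
      have h2 : (q : ℝ) ≤ z := by exact_mod_cast hq1.2
      have h3 : 0 ≤ ∏ p ∈ P, (p : ℝ) := prod_nonneg fun _ _ => by positivity
      calc (q : ℝ) * ∏ p ∈ P, (p : ℝ) ≤ z * t := mul_le_mul h2 h1 h3 (by positivity)
        _ = t * z := mul_comm _ _

/-- Rankin's bound for the numbers in a short interval with a large part composed of small primes -/
theorem bl : BL := by
  classical
  intro A hA
  obtain ⟨C1, hC1⟩ := Pool.Agent.Helper923.HMertens.mertens_log
  have hC10 : 0 ≤ C1 := (abs_nonneg _).trans (hC1 1 le_rfl)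
  have hl2 : (0 : ℝ) < Real.log 2 := Real.log_pos (by norm_num)
  set K2 : ℝ := 1 + C1 / Real.log 2 with hK2
  refine ⟨2 * Real.exp (K2 * A * Real.exp A), by positivity, fun δ η hδ hδ1 hη hη1 => ?_⟩
  obtain ⟨y3, hy3⟩ := eventually_atTop.1 ((tendsto_rpow_atTop (half_pos hη)).eventually_ge_atTop 2)
  refine ⟨⌈y3⌉₊ + 2, fun x hx C z h hC hz1 hz2 => ?_⟩
  have hx2 : (2 : ℝ) ≤ x := by exact_mod_cast (by omega : 2 ≤ x)
  have hx0 : (0 : ℝ) < x := by linarith
  have hc3 : y3 ≤ x := (Nat.le_ceil _).trans (by exact_mod_cast (by omega : ⌈y3⌉₊ ≤ x))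
  have hz2' : (2 : ℝ) ≤ z := (hy3 x hc3).trans hz1
  have hz2n : 2 ≤ z := by exact_mod_cast hz2'
  have hz0 : (0 : ℝ) < z := by linarith
  have hlz : Real.log 2 ≤ Real.log z := Real.log_le_log (by norm_num) hz2'
  have hlz0 : 0 < Real.log z := lt_of_lt_of_le hl2 hlz
  have hlx0 : 0 < Real.log x := Real.log_pos (by linarith)
  have hlzx : Real.log z ≤ η * Real.log x := by
    rw [← Real.log_rpow hx0]
    exact Real.log_le_log hz0 hz2
  set α : ℝ := A / Real.log z with hα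
  have hα0 : 0 < α := by positivity
  have hzα : (z : ℝ) ^ α = Real.exp A := by
    rw [Real.rpow_def_of_pos hz0, hα]
    congr 1
    field_simp
  set PZ := (Icc 1 z).filter Nat.Prime with hPZ
  set H : ℕ → ℝ := fun p => (p : ℝ) ^ α - 1 with hH
  have hH0 : ∀ p : ℕ, 1 ≤ p → 0 ≤ H p := by
    intro p hp
    have : (1 : ℝ) ≤ (p : ℝ) ^ α := Real.one_le_rpow (by exact_mod_cast hp) hα0.le
    rw [hH]
    dsimp only
    linarith
  -- the pointwise inequality
  have hpt : ∀ c ∈ (Icc 1 C).filter (fun c => (x : ℝ) ^ δ < (rd 1 z (h + c) : ℕ)),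
      (1 : ℝ) ≤ (x : ℝ) ^ (-(δ * α)) * ∑ S ∈ PZ.powerset.filter (fun S => (((∏ p ∈ S, p : ℕ) : ℕ) : ℝ) ≤ (x : ℝ) ^ (1 / 5 : ℝ)),
        (∏ p ∈ S, H p) * (if (∏ p ∈ S, p) ∣ h + c then 1 else 0) := by
    intro c hc
    rw [mem_filter, mem_Icc] at hc
    obtain ⟨⟨hc1, hc2⟩, hc3⟩ := hc
    unfold rd at hc3
    push_cast at hc3
    obtain ⟨Q, hQ, hQ1, hQ2⟩ := exists_sub _ z ((x : ℝ) ^ δ) (Real.one_le_rpow (by linarith) hδ.le)
      (fun p hp => by
        rw [mem_filter] at hp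
        exact ⟨hp.2.1.le, hp.2.2⟩) hc3
    have hQp : ∀ p ∈ Q, p.Prime ∧ p ∣ h + c ∧ p ≤ z := by
      intro p hp
      have := hQ hp
      rw [mem_filter, Nat.mem_primeFactors] at this
      exact ⟨this.1.1, this.1.2.1, this.2.2⟩
    have hQPZ : Q ⊆ PZ := by
      intro p hp
      obtain ⟨h1, h2, h3⟩ := hQp p hp
      rw [hPZ, mem_filter, mem_Icc]
      exact ⟨⟨h1.one_lt.le, h3⟩, h1⟩
    have hQ3 : ∏ p ∈ Q, (p : ℝ) ≤ (x : ℝ) ^ (1 / 5 : ℝ) := by
      refine hQ2.trans ?_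
      calc (x : ℝ) ^ δ * z ≤ (x : ℝ) ^ δ * (x : ℝ) ^ η := mul_le_mul_of_nonneg_left hz2 (by positivity)
        _ = (x : ℝ) ^ (δ + η) := (Real.rpow_add hx0 _ _).symm
        _ ≤ (x : ℝ) ^ (1 / 5 : ℝ) := Real.rpow_le_rpow_of_exponent_le (by linarith) (by linarith)
    have h1 : (x : ℝ) ^ (δ * α) ≤ ∏ p ∈ Q, (1 + H p) := by
      have e1 : ∏ p ∈ Q, (1 + H p) = (∏ p ∈ Q, (p : ℝ)) ^ α := by
        rw [← Real.finsetProd_rpow _ _ (fun p _ => by positivity)]
        refine prod_congr rfl fun p _ => ?_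
        rw [hH]
        ring
      rw [e1, Real.rpow_mul hx0.le]
      exact Real.rpow_le_rpow (by positivity) hQ1.le hα0.le
    have h2 : ∏ p ∈ Q, (1 + H p) = ∑ S ∈ Q.powerset, ∏ p ∈ S, H p := by
      rw [prod_one_add]
    have h3 : ∑ S ∈ Q.powerset, ∏ p ∈ S, H p ≤
        ∑ S ∈ PZ.powerset.filter (fun S => (((∏ p ∈ S, p : ℕ) : ℕ) : ℝ) ≤ (x : ℝ) ^ (1 / 5 : ℝ)),
          (∏ p ∈ S, H p) * (if (∏ p ∈ S, p) ∣ h + c then 1 else 0) := by
      have h4 : Q.powerset ⊆ PZ.powerset.filter (fun S => (((∏ p ∈ S, p : ℕ) : ℕ) : ℝ) ≤ (x : ℝ) ^ (1 / 5 : ℝ)) := by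
        intro S hS
        rw [mem_powerset] at hS
        rw [mem_filter, mem_powerset]
        refine ⟨hS.trans hQPZ, le_trans ?_ hQ3⟩
        have h5 : ∏ p ∈ S, p ≤ ∏ p ∈ Q, p :=
          Finset.prod_le_prod_of_subset_of_one_le' hS fun p hp _ => (hQp p hp).1.one_lt.le
        have h6 : ((∏ p ∈ S, p : ℕ) : ℝ) ≤ ((∏ p ∈ Q, p : ℕ) : ℝ) := Nat.cast_le.2 h5
        rwa [Nat.cast_prod (f := fun p => p) (s := Q)] at h6
      refine le_trans (le_of_eq ?_) (sum_le_sum_of_subset_of_nonneg h4 ?_)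
      · refine sum_congr rfl fun S hS => ?_
        rw [mem_powerset] at hS
        rw [if_pos, mul_one]
        refine Finset.prod_primes_dvd _ (fun p hp => (hQp p (hS hp)).1.prime) fun p hp => (hQp p (hS hp)).2.1
      · intro S hS _
        rw [mem_filter, mem_powerset] at hS
        refine mul_nonneg (prod_nonneg fun p hp => ?_) (by split_ifs <;> norm_num)
        have := hS.1 hp
        rw [hPZ, mem_filter, mem_Icc] at this
        exact hH0 p this.1.1
    calc (1 : ℝ) = (x : ℝ) ^ (-(δ * α)) * (x : ℝ) ^ (δ * α) := by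
          rw [← Real.rpow_add hx0]; simp
      _ ≤ _ := mul_le_mul_of_nonneg_left (h1.trans (h2.le.trans h3)) (by positivity)
  -- the sum over `c`
  have hC0 : (0 : ℝ) ≤ C := by positivity
  have hC15 : (x : ℝ) ^ (1 / 5 : ℝ) ≤ C :=
    (Real.rpow_le_rpow_of_exponent_le (by linarith) (by norm_num)).trans hC
  have hcount : ∀ S ∈ PZ.powerset.filter (fun S => (((∏ p ∈ S, p : ℕ) : ℕ) : ℝ) ≤ (x : ℝ) ^ (1 / 5 : ℝ)),
      ∑ c ∈ Icc 1 C, (∏ p ∈ S, H p) * (if (∏ p ∈ S, p) ∣ h + c then (1 : ℝ) else 0) ≤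
        2 * C * ∏ p ∈ S, (H p / p) := by
    intro S hS
    rw [mem_filter, mem_powerset] at hS
    have hSp : ∀ p ∈ S, 1 ≤ p := fun p hp => by
      have := hS.1 hp
      rw [hPZ, mem_filter, mem_Icc] at this
      exact this.1.1
    have hf1 : 1 ≤ ∏ p ∈ S, p := Nat.one_le_iff_ne_zero.2 (prod_ne_zero_iff.2 fun p hp => by
      have := hSp p hp
      omega)
    set f := ∏ p ∈ S, p with hf
    have hf0 : (0 : ℝ) < f := by exact_mod_cast hf1
    have hfC : (f : ℝ) ≤ C := hS.2.trans hC15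
    have h1 : ∑ c ∈ Icc 1 C, (∏ p ∈ S, H p) * (if f ∣ h + c then (1 : ℝ) else 0) =
        (∏ p ∈ S, H p) * (#((Icc 1 C).filter (fun c => f ∣ h + c)) : ℝ) := by
      rw [← mul_sum, ← sum_filter, sum_const, nsmul_eq_mul, mul_one]
    rw [h1]
    have h2 : (#((Icc 1 C).filter (fun c => f ∣ h + c)) : ℝ) ≤ 2 * C / f := by
      refine (count_mult h C f hf1).trans ?_
      have h3 : (1 : ℝ) ≤ C / f := by rw [le_div_iff₀ hf0]; linarith
      calc (C : ℝ) / f + 1 ≤ C / f + C / f := by linarith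
        _ = 2 * C / f := by ring
    have h3 : ∏ p ∈ S, (H p / p) = (∏ p ∈ S, H p) / f := by
      rw [prod_div_distrib, hf]
      push_cast
      rfl
    rw [h3]
    calc (∏ p ∈ S, H p) * (#((Icc 1 C).filter (fun c => f ∣ h + c)) : ℝ) ≤ (∏ p ∈ S, H p) * (2 * C / f) :=
          mul_le_mul_of_nonneg_left h2 (prod_nonneg fun p hp => hH0 p (hSp p hp))
      _ = 2 * C * ((∏ p ∈ S, H p) / f) := by ring
  -- the product
  have hprod : ∑ S ∈ PZ.powerset.filter (fun S => (((∏ p ∈ S, p : ℕ) : ℕ) : ℝ) ≤ (x : ℝ) ^ (1 / 5 : ℝ)),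
      ∏ p ∈ S, (H p / p) ≤ Real.exp (K2 * A * Real.exp A) := by
    have hPZp : ∀ p ∈ PZ, 1 ≤ p ∧ p ≤ z := fun p hp => by
      rw [hPZ, mem_filter, mem_Icc] at hp
      exact hp.1
    have h1 : ∑ S ∈ PZ.powerset.filter (fun S => (((∏ p ∈ S, p : ℕ) : ℕ) : ℝ) ≤ (x : ℝ) ^ (1 / 5 : ℝ)),
        ∏ p ∈ S, (H p / p) ≤ ∑ S ∈ PZ.powerset, ∏ p ∈ S, (H p / p) := by
      refine sum_le_sum_of_subset_of_nonneg (filter_subset _ _) fun S hS _ => prod_nonneg fun p hp => ?_
      rw [mem_powerset] at hS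
      exact div_nonneg (hH0 p (hPZp p (hS hp)).1) (by positivity)
    have h2 : ∑ S ∈ PZ.powerset, ∏ p ∈ S, (H p / p) = ∏ p ∈ PZ, (1 + H p / p) := by
      rw [prod_one_add]
    have h3 : ∏ p ∈ PZ, (1 + H p / p) ≤ Real.exp (∑ p ∈ PZ, H p / p) := by
      rw [Real.exp_sum]
      refine prod_le_prod (fun p hp => ?_) fun p _ => ?_
      · have := div_nonneg (hH0 p (hPZp p hp).1) (Nat.cast_nonneg (α := ℝ) p)
        linarith
      · rw [add_comm]
        exact Real.add_one_le_exp _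
    have h4 : ∑ p ∈ PZ, H p / p ≤ K2 * A * Real.exp A := by
      have h5 : ∀ p ∈ PZ, H p / p ≤ α * Real.exp A * (Real.log p / p) := by
        intro p hp
        obtain ⟨hp1, hp2⟩ := hPZp p hp
        have hp0 : (0 : ℝ) < p := by exact_mod_cast hp1
        have h6 : H p ≤ α * Real.exp A * Real.log p := by
          rw [hH]
          dsimp only
          have hlp : 0 ≤ Real.log p := Real.log_nonneg (by exact_mod_cast hp1)
          have h7 : (p : ℝ) ^ α = Real.exp (α * Real.log p) := by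
            rw [Real.rpow_def_of_pos hp0, mul_comm]
          have h8 : (p : ℝ) ^ α ≤ Real.exp A := by
            rw [← hzα]
            exact Real.rpow_le_rpow hp0.le (by exact_mod_cast hp2) hα0.le
          have h9 : Real.exp (α * Real.log p) - 1 ≤ α * Real.log p * Real.exp (α * Real.log p) := by
            have h10 := Real.add_one_le_exp (-(α * Real.log p))
            have h11 : Real.exp (-(α * Real.log p)) * Real.exp (α * Real.log p) = 1 := by
              rw [← Real.exp_add]; simp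
            nlinarith [Real.exp_pos (α * Real.log p)]
          rw [h7] at h8 ⊢
          refine h9.trans ?_
          calc α * Real.log p * Real.exp (α * Real.log p) ≤ α * Real.log p * Real.exp A :=
                mul_le_mul_of_nonneg_left h8 (by positivity)
            _ = α * Real.exp A * Real.log p := by ring
        rw [← mul_div_assoc]
        exact div_le_div_of_nonneg_right h6 hp0.le
      refine (sum_le_sum h5).trans ?_
      rw [← mul_sum]
      have h12 := (abs_le.1 (hC1 z (by omega))).2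
      have h13 : ∑ p ∈ PZ, Real.log p / (p : ℝ) ≤ K2 * Real.log z := by
        have h14 : C1 ≤ C1 / Real.log 2 * Real.log z := by
          rw [div_mul_eq_mul_div, le_div_iff₀ hl2]
          exact mul_le_mul_of_nonneg_left hlz hC10
        rw [hK2, add_mul, one_mul]
        linarith
      calc α * Real.exp A * ∑ p ∈ PZ, Real.log p / (p : ℝ) ≤ α * Real.exp A * (K2 * Real.log z) :=
            mul_le_mul_of_nonneg_left h13 (by positivity)
        _ = K2 * A * Real.exp A := by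
            rw [hα]
            field_simp
    exact h1.trans (h2.le.trans (h3.trans (Real.exp_le_exp.2 h4)))
  have hxa : (x : ℝ) ^ (-(δ * α)) ≤ Real.exp (-(A * δ / η)) := by
    rw [Real.rpow_def_of_pos hx0]
    refine Real.exp_le_exp.2 ?_
    rw [mul_neg, neg_le_neg_iff, hα]
    have h1 : 1 / η ≤ Real.log x / Real.log z := by
      rw [div_le_div_iff₀ hη hlz0]
      linarith
    calc A * δ / η = A * δ * (1 / η) := by ring
      _ ≤ A * δ * (Real.log x / Real.log z) := mul_le_mul_of_nonneg_left h1 (by positivity)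
      _ = Real.log x * (δ * (A / Real.log z)) := by ring
  have hmain : (#((Icc 1 C).filter (fun c => (x : ℝ) ^ δ < (rd 1 z (h + c) : ℕ))) : ℝ) ≤
      (x : ℝ) ^ (-(δ * α)) * (2 * C * Real.exp (K2 * A * Real.exp A)) := by
    calc (#((Icc 1 C).filter (fun c => (x : ℝ) ^ δ < (rd 1 z (h + c) : ℕ))) : ℝ)
        = ∑ c ∈ (Icc 1 C).filter (fun c => (x : ℝ) ^ δ < (rd 1 z (h + c) : ℕ)), (1 : ℝ) := by
          rw [sum_const, nsmul_eq_mul, mul_one]
      _ ≤ ∑ c ∈ (Icc 1 C).filter (fun c => (x : ℝ) ^ δ < (rd 1 z (h + c) : ℕ)), (x : ℝ) ^ (-(δ * α)) *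
          ∑ S ∈ PZ.powerset.filter (fun S => (((∏ p ∈ S, p : ℕ) : ℕ) : ℝ) ≤ (x : ℝ) ^ (1 / 5 : ℝ)),
            (∏ p ∈ S, H p) * (if (∏ p ∈ S, p) ∣ h + c then 1 else 0) := sum_le_sum hpt
      _ ≤ ∑ c ∈ Icc 1 C, (x : ℝ) ^ (-(δ * α)) *
          ∑ S ∈ PZ.powerset.filter (fun S => (((∏ p ∈ S, p : ℕ) : ℕ) : ℝ) ≤ (x : ℝ) ^ (1 / 5 : ℝ)),
            (∏ p ∈ S, H p) * (if (∏ p ∈ S, p) ∣ h + c then 1 else 0) := by
          refine sum_le_sum_of_subset_of_nonneg (filter_subset _ _) fun c _ _ =>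
            mul_nonneg (by positivity) (sum_nonneg fun S hS => ?_)
          rw [mem_filter, mem_powerset] at hS
          refine mul_nonneg (prod_nonneg fun p hp => ?_) (by split_ifs <;> norm_num)
          have := hS.1 hp
          rw [hPZ, mem_filter, mem_Icc] at this
          exact hH0 p this.1.1
      _ = (x : ℝ) ^ (-(δ * α)) *
          ∑ S ∈ PZ.powerset.filter (fun S => (((∏ p ∈ S, p : ℕ) : ℕ) : ℝ) ≤ (x : ℝ) ^ (1 / 5 : ℝ)),
            ∑ c ∈ Icc 1 C, (∏ p ∈ S, H p) * (if (∏ p ∈ S, p) ∣ h + c then 1 else 0) := by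
          rw [← mul_sum, sum_comm]
      _ ≤ (x : ℝ) ^ (-(δ * α)) *
          ∑ S ∈ PZ.powerset.filter (fun S => (((∏ p ∈ S, p : ℕ) : ℕ) : ℝ) ≤ (x : ℝ) ^ (1 / 5 : ℝ)),
            2 * C * ∏ p ∈ S, (H p / p) := mul_le_mul_of_nonneg_left (sum_le_sum hcount) (by positivity)
      _ ≤ (x : ℝ) ^ (-(δ * α)) * (2 * C * Real.exp (K2 * A * Real.exp A)) := by
          rw [← mul_sum]
          exact mul_le_mul_of_nonneg_left (mul_le_mul_of_nonneg_left hprod (by positivity)) (by positivity)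
  refine hmain.trans ?_
  calc (x : ℝ) ^ (-(δ * α)) * (2 * C * Real.exp (K2 * A * Real.exp A)) ≤
        Real.exp (-(A * δ / η)) * (2 * C * Real.exp (K2 * A * Real.exp A)) :=
        mul_le_mul_of_nonneg_right hxa (by positivity)
    _ = 2 * Real.exp (K2 * A * Real.exp A) * Real.exp (-(A * δ / η)) * C := by ring

end Pool.Agent.N792.CH
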