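import Pool.Agent.N792.CH.Stm

/-!
Project CH (helper792), parts BP and PS: the numbers divisible by a high power of a small prime,
and the periodicity of the function `psi` (helper749).
-/

set_option autoImplicit false

namespace Pool.Agent.N792.CH

open Finset Filter Topology
open Pool.Agent.N792 (Fn rho Rough R2)
open Pool.Agent.N791.C2 (lam)

namespace BPx

theorem cnt (h C d : ℕ) (_hd : 0 < d) :
    #((Icc 1 C).filter (fun c => d ∣ h + c)) + h / d = (h + C) / d := by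
  rw [← Nat.Ioc_filter_dvd_card_eq_div, ← Nat.Ioc_filter_dvd_card_eq_div]
  have h1 : (Ioc 0 (h + C)).filter (fun x => d ∣ x) =
      ((Icc 1 C).filter (fun c => d ∣ h + c)).image (fun c => h + c) ∪
      (Ioc 0 h).filter (fun x => d ∣ x) := by
    ext x
    simp only [mem_filter, mem_union, mem_image, mem_Ioc, mem_Icc]
    constructor
    · rintro ⟨⟨hx1, hx2⟩, hx3⟩
      rcases Nat.lt_or_ge h x with hx | hx
      · left
        refine ⟨x - h, ⟨⟨by omega, by omega⟩, ?_⟩, by omega⟩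
        rwa [show h + (x - h) = x by omega]
      · right
        exact ⟨⟨hx1, hx⟩, hx3⟩
    · rintro (⟨c, ⟨⟨hc1, hc2⟩, hc3⟩, rfl⟩ | ⟨⟨hx1, hx2⟩, hx3⟩)
      · exact ⟨⟨by omega, by omega⟩, hc3⟩
      · exact ⟨⟨hx1, by omega⟩, hx3⟩
  have hinj : Function.Injective (fun c : ℕ => h + c) := fun a b hab => Nat.add_left_cancel hab
  rw [h1, card_union_of_disjoint, card_image_of_injective _ hinj]
  rw [disjoint_left]
  intro x hx hx'
  rw [mem_image] at hx
  rw [mem_filter, mem_Ioc] at hx'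
  obtain ⟨c, hc, rfl⟩ := hx
  rw [mem_filter, mem_Icc] at hc
  omega

theorem cntR (h C d : ℕ) (hd : 0 < d) :
    (#((Icc 1 C).filter (fun c => d ∣ h + c)) : ℝ) ≤ C / d + 1 := by
  have h1 : ((#((Icc 1 C).filter (fun c => d ∣ h + c)) : ℕ) : ℝ) + ((h / d : ℕ) : ℝ) =
      (((h + C) / d : ℕ) : ℝ) := by
    exact_mod_cast cnt h C d hd
  have h2 : (((h + C) / d : ℕ) : ℝ) ≤ ((h + C : ℕ) : ℝ) / d := Nat.cast_div_le
  have hd' : (0 : ℝ) < d := by exact_mod_cast hd
  have h3 : (h : ℝ) / d ≤ ((h / d : ℕ) : ℝ) + 1 := by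
    rw [div_le_iff₀ hd']
    have h4 := (Nat.lt_mul_div_succ h hd).le
    have h5 : (h : ℝ) ≤ d * (((h / d : ℕ) : ℝ) + 1) := by exact_mod_cast h4
    linarith
  have h6 : ((h + C : ℕ) : ℝ) / d = (h : ℝ) / d + C / d := by
    push_cast
    ring
  linarith

theorem sm_eq (w v : ℕ) (_hv : 1 ≤ v) :
    sm w v = ∏ p ∈ (Icc 1 w).filter Nat.Prime, p ^ v.factorization p := by
  unfold sm
  refine prod_subset ?_ ?_
  · intro p hp
    rw [mem_filter] at hp
    rw [mem_filter, mem_Icc]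
    have h1 := Nat.prime_of_mem_primeFactors hp.1
    exact ⟨⟨h1.one_lt.le, hp.2⟩, h1⟩
  · intro p hp hp'
    rw [mem_filter, mem_Icc] at hp
    have h1 : p ∉ v.primeFactors := by
      intro h
      exact hp' (mem_filter.2 ⟨h, hp.1.2⟩)
    rw [← Nat.support_factorization, Finsupp.notMem_support_iff] at h1
    rw [h1, pow_zero]

theorem fac_eq {p k v v' : ℕ} (hp : p.Prime) (hv : 1 ≤ v) (hv' : 1 ≤ v')
    (h : v ≡ v' [MOD p ^ k]) (hn : ¬ p ^ k ∣ v) : v.factorization p = v'.factorization p := by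
  have hiff : ∀ i ≤ k, (p ^ i ∣ v ↔ p ^ i ∣ v') := by
    intro i hi
    exact (h.of_dvd (pow_dvd_pow p hi)).dvd_iff dvd_rfl
  have h1 : ∀ i, (p ^ i ∣ v ↔ i ≤ v.factorization p) := fun i =>
    hp.pow_dvd_iff_le_factorization (by omega)
  have h2 : ∀ i, (p ^ i ∣ v' ↔ i ≤ v'.factorization p) := fun i =>
    hp.pow_dvd_iff_le_factorization (by omega)
  have h3 : v.factorization p < k := by
    rw [h1] at hn
    omega
  have h4 : v.factorization p ≤ v'.factorization p := by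
    rw [← h2, ← hiff _ h3.le, h1]
  have h5 : ¬ v.factorization p + 1 ≤ v'.factorization p := by
    rw [← h2, ← hiff _ (by omega), h1]
    omega
  omega

end BPx

open Classical in
/-- **The numbers in short intervals divisible by a high power of a small prime.** -/
theorem bp : BP := by
  intro w k
  refine ⟨w ^ (2 * k) + 1, fun x hx C h hC => ?_⟩
  have hx1 : (1 : ℝ) ≤ x := by
    have : 1 ≤ x := by omega
    exact_mod_cast this
  have hC1 : (w : ℝ) ^ k ≤ C := by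
    refine le_trans ?_ hC
    have h1 : ((w : ℝ) ^ k) ^ 2 ≤ x := by
      have h2 : w ^ (2 * k) ≤ x := by omega
      have h3 : ((w : ℝ)) ^ (2 * k) ≤ x := by exact_mod_cast h2
      rw [← pow_mul, mul_comm k 2]
      exact h3
    rw [← Real.sqrt_eq_rpow]
    exact Real.le_sqrt_of_sq_le h1
  have hC0 : (1 : ℝ) ≤ C := by
    refine le_trans ?_ hC
    exact Real.one_le_rpow hx1 (by norm_num)
  have hsub : (Icc 1 C).filter (fun c => ∃ p : ℕ, p.Prime ∧ p ≤ w ∧ p ^ k ∣ h + c) ⊆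
      ((Icc 1 w).filter Nat.Prime).biUnion
        (fun p => (Icc 1 C).filter (fun c => p ^ k ∣ h + c)) := by
    intro c hc
    rw [mem_filter] at hc
    obtain ⟨hc1, p, hp, hpw, hpk⟩ := hc
    rw [mem_biUnion]
    exact ⟨p, mem_filter.2 ⟨mem_Icc.2 ⟨hp.one_lt.le, hpw⟩, hp⟩, mem_filter.2 ⟨hc1, hpk⟩⟩
  have h1 : (#((Icc 1 C).filter (fun c => ∃ p : ℕ, p.Prime ∧ p ≤ w ∧ p ^ k ∣ h + c)) : ℝ) ≤
      ∑ p ∈ (Icc 1 w).filter Nat.Prime, (#((Icc 1 C).filter (fun c => p ^ k ∣ h + c)) : ℝ) := by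
    exact_mod_cast (card_le_card hsub).trans card_biUnion_le
  refine h1.trans ?_
  have h2 : ∀ p ∈ (Icc 1 w).filter Nat.Prime,
      (#((Icc 1 C).filter (fun c => p ^ k ∣ h + c)) : ℝ) ≤ 2 / 2 ^ k * C := by
    intro p hp
    rw [mem_filter, mem_Icc] at hp
    have hpk : 0 < p ^ k := pow_pos hp.2.pos k
    have h3 := BPx.cntR h C (p ^ k) hpk
    have h4 : (0 : ℝ) < ((p ^ k : ℕ) : ℝ) := by exact_mod_cast hpk
    have h5 : ((p ^ k : ℕ) : ℝ) ≤ C := by
      refine le_trans ?_ hC1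
      push_cast
      have h6 : (p : ℝ) ≤ w := by exact_mod_cast hp.1.2
      exact pow_le_pow_left₀ (by positivity) h6 k
    have h6 : (2 : ℝ) ^ k ≤ ((p ^ k : ℕ) : ℝ) := by
      push_cast
      have h7 : (2 : ℝ) ≤ p := by exact_mod_cast hp.2.two_le
      exact pow_le_pow_left₀ (by norm_num) h7 k
    have h7 : (1 : ℝ) ≤ C / ((p ^ k : ℕ) : ℝ) := by
      rw [le_div_iff₀ h4]
      linarith
    have h8 : (C : ℝ) / ((p ^ k : ℕ) : ℝ) ≤ C / 2 ^ k := by
      exact div_le_div_of_nonneg_left (by linarith) (by positivity) h6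
    calc (#((Icc 1 C).filter (fun c => p ^ k ∣ h + c)) : ℝ) ≤ C / ((p ^ k : ℕ) : ℝ) + 1 := h3
      _ ≤ C / 2 ^ k + C / 2 ^ k := by linarith
      _ = 2 / 2 ^ k * C := by ring
  refine (sum_le_sum h2).trans ?_
  rw [sum_const, nsmul_eq_mul]
  have h3 : (#((Icc 1 w).filter Nat.Prime) : ℝ) ≤ w := by
    have h4 : #((Icc 1 w).filter Nat.Prime) ≤ #(Icc 1 w) := card_filter_le _ _
    rw [Nat.card_Icc] at h4
    have h5 : #((Icc 1 w).filter Nat.Prime) ≤ w := by omega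
    exact_mod_cast h5
  have h4 : (0 : ℝ) ≤ 2 / 2 ^ k * C := by positivity
  calc (#((Icc 1 w).filter Nat.Prime) : ℝ) * (2 / 2 ^ k * C) ≤ w * (2 / 2 ^ k * C) :=
        mul_le_mul_of_nonneg_right h3 h4
    _ = 2 * w / 2 ^ k * C := by ring

open Classical in
/-- **The function `psi` is periodic.** -/
theorem ps : PS := by
  intro w k v v' hv hv' h
  have hmod : ∀ p : ℕ, p.Prime → p ≤ w → v ≡ v' [MOD p ^ k] := by
    intro p hp hpw
    refine h.of_dvd ?_
    unfold Pw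
    exact dvd_prod_of_mem (fun p => p ^ k)
      (mem_filter.2 ⟨mem_Icc.2 ⟨hp.one_lt.le, hpw⟩, hp⟩)
  have hdvd : ∀ p : ℕ, p.Prime → p ≤ w → (p ^ k ∣ v ↔ p ^ k ∣ v') := by
    intro p hp hpw
    exact (hmod p hp hpw).dvd_iff dvd_rfl
  unfold psi
  by_cases hc : ∀ p : ℕ, p.Prime → p ≤ w → ¬ p ^ k ∣ v
  · have hc' : ∀ p : ℕ, p.Prime → p ≤ w → ¬ p ^ k ∣ v' := by
      intro p hp hpw
      rw [← hdvd p hp hpw]
      exact hc p hp hpw
    rw [if_pos hc, if_pos hc']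
    congr 1
    rw [BPx.sm_eq w v hv, BPx.sm_eq w v' hv']
    refine prod_congr rfl fun p hp => ?_
    rw [mem_filter, mem_Icc] at hp
    rw [BPx.fac_eq hp.2 hv hv' (hmod p hp.2 hp.1.2) (hc p hp.2 hp.1.2)]
  · have hc' : ¬ ∀ p : ℕ, p.Prime → p ≤ w → ¬ p ^ k ∣ v' := by
      intro hc'
      apply hc
      intro p hp hpw
      rw [hdvd p hp hpw]
      exact hc' p hp hpw
    rw [if_neg hc, if_neg hc']

end Pool.Agent.N792.CH
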