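import Mathlib
import Pool.Agent.N792.CH.Stm
import Pool.Agent.N791.U.Stm

/-!
The statements of `Stm.lean` which depend on `b`, uniform in the linear coefficient `b`, `b² ≤ Λ x` (helper792).
-/

set_option autoImplicit false

namespace Pool.Agent.N792.CH

open Finset Filter Topology
open Pool.Agent.N792 (Fn rho Rough R2)
open Pool.Agent.N791.C2 (lam)

open Classical in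
/-- BSU: the values divisible by the square of a prime `p > w`, uniformly in `b` -/
def BSU (a : ℤ) (Λ : ℝ) : Prop := ∀ R w : ℕ, 1 ≤ w → ∃ x0 : ℕ, ∀ x : ℕ, x0 ≤ x → ∀ b : ℤ, (b : ℝ) ^ 2 ≤ Λ * x →
  ∀ x1 C : ℕ, x1 < x → x ≤ R * x1 → (x : ℝ) ^ (3 / 4 : ℝ) ≤ C → C ≤ x →
  ∑ c ∈ Icc 1 C, (#((Ioc x1 x).filter (fun n => ∃ p : ℕ, p.Prime ∧ w < p ∧ p ^ 2 ∣ Fn a b n + c)) : ℝ) ≤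
    3 / w * (C * x)

/-- CLU: the number of the values divisible by `J`, on average over `c ≤ C`, uniformly in `b` -/
def CLU (a : ℤ) (Λ : ℝ) : Prop := ∃ K : ℝ, 0 < K ∧ ∀ R : ℕ, ∃ x0 : ℕ, ∀ x : ℕ, x0 ≤ x →
  ∀ b : ℤ, (b : ℝ) ^ 2 ≤ Λ * x → ∀ x1 C J : ℕ, x1 < x → x ≤ R * x1 →
  (x : ℝ) ^ (4 / 5 : ℝ) ≤ C → C ≤ x → 1 ≤ J → (J : ℝ) ≤ (x : ℝ) ^ (1 + 1 / 100 : ℝ) →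
  ∑ c ∈ Icc 1 C, (#((Ioc x1 x).filter (fun n => J ∣ Fn a b n + c)) : ℝ) ≤ K * (C * x / J)

open Classical in
/-- WNU: the values with a rough divisor in a logarithmically short window, uniformly in `b` -/
def WNU (a : ℤ) (Λ : ℝ) : Prop := ∃ K : ℝ, 0 < K ∧ ∀ (R : ℕ) (η κ : ℝ), 0 < η → η ≤ 1 / 10 → 0 < κ → κ ≤ 1 / 100 →
  ∃ x0 : ℕ, ∀ x : ℕ, x0 ≤ x → ∀ b : ℤ, (b : ℝ) ^ 2 ≤ Λ * x →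
  ∀ x1 C z : ℕ, ∀ u : ℝ, x1 < x → x ≤ R * x1 → (x : ℝ) ^ (4 / 5 : ℝ) ≤ C → C ≤ x →
  (x : ℝ) ^ (η / 2) ≤ z → (x : ℝ) ^ (1 / 4 : ℝ) ≤ u → u * (x : ℝ) ^ κ ≤ (x : ℝ) ^ (1 + 1 / 100 : ℝ) →
  ∑ c ∈ Icc 1 C, (#((Ioc x1 x).filter (fun n => ∃ j : ℕ, Rough z j ∧ Squarefree j ∧ u < j ∧
    (j : ℝ) ≤ u * (x : ℝ) ^ κ ∧ j ∣ Fn a b n + c)) : ℝ) ≤ K * (κ / η ^ 2) * (C * x)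

/-- TAU: the sums of the signs `sg` over the values divisible by `j`, uniformly in `b` (all `b` with `|b| ≤ x1`) -/
def TAU (a : ℤ) : Prop := ∃ K : ℝ, 1 ≤ K ∧ ∀ δ : ℝ, 0 < δ → δ ≤ 1 / 20 → ∃ η0 : ℝ, 0 < η0 ∧ η0 ≤ 1 / 10 ∧
  ∀ η : ℝ, 0 < η → η ≤ η0 →
  ∀ w P : ℕ, a.natAbs + 4 ≤ w → 1 ≤ P → (∀ p : ℕ, p.Prime → p ∣ P → p ≤ w) → ∃ x0 : ℕ, ∀ x : ℕ, x0 ≤ x → ∀ b : ℤ,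
  ∀ x1 J c r j : ℕ, x1 < x → b.natAbs ≤ x1 → (x : ℝ) ^ (η / 2) ≤ ((2 ^ 2 ^ J : ℕ) : ℝ) →
  ((2 ^ 2 ^ J : ℕ) : ℝ) ≤ (x : ℝ) ^ η → Rough (2 ^ 2 ^ J) j →
  |∑ n ∈ (Ioc x1 x).filter (fun n => n ≡ r [MOD P] ∧ j ∣ Fn a b n + c ∧
      ((rd w (2 ^ 2 ^ J) (Fn a b n + c) : ℕ) : ℝ) ≤ (x : ℝ) ^ δ), sg w (2 ^ 2 ^ J) (Fn a b n + c)| ≤
    (rho a b c j : ℝ) / (j * P) * x * (∏ p ∈ (Ioc w (2 ^ 2 ^ J)).filter Nat.Prime, (1 - 2 * (rho a b c p : ℝ) / p) +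
      K * (2 : ℝ) ^ (-(δ / (K * η)))) + rho a b c j * (x : ℝ) ^ (2 * δ)

/-- GDU: the product is small for almost all `c`, uniformly in all `b` -/
def GDU (a : ℤ) : Prop := ∀ (w : ℕ) (τ η : ℝ), a.natAbs + 4 ≤ w → 0 < τ → 0 < η → ∃ x0 : ℕ, ∀ x : ℕ, x0 ≤ x → ∀ b : ℤ,
  ∀ C z : ℕ, (x : ℝ) ^ (1 / 2 : ℝ) ≤ C → (x : ℝ) ^ η ≤ z →
  (#((Icc 1 C).filter (fun c : ℕ => τ < ∏ p ∈ (Ioc w z).filter Nat.Prime, (1 - 2 * (rho a b c p : ℝ) / p))) : ℝ) ≤ τ * C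

open Classical in
/-- TSU: the type I sums, uniformly in `b` -/
def TSU (a : ℤ) (Λ : ℝ) : Prop := ∃ K : ℝ, 1 ≤ K ∧ ∀ δ : ℝ, 0 < δ → δ ≤ 1 / 20 → ∃ η0 : ℝ, 0 < η0 ∧ η0 ≤ 1 / 10 ∧
  ∀ η : ℝ, 0 < η → η ≤ η0 →
  ∀ w P : ℕ, a.natAbs + 4 ≤ w → 1 ≤ P → (∀ p : ℕ, p.Prime → p ∣ P → p ≤ w) → ∀ (τ : ℝ) (R : ℕ), 0 < τ →
  ∃ x0 : ℕ, ∀ x : ℕ, x0 ≤ x → ∀ b : ℤ, (b : ℝ) ^ 2 ≤ Λ * x →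
  ∀ x1 C J s : ℕ, x1 < x → x ≤ R * x1 → (x : ℝ) ^ (3 / 5 : ℝ) ≤ C → C ≤ x →
  (x : ℝ) ^ (η / 2) ≤ ((2 ^ 2 ^ J : ℕ) : ℝ) → ((2 ^ 2 ^ J : ℕ) : ℝ) ≤ (x : ℝ) ^ η → (s : ℝ) ≤ (x : ℝ) ^ (3 / 4 : ℝ) →
  ∃ Ex ⊆ Icc 1 C, (#Ex : ℝ) ≤ τ * C ∧ ∀ ψ : ℕ → ℕ → ℝ, (∀ c n, |ψ c n| ≤ 1) →
    (∀ c n n', n ≡ n' [MOD P] → ψ c n = ψ c n') →
    ∑ c ∈ Icc 1 C \ Ex, ∑ j ∈ (Icc 1 s).filter (fun j => Rough (2 ^ 2 ^ J) j ∧ Squarefree j),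
      (2 : ℝ) ^ #j.primeFactors * |∑ n ∈ (Ioc x1 x).filter (fun n => j ∣ Fn a b n + c ∧
        ((rd w (2 ^ 2 ^ J) (Fn a b n + c) : ℕ) : ℝ) ≤ (x : ℝ) ^ δ), ψ c n * sg w (2 ^ 2 ^ J) (Fn a b n + c)| ≤
      (K * (2 : ℝ) ^ (-(δ / (K * η))) / η ^ 2 + τ) * (C * x)

/-- TLU: the type II sums, uniformly in `b`, `b² ≤ Λ C` -/
def TLU (a : ℤ) (Λ : ℝ) : Prop := ∀ (ε η τ : ℝ) (R : ℕ), 0 < ε → ε ≤ 1 / 100 → 0 < η → η ≤ 1 / 10 → 0 < τ →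
  ∃ x0 : ℕ, ∀ x : ℕ, x0 ≤ x → ∀ (b : ℤ) (x1 C U y z : ℕ), (b : ℝ) ^ 2 ≤ Λ * C →
  x1 < x → x ≤ R * x1 → (x : ℝ) ^ (3 / 2 + ε) ≤ C * U →
  (x : ℝ) ^ (3 / 5 : ℝ) ≤ C → C ≤ x → (y : ℝ) ≤ (x : ℝ) ^ (1 - ε) → (x : ℝ) ^ (η / 2) ≤ z → (z : ℝ) ≤ (x : ℝ) ^ η →
  ∀ S ⊆ Ioc U y, (∀ m ∈ S, Rough z m) → (∀ m ∈ S, Squarefree m) → ∀ G : ℕ → ℝ, (∀ k, |G k| ≤ 1) →
  ∑ c ∈ Icc 1 C, ∑ m ∈ S, |∑ n ∈ (Ioc x1 x).filter (fun n => m ∣ Fn a b n + c),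
    lam (sm z ((Fn a b n + c) / m)) * G (ro z ((Fn a b n + c) / m))| ≤ τ * (C * x)

/-- T2U: the sum of the type II part, uniformly in `b`, `b² ≤ Λ C` -/
def T2U (a : ℤ) (Λ : ℝ) : Prop := ∀ (ε η κ κ' τ : ℝ) (R : ℕ), 0 < ε → ε ≤ 1 / 100 → 0 < η → η ≤ 1 / 10 → 0 < τ → 0 < κ →
  κ * (6 / η) ≤ κ' → κ' ≤ ε → ∃ x0 : ℕ, ∀ x : ℕ, x0 ≤ x → ∀ (b : ℤ) (x1 C s z : ℕ), (b : ℝ) ^ 2 ≤ Λ * C →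
  x1 < x → x ≤ R * x1 →
  (x : ℝ) ^ (3 / 2 + ε) ≤ C * s → (x : ℝ) ^ (3 / 4 : ℝ) ≤ C → C ≤ x → (x : ℝ) ^ (η / 2) ≤ z → (z : ℝ) ≤ (x : ℝ) ^ η →
  ∑ c ∈ Icc 1 C, |∑ n ∈ Ioc x1 x, tII κ (Real.log s / Real.log x) (1 - 2 * ε) x z (Fn a b n + c)| ≤ τ * (C * x)

/-- MVU: the mean value of the Liouville function, uniformly in `b`, `b² ≤ Λ C` -/
def MVU (a : ℤ) (Λ : ℝ) : Prop := ∀ (ε τ : ℝ) (R : ℕ), 0 < ε → 0 < τ → ∃ x0 : ℕ, ∀ x : ℕ, x0 ≤ x →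
  ∀ (b : ℤ) (x1 C : ℕ), (b : ℝ) ^ 2 ≤ Λ * C →
  x1 < x → x ≤ R * x1 → (x : ℝ) ^ (5 / 6 + ε) ≤ C → C ≤ x →
  ∑ c ∈ Icc 1 C, |∑ n ∈ Ioc x1 x, lam (Fn a b n + c)| ≤ τ * (C * x)

end Pool.Agent.N792.CH
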