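import Mathlib
import Pool.Agent.N792.CH.StmU
import Pool.Agent.N791.U.X7U

/-!
BSU: the values divisible by the square of a prime larger than a constant, uniformly in `b` (helper42 for
helper792, after helper402 and helper595).
-/

set_option autoImplicit false

namespace Pool.Agent.N792.CH

open Finset Filter Topology
open Pool.Agent.N792 (Fn fv rho Rough R2)

open Pool.Agent.N792.RX7 Classical in
/-- BSU: the values divisible by the square of a prime, uniformly in `b` -/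
theorem bsU (a : ℤ) (ha : 0 < a) (Λ : ℝ) (hΛ : 1 ≤ Λ) : BSU a Λ := by
  intro R w hw
  set A : ℕ := a.natAbs + 2 with hA
  obtain ⟨x5', hx5'⟩ := eventually_atTop.1 (Pool.Agent.N791.U.X7Uaux.ev_bn Λ (2 * R + 1))
  refine ⟨(2 * R * A * w + w) ^ 4 + x5' + 4, ?_⟩
  intro x hx b hbΛ x1 C hx1 hR hC1 hC2
  have hx5 : (2 * R + 1) * (b.natAbs + 1) ≤ x := hx5' x (by omega) b hbΛ
  have hx4 : 4 ≤ x := by omega
  have hxpos : (0 : ℝ) < x := by exact_mod_cast (by omega : 0 < x)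
  have hR0 : 0 < R := by
    rcases Nat.eq_zero_or_pos R with h | h
    · subst h; omega
    · exact h
  have hb1 : 2 * b.natAbs + 1 ≤ x1 := by
    have h0 : R * (2 * b.natAbs + 1) ≤ (2 * R + 1) * (b.natAbs + 1) := by
      calc R * (2 * b.natAbs + 1) ≤ R * (2 * b.natAbs + 1) + (R + b.natAbs + 1) :=
            Nat.le_add_right _ _
        _ = (2 * R + 1) * (b.natAbs + 1) := by ring
    have : R * (2 * b.natAbs + 1) ≤ R * x1 := by omega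
    exact Nat.le_of_mul_le_mul_left this hR0
  have hb : b.natAbs ≤ x1 := by omega
  have hbx : b.natAbs ≤ x := by omega
  have hwR : (0 : ℝ) < w := by exact_mod_cast hw
  have hCR : (0 : ℝ) < C := lt_of_lt_of_le (Real.rpow_pos_of_pos hxpos _) hC1
  set Y : ℕ := Nat.sqrt x with hY
  have hY1 : 1 ≤ Y := by
    rw [hY, Nat.le_sqrt]
    omega
  have hYx : (Y : ℝ) ≤ (x : ℝ) ^ (1 / 2 : ℝ) := by
    rw [← Real.sqrt_eq_rpow]
    exact Real.nat_sqrt_le_real_sqrt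
  have hYx2 : (x : ℝ) ^ (1 / 2 : ℝ) ≤ 2 * Y := by
    rw [← Real.sqrt_eq_rpow]
    have h1 := Real.real_sqrt_lt_nat_sqrt_succ (a := x)
    have h2 : (1 : ℝ) ≤ Y := by exact_mod_cast hY1
    linarith
  set M : ℕ := A * x ^ 2 with hM
  have hR1 : (1 : ℝ) ≤ R := by exact_mod_cast hR0
  have hA1 : (1 : ℝ) ≤ A := by
    have : 1 ≤ A := by omega
    exact_mod_cast this
  have hp1 : (x : ℝ) ^ (1 / 2 : ℝ) * (x : ℝ) ^ (1 / 4 : ℝ) = (x : ℝ) ^ (3 / 4 : ℝ) := by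
    rw [← Real.rpow_add hxpos]
    norm_num
  have hp2 : (x : ℝ) ^ (1 / 2 : ℝ) * (x : ℝ) ^ (1 / 2 : ℝ) = x := by
    rw [← Real.rpow_add hxpos]
    norm_num
  have hs0 : (0 : ℝ) < (x : ℝ) ^ (1 / 2 : ℝ) := Real.rpow_pos_of_pos hxpos _
  have hq : 2 * (R : ℝ) * A * w + w ≤ (x : ℝ) ^ (1 / 4 : ℝ) := by
    have h1 : (((2 * R * A * w + w) ^ 4 : ℕ) : ℝ) ≤ x := by
      exact_mod_cast (by omega : (2 * R * A * w + w) ^ 4 ≤ x)
    push_cast at h1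
    have h2 : (0 : ℝ) ≤ 2 * (R : ℝ) * A * w + w := by positivity
    calc 2 * (R : ℝ) * A * w + w = ((2 * (R : ℝ) * A * w + w) ^ (4 : ℕ)) ^ (1 / 4 : ℝ) := by
          rw [← Real.rpow_natCast, ← Real.rpow_mul h2]
          norm_num
      _ ≤ (x : ℝ) ^ (1 / 4 : ℝ) := Real.rpow_le_rpow (by positivity) h1 (by norm_num)
  have e2 : (w : ℝ) ≤ (x : ℝ) ^ (1 / 4 : ℝ) := by
    have : (0 : ℝ) ≤ 2 * (R : ℝ) * A * w := by positivity
    linarith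
  have e3 : 2 * (R : ℝ) * A * w ≤ (x : ℝ) ^ (1 / 4 : ℝ) := by linarith
  have hterm : ∀ c ∈ Icc 1 C, ∀ n ∈ Ioc x1 x,
      (if ∃ p : ℕ, p.Prime ∧ w < p ∧ p ^ 2 ∣ Fn a b n + c then (1 : ℝ) else 0) ≤
      (if ∃ d ∈ Ioc w Y, d ^ 2 ∣ Fn a b n + c then (1 : ℝ) else 0) +
      (if ∃ d, Y < d ∧ d ^ 2 ∣ (fv a b (c : ℕ) n).toNat then (1 : ℝ) else 0) := by
    intro c hc n hn
    rw [mem_Icc] at hc
    rw [mem_Ioc] at hn
    have hval : (fv a b (c : ℕ) n).toNat = Fn a b n + c := by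
      have h1 := fv_pos a ha b hb 0 n hn.1
      unfold Fn
      have h2 : fv a b (c : ℕ) n = fv a b 0 n + c := by unfold fv; ring
      rw [h2]
      push_cast at h1
      omega
    have g1 : (0 : ℝ) ≤ (if ∃ d ∈ Ioc w Y, d ^ 2 ∣ Fn a b n + c then (1 : ℝ) else 0) := by
      split_ifs <;> norm_num
    have g2 : (0 : ℝ) ≤ (if ∃ d, Y < d ∧ d ^ 2 ∣ (fv a b (c : ℕ) n).toNat then (1 : ℝ) else 0) := by
      split_ifs <;> norm_num
    by_cases h0 : ∃ p : ℕ, p.Prime ∧ w < p ∧ p ^ 2 ∣ Fn a b n + c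
    · rw [if_pos h0]
      obtain ⟨p, -, hp, hdv⟩ := h0
      rcases le_or_gt p Y with h | h
      · have h1 : ∃ d ∈ Ioc w Y, d ^ 2 ∣ Fn a b n + c := ⟨p, mem_Ioc.2 ⟨hp, h⟩, hdv⟩
        rw [if_pos h1]
        linarith
      · have h1 : ∃ d, Y < d ∧ d ^ 2 ∣ (fv a b (c : ℕ) n).toNat := ⟨p, h, by rw [hval]; exact hdv⟩
        rw [if_pos h1]
        linarith
    · rw [if_neg h0]
      linarith
  have hsum1 : ∑ c ∈ Icc 1 C, ∑ n ∈ Ioc x1 x,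
      (if ∃ d ∈ Ioc w Y, d ^ 2 ∣ Fn a b n + c then (1 : ℝ) else 0) ≤ x * (C / w + Y) := by
    rw [sum_comm]
    have h1 : ∀ n ∈ Ioc x1 x, ∑ c ∈ Icc 1 C,
        (if ∃ d ∈ Ioc w Y, d ^ 2 ∣ Fn a b n + c then (1 : ℝ) else 0) ≤ C / w + Y := by
      intro n _
      rw [← sum_filter, sum_const, nsmul_eq_mul, mul_one]
      exact sq_count (Fn a b n) C w Y hw
    refine (sum_le_card_nsmul _ _ _ h1).trans ?_
    rw [nsmul_eq_mul, Nat.card_Ioc]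
    refine mul_le_mul_of_nonneg_right ?_ (by positivity)
    exact_mod_cast Nat.sub_le _ _
  have hsum2 : ∑ c ∈ Icc 1 C, ∑ n ∈ Ioc x1 x,
      (if ∃ d, Y < d ∧ d ^ 2 ∣ (fv a b (c : ℕ) n).toNat then (1 : ℝ) else 0) ≤ R * (M / Y) := by
    rw [← Finset.sum_product' (f := fun (c n : ℕ) =>
      (if ∃ d, Y < d ∧ d ^ 2 ∣ (fv a b (c : ℕ) n).toNat then (1 : ℝ) else 0)), ← sum_filter,
      sum_const, nsmul_eq_mul, mul_one]
    have h1 := Pool.Agent.N791.U.X7Uaux.pairs_leU a ha b hb hR hC2 (by omega) hbx hM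
      (fun N => ∃ d, Y < d ∧ d ^ 2 ∣ N)
    have h2 : (#((Icc 1 C ×ˢ Ioc x1 x).filter
        (fun q => ∃ d, Y < d ∧ d ^ 2 ∣ (fv a b (q.1 : ℕ) q.2).toNat)) : ℝ) ≤
        R * #((Icc 1 M).filter (fun N => ∃ d, Y < d ∧ d ^ 2 ∣ N)) := by exact_mod_cast h1
    exact h2.trans (mul_le_mul_of_nonneg_left (big_count M Y hY1) (Nat.cast_nonneg _))
  have htot : ∑ c ∈ Icc 1 C, (#((Ioc x1 x).filter (fun n => ∃ p : ℕ, p.Prime ∧ w < p ∧
      p ^ 2 ∣ Fn a b n + c)) : ℝ) ≤ x * (C / w + Y) + R * (M / Y) := by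
    calc ∑ c ∈ Icc 1 C, (#((Ioc x1 x).filter (fun n => ∃ p : ℕ, p.Prime ∧ w < p ∧
          p ^ 2 ∣ Fn a b n + c)) : ℝ)
        = ∑ c ∈ Icc 1 C, ∑ n ∈ Ioc x1 x,
          (if ∃ p : ℕ, p.Prime ∧ w < p ∧ p ^ 2 ∣ Fn a b n + c then (1 : ℝ) else 0) := by
          refine sum_congr rfl fun c _ => ?_
          rw [← sum_filter, sum_const, nsmul_eq_mul, mul_one]
      _ ≤ ∑ c ∈ Icc 1 C, ∑ n ∈ Ioc x1 x,
          ((if ∃ d ∈ Ioc w Y, d ^ 2 ∣ Fn a b n + c then (1 : ℝ) else 0) +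
          (if ∃ d, Y < d ∧ d ^ 2 ∣ (fv a b (c : ℕ) n).toNat then (1 : ℝ) else 0)) :=
          sum_le_sum fun c hc => sum_le_sum fun n hn => hterm c hc n hn
      _ ≤ _ := by
          simp only [sum_add_distrib]
          exact add_le_add hsum1 hsum2
  refine htot.trans ?_
  -- the three terms
  have t2 : x * (Y : ℝ) ≤ 1 / w * (C * x) := by
    have h1 : (Y : ℝ) * w ≤ C := by
      calc (Y : ℝ) * w ≤ (x : ℝ) ^ (1 / 2 : ℝ) * (x : ℝ) ^ (1 / 4 : ℝ) :=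
            mul_le_mul hYx e2 hwR.le hs0.le
        _ = (x : ℝ) ^ (3 / 4 : ℝ) := hp1
        _ ≤ C := hC1
    rw [one_div, inv_mul_eq_div, le_div_iff₀ hwR]
    calc x * (Y : ℝ) * w = x * (Y * w) := by ring
      _ ≤ x * C := mul_le_mul_of_nonneg_left h1 hxpos.le
      _ = C * x := mul_comm _ _
  have t3 : R * ((M : ℝ) / Y) ≤ 1 / w * (C * x) := by
    have hYR : (0 : ℝ) < Y := by exact_mod_cast hY1
    have h0 : (M : ℝ) / Y ≤ 2 * A * x * (x : ℝ) ^ (1 / 2 : ℝ) := by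
      rw [div_le_iff₀ hYR, hM]
      push_cast
      have h1 : (x : ℝ) ≤ (x : ℝ) ^ (1 / 2 : ℝ) * (2 * Y) := by
        calc (x : ℝ) = (x : ℝ) ^ (1 / 2 : ℝ) * (x : ℝ) ^ (1 / 2 : ℝ) := hp2.symm
          _ ≤ _ := mul_le_mul_of_nonneg_left hYx2 hs0.le
      have h2 : (0 : ℝ) ≤ A * x := by positivity
      calc (A : ℝ) * (x : ℝ) ^ 2 = A * x * x := by ring
        _ ≤ A * x * ((x : ℝ) ^ (1 / 2 : ℝ) * (2 * Y)) := mul_le_mul_of_nonneg_left h1 h2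
        _ = _ := by ring
    have h1 : (x : ℝ) ^ (1 / 2 : ℝ) * (2 * R * A * w) ≤ C := by
      calc (x : ℝ) ^ (1 / 2 : ℝ) * (2 * R * A * w) ≤
            (x : ℝ) ^ (1 / 2 : ℝ) * (x : ℝ) ^ (1 / 4 : ℝ) :=
            mul_le_mul_of_nonneg_left e3 hs0.le
        _ = (x : ℝ) ^ (3 / 4 : ℝ) := hp1
        _ ≤ C := hC1
    rw [one_div, inv_mul_eq_div, le_div_iff₀ hwR]
    calc R * ((M : ℝ) / Y) * w
        ≤ R * (2 * A * x * (x : ℝ) ^ (1 / 2 : ℝ)) * w := by gcongr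
      _ = x * ((x : ℝ) ^ (1 / 2 : ℝ) * (2 * R * A * w)) := by ring
      _ ≤ x * C := mul_le_mul_of_nonneg_left h1 hxpos.le
      _ = _ := mul_comm _ _
  have e5 : x * ((C : ℝ) / w + Y) = 1 / w * (C * x) + x * (Y : ℝ) := by ring
  rw [e5]
  have e6 : 3 / (w : ℝ) * (C * x) = 1 / w * (C * x) + 1 / w * (C * x) + 1 / w * (C * x) := by ring
  rw [e6]
  linarith

end Pool.Agent.N792.CH
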