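import Pool.Agent.N792.CH.Stm

/-!
The remaining function is a function of the pattern (helper395 for helper792, project CH).
-/

set_option autoImplicit false

namespace Pool.Agent.N792.CH

open Finset
open Pool.Agent.N792 (Rough)
open Pool.Agent.N791.C2 (lam)

namespace CBx

/-- sums over the divisors of a squarefree number -/
theorem sum_div (N : ℕ) (hN : Squarefree N) (f : ℕ → ℝ) :
    ∑ j ∈ N.divisors, f j = ∑ T ∈ N.primeFactors.powerset, f (∏ p ∈ T, p) := by
  have hN0 := hN.ne_zero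
  refine Finset.sum_nbij' (fun j => j.primeFactors) (fun T => ∏ p ∈ T, p) ?_ ?_ ?_ ?_ ?_
  · intro j hj
    rw [Finset.mem_powerset]
    exact Nat.primeFactors_mono (Nat.dvd_of_mem_divisors hj) hN0
  · intro T hT
    rw [Finset.mem_powerset] at hT
    rw [Nat.mem_divisors]
    refine ⟨?_, hN0⟩
    conv_rhs => rw [← Nat.prod_primeFactors_of_squarefree hN]
    exact Finset.prod_dvd_prod_of_subset _ _ _ hT
  · intro j hj
    exact Nat.prod_primeFactors_of_squarefree (hN.squarefree_of_dvd (Nat.dvd_of_mem_divisors hj))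
  · intro T hT
    exact Nat.primeFactors_prod
      (fun p hp => Nat.prime_of_mem_primeFactors (Finset.mem_powerset.mp hT hp))
  · intro j hj
    rw [Nat.prod_primeFactors_of_squarefree (hN.squarefree_of_dvd (Nat.dvd_of_mem_divisors hj))]

theorem ms_sum (P : Finset ℕ) (g : ℕ → ℕ) : ∀ h : Multiset ℕ → ℝ,
    (((P.val.map g).powerset).map h).sum = ∑ T ∈ P.powerset, h (T.val.map g) := by
  induction P using Finset.induction_on with
  | empty =>
    intro h
    simp
  | insert a P ha ih =>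
    intro h
    rw [Finset.sum_powerset_insert ha, Finset.insert_val_of_notMem ha, Multiset.map_cons,
      Multiset.powerset_cons, Multiset.map_add, Multiset.sum_add, ih, Multiset.map_map]
    congr 1
    rw [ih]
    refine Finset.sum_congr rfl fun T hT => ?_
    have haT : a ∉ T := fun h' => ha (Finset.mem_powerset.mp hT h')
    rw [Finset.insert_val_of_notMem haT, Multiset.map_cons]
    rfl

theorem ms_filter (s : Multiset (Multiset ℕ)) (q : Multiset ℕ → Prop) [DecidablePred q]
    (g : Multiset ℕ → ℝ) :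
    ((s.filter q).map g).sum = (s.map (fun b => if q b then g b else 0)).sum := by
  induction s using Multiset.induction_on with
  | empty => simp
  | cons a s ih =>
    rw [Multiset.map_cons, Multiset.sum_cons, ← ih]
    by_cases h : q a
    · rw [Multiset.filter_cons_of_pos _ h, Multiset.map_cons, Multiset.sum_cons, if_pos h]
    · rw [Multiset.filter_cons_of_neg _ h, if_neg h, zero_add]

theorem cell_bounds (κ : ℝ) (x : ℕ) (hκ : 0 < κ) (hx : 2 ≤ x) (T : Finset ℕ)
    (hT : ∀ p ∈ T, p.Prime) :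
    κ * ((∑ p ∈ T, cell κ x p : ℕ) : ℝ) ≤ Real.log ((∏ p ∈ T, p : ℕ) : ℝ) / Real.log x ∧
    Real.log ((∏ p ∈ T, p : ℕ) : ℝ) / Real.log x ≤
      κ * ((∑ p ∈ T, cell κ x p : ℕ) : ℝ) + κ * #T := by
  have hL : 0 < Real.log x := Real.log_pos (by exact_mod_cast hx)
  have h1 : Real.log ((∏ p ∈ T, p : ℕ) : ℝ) / Real.log x =
      κ * ∑ p ∈ T, Real.log p / (κ * Real.log x) := by
    rw [Nat.cast_prod, Real.log_prod (fun p hp => by exact_mod_cast (hT p hp).ne_zero),
      Finset.sum_div, Finset.mul_sum]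
    refine Finset.sum_congr rfl fun p _ => ?_
    field_simp
  rw [h1, ← mul_add]
  push_cast
  constructor
  · refine mul_le_mul_of_nonneg_left (Finset.sum_le_sum fun p hp => ?_) hκ.le
    refine Nat.floor_le ?_
    have : (0 : ℝ) ≤ Real.log p := Real.log_natCast_nonneg p
    positivity
  · refine mul_le_mul_of_nonneg_left ?_ hκ.le
    have h2 : (#T : ℝ) = ∑ p ∈ T, (1 : ℝ) := by simp
    rw [h2, ← Finset.sum_add_distrib]
    refine Finset.sum_le_sum fun p hp => ?_
    exact (Nat.lt_floor_add_one _).le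

theorem card_bound (η : ℝ) (x z N : ℕ) (hη : 0 < η) (hx : 2 ≤ x) (hR : Rough z N)
    (hz : (x : ℝ) ^ (η / 2) ≤ z) (hN : N ≤ x ^ 3) (T : Finset ℕ)
    (hT : T ⊆ N.primeFactors) : (#T : ℝ) ≤ 6 / η := by
  have hx0 : (0 : ℝ) < x := by exact_mod_cast (by omega : 0 < x)
  have hL : 0 < Real.log x := Real.log_pos (by exact_mod_cast hx)
  have hz0 : (0 : ℝ) < z := lt_of_lt_of_le (Real.rpow_pos_of_pos hx0 _) hz
  have h1 : η / 2 * Real.log x ≤ Real.log z := by
    rw [← Real.log_rpow hx0]
    exact Real.log_le_log (Real.rpow_pos_of_pos hx0 _) hz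
  have h2 : (#T : ℝ) * Real.log z ≤ ∑ p ∈ T, Real.log p := by
    rw [← nsmul_eq_mul]
    refine Finset.card_nsmul_le_sum _ _ _ fun p hp => ?_
    have hp2 := Nat.mem_primeFactors.mp (hT hp)
    exact Real.log_le_log hz0 (by exact_mod_cast (hR.2 p hp2.1 hp2.2.1).le)
  have h3 : ∑ p ∈ T, Real.log p ≤ 3 * Real.log x := by
    have h4 : ∑ p ∈ T, Real.log p = Real.log ((∏ p ∈ T, p : ℕ) : ℝ) := by
      rw [Nat.cast_prod, Real.log_prod]
      intro p hp
      exact_mod_cast (Nat.mem_primeFactors.mp (hT hp)).1.ne_zero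
    have h5 : (∏ p ∈ T, p) ∣ N :=
      (Finset.prod_dvd_prod_of_subset _ _ _ hT).trans (Nat.prod_primeFactors_dvd N)
    have h6 : (∏ p ∈ T, p) ≤ x ^ 3 := (Nat.le_of_dvd (Nat.pos_of_ne_zero hR.1) h5).trans hN
    have h7 : 0 < (∏ p ∈ T, p) := Nat.pos_of_dvd_of_pos h5 (Nat.pos_of_ne_zero hR.1)
    rw [h4]
    have h8 : (3 : ℝ) * Real.log x = Real.log ((x : ℝ) ^ 3) := by
      rw [Real.log_pow]
      norm_num
    rw [h8]
    exact Real.log_le_log (by exact_mod_cast h7) (by exact_mod_cast h6)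
  have h9 : (#T : ℝ) * (η / 2 * Real.log x) ≤ 3 * Real.log x :=
    (mul_le_mul_of_nonneg_left h1 (Nat.cast_nonneg _)).trans (h2.trans h3)
  rw [le_div_iff₀ hη]
  have h10 : (#T * η) * Real.log x ≤ 6 * Real.log x := by linarith
  exact le_of_mul_le_mul_right h10 hL

theorem lam_sf (N : ℕ) (hN : Squarefree N) : lam N = (-1 : ℝ) ^ #N.primeFactors := by
  unfold lam
  rw [← ArithmeticFunction.cardDistinctFactors_eq_cardFactors_iff_squarefree hN.ne_zero |>.mpr hN]
  rfl

theorem sum_two (P : Finset ℕ) : ∑ T ∈ P.powerset, (-2 : ℝ) ^ #T = (-1 : ℝ) ^ #P := by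
  have h := Finset.sum_pow_mul_eq_add_pow (-2 : ℝ) 1 P
  simp only [one_pow, mul_one] at h
  rw [h]
  norm_num

end CBx

theorem cb : CB := by
  classical
  intro κ κ' ε η N s x z hκ hε hε1 hη hx hs hN hR hz hNx hκ' hw1 hw2 hs3 hN2 hsx
  have hx0 : (0 : ℝ) < x := by exact_mod_cast (by omega : 0 < x)
  have hL : 0 < Real.log x := Real.log_pos (by exact_mod_cast hx)
  have hN0 : 0 < N := Nat.pos_of_ne_zero hR.1
  have hs0 : (0 : ℝ) < s := by exact_mod_cast hs
  set σ0 : ℝ := Real.log s / Real.log x with hσ0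
  have hdvd : ∀ T ⊆ N.primeFactors, (∏ p ∈ T, p) ∣ N := by
    intro T hT
    conv_rhs => rw [← Nat.prod_primeFactors_of_squarefree hN]
    exact Finset.prod_dvd_prod_of_subset _ _ _ hT
  have hpr : ∀ T ⊆ N.primeFactors, ∀ p ∈ T, p.Prime := fun T hT p hp =>
    Nat.prime_of_mem_primeFactors (hT hp)
  -- the condition in terms of patterns
  have hc1 : ∀ T ⊆ N.primeFactors, (∏ p ∈ T, p ≤ s ↔
      κ * ((T.val.map (cell κ x)).sum : ℕ) ≤ σ0) := by
    intro T hT
    obtain ⟨h1, h2⟩ := CBx.cell_bounds κ x hκ hx T (hpr T hT)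
    have h3 := CBx.card_bound η x z N hη hx hR hz hNx T hT
    have hpos : 0 < ∏ p ∈ T, p := Nat.pos_of_dvd_of_pos (hdvd T hT) hN0
    have hpos' : (0 : ℝ) < ((∏ p ∈ T, p : ℕ) : ℝ) := by exact_mod_cast hpos
    constructor
    · intro h
      refine le_trans (show _ from h1) ?_
      rw [hσ0]
      refine div_le_div_of_nonneg_right ?_ hL.le
      exact Real.log_le_log hpos' (by exact_mod_cast h)
    · intro h
      by_contra hcon
      push Not at hcon
      have h4 := hw1 _ (hdvd T hT)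
      push Not at h4
      have h5 := h4 (by exact_mod_cast hcon)
      have h6 : Real.log s + κ' * Real.log x < Real.log ((∏ p ∈ T, p : ℕ) : ℝ) := by
        rw [← Real.log_rpow hx0, ← Real.log_mul hs0.ne' (Real.rpow_pos_of_pos hx0 _).ne']
        exact Real.log_lt_log (mul_pos hs0 (Real.rpow_pos_of_pos hx0 _)) h5
      have h7 : κ * (#T : ℝ) ≤ κ' := (mul_le_mul_of_nonneg_left h3 hκ.le).trans hκ'
      have h8 : σ0 + κ' < Real.log ((∏ p ∈ T, p : ℕ) : ℝ) / Real.log x := by
        rw [hσ0, lt_div_iff₀ hL, add_mul, div_mul_cancel₀ _ hL.ne']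
        exact h6
      have h9 : κ * ((∑ p ∈ T, cell κ x p : ℕ) : ℝ) ≤ σ0 := h
      linarith
  have hTi : Ti s N = -∑ T ∈ N.primeFactors.powerset,
      if (∏ p ∈ T, p) ≤ s then (-2 : ℝ) ^ #T else 0 := by
    unfold Ti
    rw [Finset.sum_filter, CBx.sum_div N hN]
    congr 1
    refine Finset.sum_congr rfl fun T hT => ?_
    have hT' := Finset.mem_powerset.mp hT
    rw [Nat.primeFactors_prod (hpr T hT')]
    have hsq : Squarefree (∏ p ∈ T, p) := hN.squarefree_of_dvd (hdvd T hT')
    by_cases h : ∏ p ∈ T, p ≤ s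
    · rw [if_pos ⟨h, hsq⟩, if_pos h]
    · rw [if_neg (fun h' => h h'.1), if_neg h]
  by_cases hB : ∃ B ≤ pat κ x N, σ0 < κ * (B.sum : ℕ) ∧ κ * (B.sum : ℕ) ≤ 1 - ε
  · have h1 : Phi0 κ σ0 (1 - ε) (pat κ x N) = (-1) ^ (Multiset.card (pat κ x N)) +
        (((pat κ x N).powerset.filter (fun B : Multiset ℕ => κ * (B.sum : ℕ) ≤ σ0)).map
          (fun B => (-2 : ℝ) ^ (Multiset.card B))).sum := by
      unfold Phi0
      rw [if_pos hB]
    rw [h1, CBx.ms_filter, pat, CBx.ms_sum, hTi, CBx.lam_sf N hN, Multiset.card_map,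
      sub_neg_eq_add]
    congr 1
    refine Finset.sum_congr rfl fun T hT => ?_
    have hT' := Finset.mem_powerset.mp hT
    rw [Multiset.card_map]
    by_cases h : ∏ p ∈ T, p ≤ s
    · rw [if_pos h, if_pos ((hc1 T hT').mp h)]
      rfl
    · rw [if_neg h, if_neg (fun h' => h ((hc1 T hT').mpr h'))]
  · have h0 : Phi0 κ σ0 (1 - ε) (pat κ x N) = 0 := by
      unfold Phi0
      rw [if_neg hB]
    rw [h0]
    have hgap : ∀ j : ℕ, j ∣ N → s < j → (x : ℝ) ^ (1 + ε) < j := by
      intro j hj hsj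
      have hjs : Squarefree j := hN.squarefree_of_dvd hj
      by_contra hcon
      push Not at hcon
      have h1 : (j : ℝ) ≤ (x : ℝ) ^ (1 - ε) := by
        by_contra h'
        push Not at h'
        exact hw2 j hj ⟨h', hcon⟩
      apply hB
      have hT : j.primeFactors ⊆ N.primeFactors := Nat.primeFactors_mono hj hN0.ne'
      have hprod : ∏ p ∈ j.primeFactors, p = j := Nat.prod_primeFactors_of_squarefree hjs
      refine ⟨j.primeFactors.val.map (cell κ x),
        Multiset.map_le_map (Finset.val_le_iff.mpr hT), ?_, ?_⟩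
      · by_contra h'
        push Not at h'
        have h2 := (hc1 _ hT).mpr h'
        rw [hprod] at h2
        omega
      · have h2 := (CBx.cell_bounds κ x hκ hx j.primeFactors (hpr _ hT)).1
        rw [hprod] at h2
        refine le_trans (show _ from h2) ?_
        rw [div_le_iff₀ hL, ← Real.log_rpow hx0]
        exact Real.log_le_log (by exact_mod_cast (by omega : 0 < j)) h1
    have hcomb : ∀ M K : ℕ, N = M * K → s < M → s < K → False := by
      intro M K hK hM1 hK1
      have h1 := hgap M ⟨K, hK⟩ hM1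
      have h2 := hgap K ⟨M, by rw [hK, mul_comm]⟩ hK1
      have h3 : (x : ℝ) ^ (2 + 2 * ε) < N := by
        rw [hK]
        push_cast
        have h4 : (x : ℝ) ^ (2 + 2 * ε) = (x : ℝ) ^ (1 + ε) * (x : ℝ) ^ (1 + ε) := by
          rw [← Real.rpow_add hx0]
          congr 1
          ring
        rw [h4]
        have h5 : (0 : ℝ) ≤ (x : ℝ) ^ (1 + ε) := (Real.rpow_pos_of_pos hx0 _).le
        exact mul_lt_mul'' h1 h2 h5 h5
      linarith
    have hbig : ∃ q : ℕ, q.Prime ∧ q ∣ N ∧ s < q := by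
      by_contra hcon
      push Not at hcon
      have hsN : s < N := lt_of_le_of_lt (Nat.le_self_pow (by norm_num) s) hs3
      have hex : ∃ M, M ∣ N ∧ s < M := ⟨N, dvd_refl N, hsN⟩
      obtain ⟨hM1, hM2⟩ := Nat.find_spec hex
      have hMmin : ∀ m < Nat.find hex, ¬ (m ∣ N ∧ s < m) := fun m hm => Nat.find_min hex hm
      generalize Nat.find hex = M at *
      have hM1' : M ≠ 1 := by omega
      obtain ⟨p, hp, ⟨m, hm⟩⟩ := Nat.exists_prime_and_dvd hM1'
      have hp2 := hp.two_le
      have hm0 : 0 < m := by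
        rcases Nat.eq_zero_or_pos m with h | h
        · rw [h, mul_zero] at hm
          omega
        · exact h
      have hm1 : m < M := by
        rw [hm]
        nlinarith
      have hmN : m ∣ N := dvd_trans ⟨p, by rw [hm, mul_comm]⟩ hM1
      have hms : m ≤ s := by
        by_contra h'
        exact hMmin m hm1 ⟨hmN, by omega⟩
      have hps : p ≤ s := hcon p hp (dvd_trans ⟨m, hm⟩ hM1)
      have hMs : M ≤ s * s := by
        rw [hm]
        exact Nat.mul_le_mul hps hms
      obtain ⟨K, hK⟩ := hM1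
      have hKs : s < K := by
        by_contra h'
        push Not at h'
        have h3 : N ≤ s ^ 3 := by
          rw [hK]
          calc M * K ≤ (s * s) * s := Nat.mul_le_mul hMs h'
            _ = s ^ 3 := by ring
        omega
      exact hcomb M K hK hM2 hKs
    obtain ⟨q, hq, ⟨k', hk'⟩, hqs⟩ := hbig
    have hk0 : k' ≠ 0 := by
      rintro rfl
      rw [mul_zero] at hk'
      omega
    have hk's : k' ≤ s := by
      by_contra h'
      exact hcomb q k' hk' hqs (by omega)
    have hqk : ¬ q ∣ k' := by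
      intro h
      obtain ⟨l, hl⟩ := h
      have h1 : q * q ∣ N := ⟨l, by rw [hk', hl, mul_assoc]⟩
      exact hq.one_lt.ne' (Nat.isUnit_iff.mp (hN q h1))
    have hqn : q ∉ k'.primeFactors := fun h => hqk (Nat.dvd_of_mem_primeFactors h)
    have hPq : N.primeFactors = insert q k'.primeFactors := by
      rw [hk', Nat.primeFactors_mul hq.ne_zero hk0, hq.primeFactors]
      rfl
    have hk'sq : Squarefree k' := hN.squarefree_of_dvd ⟨q, by rw [hk', mul_comm]⟩
    rw [hTi, CBx.lam_sf N hN, hPq, Finset.sum_powerset_insert hqn,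
      Finset.card_insert_of_notMem hqn]
    have e1 : ∑ T ∈ k'.primeFactors.powerset, (if (∏ p ∈ T, p) ≤ s then (-2 : ℝ) ^ #T else 0) =
        (-1 : ℝ) ^ #k'.primeFactors := by
      rw [← CBx.sum_two]
      refine Finset.sum_congr rfl fun T hT => if_pos ?_
      have h1 : (∏ p ∈ T, p) ∣ k' := by
        conv_rhs => rw [← Nat.prod_primeFactors_of_squarefree hk'sq]
        exact Finset.prod_dvd_prod_of_subset _ _ _ (Finset.mem_powerset.mp hT)
      exact (Nat.le_of_dvd (Nat.pos_of_ne_zero hk0) h1).trans hk's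
    have e2 : ∑ T ∈ k'.primeFactors.powerset,
        (if (∏ p ∈ insert q T, p) ≤ s then (-2 : ℝ) ^ #(insert q T) else 0) = 0 := by
      refine Finset.sum_eq_zero fun T hT => if_neg ?_
      have hT' := Finset.mem_powerset.mp hT
      rw [Finset.prod_insert (fun h => hqn (hT' h))]
      have h1 : 0 < ∏ p ∈ T, p := Finset.prod_pos fun p hp =>
        (Nat.prime_of_mem_primeFactors (hT' hp)).pos
      have h2 : q * 1 ≤ q * ∏ p ∈ T, p := Nat.mul_le_mul_left q h1
      omega
    rw [e1, e2, pow_succ]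
    ring

end Pool.Agent.N792.CH
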