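import Pool.Agent.N792.CH.Stm

/-!
`CL`: the number of the values divisible by `J`, on average over `c ≤ C` (helper222 for helper792).
The inequality `vdc` is copied from `Pool/Agent/H373R2/NB/Vino.lean`.
-/

set_option autoImplicit false

namespace Pool.Agent.N792.CH

open Finset Filter Topology
open Pool.Agent.N792 (Fn)

namespace CLx

/-- `exp (2 π i x)` -/
noncomputable def e (x : ℝ) : ℂ := Complex.exp ((2 * Real.pi * x : ℝ) * Complex.I)

lemma e_add (x y : ℝ) : e (x + y) = e x * e y := by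
  unfold e
  rw [← Complex.exp_add]
  congr 1
  push_cast
  ring

lemma norm_e (x : ℝ) : ‖e x‖ = 1 := by
  unfold e
  exact Complex.norm_exp_ofReal_mul_I _

lemma e_re (x : ℝ) : (e x).re = Real.cos (2 * Real.pi * x) := by
  unfold e
  exact Complex.exp_ofReal_mul_I_re _

lemma e_im (x : ℝ) : (e x).im = Real.sin (2 * Real.pi * x) := by
  unfold e
  exact Complex.exp_ofReal_mul_I_im _

lemma e_int (k : ℤ) : e k = 1 := by
  unfold e
  have : ((2 * Real.pi * (k : ℝ) : ℝ) : ℂ) * Complex.I = k * (2 * Real.pi * Complex.I) := by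
    push_cast
    ring
  rw [this]
  exact Complex.exp_int_mul_two_pi_mul_I k

lemma e_neg (x : ℝ) : e (-x) = (starRingEnd ℂ) (e x) := by
  apply Complex.ext
  · rw [Complex.conj_re, e_re, e_re, ← Real.cos_neg]
    congr 1
    ring
  · rw [Complex.conj_im, e_im, e_im, ← Real.sin_neg]
    congr 1
    ring

lemma e_mul (n : ℕ) (x : ℝ) : e (n * x) = e x ^ n := by
  induction n with
  | zero => rw [Nat.cast_zero, zero_mul, pow_zero, ← Int.cast_zero, e_int]
  | succ n ih =>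
    rw [Nat.cast_succ, add_mul, one_mul, e_add, ih, pow_succ]

lemma e_mod (J : ℕ) (hJ : 0 < J) (k k' : ℤ) (h : (J : ℤ) ∣ k - k') :
    e ((k : ℝ) / J) = e ((k' : ℝ) / J) := by
  obtain ⟨t, ht⟩ := h
  have hJ0 : (J : ℝ) ≠ 0 := by positivity
  have e1 : (k : ℝ) / J = (k' : ℝ) / J + (t : ℤ) := by
    have : (k : ℝ) = k' + J * t := by
      have h2 : k = k' + J * t := by linarith
      exact_mod_cast h2
    rw [this]
    field_simp
  rw [e1, e_add, e_int, mul_one]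

/-- the Weyl - van der Corput inequality in its simplest form -/
lemma vdc (F : ℕ → ℂ) (hF : ∀ n, ‖F n‖ = 1) (N : ℕ) :
    ‖∑ n ∈ range N, F n‖ ^ 2 ≤ 2 * ∑ h ∈ range N, ‖∑ n ∈ range (N - h), F (n + h) * (starRingEnd ℂ) (F n)‖ := by
  have hA : ∀ N : ℕ, ‖∑ n ∈ range N, F n‖ ^ 2 =
      2 * (∑ n ∈ range N, ∑ m ∈ range (n + 1), F n * (starRingEnd ℂ) (F m)).re - N := by
    intro N
    induction N with
    | zero => simp
    | succ N ih =>
      rw [sum_range_succ, sum_range_succ (fun n => ∑ m ∈ range (n + 1), F n * (starRingEnd ℂ) (F m))]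
      have h1 : ∀ a b : ℂ, ‖a + b‖ ^ 2 = ‖a‖ ^ 2 + ‖b‖ ^ 2 + 2 * (b * (starRingEnd ℂ) a).re := by
        intro a b
        rw [← Complex.normSq_eq_norm_sq, ← Complex.normSq_eq_norm_sq, ← Complex.normSq_eq_norm_sq, Complex.normSq_add]
        have : (a * (starRingEnd ℂ) b).re = (b * (starRingEnd ℂ) a).re := by
          simp only [Complex.mul_re, Complex.conj_re, Complex.conj_im]; ring
        rw [this]
      rw [h1, ih, hF N, sum_range_succ, ← mul_sum, ← map_sum]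
      have h2 : F N * (starRingEnd ℂ) (F N) = 1 := by
        rw [Complex.mul_conj, Complex.normSq_eq_norm_sq, hF]; norm_num
      rw [h2]
      simp only [Complex.add_re, Complex.one_re]
      push_cast
      ring
  have hB : ∀ N : ℕ, ∑ n ∈ range N, ∑ m ∈ range (n + 1), F n * (starRingEnd ℂ) (F m) =
      ∑ h ∈ range N, ∑ n ∈ range (N - h), F (n + h) * (starRingEnd ℂ) (F n) := by
    intro N
    induction N with
    | zero => simp
    | succ N ih =>
      rw [sum_range_succ, ih]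
      have h1 : ∀ h ∈ range (N + 1), ∑ n ∈ range (N + 1 - h), F (n + h) * (starRingEnd ℂ) (F n) =
          ∑ n ∈ range (N - h), F (n + h) * (starRingEnd ℂ) (F n) + F N * (starRingEnd ℂ) (F (N - h)) := by
        intro h hh
        rw [mem_range] at hh
        rw [show N + 1 - h = (N - h) + 1 by omega, sum_range_succ, show N - h + h = N by omega]
      rw [sum_congr rfl h1, sum_add_distrib, sum_range_succ (fun h => ∑ n ∈ range (N - h), F (n + h) * (starRingEnd ℂ) (F n))]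
      rw [Nat.sub_self, range_zero, sum_empty, add_zero]
      congr 1
      have h2 := sum_range_reflect (fun m => F N * (starRingEnd ℂ) (F m)) (N + 1)
      rw [← h2]
      apply sum_congr rfl
      intro m _
      rw [show N + 1 - 1 - m = N - m by omega]
  rw [hA, hB]
  have h1 : (∑ h ∈ range N, ∑ n ∈ range (N - h), F (n + h) * (starRingEnd ℂ) (F n)).re ≤
      ∑ h ∈ range N, ‖∑ n ∈ range (N - h), F (n + h) * (starRingEnd ℂ) (F n)‖ :=
    (Complex.re_le_norm _).trans (norm_sum_le _ _)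
  have h2 : (0 : ℝ) ≤ N := Nat.cast_nonneg N
  linarith

lemma far (θ δ : ℝ) (h0 : 0 < δ) (h1 : δ ≤ θ) (h2 : θ ≤ 1 - δ) : 4 * δ ≤ ‖1 - e θ‖ := by
  have hs : 2 * δ ≤ Real.sin (Real.pi * θ) := by
    rcases le_total θ (1 / 2) with h | h
    · have := Real.mul_le_sin (x := Real.pi * θ)
        (mul_nonneg Real.pi_pos.le (by linarith)) (by nlinarith [Real.pi_pos])
      have e1 : 2 / Real.pi * (Real.pi * θ) = 2 * θ := by field_simp
      linarith
    · have := Real.mul_le_sin (x := Real.pi * (1 - θ)) (by nlinarith [Real.pi_pos])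
        (by nlinarith [Real.pi_pos])
      have e1 : 2 / Real.pi * (Real.pi * (1 - θ)) = 2 * (1 - θ) := by field_simp
      have e2 : Real.sin (Real.pi * (1 - θ)) = Real.sin (Real.pi * θ) := by
        rw [mul_sub, mul_one, Real.sin_pi_sub]
      linarith
  have hn : ‖1 - e θ‖ ^ 2 = (2 * Real.sin (Real.pi * θ)) ^ 2 := by
    rw [← Complex.normSq_eq_norm_sq, Complex.normSq_apply]
    simp only [Complex.sub_re, Complex.sub_im, Complex.one_re, Complex.one_im, e_re, e_im]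
    have e3 : 2 * Real.pi * θ = 2 * (Real.pi * θ) := by ring
    rw [e3]
    have e4 := Real.cos_two_mul (Real.pi * θ)
    have e5 := Real.sin_sq_add_cos_sq (2 * (Real.pi * θ))
    have e6 := Real.sin_sq_add_cos_sq (Real.pi * θ)
    nlinarith
  have h3 : ‖1 - e θ‖ = 2 * Real.sin (Real.pi * θ) :=
    (pow_left_inj₀ (norm_nonneg _) (by linarith) two_ne_zero).1 hn
  linarith

lemma geo (θ δ : ℝ) (h0 : 0 < δ) (h1 : δ ≤ θ) (h2 : θ ≤ 1 - δ) (M : ℕ) :
    ‖∑ m ∈ range M, e θ ^ m‖ ≤ 1 / (2 * δ) := by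
  have hf := far θ δ h0 h1 h2
  have hne : e θ ≠ 1 := by
    intro h
    rw [h, sub_self, norm_zero] at hf
    linarith
  rw [geom_sum_eq hne, norm_div]
  have h3 : ‖e θ ^ M - 1‖ ≤ 2 := by
    refine (norm_sub_le _ _).trans ?_
    rw [norm_pow, norm_e, one_pow, norm_one]
    norm_num
  have h4 : ‖e θ - 1‖ = ‖1 - e θ‖ := norm_sub_rev _ _
  rw [h4, div_le_div_iff₀ (by linarith) (by linarith)]
  nlinarith

/-- the number of the `l` with `u l` close to `0` modulo `q` -/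
lemma cnt (q : ℕ) (hq : 0 < q) (u : ℤ) (hu : IsCoprime (q : ℤ) u) (N : ℕ) (δ : ℝ) (hδ : 0 ≤ δ) :
    (#((range N).filter (fun l : ℕ => (((u * l) % q : ℤ) : ℝ) < δ * q ∨
      (q : ℝ) - δ * q < (((u * l) % q : ℤ) : ℝ))) : ℝ) ≤ ((N : ℝ) / q + 1) * (2 * δ * q + 2) := by
  classical
  obtain ⟨T, hT⟩ : ∃ T, T = ⌈δ * q⌉₊ := ⟨_, rfl⟩
  have hT1 : (T : ℝ) ≤ δ * q + 1 := by
    rw [hT]
    exact (Nat.ceil_lt_add_one (by positivity)).le
  have hqz : (0 : ℤ) < q := by exact_mod_cast hq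
  have hcard : #((range N).filter (fun l : ℕ => (((u * l) % q : ℤ) : ℝ) < δ * q ∨
      (q : ℝ) - δ * q < (((u * l) % q : ℤ) : ℝ))) ≤
      #(range (N / q + 1) ×ˢ (range T ∪ (range T).image (fun s => q - s))) := by
    apply card_le_card_of_injOn (fun l : ℕ => (l / q, ((u * l) % q).toNat))
    · intro l hl
      rw [mem_coe, mem_filter, mem_range] at hl
      rw [mem_coe, mem_product, mem_range]
      refine ⟨Nat.lt_succ_of_le (Nat.div_le_div_right hl.1.le), ?_⟩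
      have h0 : 0 ≤ (u * l) % (q : ℤ) := Int.emod_nonneg _ hqz.ne'
      have h1 : (u * l) % (q : ℤ) < q := Int.emod_lt_of_pos _ hqz
      obtain ⟨r, hr⟩ := Int.eq_ofNat_of_zero_le h0
      rw [hr] at h1 hl
      show ((u * l) % (q : ℤ)).toNat ∈ _
      rw [hr, Int.toNat_natCast]
      have hl2 := hl.2
      push_cast at hl2
      have h1' : r < q := by exact_mod_cast h1
      rw [mem_union]
      rcases hl2 with h | h
      · left
        rw [mem_range, hT]
        exact Nat.lt_ceil.2 h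
      · right
        rw [mem_image]
        refine ⟨q - r, ?_, by omega⟩
        rw [mem_range, hT]
        apply Nat.lt_ceil.2
        rw [Nat.cast_sub h1'.le]
        linarith
    · intro l hl l' hl' heq
      simp only [Prod.mk.injEq] at heq
      obtain ⟨g1, g2⟩ := heq
      have h0 : 0 ≤ (u * l) % (q : ℤ) := Int.emod_nonneg _ hqz.ne'
      have h0' : 0 ≤ (u * l') % (q : ℤ) := Int.emod_nonneg _ hqz.ne'
      have g3 : (u * l) % (q : ℤ) = (u * l') % (q : ℤ) := by omega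
      have g4 : (q : ℤ) ∣ u * (l - l') := by
        rw [mul_sub]
        exact Int.ModEq.dvd (Int.ModEq.symm g3)
      have g5 : (q : ℤ) ∣ (l : ℤ) - l' := hu.dvd_of_dvd_mul_left g4
      have g6 : l % q = l' % q := by
        have : (l' : ℤ) ≡ l [ZMOD q] := (Int.modEq_iff_dvd).2 g5
        have h7 := (Int.natCast_modEq_iff.1 this)
        exact h7.symm
      calc l = q * (l / q) + l % q := (Nat.div_add_mod l q).symm
        _ = q * (l' / q) + l' % q := by rw [g1, g6]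
        _ = l' := Nat.div_add_mod l' q
  have hW : #(range T ∪ (range T).image (fun s => q - s)) ≤ 2 * T := by
    refine (card_union_le _ _).trans ?_
    have := card_image_le (s := range T) (f := fun s => q - s)
    rw [card_range] at this ⊢
    omega
  rw [card_product, card_range] at hcard
  have hNq : ((N / q : ℕ) : ℝ) ≤ (N : ℝ) / q := Nat.cast_div_le
  calc (#((range N).filter (fun l : ℕ => (((u * l) % q : ℤ) : ℝ) < δ * q ∨
      (q : ℝ) - δ * q < (((u * l) % q : ℤ) : ℝ))) : ℝ)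
      ≤ (((N / q + 1) * #(range T ∪ (range T).image (fun s => q - s)) : ℕ) : ℝ) := by
        exact_mod_cast hcard
    _ ≤ (((N / q + 1) * (2 * T) : ℕ) : ℝ) := by
        exact_mod_cast Nat.mul_le_mul_left _ hW
    _ = (((N / q : ℕ) : ℝ) + 1) * (2 * T) := by push_cast; ring
    _ ≤ ((N : ℝ) / q + 1) * (2 * δ * q + 2) := by
        apply mul_le_mul (by linarith) (by linarith) (by positivity) (by positivity)

/-- the exponential sum -/
lemma sumb (a b : ℤ) (J N x1 : ℕ) (hJ : 0 < J) (h : ℤ) (δ : ℝ)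
    (hδ : 0 < δ) (q D : ℕ) (hD : D = Int.gcd (2 * a * h) J) (hq : J = D * q) :
    ‖∑ m ∈ range N, e (((h * (a * ((x1 + 1 + m : ℕ) : ℤ) ^ 2 + b * ((x1 + 1 + m : ℕ) : ℤ)) : ℤ) : ℝ) / J)‖ ^ 2 ≤
      2 * (((N : ℝ) / q + 1) * (2 * δ * q + 2) * N + N * (1 / (2 * δ))) := by
  have hq0 : 0 < q := by
    rcases Nat.eq_zero_or_pos q with h0 | h0
    · rw [h0, mul_zero] at hq
      omega
    · exact h0
  have hD0 : 0 < D := by
    rcases Nat.eq_zero_or_pos D with h0 | h0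
    · rw [h0, zero_mul] at hq
      omega
    · exact h0
  obtain ⟨u, hu⟩ : ∃ u : ℤ, 2 * a * h = D * u := by
    have := Int.gcd_dvd_left (2 * a * h) (J : ℤ)
    rw [← hD] at this
    exact this
  have hcop : IsCoprime (q : ℤ) u := by
    have hg : Int.gcd ((D : ℤ) * u) ((D : ℤ) * q) = D := by
      rw [← hu]
      have : ((D : ℤ) * q) = (J : ℤ) := by exact_mod_cast hq.symm
      rw [this, ← hD]
    rw [Int.gcd_mul_left, Int.natAbs_natCast] at hg
    have h1 : Int.gcd u q = 1 := by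
      have : D * Int.gcd u q = D * 1 := by rw [mul_one]; exact hg
      exact Nat.eq_of_mul_eq_mul_left hD0 this
    exact (Int.isCoprime_iff_gcd_eq_one.2 h1).symm
  refine (vdc _ (fun m => norm_e _) N).trans ?_
  apply mul_le_mul_of_nonneg_left _ (by norm_num)
  have hin : ∀ l ∈ range N, ‖∑ m ∈ range (N - l),
      e (((h * (a * ((x1 + 1 + (m + l) : ℕ) : ℤ) ^ 2 + b * ((x1 + 1 + (m + l) : ℕ) : ℤ)) : ℤ) : ℝ) / J) *
        (starRingEnd ℂ) (e (((h * (a * ((x1 + 1 + m : ℕ) : ℤ) ^ 2 + b * ((x1 + 1 + m : ℕ) : ℤ)) : ℤ) : ℝ) / J))‖ ≤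
      (if (((u * l) % q : ℤ) : ℝ) < δ * q ∨ (q : ℝ) - δ * q < (((u * l) % q : ℤ) : ℝ) then (N : ℝ) else 0) +
        1 / (2 * δ) := by
    intro l hl
    have e1 : ∀ m : ℕ, e (((h * (a * ((x1 + 1 + (m + l) : ℕ) : ℤ) ^ 2 + b * ((x1 + 1 + (m + l) : ℕ) : ℤ)) : ℤ) : ℝ) / J) *
        (starRingEnd ℂ) (e (((h * (a * ((x1 + 1 + m : ℕ) : ℤ) ^ 2 + b * ((x1 + 1 + m : ℕ) : ℤ)) : ℤ) : ℝ) / J)) =
        e (((h * (2 * a * l * (x1 + 1) + a * l ^ 2 + b * l) : ℤ) : ℝ) / J) *
          e ((((u * l) % q : ℤ) : ℝ) / q) ^ m := by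
      intro m
      have e2 : e ((((u * l) % q : ℤ) : ℝ) / q) = e (((2 * a * h * l : ℤ) : ℝ) / J) := by
        have e3 : (((u * l) % q : ℤ) : ℝ) / q = (((D : ℤ) * ((u * l) % q) : ℤ) : ℝ) / J := by
          rw [hq]
          push_cast
          rw [mul_div_mul_left _ _ (by positivity)]
        rw [e3]
        apply e_mod J hJ
        rw [hu, hq]
        push_cast
        have e4 : (D : ℤ) * (u * l % q) - D * u * l = D * q * (-((u * l) / q)) := by
          have := Int.emod_add_mul_ediv (u * l) q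
          linear_combination (D : ℤ) * this
        rw [e4]
        exact dvd_mul_right _ _
      rw [e2, ← e_neg, ← e_add, ← e_mul, ← e_add]
      congr 1
      push_cast
      ring
    rw [sum_congr rfl fun m _ => e1 m, ← mul_sum, norm_mul, norm_e, one_mul]
    split_ifs with hc
    · have h1 : ‖∑ m ∈ range (N - l), e ((((u * l) % q : ℤ) : ℝ) / q) ^ m‖ ≤ N := by
        refine (norm_sum_le _ _).trans ?_
        rw [sum_congr rfl fun m _ => by rw [norm_pow, norm_e, one_pow]]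
        rw [sum_const, card_range, nsmul_eq_mul, mul_one]
        exact_mod_cast Nat.sub_le _ _
      have : 0 < 1 / (2 * δ) := by positivity
      linarith
    · rw [zero_add]
      push Not at hc
      have hq0' : (0 : ℝ) < q := by exact_mod_cast hq0
      apply geo _ _ hδ
      · rw [le_div_iff₀ hq0']
        exact hc.1
      · rw [div_le_iff₀ hq0']
        linarith [hc.2]
  refine (sum_le_sum hin).trans ?_
  rw [sum_add_distrib, sum_const, card_range, nsmul_eq_mul, ← sum_filter, sum_const, nsmul_eq_mul]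
  have := cnt q hq0 u hcop N δ hδ.le
  have hN : (0 : ℝ) ≤ N := Nat.cast_nonneg N
  have := mul_le_mul_of_nonneg_right this hN
  linarith

/-- the exponential sum is small -/
lemma Tb (a b : ℤ) (ha : 0 < a) (x x1 C J H : ℕ) (hx : 1 ≤ x)
    (hbig : 2 * (7 + (a : ℝ)) ≤ (x : ℝ) ^ (7 / 100 : ℝ))
    (hC : (x : ℝ) ^ (4 / 5 : ℝ) ≤ C) (hJ1 : 1 ≤ J) (hJ : (J : ℝ) ≤ (x : ℝ) ^ (1 + 1 / 100 : ℝ))
    (hH : 6 * C * H ≤ J) (hH1 : 1 ≤ H) (h : ℤ) (h0 : h ≠ 0) (hh : |h| ≤ H) :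
    ‖∑ n ∈ Ioc x1 x, e (((h * (a * (n : ℤ) ^ 2 + b * n) : ℤ) : ℝ) / J)‖ ≤ C * x / J := by
  have hx0 : (0 : ℝ) < x := by exact_mod_cast hx
  have hx1 : (1 : ℝ) ≤ x := by exact_mod_cast hx
  have hJ0 : (0 : ℝ) < J := by exact_mod_cast hJ1
  have hC0 : (0 : ℝ) < C := lt_of_lt_of_le (Real.rpow_pos_of_pos hx0 _) hC
  have ha0 : (0 : ℝ) < a := by exact_mod_cast ha
  have e1 : ∑ n ∈ Ioc x1 x, e (((h * (a * (n : ℤ) ^ 2 + b * n) : ℤ) : ℝ) / J) =
      ∑ m ∈ range (x - x1),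
        e (((h * (a * ((x1 + 1 + m : ℕ) : ℤ) ^ 2 + b * ((x1 + 1 + m : ℕ) : ℤ)) : ℤ) : ℝ) / J) := by
    have h1 : Ioc x1 x = Ico (x1 + 1) (x + 1) := by
      ext n
      rw [mem_Ioc, mem_Ico]
      omega
    rw [h1, sum_Ico_eq_sum_range]
    have h2 : x + 1 - (x1 + 1) = x - x1 := by omega
    rw [h2]
  rw [e1]
  obtain ⟨N, hN⟩ : ∃ N, N = x - x1 := ⟨_, rfl⟩
  rw [← hN]
  have hNx : (N : ℝ) ≤ x := by
    have : N ≤ x := by omega
    exact_mod_cast this
  obtain ⟨D, hD⟩ : ∃ D, D = Int.gcd (2 * a * h) J := ⟨_, rfl⟩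
  obtain ⟨q, hq⟩ : ∃ q, J = D * q := by
    have := Int.gcd_dvd_right (2 * a * h) (J : ℤ)
    rw [← hD] at this
    exact Int.natCast_dvd_natCast.1 this
  have hq0 : 0 < q := by
    rcases Nat.eq_zero_or_pos q with h0 | h0
    · rw [h0, mul_zero] at hq
      omega
    · exact h0
  have hD0 : 0 < D := by
    rcases Nat.eq_zero_or_pos D with h0 | h0
    · rw [h0, zero_mul] at hq
      omega
    · exact h0
  have hq0' : (0 : ℝ) < q := by exact_mod_cast hq0
  have hD0' : (0 : ℝ) < D := by exact_mod_cast hD0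
  have hJq : (J : ℝ) = D * q := by exact_mod_cast hq
  have hDle : (D : ℝ) ≤ 2 * a * H := by
    have h1 : (D : ℤ) ∣ 2 * a * h := by
      rw [hD]
      exact Int.gcd_dvd_left (2 * a * h) (J : ℤ)
    have h2 : (D : ℤ) ≤ |2 * a * h| := Int.le_of_dvd (by positivity) ((dvd_abs _ _).2 h1)
    have h3 : |2 * a * h| = 2 * a * |h| := by
      rw [abs_mul, abs_of_pos (by positivity : (0 : ℤ) < 2 * a)]
    have h4 : (D : ℤ) ≤ 2 * a * H := by
      rw [h3] at h2
      exact h2.trans (mul_le_mul_of_nonneg_left hh (by positivity))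
    exact_mod_cast h4
  have hqC : 3 * (C : ℝ) ≤ a * q := by
    have h1 : (6 * C * H : ℝ) ≤ J := by exact_mod_cast hH
    have hH0 : (0 : ℝ) < H := by exact_mod_cast hH1
    have h2 : (J : ℝ) ≤ 2 * a * H * q := by
      rw [hJq]
      exact mul_le_mul_of_nonneg_right hDle hq0'.le
    have h3 : (3 * (C : ℝ)) * (2 * H) ≤ a * q * (2 * H) := by linarith
    exact le_of_mul_le_mul_right h3 (by positivity)
  have hqJ : (q : ℝ) ≤ J := by
    rw [hJq]
    have : (1 : ℝ) ≤ D := by exact_mod_cast hD0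
    nlinarith
  obtain ⟨δ, hδ⟩ : ∃ δ, δ = (x : ℝ) ^ (-(1 / 2) : ℝ) := ⟨_, rfl⟩
  have hδ0 : 0 < δ := by rw [hδ]; exact Real.rpow_pos_of_pos hx0 _
  have hs := sumb a b J N x1 hJ1 h δ hδ0 q D hD hq
  obtain ⟨y, hy⟩ : ∃ y, y = (x : ℝ) ^ (51 / 100 : ℝ) := ⟨_, rfl⟩
  have hy0 : 0 < y := by rw [hy]; exact Real.rpow_pos_of_pos hx0 _
  have hy1 : 1 ≤ y := by rw [hy]; exact Real.one_le_rpow hx1 (by norm_num)
  have hmono : ∀ s t : ℝ, s ≤ t → (x : ℝ) ^ s ≤ (x : ℝ) ^ t := fun s t hst =>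
    Real.rpow_le_rpow_of_exponent_le hx1 hst
  have hhalf : (x : ℝ) ^ (1 / 2 : ℝ) ≤ y := by rw [hy]; exact hmono _ _ (by norm_num)
  have b1 : δ * N ≤ y := by
    calc δ * N ≤ δ * x := mul_le_mul_of_nonneg_left hNx hδ0.le
      _ = (x : ℝ) ^ (1 / 2 : ℝ) := by
        rw [hδ]
        nth_rewrite 2 [← Real.rpow_one (x : ℝ)]
        rw [← Real.rpow_add hx0]
        norm_num
      _ ≤ y := hhalf
  have b2 : (N : ℝ) / q ≤ a / 3 * y := by
    rw [div_le_iff₀ hq0']
    have h1 : (x : ℝ) ≤ (x : ℝ) ^ (4 / 5 : ℝ) * y := by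
      rw [hy, ← Real.rpow_add hx0]
      nth_rewrite 1 [← Real.rpow_one (x : ℝ)]
      exact hmono _ _ (by norm_num)
    calc (N : ℝ) ≤ x := hNx
      _ ≤ (x : ℝ) ^ (4 / 5 : ℝ) * y := h1
      _ ≤ C * y := mul_le_mul_of_nonneg_right hC hy0.le
      _ = 1 / 3 * (3 * C) * y := by ring
      _ ≤ 1 / 3 * (a * q) * y := by
        apply mul_le_mul_of_nonneg_right _ hy0.le
        linarith
      _ = a / 3 * y * q := by ring
  have b3 : δ * q ≤ y := by
    calc δ * q ≤ δ * (x : ℝ) ^ (1 + 1 / 100 : ℝ) :=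
          mul_le_mul_of_nonneg_left (hqJ.trans hJ) hδ0.le
      _ = y := by
        rw [hδ, hy, ← Real.rpow_add hx0]
        norm_num
  have b4 : 1 / (2 * δ) ≤ y := by
    have h1 : 1 / δ = (x : ℝ) ^ (1 / 2 : ℝ) := by
      rw [hδ, Real.rpow_neg hx0.le, one_div, inv_inv]
    have h2 : 1 / (2 * δ) = 1 / 2 * (1 / δ) := by field_simp
    have h3 : 0 ≤ (x : ℝ) ^ (1 / 2 : ℝ) := Real.rpow_nonneg hx0.le _
    rw [h2, h1]
    linarith
  have hN0 : (0 : ℝ) ≤ N := Nat.cast_nonneg N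
  have b5 : ((N : ℝ) / q + 1) * (2 * δ * q + 2) ≤ (6 + a) * y := by
    have e2 : ((N : ℝ) / q + 1) * (2 * δ * q + 2) = 2 * (δ * N) + 2 * (N / q) + 2 * (δ * q) + 2 := by
      field_simp
      ring
    rw [e2]
    nlinarith
  have hs2 : ‖∑ m ∈ range N,
      e (((h * (a * ((x1 + 1 + m : ℕ) : ℤ) ^ 2 + b * ((x1 + 1 + m : ℕ) : ℤ)) : ℤ) : ℝ) / J)‖ ^ 2 ≤
      ((x : ℝ) ^ (79 / 100 : ℝ)) ^ 2 := by
    refine hs.trans ?_
    calc 2 * (((N : ℝ) / q + 1) * (2 * δ * q + 2) * N + N * (1 / (2 * δ)))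
        ≤ 2 * ((6 + a) * y * N + N * y) := by
          apply mul_le_mul_of_nonneg_left _ (by norm_num)
          apply add_le_add
          · exact mul_le_mul_of_nonneg_right b5 hN0
          · exact mul_le_mul_of_nonneg_left b4 hN0
      _ = 2 * (7 + a) * y * N := by ring
      _ ≤ 2 * (7 + a) * y * x := mul_le_mul_of_nonneg_left hNx (by positivity)
      _ ≤ (x : ℝ) ^ (7 / 100 : ℝ) * y * x := by
          apply mul_le_mul_of_nonneg_right _ hx0.le
          exact mul_le_mul_of_nonneg_right hbig hy0.le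
      _ = ((x : ℝ) ^ (79 / 100 : ℝ)) ^ 2 := by
          rw [hy, ← Real.rpow_natCast, ← Real.rpow_mul hx0.le, ← Real.rpow_add hx0]
          nth_rewrite 2 [← Real.rpow_one (x : ℝ)]
          rw [← Real.rpow_add hx0]
          norm_num
  have hs3 := (pow_le_pow_iff_left₀ (norm_nonneg _) (Real.rpow_nonneg hx0.le _) two_ne_zero).1 hs2
  refine hs3.trans ?_
  rw [le_div_iff₀ hJ0]
  calc (x : ℝ) ^ (79 / 100 : ℝ) * J ≤ (x : ℝ) ^ (79 / 100 : ℝ) * (x : ℝ) ^ (1 + 1 / 100 : ℝ) :=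
        mul_le_mul_of_nonneg_left hJ (Real.rpow_nonneg hx0.le _)
    _ = (x : ℝ) ^ (4 / 5 : ℝ) * x := by
        rw [← Real.rpow_add hx0]
        nth_rewrite 3 [← Real.rpow_one (x : ℝ)]
        rw [← Real.rpow_add hx0]
        norm_num
    _ ≤ C * x := mul_le_mul_of_nonneg_right hC hx0.le

/-- the count of the `c` for one `n` -/
lemma one_n (C J F : ℕ) (hJ : 0 < J) :
    #((Icc 1 C).filter (fun c => J ∣ F + c)) ≤ C / J + 1 := by
  rw [← card_range (C / J + 1)]
  apply card_le_card_of_injOn (fun c => c / J)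
  · intro c hc
    rw [mem_coe, mem_filter, mem_Icc] at hc
    rw [mem_coe, mem_range]
    exact Nat.lt_succ_of_le (Nat.div_le_div_right hc.1.2)
  · intro c hc c' hc' heq
    rw [mem_coe, mem_filter] at hc hc'
    have h1 : F + c ≡ F + c' [MOD J] :=
      ((Nat.modEq_zero_iff_dvd).2 hc.2).trans ((Nat.modEq_zero_iff_dvd).2 hc'.2).symm
    have h2 : c % J = c' % J := Nat.ModEq.add_left_cancel' F h1
    have h3 : c / J = c' / J := heq
    calc c = J * (c / J) + c % J := (Nat.div_add_mod c J).symm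
      _ = J * (c' / J) + c' % J := by rw [h2, h3]
      _ = c' := Nat.div_add_mod c' J

/-- the kernel -/
lemma ker (C J H F : ℕ) (f : ℤ) (hf : (F : ℤ) = f) (hJ : 0 < J) (hCJ : C < J) (hH : 6 * C * H ≤ J)
    (hH1 : 1 ≤ H) :
    (#((Icc 1 C).filter (fun c => J ∣ F + c)) : ℝ) ≤
      4 / (H : ℝ) ^ 2 * ‖∑ h ∈ range H, e (((-(h : ℤ) * f : ℤ) : ℝ) / J)‖ ^ 2 := by
  have hH0 : (0 : ℝ) < H := by exact_mod_cast hH1
  have hJ0 : (0 : ℝ) < J := by exact_mod_cast hJ
  rcases ((Icc 1 C).filter (fun c => J ∣ F + c)).eq_empty_or_nonempty with h0 | ⟨c, hc⟩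
  · rw [h0, card_empty, Nat.cast_zero]
    positivity
  · rw [mem_filter, mem_Icc] at hc
    have h1 : (#((Icc 1 C).filter (fun c => J ∣ F + c)) : ℝ) ≤ 1 := by
      have := one_n C J F hJ
      rw [Nat.div_eq_of_lt hCJ] at this
      exact_mod_cast this
    have h2 : (H : ℝ) / 2 ≤ ‖∑ h ∈ range H, e (((-(h : ℤ) * f : ℤ) : ℝ) / J)‖ := by
      refine le_trans ?_ (Complex.re_le_norm _)
      rw [Complex.re_sum]
      have h3 : ∀ h ∈ range H, (1 / 2 : ℝ) ≤ (e (((-(h : ℤ) * f : ℤ) : ℝ) / J)).re := by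
        intro h hh
        rw [mem_range] at hh
        have e1 : e (((-(h : ℤ) * f : ℤ) : ℝ) / J) = e ((((h : ℤ) * (c : ℤ) : ℤ) : ℝ) / J) := by
          apply e_mod J hJ
          have h4 : (J : ℤ) ∣ f + c := by
            rw [← hf]
            exact_mod_cast hc.2
          have e2 : -(h : ℤ) * f - (h : ℤ) * c = (f + c) * (-(h : ℤ)) := by ring
          rw [e2]
          exact h4.mul_right _
        rw [e1, e_re]
        have h5 : ((((h : ℤ) * (c : ℤ) : ℤ) : ℝ) / J) ≤ 1 / 6 := by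
          rw [div_le_iff₀ hJ0]
          push_cast
          have h6 : (6 * C * H : ℝ) ≤ J := by exact_mod_cast hH
          have h7 : (h : ℝ) ≤ H := by exact_mod_cast hh.le
          have h8 : (c : ℝ) ≤ C := by exact_mod_cast hc.1.2
          have h9 : (h : ℝ) * c ≤ H * C := mul_le_mul h7 h8 (by positivity) (by positivity)
          linarith
        have h6 : 0 ≤ ((((h : ℤ) * (c : ℤ) : ℤ) : ℝ) / J) := by
          push_cast
          positivity
        rw [← Real.cos_pi_div_three]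
        apply Real.cos_le_cos_of_nonneg_of_le_pi
        · have := Real.pi_pos
          positivity
        · linarith [Real.pi_pos]
        · nlinarith [Real.pi_pos]
      have h4 := sum_le_sum h3
      rw [sum_const, card_range, nsmul_eq_mul] at h4
      linarith
    have h3 : ((H : ℝ) / 2) ^ 2 ≤ ‖∑ h ∈ range H, e (((-(h : ℤ) * f : ℤ) : ℝ) / J)‖ ^ 2 :=
      pow_le_pow_left₀ (by positivity) h2 2
    refine h1.trans ?_
    calc (1 : ℝ) = 4 / (H : ℝ) ^ 2 * ((H : ℝ) / 2) ^ 2 := by field_simp; norm_num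
      _ ≤ _ := mul_le_mul_of_nonneg_left h3 (by positivity)

/-- the double sum -/
lemma dbl (I : Finset ℕ) (H J : ℕ) (f : ℕ → ℤ) (E : ℝ) (hE0 : 0 ≤ E)
    (hE : ∀ h : ℤ, h ≠ 0 → |h| ≤ H → ‖∑ n ∈ I, e (((h * f n : ℤ) : ℝ) / J)‖ ≤ E) :
    ∑ n ∈ I, ‖∑ h ∈ range H, e (((-(h : ℤ) * f n : ℤ) : ℝ) / J)‖ ^ 2 ≤ H * #I + H ^ 2 * E := by
  have h1 : ∀ n : ℕ, ((‖∑ h ∈ range H, e (((-(h : ℤ) * f n : ℤ) : ℝ) / J)‖ ^ 2 : ℝ) : ℂ) =
      ∑ h ∈ range H, ∑ h' ∈ range H, e (((((h' : ℤ) - h) * f n : ℤ) : ℝ) / J) := by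
    intro n
    rw [← Complex.normSq_eq_norm_sq, ← Complex.mul_conj, map_sum, sum_mul_sum]
    refine sum_congr rfl fun h _ => sum_congr rfl fun h' _ => ?_
    rw [← e_neg, ← e_add]
    congr 1
    push_cast
    ring
  have h2 : ((∑ n ∈ I, ‖∑ h ∈ range H, e (((-(h : ℤ) * f n : ℤ) : ℝ) / J)‖ ^ 2 : ℝ) : ℂ) =
      ∑ h ∈ range H, ∑ h' ∈ range H, ∑ n ∈ I, e (((((h' : ℤ) - h) * f n : ℤ) : ℝ) / J) := by
    rw [Complex.ofReal_sum, sum_congr rfl fun n _ => h1 n, sum_comm]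
    refine sum_congr rfl fun h _ => ?_
    rw [sum_comm]
  have h3 : (0 : ℝ) ≤ ∑ n ∈ I, ‖∑ h ∈ range H, e (((-(h : ℤ) * f n : ℤ) : ℝ) / J)‖ ^ 2 :=
    sum_nonneg fun n _ => sq_nonneg _
  have h4 : ∑ n ∈ I, ‖∑ h ∈ range H, e (((-(h : ℤ) * f n : ℤ) : ℝ) / J)‖ ^ 2 =
      ‖∑ h ∈ range H, ∑ h' ∈ range H, ∑ n ∈ I, e (((((h' : ℤ) - h) * f n : ℤ) : ℝ) / J)‖ := by
    rw [← h2, Complex.norm_real, Real.norm_of_nonneg h3]
  rw [h4]
  have h5 : ∀ h ∈ range H, ∀ h' ∈ range H, ‖∑ n ∈ I, e (((((h' : ℤ) - h) * f n : ℤ) : ℝ) / J)‖ ≤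
      (if h' = h then (#I : ℝ) else 0) + E := by
    intro h hh h' hh'
    rw [mem_range] at hh hh'
    split_ifs with hc
    · subst hc
      have : ‖∑ n ∈ I, e (((((h' : ℤ) - h') * f n : ℤ) : ℝ) / J)‖ ≤ #I := by
        refine (norm_sum_le _ _).trans ?_
        rw [sum_congr rfl fun m _ => norm_e _]
        rw [sum_const, nsmul_eq_mul, mul_one]
      linarith
    · rw [zero_add]
      apply hE
      · omega
      · rw [abs_le]
        omega
  calc ‖∑ h ∈ range H, ∑ h' ∈ range H, ∑ n ∈ I, e (((((h' : ℤ) - h) * f n : ℤ) : ℝ) / J)‖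
      ≤ ∑ h ∈ range H, ‖∑ h' ∈ range H, ∑ n ∈ I, e (((((h' : ℤ) - h) * f n : ℤ) : ℝ) / J)‖ :=
        norm_sum_le _ _
    _ ≤ ∑ h ∈ range H, ∑ h' ∈ range H, ‖∑ n ∈ I, e (((((h' : ℤ) - h) * f n : ℤ) : ℝ) / J)‖ :=
        sum_le_sum fun h _ => norm_sum_le _ _
    _ ≤ ∑ h ∈ range H, ∑ h' ∈ range H, ((if h' = h then (#I : ℝ) else 0) + E) :=
        sum_le_sum fun h hh => sum_le_sum fun h' hh' => h5 h hh h' hh'
    _ = ∑ h ∈ range H, ((#I : ℝ) + H * E) := by
        refine sum_congr rfl fun h hh => ?_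
        rw [sum_add_distrib, sum_ite_eq' (range H) h, if_pos hh, sum_const, card_range, nsmul_eq_mul]
    _ = H * #I + H ^ 2 * E := by
        rw [sum_const, card_range, nsmul_eq_mul]
        ring

end CLx

open CLx in
/-- **CL.** -/
theorem cl (a : ℤ) (ha : 0 < a) (b : ℤ) : CL a b := by
  classical
  refine ⟨52, by norm_num, ?_⟩
  intro R
  obtain ⟨x0, hx0⟩ : ∃ x0 : ℕ, ∀ x : ℕ, x0 ≤ x → 2 * (7 + (a : ℝ)) ≤ (x : ℝ) ^ (7 / 100 : ℝ) := by
    have h1 : Tendsto (fun x : ℕ => (x : ℝ) ^ (7 / 100 : ℝ)) atTop atTop :=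
      (tendsto_rpow_atTop (by norm_num)).comp tendsto_natCast_atTop_atTop
    exact eventually_atTop.1 (h1.eventually_ge_atTop (2 * (7 + (a : ℝ))))
  refine ⟨max x0 (R * b.natAbs + 1), ?_⟩
  intro x hx x1 C J hx1 hxR hC hCx hJ1 hJ
  have hxb : R * b.natAbs + 1 ≤ x := (le_max_right _ _).trans hx
  have hx1' : 1 ≤ x := by omega
  have hxpos : (0 : ℝ) < x := by exact_mod_cast hx1'
  have hJ0 : (0 : ℝ) < J := by exact_mod_cast hJ1
  have hC0 : (0 : ℝ) < C := lt_of_lt_of_le (Real.rpow_pos_of_pos hxpos _) hC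
  have hC0' : 0 < C := by exact_mod_cast hC0
  have hbx : b.natAbs ≤ x1 := by
    by_contra hcon
    push Not at hcon
    have := Nat.mul_le_mul_left R hcon.le
    omega
  have hF : ∀ n ∈ Ioc x1 x, ((Fn a b n : ℕ) : ℤ) = a * (n : ℤ) ^ 2 + b * n := by
    intro n hn
    rw [mem_Ioc] at hn
    have h1 : 0 ≤ a * (n : ℤ) ^ 2 + b * n := by
      have h2 : |b| ≤ n := by
        rw [Int.abs_eq_natAbs]
        exact_mod_cast hbx.trans hn.1.le
      have h3 := (abs_le.1 h2).1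
      have h4 : (0 : ℤ) ≤ n := Int.natCast_nonneg n
      have h5 : (n : ℤ) ≤ a * n := le_mul_of_one_le_left h4 (by omega)
      have h6 : 0 ≤ (n : ℤ) * (a * n + b) := mul_nonneg h4 (by linarith)
      linarith [h6]
    have h7 : Pool.Agent.N792.fv a b 0 n = a * (n : ℤ) ^ 2 + b * n := by
      unfold Pool.Agent.N792.fv
      ring
    unfold Fn
    rw [h7]
    exact Int.toNat_of_nonneg h1
  have hswap : ∑ c ∈ Icc 1 C, (#((Ioc x1 x).filter (fun n => J ∣ Fn a b n + c)) : ℝ) =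
      ∑ n ∈ Ioc x1 x, (#((Icc 1 C).filter (fun c => J ∣ Fn a b n + c)) : ℝ) := by
    simp only [card_filter, Nat.cast_sum]
    exact sum_comm
  have hcard : (#(Ioc x1 x) : ℝ) ≤ x := by
    rw [Nat.card_Ioc]
    exact_mod_cast Nat.sub_le _ _
  have hgoal : ∑ n ∈ Ioc x1 x, (#((Icc 1 C).filter (fun c => J ∣ Fn a b n + c)) : ℝ) ≤
      52 * (C * x / J) := by
    rcases le_or_gt J (6 * C) with hcase | hcase
    · have h1 : ∀ n ∈ Ioc x1 x, (#((Icc 1 C).filter (fun c => J ∣ Fn a b n + c)) : ℝ) ≤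
          7 * (C / J) := by
        intro n _
        have h2 := one_n C J (Fn a b n) hJ1
        have h3 : ((C / J : ℕ) : ℝ) ≤ (C : ℝ) / J := Nat.cast_div_le
        have h4 : (1 : ℝ) ≤ 6 * (C / J) := by
          rw [← mul_div_assoc, le_div_iff₀ hJ0, one_mul]
          exact_mod_cast hcase
        have h5 : (#((Icc 1 C).filter (fun c => J ∣ Fn a b n + c)) : ℝ) ≤ ((C / J : ℕ) : ℝ) + 1 := by
          exact_mod_cast h2
        linarith
      refine (sum_le_sum h1).trans ?_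
      rw [sum_const, nsmul_eq_mul]
      have h6 : (0 : ℝ) ≤ C / J := by positivity
      calc (#(Ioc x1 x) : ℝ) * (7 * (C / J)) ≤ x * (7 * (C / J)) :=
            mul_le_mul_of_nonneg_right hcard (by positivity)
        _ = 7 * (C * x / J) := by ring
        _ ≤ 52 * (C * x / J) := by
            apply mul_le_mul_of_nonneg_right (by norm_num) (by positivity)
    · obtain ⟨H, hHe⟩ : ∃ H, H = J / (6 * C) := ⟨_, rfl⟩
      have hH1 : 1 ≤ H := by
        rw [hHe]
        exact (Nat.one_le_div_iff (by omega)).2 hcase.le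
      have hH : 6 * C * H ≤ J := by
        rw [hHe]
        exact Nat.mul_div_le J (6 * C)
      have hH2 : J ≤ 12 * C * H := by
        have h1 : J < 6 * C * (H + 1) := by
          rw [hHe]
          exact Nat.lt_mul_div_succ J (by omega)
        nlinarith
      have hH0 : (0 : ℝ) < H := by exact_mod_cast hH1
      have hE := dbl (Ioc x1 x) H J (fun n => a * (n : ℤ) ^ 2 + b * n) (C * x / J) (by positivity)
        (fun h h0 hh => Tb a b ha x x1 C J H hx1' (hx0 x ((le_max_left _ _).trans hx)) hC hJ1 hJ hH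
          hH1 h h0 hh)
      calc ∑ n ∈ Ioc x1 x, (#((Icc 1 C).filter (fun c => J ∣ Fn a b n + c)) : ℝ)
          ≤ ∑ n ∈ Ioc x1 x, 4 / (H : ℝ) ^ 2 *
              ‖∑ h ∈ range H, e (((-(h : ℤ) * (a * (n : ℤ) ^ 2 + b * n) : ℤ) : ℝ) / J)‖ ^ 2 :=
            sum_le_sum fun n hn => ker C J H (Fn a b n) _ (hF n hn) hJ1 (by omega) hH hH1
        _ = 4 / (H : ℝ) ^ 2 * ∑ n ∈ Ioc x1 x,
              ‖∑ h ∈ range H, e (((-(h : ℤ) * (a * (n : ℤ) ^ 2 + b * n) : ℤ) : ℝ) / J)‖ ^ 2 := by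
            rw [mul_sum]
        _ ≤ 4 / (H : ℝ) ^ 2 * (H * #(Ioc x1 x) + H ^ 2 * (C * x / J)) :=
            mul_le_mul_of_nonneg_left hE (by positivity)
        _ ≤ 4 / (H : ℝ) ^ 2 * (H * x + H ^ 2 * (C * x / J)) := by
            apply mul_le_mul_of_nonneg_left _ (by positivity)
            have := mul_le_mul_of_nonneg_left hcard hH0.le
            linarith
        _ = 4 * x / H + 4 * (C * x / J) := by
            field_simp
        _ ≤ 48 * (C * x / J) + 4 * (C * x / J) := by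
            have h1 : (J : ℝ) ≤ 12 * C * H := by exact_mod_cast hH2
            have h2 : 4 * (x : ℝ) / H ≤ 48 * (C * x / J) := by
              rw [← mul_div_assoc, div_le_div_iff₀ hH0 hJ0]
              nlinarith
            linarith
        _ = 52 * (C * x / J) := by ring
  calc ∑ c ∈ Icc 1 C, (#((Ioc x1 x).filter (fun n => J ∣ Fn a b n + c)) : ℝ)
      = ∑ n ∈ Ioc x1 x, (#((Icc 1 C).filter (fun c => J ∣ Fn a b n + c)) : ℝ) := hswap
    _ ≤ 52 * (C * x / J) := hgoal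

end Pool.Agent.N792.CH
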