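import Pool.Agent.N792.CH.StmU
import Pool.Agent.N792.CH.CL

/-!
`CLU`: the number of the values divisible by `J`, on average over `c ≤ C`, uniformly in `b` (helper434, after
`CL.lean` by helper222).
-/

set_option autoImplicit false
set_option linter.unusedVariables false

namespace Pool.Agent.N792.CH

open Finset Filter Topology
open Pool.Agent.N792 (Fn)

open CLx in
/-- **CLU.** -/
theorem clU (a : ℤ) (ha : 0 < a) (Λ : ℝ) (hΛ : 1 ≤ Λ) : CLU a Λ := by
  classical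
  refine ⟨52, by norm_num, ?_⟩
  intro R
  obtain ⟨x0, hx0⟩ : ∃ x0 : ℕ, ∀ x : ℕ, x0 ≤ x → 2 * (7 + (a : ℝ)) ≤ (x : ℝ) ^ (7 / 100 : ℝ) := by
    have h1 : Tendsto (fun x : ℕ => (x : ℝ) ^ (7 / 100 : ℝ)) atTop atTop :=
      (tendsto_rpow_atTop (by norm_num)).comp tendsto_natCast_atTop_atTop
    exact eventually_atTop.1 (h1.eventually_ge_atTop (2 * (7 + (a : ℝ))))
  refine ⟨max x0 (⌈(R : ℝ) ^ 2 * Λ⌉₊ + 1), ?_⟩
  intro x hx b hb x1 C J hx1 hxR hC hCx hJ1 hJ
  have hxb : R * b.natAbs + 1 ≤ x := by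
    have h1 : (R : ℝ) ^ 2 * Λ < x := by
      have h2 : ⌈(R : ℝ) ^ 2 * Λ⌉₊ + 1 ≤ x := (le_max_right _ _).trans hx
      have h3 : ((⌈(R : ℝ) ^ 2 * Λ⌉₊ : ℕ) : ℝ) + 1 ≤ x := by exact_mod_cast h2
      linarith [Nat.le_ceil ((R : ℝ) ^ 2 * Λ)]
    by_contra hcon
    have h4 : x ≤ R * b.natAbs := by omega
    have h5 : (x : ℝ) ≤ R * |(b : ℝ)| := by
      have h6 : ((b.natAbs : ℕ) : ℝ) = |(b : ℝ)| := by
        rw [Nat.cast_natAbs, Int.cast_abs]
      rw [← h6]
      exact_mod_cast h4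
    have h7 : (0 : ℝ) < x := by
      have : 1 ≤ x := le_trans (by omega) ((le_max_right _ _).trans hx)
      exact_mod_cast this
    have h8 : (x : ℝ) ^ 2 ≤ (R : ℝ) ^ 2 * (b : ℝ) ^ 2 := by
      calc (x : ℝ) ^ 2 ≤ (R * |(b : ℝ)|) ^ 2 := pow_le_pow_left₀ h7.le h5 2
        _ = (R : ℝ) ^ 2 * (b : ℝ) ^ 2 := by rw [mul_pow, sq_abs]
    have h9 : (R : ℝ) ^ 2 * (b : ℝ) ^ 2 ≤ (R : ℝ) ^ 2 * (Λ * x) :=
      mul_le_mul_of_nonneg_left hb (by positivity)
    nlinarith
  have hx1' : 1 ≤ x := by omega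
  have hxpos : (0 : ℝ) < x := by exact_mod_cast hx1'
  have hJ0 : (0 : ℝ) < J := by exact_mod_cast hJ1
  have hC0 : (0 : ℝ) < C := lt_of_lt_of_le (Real.rpow_pos_of_pos hxpos _) hC
  have hC0' : 0 < C := by exact_mod_cast hC0
  have hbx : b.natAbs ≤ x1 := by
    by_contra hcon
    push Not at hcon
    have := Nat.mul_le_mul_left R hcon.le
    omega
  have hF : ∀ n ∈ Ioc x1 x, ((Fn a b n : ℕ) : ℤ) = a * (n : ℤ) ^ 2 + b * n := by
    intro n hn
    rw [mem_Ioc] at hn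
    have h1 : 0 ≤ a * (n : ℤ) ^ 2 + b * n := by
      have h2 : |b| ≤ n := by
        rw [Int.abs_eq_natAbs]
        exact_mod_cast hbx.trans hn.1.le
      have h3 := (abs_le.1 h2).1
      have h4 : (0 : ℤ) ≤ n := Int.natCast_nonneg n
      have h5 : (n : ℤ) ≤ a * n := le_mul_of_one_le_left h4 (by omega)
      have h6 : 0 ≤ (n : ℤ) * (a * n + b) := mul_nonneg h4 (by linarith)
      linarith [h6]
    have h7 : Pool.Agent.N792.fv a b 0 n = a * (n : ℤ) ^ 2 + b * n := by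
      unfold Pool.Agent.N792.fv
      ring
    unfold Fn
    rw [h7]
    exact Int.toNat_of_nonneg h1
  have hswap : ∑ c ∈ Icc 1 C, (#((Ioc x1 x).filter (fun n => J ∣ Fn a b n + c)) : ℝ) =
      ∑ n ∈ Ioc x1 x, (#((Icc 1 C).filter (fun c => J ∣ Fn a b n + c)) : ℝ) := by
    simp only [card_filter, Nat.cast_sum]
    exact sum_comm
  have hcard : (#(Ioc x1 x) : ℝ) ≤ x := by
    rw [Nat.card_Ioc]
    exact_mod_cast Nat.sub_le _ _
  have hgoal : ∑ n ∈ Ioc x1 x, (#((Icc 1 C).filter (fun c => J ∣ Fn a b n + c)) : ℝ) ≤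
      52 * (C * x / J) := by
    rcases le_or_gt J (6 * C) with hcase | hcase
    · have h1 : ∀ n ∈ Ioc x1 x, (#((Icc 1 C).filter (fun c => J ∣ Fn a b n + c)) : ℝ) ≤
          7 * (C / J) := by
        intro n _
        have h2 := one_n C J (Fn a b n) hJ1
        have h3 : ((C / J : ℕ) : ℝ) ≤ (C : ℝ) / J := Nat.cast_div_le
        have h4 : (1 : ℝ) ≤ 6 * (C / J) := by
          rw [← mul_div_assoc, le_div_iff₀ hJ0, one_mul]
          exact_mod_cast hcase
        have h5 : (#((Icc 1 C).filter (fun c => J ∣ Fn a b n + c)) : ℝ) ≤ ((C / J : ℕ) : ℝ) + 1 := by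
          exact_mod_cast h2
        linarith
      refine (sum_le_sum h1).trans ?_
      rw [sum_const, nsmul_eq_mul]
      have h6 : (0 : ℝ) ≤ C / J := by positivity
      calc (#(Ioc x1 x) : ℝ) * (7 * (C / J)) ≤ x * (7 * (C / J)) :=
            mul_le_mul_of_nonneg_right hcard (by positivity)
        _ = 7 * (C * x / J) := by ring
        _ ≤ 52 * (C * x / J) := by
            apply mul_le_mul_of_nonneg_right (by norm_num) (by positivity)
    · obtain ⟨H, hHe⟩ : ∃ H, H = J / (6 * C) := ⟨_, rfl⟩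
      have hH1 : 1 ≤ H := by
        rw [hHe]
        exact (Nat.one_le_div_iff (by omega)).2 hcase.le
      have hH : 6 * C * H ≤ J := by
        rw [hHe]
        exact Nat.mul_div_le J (6 * C)
      have hH2 : J ≤ 12 * C * H := by
        have h1 : J < 6 * C * (H + 1) := by
          rw [hHe]
          exact Nat.lt_mul_div_succ J (by omega)
        nlinarith
      have hH0 : (0 : ℝ) < H := by exact_mod_cast hH1
      have hE := dbl (Ioc x1 x) H J (fun n => a * (n : ℤ) ^ 2 + b * n) (C * x / J) (by positivity)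
        (fun h h0 hh => Tb a b ha x x1 C J H hx1' (hx0 x ((le_max_left _ _).trans hx)) hC hJ1 hJ hH
          hH1 h h0 hh)
      calc ∑ n ∈ Ioc x1 x, (#((Icc 1 C).filter (fun c => J ∣ Fn a b n + c)) : ℝ)
          ≤ ∑ n ∈ Ioc x1 x, 4 / (H : ℝ) ^ 2 *
              ‖∑ h ∈ range H, e (((-(h : ℤ) * (a * (n : ℤ) ^ 2 + b * n) : ℤ) : ℝ) / J)‖ ^ 2 :=
            sum_le_sum fun n hn => ker C J H (Fn a b n) _ (hF n hn) hJ1 (by omega) hH hH1
        _ = 4 / (H : ℝ) ^ 2 * ∑ n ∈ Ioc x1 x,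
              ‖∑ h ∈ range H, e (((-(h : ℤ) * (a * (n : ℤ) ^ 2 + b * n) : ℤ) : ℝ) / J)‖ ^ 2 := by
            rw [mul_sum]
        _ ≤ 4 / (H : ℝ) ^ 2 * (H * #(Ioc x1 x) + H ^ 2 * (C * x / J)) :=
            mul_le_mul_of_nonneg_left hE (by positivity)
        _ ≤ 4 / (H : ℝ) ^ 2 * (H * x + H ^ 2 * (C * x / J)) := by
            apply mul_le_mul_of_nonneg_left _ (by positivity)
            have := mul_le_mul_of_nonneg_left hcard hH0.le
            linarith
        _ = 4 * x / H + 4 * (C * x / J) := by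
            field_simp
        _ ≤ 48 * (C * x / J) + 4 * (C * x / J) := by
            have h1 : (J : ℝ) ≤ 12 * C * H := by exact_mod_cast hH2
            have h2 : 4 * (x : ℝ) / H ≤ 48 * (C * x / J) := by
              rw [← mul_div_assoc, div_le_div_iff₀ hH0 hJ0]
              nlinarith
            linarith
        _ = 52 * (C * x / J) := by ring
  calc ∑ c ∈ Icc 1 C, (#((Ioc x1 x).filter (fun n => J ∣ Fn a b n + c)) : ℝ)
      = ∑ n ∈ Ioc x1 x, (#((Icc 1 C).filter (fun c => J ∣ Fn a b n + c)) : ℝ) := hswap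
    _ ≤ 52 * (C * x / J) := hgoal

end Pool.Agent.N792.CH
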