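import Mathlib
import Pool.Agent.N792.CH.Stm

/-!
Assembly of the main estimate, part A (helper792).
-/

set_option autoImplicit false

namespace Pool.Agent.N792.CH

open Finset Filter Topology
open Pool.Agent.N792 (Fn rho Rough R2)
open Pool.Agent.N791.C2 (lam)

lemma lam_abs (n : ℕ) : |lam n| = 1 := by
  unfold lam
  rw [abs_pow, abs_neg, abs_one, one_pow]

lemma psi_abs (w k v : ℕ) : |psi w k v| ≤ 1 := by
  unfold psi
  split_ifs
  · rw [lam_abs]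
  · rw [abs_zero]; norm_num

lemma sg_abs (w z v : ℕ) : |sg w z v| = 1 := by
  unfold sg
  rw [abs_pow, abs_neg, abs_one, one_pow]

open Classical in
/-- the sum of the type I part for one `c` -/
lemma tI_sum (a b : ℤ) (x1 x c s w k z : ℕ) (D : ℝ) (ψ : ℕ → ℝ) (hψ : ∀ n ∈ Ioc x1 x, psi w k (Fn a b n + c) = ψ n) :
    |∑ n ∈ Ioc x1 x, tI w k s z D (Fn a b n + c)| ≤
      ∑ j ∈ (Icc 1 s).filter (fun j => Rough z j ∧ Squarefree j),
        (2 : ℝ) ^ #j.primeFactors * |∑ n ∈ (Ioc x1 x).filter (fun n => j ∣ Fn a b n + c ∧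
          ((rd w z (Fn a b n + c) : ℕ) : ℝ) ≤ D), ψ n * sg w z (Fn a b n + c)| := by
  have h1 : ∑ n ∈ Ioc x1 x, tI w k s z D (Fn a b n + c) =
      -∑ j ∈ (Icc 1 s).filter (fun j => Rough z j ∧ Squarefree j), (-2 : ℝ) ^ #j.primeFactors *
        ∑ n ∈ (Ioc x1 x).filter (fun n => j ∣ Fn a b n + c ∧
          ((rd w z (Fn a b n + c) : ℕ) : ℝ) ≤ D), ψ n * sg w z (Fn a b n + c) := by
    unfold tI
    rw [sum_neg_distrib]
    congr 1
    have h2 : ∀ n ∈ Ioc x1 x, ∑ j ∈ (Icc 1 s).filter (fun j => Rough z j ∧ Squarefree j ∧ j ∣ Fn a b n + c),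
        (-2 : ℝ) ^ #j.primeFactors * (if ((rd w z (Fn a b n + c) : ℕ) : ℝ) ≤ D then
          psi w k (Fn a b n + c) * sg w z (Fn a b n + c) else 0) =
        ∑ j ∈ (Icc 1 s).filter (fun j => Rough z j ∧ Squarefree j), (-2 : ℝ) ^ #j.primeFactors *
          (if j ∣ Fn a b n + c ∧ ((rd w z (Fn a b n + c) : ℕ) : ℝ) ≤ D then ψ n * sg w z (Fn a b n + c) else 0) := by
      intro n hn
      have h3 : (Icc 1 s).filter (fun j => Rough z j ∧ Squarefree j ∧ j ∣ Fn a b n + c) =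
          ((Icc 1 s).filter (fun j => Rough z j ∧ Squarefree j)).filter (fun j => j ∣ Fn a b n + c) := by
        ext j
        simp only [mem_filter]
        tauto
      rw [h3, sum_filter (fun j => j ∣ Fn a b n + c)]
      refine sum_congr rfl fun j _ => ?_
      rw [hψ n hn]
      by_cases h4 : j ∣ Fn a b n + c
      · by_cases h5 : ((rd w z (Fn a b n + c) : ℕ) : ℝ) ≤ D
        · rw [if_pos h4, if_pos h5, if_pos ⟨h4, h5⟩]
        · rw [if_pos h4, if_neg h5, if_neg (fun h => h5 h.2)]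
      · rw [if_neg h4, if_neg (fun h => h4 h.1), mul_zero]
    rw [sum_congr rfl h2, sum_comm]
    refine sum_congr rfl fun j _ => ?_
    rw [← mul_sum, sum_filter]
  rw [h1, abs_neg]
  refine (abs_sum_le_sum_abs _ _).trans (sum_le_sum fun j _ => ?_)
  rw [abs_mul, abs_pow, abs_neg, abs_two]

open Classical in
/-- the assembly for one `x` -/
lemma asm (a b : ℤ) (x1 x C s w k z : ℕ) (D κ κ' ε W τ τ' : ℝ) (Ex : Finset ℕ) (ψ : ℕ → ℕ → ℝ)
    (hEx : Ex ⊆ Icc 1 C) (hExc : (#Ex : ℝ) ≤ τ * C)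
    (hψ : ∀ c ∈ Icc 1 C, ∀ n ∈ Ioc x1 x, psi w k (Fn a b n + c) = ψ c n)
    (hI : ∑ c ∈ Icc 1 C \ Ex, ∑ j ∈ (Icc 1 s).filter (fun j => Rough z j ∧ Squarefree j),
      (2 : ℝ) ^ #j.primeFactors * |∑ n ∈ (Ioc x1 x).filter (fun n => j ∣ Fn a b n + c ∧
        ((rd w z (Fn a b n + c) : ℕ) : ℝ) ≤ D), ψ c n * sg w z (Fn a b n + c)| ≤ τ * (C * x))
    (hII : ∑ c ∈ Icc 1 C, |∑ n ∈ Ioc x1 x, tII κ (Real.log s / Real.log x) (1 - ε) x z (Fn a b n + c)| ≤ τ * (C * x))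
    (hW : 0 ≤ W)
    (hbad : W * ∑ c ∈ Icc 1 C, (#((Ioc x1 x).filter (fun n => ¬ Good w k s z x κ' ε D (Fn a b n + c))) : ℝ) ≤ τ' * (C * x))
    (hgood : ∀ c ∈ Icc 1 C, ∀ n ∈ Ioc x1 x, Good w k s z x κ' ε D (Fn a b n + c) →
      lam (Fn a b n + c) = tI w k s z D (Fn a b n + c) + tII κ (Real.log s / Real.log x) (1 - ε) x z (Fn a b n + c))
    (hall : ∀ c ∈ Icc 1 C, ∀ n ∈ Ioc x1 x, |lam (Fn a b n + c) - (tI w k s z D (Fn a b n + c) +
      tII κ (Real.log s / Real.log x) (1 - ε) x z (Fn a b n + c))| ≤ W) :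
    ∑ c ∈ Icc 1 C, |∑ n ∈ Ioc x1 x, lam (Fn a b n + c)| ≤ (3 * τ + τ') * (C * x) := by
  have hsplit : ∑ c ∈ Icc 1 C, |∑ n ∈ Ioc x1 x, lam (Fn a b n + c)| =
      ∑ c ∈ Icc 1 C \ Ex, |∑ n ∈ Ioc x1 x, lam (Fn a b n + c)| +
      ∑ c ∈ Ex, |∑ n ∈ Ioc x1 x, lam (Fn a b n + c)| := (sum_sdiff hEx).symm
  have h1 : ∑ c ∈ Ex, |∑ n ∈ Ioc x1 x, lam (Fn a b n + c)| ≤ τ * (C * x) := by
    have h2 : ∀ c ∈ Ex, |∑ n ∈ Ioc x1 x, lam (Fn a b n + c)| ≤ (x : ℝ) := by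
      intro c _
      refine (abs_sum_le_sum_abs _ _).trans ?_
      rw [sum_congr rfl (fun n _ => lam_abs _), sum_const, nsmul_eq_mul, mul_one, Nat.card_Ioc]
      exact_mod_cast Nat.sub_le _ _
    refine (sum_le_sum h2).trans ?_
    rw [sum_const, nsmul_eq_mul]
    calc (#Ex : ℝ) * x ≤ (τ * C) * x := mul_le_mul_of_nonneg_right hExc (Nat.cast_nonneg _)
      _ = τ * (C * x) := by ring
  have h3 : ∀ c ∈ Icc 1 C, |∑ n ∈ Ioc x1 x, lam (Fn a b n + c)| ≤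
      |∑ n ∈ Ioc x1 x, tI w k s z D (Fn a b n + c)| +
      |∑ n ∈ Ioc x1 x, tII κ (Real.log s / Real.log x) (1 - ε) x z (Fn a b n + c)| +
      W * (#((Ioc x1 x).filter (fun n => ¬ Good w k s z x κ' ε D (Fn a b n + c))) : ℝ) := by
    intro c hc
    have h4 : ∑ n ∈ Ioc x1 x, lam (Fn a b n + c) = ∑ n ∈ Ioc x1 x, tI w k s z D (Fn a b n + c) +
        ∑ n ∈ Ioc x1 x, tII κ (Real.log s / Real.log x) (1 - ε) x z (Fn a b n + c) +
        ∑ n ∈ Ioc x1 x, (lam (Fn a b n + c) - (tI w k s z D (Fn a b n + c) +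
          tII κ (Real.log s / Real.log x) (1 - ε) x z (Fn a b n + c))) := by
      rw [← sum_add_distrib, ← sum_add_distrib]
      exact sum_congr rfl fun n _ => by ring
    have h5 : |∑ n ∈ Ioc x1 x, (lam (Fn a b n + c) - (tI w k s z D (Fn a b n + c) +
          tII κ (Real.log s / Real.log x) (1 - ε) x z (Fn a b n + c)))| ≤
        W * (#((Ioc x1 x).filter (fun n => ¬ Good w k s z x κ' ε D (Fn a b n + c))) : ℝ) := by
      refine (abs_sum_le_sum_abs _ _).trans ?_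
      have h6 : ∀ n ∈ Ioc x1 x, |lam (Fn a b n + c) - (tI w k s z D (Fn a b n + c) +
          tII κ (Real.log s / Real.log x) (1 - ε) x z (Fn a b n + c))| ≤
          if ¬ Good w k s z x κ' ε D (Fn a b n + c) then W else 0 := by
        intro n hn
        by_cases hg : Good w k s z x κ' ε D (Fn a b n + c)
        · rw [if_neg (not_not_intro hg), ← hgood c hc n hn hg, sub_self, abs_zero]
        · rw [if_pos hg]; exact hall c hc n hn
      refine (sum_le_sum h6).trans ?_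
      rw [← sum_filter, sum_const, nsmul_eq_mul, mul_comm]
    rw [h4]
    refine (abs_add_le _ _).trans ?_
    have := abs_add_le (∑ n ∈ Ioc x1 x, tI w k s z D (Fn a b n + c))
      (∑ n ∈ Ioc x1 x, tII κ (Real.log s / Real.log x) (1 - ε) x z (Fn a b n + c))
    linarith
  have hI' : ∑ c ∈ Icc 1 C \ Ex, |∑ n ∈ Ioc x1 x, tI w k s z D (Fn a b n + c)| ≤ τ * (C * x) := by
    refine le_trans (sum_le_sum fun c hc => ?_) hI
    exact tI_sum a b x1 x c s w k z D (ψ c) (fun n hn => hψ c (mem_sdiff.1 hc).1 n hn)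
  have h7 : ∑ c ∈ Icc 1 C \ Ex, |∑ n ∈ Ioc x1 x, lam (Fn a b n + c)| ≤ τ * (C * x) + τ * (C * x) + τ' * (C * x) := by
    have hsub : Icc 1 C \ Ex ⊆ Icc 1 C := sdiff_subset
    refine (sum_le_sum fun c hc => h3 c (hsub hc)).trans ?_
    rw [sum_add_distrib, sum_add_distrib]
    have e2 : ∑ c ∈ Icc 1 C \ Ex, |∑ n ∈ Ioc x1 x, tII κ (Real.log s / Real.log x) (1 - ε) x z (Fn a b n + c)| ≤
        τ * (C * x) := (sum_le_sum_of_subset_of_nonneg hsub (fun _ _ _ => abs_nonneg _)).trans hII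
    have e3 : ∑ c ∈ Icc 1 C \ Ex, W * (#((Ioc x1 x).filter (fun n => ¬ Good w k s z x κ' ε D (Fn a b n + c))) : ℝ) ≤
        τ' * (C * x) := by
      refine (sum_le_sum_of_subset_of_nonneg hsub (fun _ _ _ => by positivity)).trans ?_
      rw [← mul_sum]; exact hbad
    linarith
  rw [hsplit]
  linarith

open Classical in
/-- the number of the bad values -/
lemma bad_le (a b : ℤ) (x1 x C s w k z : ℕ) (D κ' ε β1 β2 β3 β4 β5 : ℝ) (hw : 1 ≤ w)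
    (h1 : ∀ n ∈ Ioc x1 x, (#((Icc 1 C).filter (fun c => D < (rd 1 z (Fn a b n + c) : ℕ))) : ℝ) ≤ β1 * C)
    (h2 : ∑ c ∈ Icc 1 C, (#((Ioc x1 x).filter (fun n => ∃ p : ℕ, p.Prime ∧ w < p ∧ p ^ 2 ∣ Fn a b n + c)) : ℝ) ≤ β2 * (C * x))
    (h3 : ∀ n ∈ Ioc x1 x, (#((Icc 1 C).filter (fun c => ∃ p : ℕ, p.Prime ∧ p ≤ w ∧ p ^ k ∣ Fn a b n + c)) : ℝ) ≤ β3 * C)
    (h4 : ∑ c ∈ Icc 1 C, (#((Ioc x1 x).filter (fun n => ∃ j : ℕ, Rough z j ∧ Squarefree j ∧ (s : ℝ) < j ∧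
      (j : ℝ) ≤ s * (x : ℝ) ^ κ' ∧ j ∣ Fn a b n + c)) : ℝ) ≤ β4 * (C * x))
    (h5 : ∑ c ∈ Icc 1 C, (#((Ioc x1 x).filter (fun n => ∃ j : ℕ, Rough z j ∧ Squarefree j ∧ (x : ℝ) ^ (1 - ε) < j ∧
      (j : ℝ) ≤ (x : ℝ) ^ (1 + ε) ∧ j ∣ Fn a b n + c)) : ℝ) ≤ β5 * (C * x))
    (hβ1 : 0 ≤ β1) (hβ3 : 0 ≤ β3)
    (hpos : ∀ c ∈ Icc 1 C, ∀ n ∈ Ioc x1 x, Fn a b n + c ≠ 0) :
    ∑ c ∈ Icc 1 C, (#((Ioc x1 x).filter (fun n => ¬ Good w k s z x κ' ε D (Fn a b n + c))) : ℝ) ≤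
      (β1 + β2 + β3 + β4 + β5) * (C * x) := by
  -- monotonicity of `rd`
  have hrd : ∀ v : ℕ, v ≠ 0 → rd w z v ≤ rd 1 z v := by
    intro v hv
    unfold rd
    apply Nat.le_of_dvd
    · apply prod_pos
      intro p hp
      exact (Nat.prime_of_mem_primeFactors (mem_filter.1 hp).1).pos
    · apply prod_dvd_prod_of_subset
      intro p hp
      rw [mem_filter] at hp ⊢
      exact ⟨hp.1, by omega, hp.2.2⟩
  have hswap : ∀ (P : ℕ → ℕ → Prop) (β : ℝ), 0 ≤ β →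
      (∀ n ∈ Ioc x1 x, (#((Icc 1 C).filter (fun c => P c n)) : ℝ) ≤ β * C) →
      ∑ c ∈ Icc 1 C, (#((Ioc x1 x).filter (fun n => P c n)) : ℝ) ≤ β * (C * x) := by
    intro P β hβ hP
    have e1 : ∑ c ∈ Icc 1 C, (#((Ioc x1 x).filter (fun n => P c n)) : ℝ) =
        ∑ n ∈ Ioc x1 x, (#((Icc 1 C).filter (fun c => P c n)) : ℝ) := by
      have e2 : ∀ c, (#((Ioc x1 x).filter (fun n => P c n)) : ℝ) = ∑ n ∈ Ioc x1 x, if P c n then (1 : ℝ) else 0 := by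
        intro c
        rw [card_filter]; push_cast; rfl
      have e3 : ∀ n, (#((Icc 1 C).filter (fun c => P c n)) : ℝ) = ∑ c ∈ Icc 1 C, if P c n then (1 : ℝ) else 0 := by
        intro c
        rw [card_filter]; push_cast; rfl
      rw [sum_congr rfl (fun c _ => e2 c), sum_congr rfl (fun n _ => e3 n), sum_comm]
    rw [e1]
    refine (sum_le_sum hP).trans ?_
    rw [sum_const, nsmul_eq_mul, Nat.card_Ioc]
    have e4 : (((x - x1 : ℕ)) : ℝ) ≤ x := by exact_mod_cast Nat.sub_le _ _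
    calc (((x - x1 : ℕ)) : ℝ) * (β * C) ≤ x * (β * C) := mul_le_mul_of_nonneg_right e4 (by positivity)
      _ = β * (C * x) := by ring
  have b1 := hswap (fun c n => D < (rd 1 z (Fn a b n + c) : ℕ)) β1 hβ1 h1
  have b3 := hswap (fun c n => ∃ p : ℕ, p.Prime ∧ p ≤ w ∧ p ^ k ∣ Fn a b n + c) β3 hβ3 h3
  have hpt : ∀ c ∈ Icc 1 C, (#((Ioc x1 x).filter (fun n => ¬ Good w k s z x κ' ε D (Fn a b n + c))) : ℝ) ≤
      (#((Ioc x1 x).filter (fun n => D < (rd 1 z (Fn a b n + c) : ℕ))) : ℝ) +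
      (#((Ioc x1 x).filter (fun n => ∃ p : ℕ, p.Prime ∧ w < p ∧ p ^ 2 ∣ Fn a b n + c)) : ℝ) +
      (#((Ioc x1 x).filter (fun n => ∃ p : ℕ, p.Prime ∧ p ≤ w ∧ p ^ k ∣ Fn a b n + c)) : ℝ) +
      (#((Ioc x1 x).filter (fun n => ∃ j : ℕ, Rough z j ∧ Squarefree j ∧ (s : ℝ) < j ∧
        (j : ℝ) ≤ s * (x : ℝ) ^ κ' ∧ j ∣ Fn a b n + c)) : ℝ) +
      (#((Ioc x1 x).filter (fun n => ∃ j : ℕ, Rough z j ∧ Squarefree j ∧ (x : ℝ) ^ (1 - ε) < j ∧
        (j : ℝ) ≤ (x : ℝ) ^ (1 + ε) ∧ j ∣ Fn a b n + c)) : ℝ) := by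
    intro c hc
    have hsub : (Ioc x1 x).filter (fun n => ¬ Good w k s z x κ' ε D (Fn a b n + c)) ⊆
        ((((Ioc x1 x).filter (fun n => D < (rd 1 z (Fn a b n + c) : ℕ)) ∪
        (Ioc x1 x).filter (fun n => ∃ p : ℕ, p.Prime ∧ w < p ∧ p ^ 2 ∣ Fn a b n + c)) ∪
        (Ioc x1 x).filter (fun n => ∃ p : ℕ, p.Prime ∧ p ≤ w ∧ p ^ k ∣ Fn a b n + c)) ∪
        (Ioc x1 x).filter (fun n => ∃ j : ℕ, Rough z j ∧ Squarefree j ∧ (s : ℝ) < j ∧
          (j : ℝ) ≤ s * (x : ℝ) ^ κ' ∧ j ∣ Fn a b n + c)) ∪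
        (Ioc x1 x).filter (fun n => ∃ j : ℕ, Rough z j ∧ Squarefree j ∧ (x : ℝ) ^ (1 - ε) < j ∧
          (j : ℝ) ≤ (x : ℝ) ^ (1 + ε) ∧ j ∣ Fn a b n + c) := by
      intro n hn
      rw [mem_filter] at hn
      obtain ⟨hn1, hn2⟩ := hn
      by_contra hcon
      simp only [mem_union, mem_filter, not_or, not_and] at hcon
      obtain ⟨⟨⟨⟨c1, c2⟩, c3⟩, c4⟩, c5⟩ := hcon
      apply hn2
      refine ⟨?_, ?_, ?_, ?_, ?_⟩
      · have := hrd _ (hpos c hc n hn1)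
        have h8 : ((rd w z (Fn a b n + c) : ℕ) : ℝ) ≤ ((rd 1 z (Fn a b n + c) : ℕ) : ℝ) := by exact_mod_cast this
        exact h8.trans (not_lt.1 (c1 hn1))
      · intro p hp hwp hd
        exact c2 hn1 ⟨p, hp, hwp, hd⟩
      · intro p hp hwp hd
        exact c3 hn1 ⟨p, hp, hwp, hd⟩
      · intro j hj1 hj2 hj3 hj4
        exact c4 hn1 ⟨j, hj1, hj2, hj4.1, hj4.2, hj3⟩
      · intro j hj1 hj2 hj3 hj4
        exact c5 hn1 ⟨j, hj1, hj2, hj4.1, hj4.2, hj3⟩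
    have := (card_le_card hsub).trans ((card_union_le _ _).trans (Nat.add_le_add_right ((card_union_le _ _).trans
      (Nat.add_le_add_right ((card_union_le _ _).trans (Nat.add_le_add_right (card_union_le _ _) _)) _)) _))
    exact_mod_cast this
  refine (sum_le_sum hpt).trans ?_
  rw [sum_add_distrib, sum_add_distrib, sum_add_distrib, sum_add_distrib]
  have : (β1 + β2 + β3 + β4 + β5) * ((C : ℝ) * x) = β1 * (C * x) + β2 * (C * x) + β3 * (C * x) + β4 * (C * x) + β5 * (C * x) := by ring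
  rw [this]
  linarith

end Pool.Agent.N792.CH
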