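import Mathlib
import Pool.Agent.N792.CH.MvA
import Pool.Agent.N792.LamB
import Pool.Agent.N791.C2.Prog

/-!
From the main estimate to arguments in residue classes (helper792; `class_sum`, `fv_class`, `div_close` by helper791).
-/

set_option autoImplicit false

namespace Pool.Agent.N792.CH

open Finset Filter Topology
open Pool.Agent.N792 (Fn rho Rough R2 fv)
open Pool.Agent.N791.C2 (lam class_sum fv_class div_close)

/-- the function of Liouville on the integers -/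
noncomputable def lamZ (m : ℤ) : ℝ := if m = 0 then 0 else lam m.natAbs

lemma lamZ_abs (m : ℤ) : |lamZ m| ≤ 1 := by
  unfold lamZ
  split_ifs
  · rw [abs_zero]; norm_num
  · rw [lam_abs]

lemma lamZ_sum_abs (s : Finset ℕ) (g : ℕ → ℤ) : |∑ n ∈ s, lamZ (g n)| ≤ #s := by
  refine (abs_sum_le_sum_abs _ _).trans ?_
  refine (sum_le_sum fun n _ => lamZ_abs _).trans ?_
  rw [sum_const, nsmul_eq_mul, mul_one]

/-- arguments in a residue class -/
lemma cls (hMV : ∀ a : ℤ, 0 < a → ∀ b : ℤ, MV a b) (a : ℤ) (ha : 0 < a) (b : ℤ) (q r : ℕ) (hq : 1 ≤ q) (hr : r < q)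
    (ε τ : ℝ) (R : ℕ) (hε : 0 < ε) (hτ : 0 < τ) :
    ∃ x0 : ℕ, ∀ x : ℕ, x0 ≤ x → ∀ u v C : ℕ, x ≤ R * u → u ≤ v → v ≤ x → (x : ℝ) ^ (5 / 6 + ε) ≤ C → C ≤ x →
      ∑ c ∈ Icc 1 C, |∑ n ∈ (Ioc u v).filter (fun n => n ≡ r [MOD q]), lamZ (fv a b (c : ℕ) n)| ≤ τ * (C * x) := by
  obtain ⟨κ, hκ⟩ : ∃ κ : ℤ, κ = a * (r : ℤ) ^ 2 + b * r := ⟨_, rfl⟩
  obtain ⟨k, hk⟩ : ∃ k : ℕ, k = κ.natAbs := ⟨_, rfl⟩
  have hqz : (0 : ℤ) < q := by exact_mod_cast hq
  obtain ⟨a', ha'⟩ : ∃ a' : ℤ, a' = a * (q : ℤ) ^ 2 := ⟨_, rfl⟩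
  obtain ⟨b', hb'⟩ : ∃ b' : ℤ, b' = q * (2 * a * r + b) := ⟨_, rfl⟩
  have ha'0 : 0 < a' := by rw [ha']; positivity
  obtain ⟨n0, h0⟩ := hMV a' ha'0 b' (ε / 2) (τ / 16) (4 * R * q + 1) (by linarith) (by linarith)
  have e1 := Lam.pow_ev ((2 : ℝ) ^ (5 / 6 + ε / 2)) (5 / 6 + ε / 2) (5 / 6 + ε) (by linarith)
  have e2 := Lam.pow_ev (2 * (k + 1) / τ) 0 (5 / 6 + ε) (by linarith)
  have e3 := Lam.pow_ev (k + 1) 0 (5 / 6 + ε) (by linarith)
  have e4 : ∀ᶠ x : ℕ in atTop, R * (4 * q * (b'.natAbs + 2) + 4 * q + 4 * k + 4 * b.natAbs + 4) + (k + 2) ≤ x :=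
    eventually_ge_atTop _
  obtain ⟨n1, h1⟩ := eventually_atTop.1 (((e1.and e2).and e3).and e4)
  refine ⟨n0 + n1 + 1, fun x hx u v C hu huv hvx hC hCx => ?_⟩
  obtain ⟨⟨⟨f1, f2⟩, f3⟩, f4⟩ := h1 x (by omega)
  rw [Real.rpow_zero, mul_one] at f2 f3
  have hx1 : (1 : ℝ) ≤ x := by exact_mod_cast (by omega : 1 ≤ x)
  have hxp : (0 : ℝ) < x := by linarith
  have hRpos : 1 ≤ R := by
    rcases Nat.eq_zero_or_pos R with h | h
    · rw [h] at hu; omega
    · exact h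
  obtain ⟨X, hX⟩ : ∃ X : ℕ, X = x + k + 1 := ⟨_, rfl⟩
  have hkx : k + 1 ≤ x := by omega
  have hX2 : (X : ℝ) ≤ 2 * x := by
    have : (k : ℝ) + 1 ≤ x := by exact_mod_cast hkx
    rw [hX]; push_cast; linarith
  have hXn : (0 : ℝ) ≤ X := Nat.cast_nonneg _
  have hCk : (k : ℝ) ≤ C := by linarith
  have hCp : (0 : ℝ) < C := lt_of_lt_of_le (by positivity) hC
  have w2 : (X : ℝ) ^ (5 / 6 + ε / 2) ≤ ((C + k : ℕ) : ℝ) := by
    calc (X : ℝ) ^ (5 / 6 + ε / 2) ≤ (2 * x : ℝ) ^ (5 / 6 + ε / 2) := Real.rpow_le_rpow hXn hX2 (by linarith)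
      _ = (2 : ℝ) ^ (5 / 6 + ε / 2) * (x : ℝ) ^ (5 / 6 + ε / 2) := Real.mul_rpow (by norm_num) hxp.le
      _ ≤ (x : ℝ) ^ (5 / 6 + ε) := f1
      _ ≤ C := hC
      _ ≤ ((C + k : ℕ) : ℝ) := by push_cast; linarith [(Nat.cast_nonneg k : (0 : ℝ) ≤ k)]
  have w3 : C + k ≤ X := by rw [hX]; omega
  -- the range of `u`
  have hu4 : 4 * q * (b'.natAbs + 2) + 4 * q + 4 * k + 4 * b.natAbs + 4 ≤ u := by
    have h2 : R * (4 * q * (b'.natAbs + 2) + 4 * q + 4 * k + 4 * b.natAbs + 4) ≤ R * u :=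
      le_trans (by omega) (f4.trans hu)
    exact Nat.le_of_mul_le_mul_left h2 (by omega)
  have hru : r ≤ u := by
    have : q ≤ 4 * q := by omega
    omega
  obtain ⟨u', hu'⟩ : ∃ u' : ℕ, u' = (u - r) / q := ⟨_, rfl⟩
  obtain ⟨v', hv'⟩ : ∃ v' : ℕ, v' = (v - r) / q := ⟨_, rfl⟩
  have huv' : u' ≤ v' := by rw [hu', hv']; exact Nat.div_le_div_right (by omega)
  have hXu : X ≤ (4 * R * q + 1) * u' := by
    have h2 : u - r < q * (u' + 1) := by rw [hu']; exact Nat.lt_mul_div_succ (u - r) (by omega)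
    have h3 : u ≤ q * (u' + 2) := by
      have : q * (u' + 2) = q * (u' + 1) + q := by ring
      omega
    have h4 : 4 * q * (b'.natAbs + 2) ≤ u := by omega
    have h4' : 4 * q ≤ u := by omega
    have h5 : u ≤ 2 * (q * u') := by
      have h6 : q * (u' + 2) = q * u' + 2 * q := by ring
      omega
    have h7 : R * u ≤ R * (2 * (q * u')) := Nat.mul_le_mul_left _ h5
    have h8 : R * (2 * (q * u')) = 2 * R * q * u' := by ring
    have h9 : (4 * R * q + 1) * u' = 2 * (2 * R * q * u') + u' := by ring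
    rw [hX, h9]
    omega
  have hbu : b'.natAbs ≤ u' := by
    rw [hu', Nat.le_div_iff_mul_le (by omega)]
    have h2 : b'.natAbs * q ≤ 4 * q * (b'.natAbs + 2) := by
      rw [mul_comm]; exact Nat.mul_le_mul (by omega) (by omega)
    omega
  have hvX : v' < X := by
    have h1 : (v - r) / q ≤ v - r := Nat.div_le_self _ _
    rw [hv', hX]; omega
  have huX : u' < X := lt_of_le_of_lt huv' hvX
  have hXv : X ≤ (4 * R * q + 1) * v' := hXu.trans (Nat.mul_le_mul_left _ huv')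
  have k1 := h0 X (by omega) u' (C + k) huX hXu w2 w3
  have k2 := h0 X (by omega) v' (C + k) hvX hXv w2 w3
  -- the sums for one `c`
  have hκk : -(k : ℤ) ≤ κ ∧ κ ≤ k := by
    rw [hk, Int.natCast_natAbs]; exact ⟨neg_abs_le κ, le_abs_self κ⟩
  obtain ⟨T, hT⟩ : ∃ T : ℕ → ℝ, T = fun c' : ℕ => |∑ m ∈ Ioc u' X, lam (Fn a' b' m + c')| +
      |∑ m ∈ Ioc v' X, lam (Fn a' b' m + c')| := ⟨_, rfl⟩
  have hT0 : ∀ c', 0 ≤ T c' := fun c' => by rw [hT]; positivity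
  have hTsum : ∑ c' ∈ Icc 1 (C + k), T c' ≤ 2 * (τ / 16 * (((C + k : ℕ) : ℝ) * X)) := by
    rw [hT]
    simp only
    rw [sum_add_distrib]
    linarith
  have hone : ∀ c ∈ Icc 1 C, k < c →
      |∑ n ∈ (Ioc u v).filter (fun n => n ≡ r [MOD q]), lamZ (fv a b (c : ℕ) n)| ≤ T ((c : ℤ) + κ).toNat := by
    intro c hc hck
    obtain ⟨c', hc'⟩ : ∃ c' : ℕ, c' = ((c : ℤ) + κ).toNat := ⟨_, rfl⟩
    rw [← hc']
    have hck' : (k : ℤ) < c := by exact_mod_cast hck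
    have hcz : ((c' : ℕ) : ℤ) = c + κ := by rw [hc']; omega
    have hc'1 : 1 ≤ c' := by omega
    have e1 := class_sum (fun n => lamZ (fv a b (c : ℕ) n)) (show 0 < q by omega) hr hru huv
    rw [e1, ← hu', ← hv']
    have e2 : ∀ m ∈ Ioc u' v', lamZ (fv a b (c : ℕ) (q * m + r)) = lam (Fn a' b' m + c') := by
      intro m hm
      rw [mem_Ioc] at hm
      have e3 : fv a b c (q * m + r) = ((Fn a' b' m + c' : ℕ) : ℤ) := by
        rw [fv_class, ← hκ, ← hcz, ← ha', ← hb']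
        exact Pool.Agent.N792.Mtm.fv_eq ha'0 (hbu.trans hm.1.le)
      rw [e3]
      unfold lamZ
      rw [if_neg (by exact_mod_cast (by omega : Fn a' b' m + c' ≠ 0)), Int.natAbs_natCast]
    rw [sum_congr rfl e2]
    have e4 : ∑ m ∈ Ioc u' X, lam (Fn a' b' m + c') = ∑ m ∈ Ioc u' v', lam (Fn a' b' m + c') +
        ∑ m ∈ Ioc v' X, lam (Fn a' b' m + c') := (sum_Ioc_consecutive _ huv' hvX.le).symm
    have e5 : ∑ m ∈ Ioc u' v', lam (Fn a' b' m + c') = ∑ m ∈ Ioc u' X, lam (Fn a' b' m + c') -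
        ∑ m ∈ Ioc v' X, lam (Fn a' b' m + c') := by linarith
    rw [e5, hT]
    exact abs_sub _ _
  have hsmall : ∀ c : ℕ, |∑ n ∈ (Ioc u v).filter (fun n => n ≡ r [MOD q]), lamZ (fv a b (c : ℕ) n)| ≤ x := by
    intro c
    refine (lamZ_sum_abs _ _).trans ?_
    have : #((Ioc u v).filter (fun n => n ≡ r [MOD q])) ≤ x := by
      refine (card_filter_le _ _).trans ?_
      rw [Nat.card_Ioc]; omega
    exact_mod_cast this
  have hsplit : ∑ c ∈ Icc 1 C, |∑ n ∈ (Ioc u v).filter (fun n => n ≡ r [MOD q]), lamZ (fv a b (c : ℕ) n)| ≤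
      (k : ℝ) * x + ∑ c' ∈ Icc 1 (C + k), T c' := by
    rw [← sum_filter_add_sum_filter_not (Icc 1 C) (fun c => c ≤ k)]
    apply add_le_add
    · refine (sum_le_sum fun c _ => hsmall c).trans ?_
      rw [sum_const, nsmul_eq_mul]
      apply mul_le_mul_of_nonneg_right _ hxp.le
      have h2 : (Icc 1 C).filter (fun c => c ≤ k) ⊆ Icc 1 k := by
        intro c hc
        rw [mem_filter, mem_Icc] at hc
        rw [mem_Icc]; omega
      have := card_le_card h2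
      rw [Nat.card_Icc, Nat.add_sub_cancel] at this
      exact_mod_cast this
    · have h2 : ∑ c ∈ (Icc 1 C).filter (fun c => ¬ c ≤ k),
          |∑ n ∈ (Ioc u v).filter (fun n => n ≡ r [MOD q]), lamZ (fv a b (c : ℕ) n)| ≤
          ∑ c ∈ (Icc 1 C).filter (fun c => ¬ c ≤ k), T ((c : ℤ) + κ).toNat :=
        sum_le_sum fun c hc => hone c (mem_filter.1 hc).1 (not_le.1 (mem_filter.1 hc).2)
      refine h2.trans ?_
      rw [← sum_image (f := T) (g := fun c : ℕ => ((c : ℤ) + κ).toNat)]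
      · apply sum_le_sum_of_subset_of_nonneg
        · intro c' hc'
          rw [mem_image] at hc'
          obtain ⟨c, hc, rfl⟩ := hc'
          rw [mem_filter, mem_Icc] at hc
          rw [mem_Icc]
          constructor <;> omega
        · exact fun _ _ _ => hT0 _
      · intro c hc d hd hcd
        rw [mem_coe, mem_filter, mem_Icc] at hc hd
        simp only at hcd
        omega
  refine hsplit.trans ?_
  have h5 : (k : ℝ) * x ≤ τ / 2 * (C * x) := by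
    have h6 : 2 * (k + 1) / τ ≤ (C : ℝ) := f2.trans hC
    rw [div_le_iff₀ hτ] at h6
    have h7 : (k : ℝ) ≤ τ / 2 * C := by linarith
    calc (k : ℝ) * x ≤ (τ / 2 * C) * x := mul_le_mul_of_nonneg_right h7 hxp.le
      _ = τ / 2 * (C * x) := by ring
  have h6 : 2 * (τ / 16 * (((C + k : ℕ) : ℝ) * X)) ≤ τ / 2 * (C * x) := by
    have h7 : ((C + k : ℕ) : ℝ) ≤ 2 * C := by push_cast; linarith
    calc 2 * (τ / 16 * (((C + k : ℕ) : ℝ) * X)) ≤ 2 * (τ / 16 * ((2 * C) * (2 * x))) := by gcongr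
      _ = τ / 2 * (C * x) := by ring
  linarith

end Pool.Agent.N792.CH
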