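import Mathlib
import Pool.Agent.N792.CH.FinB

/-!
The function of Moebius (helper792).
-/

set_option autoImplicit false

namespace Pool.Agent.N792.CH

open Finset Filter Topology
open Pool.Agent.N792 (Fn rho Rough R2 fv)
open Pool.Agent.N791.C2 (lam)

/-- the function of Moebius on the integers -/
noncomputable def mobZ (m : ℤ) : ℝ := ((ArithmeticFunction.moebius m.natAbs : ℤ) : ℝ)

open Classical in
/-- the indicator of the integers without square factors `p²`, `p ≤ D` -/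
noncomputable def hsq (D : ℕ) (v : ℤ) : ℝ := if ∀ p : ℕ, p.Prime → p ≤ D → ¬ ((p : ℤ) ^ 2 ∣ v) then 1 else 0

lemma mobZ_abs (v : ℤ) : |mobZ v| ≤ 1 := by
  unfold mobZ
  have := @ArithmeticFunction.abs_moebius_le_one v.natAbs
  exact_mod_cast this

lemma hsq_range (D : ℕ) (v : ℤ) : 0 ≤ hsq D v ∧ hsq D v ≤ 1 := by
  unfold hsq
  split_ifs <;> norm_num

lemma mob_eq (D : ℕ) (v : ℤ) (h : ¬ ∃ p : ℕ, p.Prime ∧ D < p ∧ ((p : ℤ) ^ 2 ∣ v)) : mobZ v = lamZ v * hsq D v := by
  by_cases hv : v = 0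
  · rw [hv]; unfold mobZ lamZ; simp
  have hv' : v.natAbs ≠ 0 := Int.natAbs_ne_zero.2 hv
  unfold mobZ lamZ
  rw [if_neg hv]
  by_cases hs : Squarefree v.natAbs
  · have h1 : hsq D v = 1 := by
      unfold hsq
      rw [if_pos]
      intro p hp _ hd
      have h2 : p ^ 2 ∣ v.natAbs := by
        have := Int.natAbs_dvd_natAbs.2 hd
        rwa [Int.natAbs_pow, Int.natAbs_natCast] at this
      rw [pow_two] at h2
      exact hp.one_lt.ne' (Nat.isUnit_iff.1 (hs p h2))
    rw [h1, mul_one, ArithmeticFunction.moebius_apply_of_squarefree hs]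
    unfold lam
    push_cast
    rfl
  · rw [ArithmeticFunction.moebius_eq_zero_of_not_squarefree hs]
    have h1 : hsq D v = 0 := by
      unfold hsq
      rw [if_neg]
      intro hall
      apply hs
      rw [Nat.squarefree_iff_prime_squarefree]
      intro p hp hd
      have hdz : (p : ℤ) ^ 2 ∣ v := by
        rw [← Int.natAbs_dvd_natAbs, Int.natAbs_pow, Int.natAbs_natCast, pow_two]
        exact hd
      by_cases hpD : p ≤ D
      · exact hall p hp hpD hdz
      · exact h ⟨p, hp, not_le.1 hpD, hdz⟩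
    rw [h1, mul_zero]
    simp

lemma hsq_mod (D : ℕ) {M : ℕ} (hM : ∀ p : ℕ, p.Prime → p ≤ D → p ^ 2 ∣ M) (a b c : ℤ) (n n' : ℕ)
    (h : n ≡ n' [MOD M]) : hsq D (fv a b c n) = hsq D (fv a b c n') := by
  have key : ∀ p : ℕ, p.Prime → p ≤ D → (((p : ℤ) ^ 2 ∣ fv a b c n) ↔ ((p : ℤ) ^ 2 ∣ fv a b c n')) := by
    intro p hp hpD
    have h1 : n ≡ n' [MOD p ^ 2] := h.of_dvd (hM p hp hpD)
    have h2 : (n : ℤ) ≡ (n' : ℤ) [ZMOD ((p : ℤ) ^ 2)] := by
      have := Int.natCast_modEq_iff.2 h1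
      push_cast at this
      exact this
    have h3 : fv a b c n ≡ fv a b c n' [ZMOD ((p : ℤ) ^ 2)] := by
      unfold fv
      exact (((h2.pow 2).mul_left a).add (h2.mul_left b)).add_right c
    exact Int.ModEq.dvd_iff h3
  unfold hsq
  congr 1
  apply propext
  constructor
  · intro hh p hp hpD hd
    exact hh p hp hpD ((key p hp hpD).2 hd)
  · intro hh p hp hpD hd
    exact hh p hp hpD ((key p hp hpD).1 hd)

lemma mob_diff (D : ℕ) (v : ℤ) : |mobZ v - lamZ v * hsq D v| ≤ 1 := by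
  by_cases h : ∃ p : ℕ, p.Prime ∧ D < p ∧ ((p : ℤ) ^ 2 ∣ v)
  · obtain ⟨p, hp, _, hd⟩ := h
    have h0 : mobZ v = 0 := by
      unfold mobZ
      rw [ArithmeticFunction.moebius_eq_zero_of_not_squarefree]
      · simp
      · intro hs
        have h2 : p ^ 2 ∣ v.natAbs := by
          have := Int.natAbs_dvd_natAbs.2 hd
          rwa [Int.natAbs_pow, Int.natAbs_natCast] at this
        rw [pow_two] at h2
        exact hp.one_lt.ne' (Nat.isUnit_iff.1 (hs p h2))
    rw [h0, zero_sub, abs_neg, abs_mul, abs_of_nonneg (hsq_range D v).1]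
    calc |lamZ v| * hsq D v ≤ 1 * 1 := mul_le_mul (lamZ_abs v) (hsq_range D v).2 (hsq_range D v).1 (by norm_num)
      _ = 1 := one_mul _
  · rw [mob_eq D v h, sub_self, abs_zero]; norm_num

theorem finM (hMV : ∀ a : ℤ, 0 < a → ∀ b : ℤ, MV a b) (hBS : ∀ a : ℤ, 0 < a → ∀ b : ℤ, BS a b) (a : ℤ) (ha : 0 < a)
    (b : ℤ) (ε τ : ℝ) (Q : ℕ) (hε : 0 < ε) (hτ : 0 < τ) :
    ∃ x0 : ℕ, ∀ x : ℕ, x0 ≤ x → ∀ C : ℕ, (x : ℝ) ^ (5 / 6 + ε) ≤ C → C ≤ x →
      ∃ Ex ⊆ Icc 1 C, (#Ex : ℝ) ≤ τ * C ∧ ∀ c ∈ Icc 1 C, c ∉ Ex → ∀ q r t : ℕ, 1 ≤ q → q ≤ Q → t ≤ x →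
        |∑ n ∈ (Icc 1 t).filter (fun n => n ≡ r [MOD q]), lamZ (fv a b (c : ℕ) n)| ≤ τ * x ∧
        |∑ n ∈ (Icc 1 t).filter (fun n => n ≡ r [MOD q]), mobZ (fv a b (c : ℕ) n)| ≤ τ * x := by
  classical
  obtain ⟨D, hD⟩ : ∃ D : ℕ, D = ⌈24 / τ ^ 2⌉₊ + 1 := ⟨_, rfl⟩
  have hD1 : 1 ≤ D := by omega
  have hDr : (0 : ℝ) < D := by exact_mod_cast hD1
  have hD2 : 24 ≤ D * τ ^ 2 := by
    have h1 : 24 / τ ^ 2 ≤ D := by
      rw [hD]; push_cast
      linarith [Nat.le_ceil (24 / τ ^ 2)]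
    rwa [div_le_iff₀ (by positivity)] at h1
  obtain ⟨M, hM⟩ : ∃ M : ℕ, M = ∏ p ∈ (Icc 1 D).filter Nat.Prime, p ^ 2 := ⟨_, rfl⟩
  have hM1 : 1 ≤ M := by
    rw [hM]; exact Nat.succ_le_of_lt (prod_pos fun p hp => pow_pos (mem_filter.1 hp).2.pos _)
  have hMd : ∀ p : ℕ, p.Prime → p ≤ D → p ^ 2 ∣ M := by
    intro p hp hpD
    rw [hM]
    exact dvd_prod_of_mem (fun p => p ^ 2) (mem_filter.2 ⟨mem_Icc.2 ⟨hp.one_lt.le, hpD⟩, hp⟩)
  obtain ⟨τ1, hτ1⟩ : ∃ τ1 : ℝ, τ1 = τ / (2 * (Q * M + 1)) := ⟨_, rfl⟩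
  have hQM : (0 : ℝ) ≤ (Q : ℝ) * M := by positivity
  have hτ10 : 0 < τ1 := by rw [hτ1]; positivity
  have hτ1a : τ1 * (Q * M) ≤ τ / 2 := by
    rw [hτ1, div_mul_eq_mul_div, div_le_div_iff₀ (by positivity) (by norm_num)]
    nlinarith
  have hτ1b : τ1 ≤ τ / 2 := by
    rw [hτ1]
    apply div_le_div_of_nonneg_left hτ.le (by norm_num)
    linarith
  obtain ⟨x1, H1⟩ := finL hMV a ha b ε τ1 (Q * M) hε hτ10
  obtain ⟨R, hR⟩ : ∃ R : ℕ, R = ⌈8 / τ⌉₊ + 1 := ⟨_, rfl⟩
  have hRr : (0 : ℝ) < R := by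
    have : 0 < R := by omega
    exact_mod_cast this
  have hR1 : 1 / (R : ℝ) ≤ τ / 8 := by
    have h1 : 8 / τ ≤ R := by
      rw [hR]; push_cast
      linarith [Nat.le_ceil (8 / τ)]
    rw [div_le_iff₀ hτ] at h1
    rw [div_le_div_iff₀ hRr (by norm_num)]
    linarith
  obtain ⟨x2, H2⟩ := hBS a ha b (2 * R) D hD1
  refine ⟨x1 + x2 + 4 * R * (b.natAbs + 1) + 2, fun x hx C hC hCx => ?_⟩
  have hx2 : 2 ≤ x := by omega
  have hxr : (2 : ℝ) ≤ x := by exact_mod_cast hx2
  have hxp : (0 : ℝ) < x := by linarith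
  obtain ⟨E1, p1, p2, p3⟩ := H1 x (by omega) C hC hCx
  obtain ⟨y, hy⟩ : ∃ y : ℕ, y = x / R := ⟨_, rfl⟩
  have hRn : 1 < R := by
    have : 0 < ⌈8 / τ⌉₊ := Nat.ceil_pos.2 (by positivity)
    omega
  have hyx : y < x := by rw [hy]; exact Nat.div_lt_self (by omega) hRn
  have hyR : x ≤ 2 * R * y := by
    have h1 := Nat.div_add_mod x R
    have h2 := Nat.mod_lt x (show 0 < R by omega)
    have h3 : 2 * R * y = 2 * (R * (x / R)) := by rw [hy]; ring
    have h4 : 4 * R * 1 ≤ 4 * R * (b.natAbs + 1) := Nat.mul_le_mul_left _ (by omega)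
    omega
  have hby : b.natAbs ≤ y := by
    have h1 : 2 * R * (b.natAbs + 1) ≤ 2 * R * y := by
      refine le_trans ?_ hyR
      have : 4 * R * (b.natAbs + 1) = 2 * (2 * R * (b.natAbs + 1)) := by ring
      omega
    have h2 := Nat.le_of_mul_le_mul_left h1 (by omega)
    omega
  have hyr : (y : ℝ) ≤ τ / 8 * x := by
    have h1 : (y : ℝ) ≤ x / R := by rw [hy]; exact Nat.cast_div_le
    calc (y : ℝ) ≤ x / R := h1
      _ = (1 / R) * x := by ring
      _ ≤ τ / 8 * x := mul_le_mul_of_nonneg_right hR1 hxp.le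
  have hCp : (0 : ℝ) < C := lt_of_lt_of_le (by positivity) hC
  have hC34 : (x : ℝ) ^ (3 / 4 : ℝ) ≤ C :=
    (Real.rpow_le_rpow_of_exponent_le (by linarith) (by linarith)).trans hC
  have h2 := H2 x (by omega) y C hyx hyR hC34 hCx
  obtain ⟨g, hg⟩ : ∃ g : ℕ → ℝ, g = fun c => (#((Ioc y x).filter (fun n => ∃ p : ℕ, p.Prime ∧ D < p ∧ p ^ 2 ∣ Fn a b n + c)) : ℝ) :=
    ⟨_, rfl⟩
  have h3 := markov C g (τ / 4 * x) (3 / D * (C * x)) (fun c => by rw [hg]; positivity) (by positivity)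
    (by rw [hg]; exact h2)
  have h4 : 3 / D * (C * x) / (τ / 4 * x) ≤ τ / 2 * C := by
    have e1 : 3 / D * (C * x) / (τ / 4 * x) = 12 * C / (D * τ) := by field_simp; norm_num
    rw [e1, div_le_iff₀ (by positivity)]
    have e2 : τ / 2 * C * (D * τ) = (D * τ ^ 2) / 2 * C := by ring
    rw [e2]
    exact mul_le_mul_of_nonneg_right (by linarith) hCp.le
  refine ⟨E1 ∪ (Icc 1 C).filter (fun c => τ / 4 * x < g c), union_subset p1 (filter_subset _ _), ?_, ?_⟩
  · have h5 : (#(E1 ∪ (Icc 1 C).filter (fun c => τ / 4 * x < g c)) : ℝ) ≤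
        #E1 + #((Icc 1 C).filter (fun c => τ / 4 * x < g c)) := by exact_mod_cast card_union_le _ _
    have h6 : τ1 * C ≤ τ / 2 * C := mul_le_mul_of_nonneg_right hτ1b hCp.le
    linarith
  · intro c hc hcE q r t hq hqQ ht
    rw [mem_union, not_or] at hcE
    obtain ⟨hcE1, hcE2⟩ := hcE
    have hgc : g c ≤ τ / 4 * x := by
      by_contra hcon
      exact hcE2 (mem_filter.2 ⟨hc, not_le.1 hcon⟩)
    have p3c := p3 c hc hcE1
    have hqM : 1 ≤ q * M := Nat.mul_pos hq hM1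
    have hqQM : q * M ≤ Q * M := Nat.mul_le_mul_right _ hqQ
    have hQle : q ≤ Q * M := le_trans (Nat.le_mul_of_pos_right _ hM1) hqQM
    refine ⟨(p3c q r t hq hQle ht).trans (mul_le_mul_of_nonneg_right (by linarith) hxp.le), ?_⟩
    -- the main part
    have m1 : |∑ n ∈ (Icc 1 t).filter (fun n => n ≡ r [MOD q]), lamZ (fv a b (c : ℕ) n) * hsq D (fv a b (c : ℕ) n)| ≤
        τ / 2 * x := by
      have e1 : ∑ n ∈ (Icc 1 t).filter (fun n => n ≡ r [MOD q]), lamZ (fv a b (c : ℕ) n) * hsq D (fv a b (c : ℕ) n) =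
          ∑ r' ∈ (range (q * M)).filter (fun r' => r' ≡ r [MOD q]), hsq D (fv a b (c : ℕ) r') *
            ∑ n ∈ (Icc 1 t).filter (fun n => n ≡ r' [MOD (q * M)]), lamZ (fv a b (c : ℕ) n) := by
        rw [← sum_fiberwise_of_maps_to (s := (Icc 1 t).filter (fun n => n ≡ r [MOD q])) (g := fun n => n % (q * M))
          (t := (range (q * M)).filter (fun r' => r' ≡ r [MOD q]))]
        · refine sum_congr rfl fun r' hr' => ?_
          rw [mem_filter, mem_range] at hr'
          rw [mul_sum, filter_filter]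
          apply sum_congr
          · apply filter_congr
            intro n _
            constructor
            · rintro ⟨_, hh⟩
              unfold Nat.ModEq
              rw [hh, Nat.mod_eq_of_lt hr'.1]
            · intro hh
              refine ⟨(hh.of_mul_right M).trans hr'.2, ?_⟩
              unfold Nat.ModEq at hh
              rw [hh, Nat.mod_eq_of_lt hr'.1]
          · intro n hn
            rw [mem_filter] at hn
            rw [hsq_mod D hMd a b (c : ℕ) n r' (hn.2.of_mul_left q), mul_comm]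
        · intro n hn
          rw [mem_filter] at hn
          rw [mem_filter, mem_range]
          refine ⟨Nat.mod_lt _ (by omega), ?_⟩
          have : n % (q * M) ≡ n [MOD q] := (Nat.mod_modEq n (q * M)).of_mul_right M
          exact this.trans hn.2
      rw [e1]
      refine (abs_sum_le_sum_abs _ _).trans ?_
      have e2 : ∀ r' ∈ (range (q * M)).filter (fun r' => r' ≡ r [MOD q]), |hsq D (fv a b (c : ℕ) r') *
            ∑ n ∈ (Icc 1 t).filter (fun n => n ≡ r' [MOD (q * M)]), lamZ (fv a b (c : ℕ) n)| ≤ τ1 * x := by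
        intro r' _
        rw [abs_mul]
        have e3 : |hsq D (fv a b (c : ℕ) r')| ≤ 1 := by
          rw [abs_of_nonneg (hsq_range _ _).1]; exact (hsq_range _ _).2
        have e4 := p3c (q * M) r' t hqM hqQM ht
        calc _ ≤ 1 * (τ1 * x) := mul_le_mul e3 e4 (abs_nonneg _) (by norm_num)
          _ = τ1 * x := one_mul _
      refine (sum_le_sum e2).trans ?_
      rw [sum_const, nsmul_eq_mul]
      have e5 : (#((range (q * M)).filter (fun r' => r' ≡ r [MOD q])) : ℝ) ≤ Q * M := by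
        have : #((range (q * M)).filter (fun r' => r' ≡ r [MOD q])) ≤ Q * M := by
          refine (card_filter_le _ _).trans ?_
          rw [card_range]; exact hqQM
        exact_mod_cast this
      calc (#((range (q * M)).filter (fun r' => r' ≡ r [MOD q])) : ℝ) * (τ1 * x) ≤ (Q * M) * (τ1 * x) :=
            mul_le_mul_of_nonneg_right e5 (by positivity)
        _ = (τ1 * (Q * M)) * x := by ring
        _ ≤ τ / 2 * x := mul_le_mul_of_nonneg_right hτ1a hxp.le
    -- the error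
    have m2 : |∑ n ∈ (Icc 1 t).filter (fun n => n ≡ r [MOD q]), (mobZ (fv a b (c : ℕ) n) -
        lamZ (fv a b (c : ℕ) n) * hsq D (fv a b (c : ℕ) n))| ≤ τ / 8 * x + τ / 4 * x := by
      have e1 : ∀ n ∈ (Icc 1 t).filter (fun n => n ≡ r [MOD q]), |mobZ (fv a b (c : ℕ) n) -
          lamZ (fv a b (c : ℕ) n) * hsq D (fv a b (c : ℕ) n)| ≤
          (if n ≤ y then (1 : ℝ) else 0) +
            (if y < n ∧ ∃ p : ℕ, p.Prime ∧ D < p ∧ p ^ 2 ∣ Fn a b n + c then 1 else 0) := by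
        intro n hn
        by_cases hny : n ≤ y
        · rw [if_pos hny]
          have := mob_diff D (fv a b (c : ℕ) n)
          have h7 : (0 : ℝ) ≤ (if y < n ∧ ∃ p : ℕ, p.Prime ∧ D < p ∧ p ^ 2 ∣ Fn a b n + c then 1 else 0) := by
            split_ifs <;> norm_num
          linarith
        · rw [if_neg hny, zero_add]
          have hyn : y < n := not_le.1 hny
          have hfv : fv a b (c : ℕ) n = ((Fn a b n + c : ℕ) : ℤ) := Pool.Agent.N792.Mtm.fv_eq ha (hby.trans hyn.le)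
          by_cases hp : ∃ p : ℕ, p.Prime ∧ D < p ∧ p ^ 2 ∣ Fn a b n + c
          · rw [if_pos ⟨hyn, hp⟩]; exact mob_diff D _
          · rw [if_neg (fun hh => hp hh.2), mob_eq D _ (by
              rintro ⟨p, hp1, hp2, hp3⟩
              apply hp
              refine ⟨p, hp1, hp2, ?_⟩
              rw [hfv] at hp3
              exact_mod_cast hp3), sub_self, abs_zero]
      refine (abs_sum_le_sum_abs _ _).trans ((sum_le_sum e1).trans ?_)
      rw [sum_add_distrib]
      apply add_le_add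
      · rw [← sum_filter, sum_const, nsmul_eq_mul, mul_one]
        refine le_trans ?_ hyr
        have h8 : ((Icc 1 t).filter (fun n => n ≡ r [MOD q])).filter (fun n => n ≤ y) ⊆ Icc 1 y := by
          intro n hn
          rw [mem_filter, mem_filter, mem_Icc] at hn
          rw [mem_Icc]; omega
        have h9 := card_le_card h8
        rw [Nat.card_Icc, Nat.add_sub_cancel] at h9
        exact_mod_cast h9
      · rw [← sum_filter, sum_const, nsmul_eq_mul, mul_one]
        refine le_trans ?_ hgc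
        rw [hg]
        have h8 : ((Icc 1 t).filter (fun n => n ≡ r [MOD q])).filter
            (fun n => y < n ∧ ∃ p : ℕ, p.Prime ∧ D < p ∧ p ^ 2 ∣ Fn a b n + c) ⊆
            (Ioc y x).filter (fun n => ∃ p : ℕ, p.Prime ∧ D < p ∧ p ^ 2 ∣ Fn a b n + c) := by
          intro n hn
          rw [mem_filter, mem_filter, mem_Icc] at hn
          rw [mem_filter, mem_Ioc]
          exact ⟨⟨hn.2.1, by omega⟩, hn.2.2⟩
        beta_reduce
        exact_mod_cast card_le_card h8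
    have e3 : ∑ n ∈ (Icc 1 t).filter (fun n => n ≡ r [MOD q]), mobZ (fv a b (c : ℕ) n) =
        ∑ n ∈ (Icc 1 t).filter (fun n => n ≡ r [MOD q]), lamZ (fv a b (c : ℕ) n) * hsq D (fv a b (c : ℕ) n) +
        ∑ n ∈ (Icc 1 t).filter (fun n => n ≡ r [MOD q]), (mobZ (fv a b (c : ℕ) n) -
          lamZ (fv a b (c : ℕ) n) * hsq D (fv a b (c : ℕ) n)) := by
      rw [← sum_add_distrib]
      exact sum_congr rfl fun n _ => by ring
    rw [e3]
    refine (abs_add_le _ _).trans ?_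
    have : 0 < τ * x := by positivity
    linarith

end Pool.Agent.N792.CH
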