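import Mathlib
import Pool.Agent.N792.CH.FinAU

/-!
All initial segments, all residue classes and the function of Moebius, uniform in `b` (helper792).
-/

set_option autoImplicit false

namespace Pool.Agent.N792.CH

open Finset Filter Topology
open Pool.Agent.N792 (Fn rho Rough R2 fv)
open Pool.Agent.N791.C2 (lam)

theorem finLU (hMV : ∀ a : ℤ, 0 < a → ∀ Λ : ℝ, 1 ≤ Λ → MVU a Λ) (a : ℤ) (ha : 0 < a) (Λ : ℝ) (hΛ : 1 ≤ Λ) (ε τ : ℝ) (Q : ℕ)
    (hε : 0 < ε) (hτ : 0 < τ) :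
    ∃ x0 : ℕ, ∀ x : ℕ, x0 ≤ x → ∀ (b : ℤ) (C : ℕ), (b : ℝ) ^ 2 ≤ Λ * C → (x : ℝ) ^ (5 / 6 + ε) ≤ C → C ≤ x →
      ∃ Ex ⊆ Icc 1 C, (#Ex : ℝ) ≤ τ * C ∧ ∀ c ∈ Icc 1 C, c ∉ Ex → ∀ q r t : ℕ, 1 ≤ q → q ≤ Q → t ≤ x →
        |∑ n ∈ (Icc 1 t).filter (fun n => n ≡ r [MOD q]), lamZ (fv a b (c : ℕ) n)| ≤ τ * x := by
  classical
  obtain ⟨N, hN⟩ : ∃ N : ℕ, N = ⌈8 / τ⌉₊ + 1 := ⟨_, rfl⟩
  have hN1 : 1 ≤ N := by omega
  have hNr : (0 : ℝ) < N := by exact_mod_cast hN1
  have hN2 : 1 / (N : ℝ) ≤ τ / 8 := by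
    have h1 : 8 / τ ≤ N := by
      rw [hN]; push_cast
      linarith [Nat.le_ceil (8 / τ)]
    rw [div_le_iff₀ hτ] at h1
    rw [div_le_div_iff₀ hNr (by norm_num)]
    linarith
  -- the indices
  obtain ⟨I, hI⟩ : ∃ I : Finset (ℕ × ℕ × ℕ), I = range (N + 1) ×ˢ range (Q + 1) ×ˢ range (Q + 1) := ⟨_, rfl⟩
  obtain ⟨τ', hτ'⟩ : ∃ τ' : ℝ, τ' = τ * (τ / 4) / (#I + 1) := ⟨_, rfl⟩
  have hIr : (0 : ℝ) < #I + 1 := by positivity
  have hτ'0 : 0 < τ' := by rw [hτ']; positivity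
  -- the thresholds
  have hth : ∀ q r : ℕ, ∃ x0 : ℕ, 1 ≤ q → r < q → ∀ x : ℕ, x0 ≤ x → ∀ (b : ℤ) (u v C : ℕ), (b : ℝ) ^ 2 ≤ Λ * C →
      x ≤ (2 * N) * u → u ≤ v → v ≤ x → (x : ℝ) ^ (5 / 6 + ε) ≤ C → C ≤ x →
      ∑ c ∈ Icc 1 C, |∑ n ∈ (Ioc u v).filter (fun n => n ≡ r [MOD q]), lamZ (fv a b (c : ℕ) n)| ≤ τ' * (C * x) := by
    intro q r
    by_cases h : 1 ≤ q ∧ r < q
    · obtain ⟨x0, h0⟩ := clsU hMV a ha Λ hΛ q r h.1 h.2 ε τ' (2 * N) hε hτ'0
      exact ⟨x0, fun _ _ => h0⟩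
    · exact ⟨0, fun h1 h2 => absurd ⟨h1, h2⟩ h⟩
  choose x0 hx0 using hth
  refine ⟨∑ q ∈ range (Q + 1), ∑ r ∈ range (Q + 1), x0 q r + 8 * N + ⌈8 / τ⌉₊, fun x hx b C hbC hC hCx => ?_⟩
  have hxN : 8 * N ≤ x := by omega
  have hxp : (0 : ℝ) < x := by
    have : 0 < x := by omega
    exact_mod_cast this
  have hx8 : 1 ≤ τ / 8 * x := by
    have h1 : (⌈8 / τ⌉₊ : ℝ) ≤ x := by
      have : ⌈8 / τ⌉₊ ≤ x := by omega
      exact_mod_cast this
    have h2 : 8 / τ ≤ x := (Nat.le_ceil _).trans h1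
    rw [div_le_iff₀ hτ] at h2
    linarith
  -- the grid
  obtain ⟨T, hT⟩ : ∃ T : ℕ → ℕ, T = fun i => i * x / N := ⟨_, rfl⟩
  have hT1 : x ≤ 2 * N * T 1 := by
    rw [hT]
    simp only [one_mul]
    have h1 := Nat.div_add_mod x N
    have h2 := Nat.mod_lt x (show 0 < N by omega)
    have h3 : 2 * N * (x / N) = 2 * (N * (x / N)) := by ring
    omega
  have hTm : ∀ i j, i ≤ j → T i ≤ T j := by
    intro i j hij
    rw [hT]
    exact Nat.div_le_div_right (Nat.mul_le_mul_right _ hij)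
  have hTN : ∀ i, i ≤ N → T i ≤ x := by
    intro i hi
    rw [hT]
    simp only
    calc i * x / N ≤ N * x / N := Nat.div_le_div_right (Nat.mul_le_mul_right _ hi)
      _ = x := Nat.mul_div_cancel_left _ (by omega)
  -- the exceptional set
  obtain ⟨F, hF⟩ : ∃ F : ℕ × ℕ × ℕ → ℕ → ℝ, F = fun i c =>
    |∑ n ∈ (Ioc (T 1) (T i.1)).filter (fun n => n ≡ i.2.2 [MOD i.2.1]), lamZ (fv a b (c : ℕ) n)| := ⟨_, rfl⟩
  have hF0 : ∀ i c, 0 ≤ F i c := fun i c => by rw [hF]; positivity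
  obtain ⟨I', hI'⟩ : ∃ I' : Finset (ℕ × ℕ × ℕ), I' = I.filter (fun i => 1 ≤ i.1 ∧ 1 ≤ i.2.1 ∧ i.2.2 < i.2.1) := ⟨_, rfl⟩
  have hbd : ∀ i ∈ I', (#((Icc 1 C).filter (fun c => τ / 4 * x < F i c)) : ℝ) ≤ τ / (#I + 1) * C := by
    intro i hi
    rw [hI', mem_filter, hI, mem_product, mem_product, mem_range, mem_range, mem_range] at hi
    have h1 := hx0 i.2.1 i.2.2 hi.2.2.1 hi.2.2.2 x (by
      have h2 : x0 i.2.1 i.2.2 ≤ ∑ q ∈ range (Q + 1), ∑ r ∈ range (Q + 1), x0 q r := by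
        refine le_trans ?_ (single_le_sum (f := fun q => ∑ r ∈ range (Q + 1), x0 q r) (fun _ _ => Nat.zero_le _)
          (mem_range.2 hi.1.2.1))
        exact single_le_sum (f := fun r => x0 i.2.1 r) (fun _ _ => Nat.zero_le _) (mem_range.2 hi.1.2.2)
      omega) b (T 1) (T i.1) C hbC hT1 (hTm _ _ hi.2.1) (hTN _ (by omega)) hC hCx
    have h3 := markov C (F i) (τ / 4 * x) (τ' * (C * x)) (hF0 i) (by positivity) (by rw [hF]; exact h1)
    refine h3.trans (le_of_eq ?_)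
    rw [hτ']; field_simp
  refine ⟨(Icc 1 C).filter (fun c => ∃ i ∈ I', τ / 4 * x < F i c), filter_subset _ _, ?_, ?_⟩
  · have h1 : (Icc 1 C).filter (fun c => ∃ i ∈ I', τ / 4 * x < F i c) ⊆
        I'.biUnion (fun i => (Icc 1 C).filter (fun c => τ / 4 * x < F i c)) := by
      intro c hc
      rw [mem_filter] at hc
      obtain ⟨hc1, i, hi, hlt⟩ := hc
      rw [mem_biUnion]
      exact ⟨i, hi, mem_filter.2 ⟨hc1, hlt⟩⟩
    have h2 : (#((Icc 1 C).filter (fun c => ∃ i ∈ I', τ / 4 * x < F i c)) : ℝ) ≤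
        ∑ i ∈ I', (#((Icc 1 C).filter (fun c => τ / 4 * x < F i c)) : ℝ) := by
      exact_mod_cast (card_le_card h1).trans card_biUnion_le
    refine h2.trans ((sum_le_sum hbd).trans ?_)
    rw [sum_const, nsmul_eq_mul]
    have h3 : (#I' : ℝ) ≤ #I := by
      rw [hI']; exact_mod_cast card_filter_le _ _
    have hC0 : (0 : ℝ) ≤ C := Nat.cast_nonneg _
    calc (#I' : ℝ) * (τ / (#I + 1) * C) ≤ (#I + 1) * (τ / (#I + 1) * C) := by
          apply mul_le_mul_of_nonneg_right _ (by positivity)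
          linarith
      _ = τ * C := by field_simp
  · intro c hc hcE q r t hq hqQ ht
    rw [mem_filter, not_and, not_exists] at hcE
    have hcE' := hcE hc
    -- reduce the class
    have hrr : ∀ s : Finset ℕ, s.filter (fun n => n ≡ r [MOD q]) = s.filter (fun n => n ≡ r % q [MOD q]) := by
      intro s
      apply filter_congr
      intro n _
      unfold Nat.ModEq
      rw [Nat.mod_mod]
    rw [hrr]
    obtain ⟨r', hr'⟩ : ∃ r' : ℕ, r' = r % q := ⟨_, rfl⟩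
    rw [← hr']
    have hr'q : r' < q := by rw [hr']; exact Nat.mod_lt _ (by omega)
    obtain ⟨i, hi⟩ : ∃ i : ℕ, i = t * N / x := ⟨_, rfl⟩
    have hx0' : 0 < x := by omega
    have hiN : i ≤ N := by
      rw [hi]
      calc t * N / x ≤ x * N / x := Nat.div_le_div_right (Nat.mul_le_mul_right _ ht)
        _ = N := Nat.mul_div_cancel_left _ hx0'
    have hi1 : i * x ≤ t * N := by rw [hi]; exact Nat.div_mul_le_self _ _
    have hi2 : t * N < (i + 1) * x := by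
      rw [hi]
      exact (Nat.lt_mul_div_succ (t * N) hx0').trans_eq (mul_comm _ _)
    have hTi : T i ≤ t := by
      rw [hT]
      simp only
      calc i * x / N ≤ t * N / N := Nat.div_le_div_right hi1
        _ = t := Nat.mul_div_cancel _ (by omega)
    have hgap : (t : ℝ) - T i ≤ τ / 4 * x := by
      have h1 : i * x < N * (T i + 1) := by
        rw [hT]; exact Nat.lt_mul_div_succ _ (by omega)
      have h2 : (t : ℝ) * N < (i + 1) * x := by exact_mod_cast hi2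
      have h3 : (i : ℝ) * x < N * (T i + 1) := by exact_mod_cast h1
      have h4 : (t : ℝ) * N < (T i + 1 + x / N) * N := by
        have h5 : (T i + 1 + x / N) * (N : ℝ) = N * (T i + 1) + x := by field_simp
        rw [h5]; linarith
      have h5 := lt_of_mul_lt_mul_right h4 hNr.le
      have h6 : (x : ℝ) / N ≤ τ / 8 * x := by
        calc (x : ℝ) / N = (1 / N) * x := by ring
          _ ≤ τ / 8 * x := mul_le_mul_of_nonneg_right hN2 hxp.le
      linarith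
    have hT1s : ((T 1 : ℕ) : ℝ) ≤ τ / 8 * x := by
      have h1 : T 1 * N ≤ x := by
        rw [hT]; simp only [one_mul]; exact Nat.div_mul_le_self _ _
      have h2 : (T 1 : ℝ) * N ≤ x := by exact_mod_cast h1
      calc ((T 1 : ℕ) : ℝ) = (T 1 * N) * (1 / N) := by field_simp
        _ ≤ x * (τ / 8) := mul_le_mul h2 hN2 (by positivity) hxp.le
        _ = τ / 8 * x := by ring
    have hsm : ∀ A B : ℕ, A ≤ B → |∑ n ∈ (Ioc A B).filter (fun n => n ≡ r' [MOD q]), lamZ (fv a b (c : ℕ) n)| ≤ (B : ℝ) - A := by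
      intro A B hAB
      refine (lamZ_sum_abs _ _).trans ?_
      have : #((Ioc A B).filter (fun n => n ≡ r' [MOD q])) ≤ B - A := by
        refine (card_filter_le _ _).trans ?_
        rw [Nat.card_Ioc]
      have h2 : (#((Ioc A B).filter (fun n => n ≡ r' [MOD q])) : ℝ) ≤ ((B - A : ℕ) : ℝ) := by exact_mod_cast this
      rwa [Nat.cast_sub hAB] at h2
    have d1 : Icc 1 t = Ioc 0 t := rfl
    rw [d1]
    rcases Nat.eq_zero_or_pos i with h0 | hpos
    · have h1 : T i = 0 := by rw [h0, hT]; simp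
      have h2 := hsm 0 t (Nat.zero_le _)
      rw [h1] at hgap
      push_cast at h2 hgap
      have : 0 < τ * x := by positivity
      linarith
    · have e1 : ∑ n ∈ (Ioc 0 t).filter (fun n => n ≡ r' [MOD q]), lamZ (fv a b (c : ℕ) n) =
          ∑ n ∈ (Ioc 0 (T 1)).filter (fun n => n ≡ r' [MOD q]), lamZ (fv a b (c : ℕ) n) +
          ∑ n ∈ (Ioc (T 1) (T i)).filter (fun n => n ≡ r' [MOD q]), lamZ (fv a b (c : ℕ) n) +
          ∑ n ∈ (Ioc (T i) t).filter (fun n => n ≡ r' [MOD q]), lamZ (fv a b (c : ℕ) n) := by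
        simp only [sum_filter]
        rw [sum_Ioc_consecutive _ (Nat.zero_le _) (hTm 1 i hpos), sum_Ioc_consecutive _ (Nat.zero_le _) hTi]
      have h2 := hsm 0 (T 1) (Nat.zero_le _)
      have h3 := hsm (T i) t hTi
      have h4 : |∑ n ∈ (Ioc (T 1) (T i)).filter (fun n => n ≡ r' [MOD q]), lamZ (fv a b (c : ℕ) n)| ≤ τ / 4 * x := by
        by_contra hcon
        apply hcE' (i, q, r')
        refine ⟨?_, ?_⟩
        · rw [hI', mem_filter, hI, mem_product, mem_product, mem_range, mem_range, mem_range]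
          exact ⟨⟨by simp only; omega, by simp only; omega, by simp only; omega⟩, hpos, hq, hr'q⟩
        · rw [hF]
          exact not_le.1 hcon
      rw [e1]
      push_cast at h2
      have h5 := abs_add_le (∑ n ∈ (Ioc 0 (T 1)).filter (fun n => n ≡ r' [MOD q]), lamZ (fv a b (c : ℕ) n) +
          ∑ n ∈ (Ioc (T 1) (T i)).filter (fun n => n ≡ r' [MOD q]), lamZ (fv a b (c : ℕ) n))
          (∑ n ∈ (Ioc (T i) t).filter (fun n => n ≡ r' [MOD q]), lamZ (fv a b (c : ℕ) n))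
      have h6 := abs_add_le (∑ n ∈ (Ioc 0 (T 1)).filter (fun n => n ≡ r' [MOD q]), lamZ (fv a b (c : ℕ) n))
          (∑ n ∈ (Ioc (T 1) (T i)).filter (fun n => n ≡ r' [MOD q]), lamZ (fv a b (c : ℕ) n))
      have : 0 < τ * x := by positivity
      linarith


theorem finMU (hMV : ∀ a : ℤ, 0 < a → ∀ Λ : ℝ, 1 ≤ Λ → MVU a Λ) (hBS : ∀ a : ℤ, 0 < a → ∀ Λ : ℝ, 1 ≤ Λ → BSU a Λ)
    (a : ℤ) (ha : 0 < a) (Λ : ℝ) (hΛ : 1 ≤ Λ) (ε τ : ℝ) (Q : ℕ) (hε : 0 < ε) (hτ : 0 < τ) :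
    ∃ x0 : ℕ, ∀ x : ℕ, x0 ≤ x → ∀ (b : ℤ) (C : ℕ), (b : ℝ) ^ 2 ≤ Λ * C → (x : ℝ) ^ (5 / 6 + ε) ≤ C → C ≤ x →
      ∃ Ex ⊆ Icc 1 C, (#Ex : ℝ) ≤ τ * C ∧ ∀ c ∈ Icc 1 C, c ∉ Ex → ∀ q r t : ℕ, 1 ≤ q → q ≤ Q → t ≤ x →
        |∑ n ∈ (Icc 1 t).filter (fun n => n ≡ r [MOD q]), lamZ (fv a b (c : ℕ) n)| ≤ τ * x ∧
        |∑ n ∈ (Icc 1 t).filter (fun n => n ≡ r [MOD q]), mobZ (fv a b (c : ℕ) n)| ≤ τ * x := by
  classical
  obtain ⟨D, hD⟩ : ∃ D : ℕ, D = ⌈24 / τ ^ 2⌉₊ + 1 := ⟨_, rfl⟩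
  have hD1 : 1 ≤ D := by omega
  have hDr : (0 : ℝ) < D := by exact_mod_cast hD1
  have hD2 : 24 ≤ D * τ ^ 2 := by
    have h1 : 24 / τ ^ 2 ≤ D := by
      rw [hD]; push_cast
      linarith [Nat.le_ceil (24 / τ ^ 2)]
    rwa [div_le_iff₀ (by positivity)] at h1
  obtain ⟨M, hM⟩ : ∃ M : ℕ, M = ∏ p ∈ (Icc 1 D).filter Nat.Prime, p ^ 2 := ⟨_, rfl⟩
  have hM1 : 1 ≤ M := by
    rw [hM]; exact Nat.succ_le_of_lt (prod_pos fun p hp => pow_pos (mem_filter.1 hp).2.pos _)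
  have hMd : ∀ p : ℕ, p.Prime → p ≤ D → p ^ 2 ∣ M := by
    intro p hp hpD
    rw [hM]
    exact dvd_prod_of_mem (fun p => p ^ 2) (mem_filter.2 ⟨mem_Icc.2 ⟨hp.one_lt.le, hpD⟩, hp⟩)
  obtain ⟨τ1, hτ1⟩ : ∃ τ1 : ℝ, τ1 = τ / (2 * (Q * M + 1)) := ⟨_, rfl⟩
  have hQM : (0 : ℝ) ≤ (Q : ℝ) * M := by positivity
  have hτ10 : 0 < τ1 := by rw [hτ1]; positivity
  have hτ1a : τ1 * (Q * M) ≤ τ / 2 := by
    rw [hτ1, div_mul_eq_mul_div, div_le_div_iff₀ (by positivity) (by norm_num)]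
    nlinarith
  have hτ1b : τ1 ≤ τ / 2 := by
    rw [hτ1]
    apply div_le_div_of_nonneg_left hτ.le (by norm_num)
    linarith
  obtain ⟨x1, H1⟩ := finLU hMV a ha Λ hΛ ε τ1 (Q * M) hε hτ10
  obtain ⟨R, hR⟩ : ∃ R : ℕ, R = ⌈8 / τ⌉₊ + 1 := ⟨_, rfl⟩
  have hRr : (0 : ℝ) < R := by
    have : 0 < R := by omega
    exact_mod_cast this
  have hR1 : 1 / (R : ℝ) ≤ τ / 8 := by
    have h1 : 8 / τ ≤ R := by
      rw [hR]; push_cast
      linarith [Nat.le_ceil (8 / τ)]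
    rw [div_le_iff₀ hτ] at h1
    rw [div_le_div_iff₀ hRr (by norm_num)]
    linarith
  obtain ⟨x2, H2⟩ := hBS a ha Λ hΛ (2 * R) D hD1
  obtain ⟨x3, H3⟩ := eventually_atTop.1 (Pool.Agent.N791.U.ev_bn Λ hΛ (4 * R))
  refine ⟨x1 + x2 + x3 + 4 * R + 2, fun x hx b C hbC hC hCx => ?_⟩
  have hbX : (b : ℝ) ^ 2 ≤ Λ * x := hbC.trans (mul_le_mul_of_nonneg_left (by exact_mod_cast hCx) (by linarith))
  have hx4 := H3 x (by omega) b hbX
  have hx2 : 2 ≤ x := by omega
  have hxr : (2 : ℝ) ≤ x := by exact_mod_cast hx2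
  have hxp : (0 : ℝ) < x := by linarith
  obtain ⟨E1, p1, p2, p3⟩ := H1 x (by omega) b C hbC hC hCx
  obtain ⟨y, hy⟩ : ∃ y : ℕ, y = x / R := ⟨_, rfl⟩
  have hRn : 1 < R := by
    have : 0 < ⌈8 / τ⌉₊ := Nat.ceil_pos.2 (by positivity)
    omega
  have hyx : y < x := by rw [hy]; exact Nat.div_lt_self (by omega) hRn
  have hyR : x ≤ 2 * R * y := by
    have h1 := Nat.div_add_mod x R
    have h2 := Nat.mod_lt x (show 0 < R by omega)
    have h3 : 2 * R * y = 2 * (R * (x / R)) := by rw [hy]; ring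
    have h4 : 4 * R * 1 ≤ 4 * R * (b.natAbs + 1) := Nat.mul_le_mul_left _ (by omega)
    omega
  have hby : b.natAbs ≤ y := by
    have h1 : 2 * R * (b.natAbs + 1) ≤ 2 * R * y := by
      refine le_trans ?_ hyR
      have : 4 * R * (b.natAbs + 1) = 2 * (2 * R * (b.natAbs + 1)) := by ring
      omega
    have h2 := Nat.le_of_mul_le_mul_left h1 (by omega)
    omega
  have hyr : (y : ℝ) ≤ τ / 8 * x := by
    have h1 : (y : ℝ) ≤ x / R := by rw [hy]; exact Nat.cast_div_le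
    calc (y : ℝ) ≤ x / R := h1
      _ = (1 / R) * x := by ring
      _ ≤ τ / 8 * x := mul_le_mul_of_nonneg_right hR1 hxp.le
  have hCp : (0 : ℝ) < C := lt_of_lt_of_le (by positivity) hC
  have hC34 : (x : ℝ) ^ (3 / 4 : ℝ) ≤ C :=
    (Real.rpow_le_rpow_of_exponent_le (by linarith) (by linarith)).trans hC
  have h2 := H2 x (by omega) b hbX y C hyx hyR hC34 hCx
  obtain ⟨g, hg⟩ : ∃ g : ℕ → ℝ, g = fun c => (#((Ioc y x).filter (fun n => ∃ p : ℕ, p.Prime ∧ D < p ∧ p ^ 2 ∣ Fn a b n + c)) : ℝ) :=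
    ⟨_, rfl⟩
  have h3 := markov C g (τ / 4 * x) (3 / D * (C * x)) (fun c => by rw [hg]; positivity) (by positivity)
    (by rw [hg]; exact h2)
  have h4 : 3 / D * (C * x) / (τ / 4 * x) ≤ τ / 2 * C := by
    have e1 : 3 / D * (C * x) / (τ / 4 * x) = 12 * C / (D * τ) := by field_simp; norm_num
    rw [e1, div_le_iff₀ (by positivity)]
    have e2 : τ / 2 * C * (D * τ) = (D * τ ^ 2) / 2 * C := by ring
    rw [e2]
    exact mul_le_mul_of_nonneg_right (by linarith) hCp.le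
  refine ⟨E1 ∪ (Icc 1 C).filter (fun c => τ / 4 * x < g c), union_subset p1 (filter_subset _ _), ?_, ?_⟩
  · have h5 : (#(E1 ∪ (Icc 1 C).filter (fun c => τ / 4 * x < g c)) : ℝ) ≤
        #E1 + #((Icc 1 C).filter (fun c => τ / 4 * x < g c)) := by exact_mod_cast card_union_le _ _
    have h6 : τ1 * C ≤ τ / 2 * C := mul_le_mul_of_nonneg_right hτ1b hCp.le
    linarith
  · intro c hc hcE q r t hq hqQ ht
    rw [mem_union, not_or] at hcE
    obtain ⟨hcE1, hcE2⟩ := hcE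
    have hgc : g c ≤ τ / 4 * x := by
      by_contra hcon
      exact hcE2 (mem_filter.2 ⟨hc, not_le.1 hcon⟩)
    have p3c := p3 c hc hcE1
    have hqM : 1 ≤ q * M := Nat.mul_pos hq hM1
    have hqQM : q * M ≤ Q * M := Nat.mul_le_mul_right _ hqQ
    have hQle : q ≤ Q * M := le_trans (Nat.le_mul_of_pos_right _ hM1) hqQM
    refine ⟨(p3c q r t hq hQle ht).trans (mul_le_mul_of_nonneg_right (by linarith) hxp.le), ?_⟩
    -- the main part
    have m1 : |∑ n ∈ (Icc 1 t).filter (fun n => n ≡ r [MOD q]), lamZ (fv a b (c : ℕ) n) * hsq D (fv a b (c : ℕ) n)| ≤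
        τ / 2 * x := by
      have e1 : ∑ n ∈ (Icc 1 t).filter (fun n => n ≡ r [MOD q]), lamZ (fv a b (c : ℕ) n) * hsq D (fv a b (c : ℕ) n) =
          ∑ r' ∈ (range (q * M)).filter (fun r' => r' ≡ r [MOD q]), hsq D (fv a b (c : ℕ) r') *
            ∑ n ∈ (Icc 1 t).filter (fun n => n ≡ r' [MOD (q * M)]), lamZ (fv a b (c : ℕ) n) := by
        rw [← sum_fiberwise_of_maps_to (s := (Icc 1 t).filter (fun n => n ≡ r [MOD q])) (g := fun n => n % (q * M))
          (t := (range (q * M)).filter (fun r' => r' ≡ r [MOD q]))]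
        · refine sum_congr rfl fun r' hr' => ?_
          rw [mem_filter, mem_range] at hr'
          rw [mul_sum, filter_filter]
          apply sum_congr
          · apply filter_congr
            intro n _
            constructor
            · rintro ⟨_, hh⟩
              unfold Nat.ModEq
              rw [hh, Nat.mod_eq_of_lt hr'.1]
            · intro hh
              refine ⟨(hh.of_mul_right M).trans hr'.2, ?_⟩
              unfold Nat.ModEq at hh
              rw [hh, Nat.mod_eq_of_lt hr'.1]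
          · intro n hn
            rw [mem_filter] at hn
            rw [hsq_mod D hMd a b (c : ℕ) n r' (hn.2.of_mul_left q), mul_comm]
        · intro n hn
          rw [mem_filter] at hn
          rw [mem_filter, mem_range]
          refine ⟨Nat.mod_lt _ (by omega), ?_⟩
          have : n % (q * M) ≡ n [MOD q] := (Nat.mod_modEq n (q * M)).of_mul_right M
          exact this.trans hn.2
      rw [e1]
      refine (abs_sum_le_sum_abs _ _).trans ?_
      have e2 : ∀ r' ∈ (range (q * M)).filter (fun r' => r' ≡ r [MOD q]), |hsq D (fv a b (c : ℕ) r') *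
            ∑ n ∈ (Icc 1 t).filter (fun n => n ≡ r' [MOD (q * M)]), lamZ (fv a b (c : ℕ) n)| ≤ τ1 * x := by
        intro r' _
        rw [abs_mul]
        have e3 : |hsq D (fv a b (c : ℕ) r')| ≤ 1 := by
          rw [abs_of_nonneg (hsq_range _ _).1]; exact (hsq_range _ _).2
        have e4 := p3c (q * M) r' t hqM hqQM ht
        calc _ ≤ 1 * (τ1 * x) := mul_le_mul e3 e4 (abs_nonneg _) (by norm_num)
          _ = τ1 * x := one_mul _
      refine (sum_le_sum e2).trans ?_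
      rw [sum_const, nsmul_eq_mul]
      have e5 : (#((range (q * M)).filter (fun r' => r' ≡ r [MOD q])) : ℝ) ≤ Q * M := by
        have : #((range (q * M)).filter (fun r' => r' ≡ r [MOD q])) ≤ Q * M := by
          refine (card_filter_le _ _).trans ?_
          rw [card_range]; exact hqQM
        exact_mod_cast this
      calc (#((range (q * M)).filter (fun r' => r' ≡ r [MOD q])) : ℝ) * (τ1 * x) ≤ (Q * M) * (τ1 * x) :=
            mul_le_mul_of_nonneg_right e5 (by positivity)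
        _ = (τ1 * (Q * M)) * x := by ring
        _ ≤ τ / 2 * x := mul_le_mul_of_nonneg_right hτ1a hxp.le
    -- the error
    have m2 : |∑ n ∈ (Icc 1 t).filter (fun n => n ≡ r [MOD q]), (mobZ (fv a b (c : ℕ) n) -
        lamZ (fv a b (c : ℕ) n) * hsq D (fv a b (c : ℕ) n))| ≤ τ / 8 * x + τ / 4 * x := by
      have e1 : ∀ n ∈ (Icc 1 t).filter (fun n => n ≡ r [MOD q]), |mobZ (fv a b (c : ℕ) n) -
          lamZ (fv a b (c : ℕ) n) * hsq D (fv a b (c : ℕ) n)| ≤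
          (if n ≤ y then (1 : ℝ) else 0) +
            (if y < n ∧ ∃ p : ℕ, p.Prime ∧ D < p ∧ p ^ 2 ∣ Fn a b n + c then 1 else 0) := by
        intro n hn
        by_cases hny : n ≤ y
        · rw [if_pos hny]
          have := mob_diff D (fv a b (c : ℕ) n)
          have h7 : (0 : ℝ) ≤ (if y < n ∧ ∃ p : ℕ, p.Prime ∧ D < p ∧ p ^ 2 ∣ Fn a b n + c then 1 else 0) := by
            split_ifs <;> norm_num
          linarith
        · rw [if_neg hny, zero_add]
          have hyn : y < n := not_le.1 hny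
          have hfv : fv a b (c : ℕ) n = ((Fn a b n + c : ℕ) : ℤ) := Pool.Agent.N792.Mtm.fv_eq ha (hby.trans hyn.le)
          by_cases hp : ∃ p : ℕ, p.Prime ∧ D < p ∧ p ^ 2 ∣ Fn a b n + c
          · rw [if_pos ⟨hyn, hp⟩]; exact mob_diff D _
          · rw [if_neg (fun hh => hp hh.2), mob_eq D _ (by
              rintro ⟨p, hp1, hp2, hp3⟩
              apply hp
              refine ⟨p, hp1, hp2, ?_⟩
              rw [hfv] at hp3
              exact_mod_cast hp3), sub_self, abs_zero]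
      refine (abs_sum_le_sum_abs _ _).trans ((sum_le_sum e1).trans ?_)
      rw [sum_add_distrib]
      apply add_le_add
      · rw [← sum_filter, sum_const, nsmul_eq_mul, mul_one]
        refine le_trans ?_ hyr
        have h8 : ((Icc 1 t).filter (fun n => n ≡ r [MOD q])).filter (fun n => n ≤ y) ⊆ Icc 1 y := by
          intro n hn
          rw [mem_filter, mem_filter, mem_Icc] at hn
          rw [mem_Icc]; omega
        have h9 := card_le_card h8
        rw [Nat.card_Icc, Nat.add_sub_cancel] at h9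
        exact_mod_cast h9
      · rw [← sum_filter, sum_const, nsmul_eq_mul, mul_one]
        refine le_trans ?_ hgc
        rw [hg]
        have h8 : ((Icc 1 t).filter (fun n => n ≡ r [MOD q])).filter
            (fun n => y < n ∧ ∃ p : ℕ, p.Prime ∧ D < p ∧ p ^ 2 ∣ Fn a b n + c) ⊆
            (Ioc y x).filter (fun n => ∃ p : ℕ, p.Prime ∧ D < p ∧ p ^ 2 ∣ Fn a b n + c) := by
          intro n hn
          rw [mem_filter, mem_filter, mem_Icc] at hn
          rw [mem_filter, mem_Ioc]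
          exact ⟨⟨hn.2.1, by omega⟩, hn.2.2⟩
        beta_reduce
        exact_mod_cast card_le_card h8
    have e3 : ∑ n ∈ (Icc 1 t).filter (fun n => n ≡ r [MOD q]), mobZ (fv a b (c : ℕ) n) =
        ∑ n ∈ (Icc 1 t).filter (fun n => n ≡ r [MOD q]), lamZ (fv a b (c : ℕ) n) * hsq D (fv a b (c : ℕ) n) +
        ∑ n ∈ (Icc 1 t).filter (fun n => n ≡ r [MOD q]), (mobZ (fv a b (c : ℕ) n) -
          lamZ (fv a b (c : ℕ) n) * hsq D (fv a b (c : ℕ) n)) := by
      rw [← sum_add_distrib]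
      exact sum_congr rfl fun n _ => by ring
    rw [e3]
    refine (abs_add_le _ _).trans ?_
    have : 0 < τ * x := by positivity
    linarith

end Pool.Agent.N792.CH
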