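import Pool.Agent.N792.CH.Stm

/-!
CH/GD (helper619): the product over the primes `p ∈ (w, z]` of `1 - 2 ρ_c(p) / p` is small for almost
all `c ≤ C`. Second moment over `c` for a fixed finite set of primes.
-/

set_option autoImplicit false

namespace Pool.Agent.N792.CH

open Finset Filter Topology
open Pool.Agent.N792 (Fn rho Rough R2 fv)

namespace GDp

lemma rho_eq (a b c : ℤ) (m : ℕ) [NeZero m] :
    rho a b c m = #{x : ZMod m | (a : ZMod m) * x ^ 2 + b * x + c = 0} := by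
  unfold rho
  refine card_bij' (fun r _ => (r : ZMod m)) (fun x _ => x.val) ?_ ?_ ?_ ?_
  · intro r hr
    rw [mem_filter] at hr
    have h := (ZMod.intCast_zmod_eq_zero_iff_dvd (fv a b c r) m).mpr hr.2
    unfold fv at h
    push_cast at h
    simp only [mem_filter, mem_univ, true_and]
    exact h
  · intro x hx
    simp only [mem_filter, mem_univ, true_and] at hx
    rw [mem_filter, mem_range]
    refine ⟨ZMod.val_lt x, ?_⟩
    rw [← ZMod.intCast_zmod_eq_zero_iff_dvd]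
    unfold fv
    push_cast
    rw [ZMod.natCast_zmod_val]
    exact hx
  · intro r hr
    rw [mem_filter, mem_range] at hr
    exact ZMod.val_natCast_of_lt hr.1
  · intro x _
    exact ZMod.natCast_zmod_val x

lemma rho_mul (a b c : ℤ) (m n : ℕ) (hm : m ≠ 0) (hn : n ≠ 0) (h : m.Coprime n) :
    rho a b c (m * n) = rho a b c m * rho a b c n := by
  have : NeZero m := ⟨hm⟩
  have : NeZero n := ⟨hn⟩
  have : NeZero (m * n) := ⟨mul_ne_zero hm hn⟩
  rw [rho_eq, rho_eq, rho_eq, ← card_product]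
  refine card_bij' (fun x _ => ZMod.chineseRemainder h x)
    (fun x _ => (ZMod.chineseRemainder h).symm x) ?_ ?_ ?_ ?_
  · intro x hx
    simp only [mem_filter, mem_univ, true_and] at hx
    have h2 := congrArg (ZMod.chineseRemainder h) hx
    rw [map_add, map_add, map_mul, map_mul, map_pow, map_intCast, map_intCast, map_intCast,
      map_zero] at h2
    rw [mem_product, mem_filter, mem_filter]
    have h3 := congrArg Prod.fst h2
    have h4 := congrArg Prod.snd h2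
    refine ⟨⟨mem_univ _, ?_⟩, ⟨mem_univ _, ?_⟩⟩
    · simpa using h3
    · simpa using h4
  · intro x hx
    rw [mem_product, mem_filter, mem_filter] at hx
    simp only [mem_filter, mem_univ, true_and]
    apply (ZMod.chineseRemainder h).injective
    rw [map_add, map_add, map_mul, map_mul, map_pow, map_intCast, map_intCast, map_intCast,
      map_zero, RingEquiv.apply_symm_apply]
    ext
    · simpa using hx.1.2
    · simpa using hx.2.2
  · intro x _
    exact (ZMod.chineseRemainder h).symm_apply_apply x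
  · intro x _
    exact (ZMod.chineseRemainder h).apply_symm_apply x

lemma rho_le_two (a b c : ℤ) (p : ℕ) (hp : p.Prime) (hpa : ¬ (p : ℤ) ∣ a) : rho a b c p ≤ 2 := by
  by_contra hlt
  push Not at hlt
  unfold rho at hlt
  rw [Finset.two_lt_card] at hlt
  obtain ⟨r1, h1, r2, h2, r3, h3, h12, h13, h23⟩ := hlt
  rw [mem_filter, mem_range] at h1 h2 h3
  have hpp : Prime (p : ℤ) := Nat.prime_iff_prime_int.1 hp
  have hdiff : ∀ x y : ℕ, x < p → y < p → x ≠ y → (p : ℤ) ∣ fv a b c x → (p : ℤ) ∣ fv a b c y →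
      (p : ℤ) ∣ a * (x + y) + b := by
    intro x y hx hy hxy hfx hfy
    have h4 : (p : ℤ) ∣ ((x : ℤ) - y) * (a * (x + y) + b) := by
      have := dvd_sub hfx hfy
      have h5 : fv a b c x - fv a b c y = ((x : ℤ) - y) * (a * (x + y) + b) := by unfold fv; ring
      rwa [h5] at this
    rcases hpp.dvd_or_dvd h4 with h5 | h5
    · exfalso
      have h6 : |(x : ℤ) - y| < p := by rw [abs_lt]; constructor <;> omega
      have h7 := Int.eq_zero_of_abs_lt_dvd h5 h6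
      omega
    · exact h5
  have e1 := hdiff r1 r2 h1.1 h2.1 h12 h1.2 h2.2
  have e2 := hdiff r1 r3 h1.1 h3.1 h13 h1.2 h3.2
  have e3 : (p : ℤ) ∣ a * ((r2 : ℤ) - r3) := by
    have := dvd_sub e1 e2
    have h5 : (a * ((r1 : ℤ) + r2) + b) - (a * (r1 + r3) + b) = a * ((r2 : ℤ) - r3) := by ring
    rwa [h5] at this
  rcases hpp.dvd_or_dvd e3 with h5 | h5
  · exact hpa h5
  · have h6 : |(r2 : ℤ) - r3| < p := by rw [abs_lt]; constructor <;> omega
    have h7 := Int.eq_zero_of_abs_lt_dvd h5 h6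
    omega

lemma card_class (C m r : ℕ) (hm : 1 ≤ m) :
    |(#((Ioc 0 C).filter (fun k => k ≡ r [MOD m])) : ℝ) - C / m| ≤ 1 := by
  have h := Nat.Ioc_filter_modEq_card 0 C (r := m) (by omega) r
  have hm0 : (0 : ℚ) < m := by exact_mod_cast hm
  set A : ℤ := ⌊((C : ℚ) - r) / m⌋ with hA
  set B : ℤ := ⌊(((0 : ℕ) : ℚ) - r) / m⌋ with hB
  have a1 : (A : ℚ) ≤ ((C : ℚ) - r) / m := Int.floor_le _
  have a2 : ((C : ℚ) - r) / m < A + 1 := Int.lt_floor_add_one _
  have b1 : (B : ℚ) ≤ (((0 : ℕ) : ℚ) - r) / m := Int.floor_le _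
  have b2 : (((0 : ℕ) : ℚ) - r) / m < B + 1 := Int.lt_floor_add_one _
  have e : ((C : ℚ) - r) / m = C / m + (((0 : ℕ) : ℚ) - r) / m := by push_cast; ring
  have c0 : (0 : ℚ) ≤ C / m := by positivity
  have d1 : (A : ℚ) - B < C / m + 1 := by linarith
  have d2 : (C : ℚ) / m - 1 < A - B := by linarith
  have d3 : 0 ≤ A - B := by
    have h1 : (-1 : ℚ) < ((A - B : ℤ) : ℚ) := by push_cast; linarith
    have h2 : (-1 : ℤ) < A - B := by exact_mod_cast h1
    omega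
  rw [max_eq_left d3] at h
  have h' : ((#((Ioc 0 C).filter (fun k => k ≡ r [MOD m])) : ℤ) : ℚ) = ((A - B : ℤ) : ℚ) := by
    rw [h]
  push_cast at h'
  have h3 : |((#((Ioc 0 C).filter (fun k => k ≡ r [MOD m])) : ℕ) : ℚ) - C / m| ≤ 1 := by
    rw [h', abs_le]
    constructor <;> linarith
  have h4 : ((|((#((Ioc 0 C).filter (fun k => k ≡ r [MOD m])) : ℕ) : ℚ) - C / m| : ℚ) : ℝ) ≤
      ((1 : ℚ) : ℝ) := by exact_mod_cast h3
  push_cast at h4
  exact h4

/-- the sum of `ρ_c(m)` over `c` -/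
lemma rho_sum (a b : ℤ) (C m : ℕ) (hm : 1 ≤ m) :
    |∑ c ∈ Icc 1 C, (rho a b (c : ℕ) m : ℝ) - C| ≤ m := by
  have hmR : (0 : ℝ) < m := by exact_mod_cast hm
  have h1 : ∀ c ∈ Icc 1 C, (rho a b (c : ℕ) m : ℝ) =
      ∑ v ∈ range m, if (m : ℤ) ∣ fv a b (c : ℕ) v then (1 : ℝ) else 0 := by
    intro c _
    unfold rho
    rw [card_filter]
    push_cast
    rfl
  rw [sum_congr rfl h1, sum_comm]
  have h2 : ∀ v ∈ range m,
      |∑ c ∈ Icc 1 C, (if (m : ℤ) ∣ fv a b (c : ℕ) v then (1 : ℝ) else 0) - C / m| ≤ 1 := by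
    intro v _
    rw [← sum_filter, sum_const, nsmul_eq_mul, mul_one]
    set r : ℕ := ((-(fv a b 0 v)) % (m : ℤ)).toNat with hr
    have hr0 : 0 ≤ (-(fv a b 0 v)) % (m : ℤ) := Int.emod_nonneg _ (by omega)
    have hr1 : (r : ℤ) = (-(fv a b 0 v)) % (m : ℤ) := Int.toNat_of_nonneg hr0
    have h3 : (Icc 1 C).filter (fun c : ℕ => (m : ℤ) ∣ fv a b (c : ℕ) v) =
        (Ioc 0 C).filter (fun k => k ≡ r [MOD m]) := by
      ext c
      rw [mem_filter, mem_filter, mem_Icc, mem_Ioc]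
      have h4 : (m : ℤ) ∣ fv a b (c : ℕ) v ↔ c ≡ r [MOD m] := by
        rw [← Int.natCast_modEq_iff, hr1]
        have h5 : (c : ℤ) ≡ (-(fv a b 0 v)) % (m : ℤ) [ZMOD m] ↔
            (c : ℤ) ≡ -(fv a b 0 v) [ZMOD m] :=
          ⟨fun h => h.trans (Int.mod_modEq _ _), fun h => h.trans (Int.mod_modEq _ _).symm⟩
        rw [h5]
        constructor
        · intro h
          refine (Int.modEq_iff_dvd.2 ?_)
          have h6 : -(fv a b 0 v) - (c : ℤ) = -(fv a b (c : ℕ) v) := by unfold fv; ring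
          rw [h6]
          exact (dvd_neg).2 h
        · intro h
          have h7 := Int.modEq_iff_dvd.1 h
          have h6 : -(fv a b 0 v) - (c : ℤ) = -(fv a b (c : ℕ) v) := by unfold fv; ring
          rw [h6] at h7
          exact (dvd_neg).1 h7
      rw [h4]
      constructor
      · rintro ⟨⟨h5, h6⟩, h7⟩
        exact ⟨⟨by omega, h6⟩, h7⟩
      · rintro ⟨⟨h5, h6⟩, h7⟩
        exact ⟨⟨by omega, h6⟩, h7⟩
    rw [h3]
    exact card_class C m r hm
  have h3 : ∑ v ∈ range m, ∑ c ∈ Icc 1 C, (if (m : ℤ) ∣ fv a b (c : ℕ) v then (1 : ℝ) else 0) - C =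
      ∑ v ∈ range m,
        (∑ c ∈ Icc 1 C, (if (m : ℤ) ∣ fv a b (c : ℕ) v then (1 : ℝ) else 0) - C / m) := by
    rw [sum_sub_distrib, sum_const, card_range, nsmul_eq_mul]
    congr 1
    field_simp
  rw [h3]
  refine (abs_sum_le_sum_abs _ _).trans ((sum_le_sum h2).trans ?_)
  rw [sum_const, card_range, nsmul_eq_mul, mul_one]

/-- the correlations -/
lemma corr (a b : ℤ) (C p q : ℕ) (hp : p.Prime) (hq : q.Prime) (hpq : p ≠ q) :
    ∑ c ∈ Icc 1 C, ((rho a b (c : ℕ) p : ℝ) - 1) * ((rho a b (c : ℕ) q : ℝ) - 1) ≤ 3 * (p * q) := by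
  have h1 := abs_le.1 (rho_sum a b C (p * q) (Nat.mul_pos hp.pos hq.pos))
  have h2 := abs_le.1 (rho_sum a b C p hp.pos)
  have h3 := abs_le.1 (rho_sum a b C q hq.pos)
  have h4 : ∀ c ∈ Icc 1 C, ((rho a b (c : ℕ) p : ℝ) - 1) * ((rho a b (c : ℕ) q : ℝ) - 1) =
      (rho a b (c : ℕ) (p * q) : ℝ) - rho a b (c : ℕ) p - rho a b (c : ℕ) q + 1 := by
    intro c _
    rw [rho_mul a b _ p q hp.ne_zero hq.ne_zero ((Nat.coprime_primes hp hq).2 hpq)]
    push_cast
    ring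
  rw [sum_congr rfl h4, sum_add_distrib, sum_sub_distrib, sum_sub_distrib, sum_const,
    Nat.card_Icc, Nat.add_sub_cancel, nsmul_eq_mul, mul_one]
  push_cast at h1
  have hp1 : (1 : ℝ) ≤ p := by exact_mod_cast hp.one_le
  have hq1 : (1 : ℝ) ≤ q := by exact_mod_cast hq.one_le
  have h5 : (p : ℝ) ≤ p * q := by nlinarith
  have h6 : (q : ℝ) ≤ p * q := by nlinarith
  linarith [h1.1, h1.2, h2.1, h2.2, h3.1, h3.2]

/-- the second moment -/
lemma second (a b : ℤ) (C : ℕ) (S : Finset ℕ) (hS : ∀ p ∈ S, p.Prime ∧ ¬ (p : ℤ) ∣ a) :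
    ∑ c ∈ Icc 1 C, (∑ p ∈ S, ((rho a b (c : ℕ) p : ℝ) - 1) / p) ^ 2 ≤
      C * ∑ p ∈ S, ((p : ℝ) ^ 2)⁻¹ + 3 * (#S : ℝ) ^ 2 := by
  have h1 : ∀ c ∈ Icc 1 C, (∑ p ∈ S, ((rho a b (c : ℕ) p : ℝ) - 1) / p) ^ 2 =
      ∑ p ∈ S, ∑ q ∈ S, (((rho a b (c : ℕ) p : ℝ) - 1) * ((rho a b (c : ℕ) q : ℝ) - 1)) *
        ((p : ℝ) * q)⁻¹ := by
    intro c _
    rw [sq, sum_mul_sum]
    refine sum_congr rfl fun p _ => sum_congr rfl fun q _ => ?_
    rw [mul_inv, div_eq_mul_inv, div_eq_mul_inv]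
    ring
  rw [sum_congr rfl h1, sum_comm]
  have h2 : ∀ p ∈ S, ∑ c ∈ Icc 1 C, ∑ q ∈ S,
      (((rho a b (c : ℕ) p : ℝ) - 1) * ((rho a b (c : ℕ) q : ℝ) - 1)) * ((p : ℝ) * q)⁻¹ ≤
      C * ((p : ℝ) ^ 2)⁻¹ + 3 * #S := by
    intro p hp
    rw [sum_comm]
    have hp0 : (0 : ℝ) < p := by exact_mod_cast (hS p hp).1.pos
    have h3 : ∀ q ∈ S, ∑ c ∈ Icc 1 C,
        (((rho a b (c : ℕ) p : ℝ) - 1) * ((rho a b (c : ℕ) q : ℝ) - 1)) * ((p : ℝ) * q)⁻¹ ≤
        (if q = p then C * ((p : ℝ) ^ 2)⁻¹ else 0) + 3 := by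
      intro q hq
      have hq0 : (0 : ℝ) < q := by exact_mod_cast (hS q hq).1.pos
      rw [← sum_mul]
      by_cases hqp : q = p
      · subst hqp
        rw [if_pos rfl]
        have h4 : ∑ c ∈ Icc 1 C, ((rho a b (c : ℕ) q : ℝ) - 1) * ((rho a b (c : ℕ) q : ℝ) - 1) ≤
            C := by
          have h5 : ∀ c ∈ Icc 1 C, ((rho a b (c : ℕ) q : ℝ) - 1) * ((rho a b (c : ℕ) q : ℝ) - 1) ≤
              1 := by
            intro c _
            have h6 := rho_le_two a b (c : ℕ) q (hS q hq).1 (hS q hq).2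
            have h7 : (rho a b (c : ℕ) q : ℝ) ≤ 2 := by exact_mod_cast h6
            have h8 : (0 : ℝ) ≤ rho a b (c : ℕ) q := Nat.cast_nonneg _
            nlinarith
          refine (sum_le_sum h5).trans ?_
          simp
        have h5 : (((q : ℝ) * q)⁻¹) = ((q : ℝ) ^ 2)⁻¹ := by rw [sq]
        rw [h5]
        have h6 : (0 : ℝ) ≤ ((q : ℝ) ^ 2)⁻¹ := by positivity
        have := mul_le_mul_of_nonneg_right h4 h6
        linarith
      · rw [if_neg hqp, zero_add]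
        have h4 := corr a b C p q (hS p hp).1 (hS q hq).1 (fun h => hqp h.symm)
        have h6 : (0 : ℝ) ≤ ((p : ℝ) * q)⁻¹ := by positivity
        refine (mul_le_mul_of_nonneg_right h4 h6).trans (le_of_eq ?_)
        field_simp
    refine (sum_le_sum h3).trans ?_
    rw [sum_add_distrib, sum_ite_eq' S p, if_pos hp, sum_const, nsmul_eq_mul]
    linarith
  refine (sum_le_sum h2).trans ?_
  rw [sum_add_distrib, ← mul_sum, sum_const, nsmul_eq_mul]
  apply le_of_eq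
  ring

lemma diverge (w : ℕ) (T : ℝ) : ∃ y : ℕ, T ≤ ∑ p ∈ (Ioc w y).filter Nat.Prime, 1 / (p : ℝ) := by
  set f : ℕ → ℝ := Set.indicator {p : ℕ | p.Prime} (fun n : ℕ => (1 : ℝ) / n) with hf
  have hf0 : ∀ n, 0 ≤ f n := by
    intro n
    rw [hf]
    exact Set.indicator_nonneg (fun _ _ => by positivity) n
  have h1 := (not_summable_iff_tendsto_nat_atTop_of_nonneg hf0).1 not_summable_one_div_on_primes
  obtain ⟨N, hN1, hN2⟩ := ((h1.eventually_ge_atTop (T + ∑ i ∈ range (w + 1), f i)).and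
    (eventually_ge_atTop (w + 1))).exists
  refine ⟨N - 1, ?_⟩
  have h2 : ∑ p ∈ (Ioc w (N - 1)).filter Nat.Prime, 1 / (p : ℝ) = ∑ p ∈ Ioc w (N - 1), f p := by
    rw [sum_filter]
    refine sum_congr rfl fun p _ => ?_
    rw [hf, Set.indicator_apply]
    rfl
  have h3 : ∑ i ∈ range N, f i = ∑ i ∈ range (w + 1), f i + ∑ p ∈ Ioc w (N - 1), f p := by
    have h4 : range N = range (w + 1) ∪ Ioc w (N - 1) := by
      ext i
      simp only [mem_union, mem_range, mem_Ioc]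
      omega
    rw [h4, sum_union]
    rw [Finset.disjoint_left]
    intro i hi hi'
    simp only [mem_range, mem_Ioc] at hi hi'
    omega
  rw [h2]
  linarith

end GDp

open GDp in
theorem gd (a : ℤ) (ha : 0 < a) (b : ℤ) : GD a b := by
  intro w τ η hw hτ hη
  set T : ℝ := 1 + 2 / τ with hT
  have hτ2 : 0 < 2 / τ := by positivity
  have hT1 : 1 ≤ T := by linarith
  have hT2 : 2 / τ ≤ T ^ 2 := by nlinarith
  have hT3 : Real.exp (-(2 * T)) ≤ τ := by
    have h1 : 2 * T + 1 ≤ Real.exp (2 * T) := Real.add_one_le_exp _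
    have h2 : 1 / τ ≤ Real.exp (2 * T) := by
      have : 1 / τ ≤ 2 / τ := by gcongr; norm_num
      linarith
    rw [Real.exp_neg]
    rw [inv_le_comm₀ (Real.exp_pos _) hτ, ← one_div]
    exact h2
  obtain ⟨y, hy⟩ := diverge w (2 * T)
  set S : Finset ℕ := (Ioc w y).filter Nat.Prime with hS
  have hSp : ∀ p ∈ S, p.Prime ∧ w < p ∧ p ≤ y := by
    intro p hp
    rw [hS, mem_filter, mem_Ioc] at hp
    exact ⟨hp.2, hp.1⟩
  have hdvd : ∀ p : ℕ, w < p → ¬ (p : ℤ) ∣ a := by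
    intro p hp h
    have h1 := Int.natAbs_dvd_natAbs.2 h
    rw [Int.natAbs_natCast] at h1
    have h2 := Nat.le_of_dvd (Int.natAbs_pos.2 ha.ne') h1
    omega
  have hsum1 : ∑ p ∈ S, ((p : ℝ) ^ 2)⁻¹ ≤ 1 := by
    have h1 : S ⊆ Ioo w (y + 1) := by
      intro p hp
      have := hSp p hp
      rw [mem_Ioo]
      omega
    have h2 := sum_Ioo_inv_sq_le (α := ℝ) w (y + 1)
    have h3 : ∑ p ∈ S, ((p : ℝ) ^ 2)⁻¹ ≤ ∑ p ∈ Ioo w (y + 1), ((p : ℝ) ^ 2)⁻¹ :=
      sum_le_sum_of_subset_of_nonneg h1 fun _ _ _ => by positivity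
    have h4 : (2 : ℝ) / (w + 1) ≤ 1 := by
      rw [div_le_one (by positivity)]
      have : (4 : ℝ) ≤ w := by
        have : 4 ≤ w := by omega
        exact_mod_cast this
      linarith
    linarith
  have hev : ∀ᶠ x : ℕ in atTop, (y : ℝ) ≤ (x : ℝ) ^ η ∧ 3 * (#S : ℝ) ^ 2 ≤ (x : ℝ) ^ (1 / 2 : ℝ) := by
    have h1 := ((tendsto_rpow_atTop hη).comp tendsto_natCast_atTop_atTop).eventually_ge_atTop (y : ℝ)
    have h2 := ((tendsto_rpow_atTop (by norm_num : (0 : ℝ) < 1 / 2)).comp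
      tendsto_natCast_atTop_atTop).eventually_ge_atTop (3 * (#S : ℝ) ^ 2)
    filter_upwards [h1, h2] with x hx1 hx2
    exact ⟨hx1, hx2⟩
  obtain ⟨x0, hx0⟩ := eventually_atTop.1 hev
  refine ⟨x0, fun x hx C z hC hz => ?_⟩
  obtain ⟨hx1, hx2⟩ := hx0 x hx
  have hyz : y ≤ z := by
    have : (y : ℝ) ≤ z := hx1.trans hz
    exact_mod_cast this
  have hCS : 3 * (#S : ℝ) ^ 2 ≤ C := hx2.trans hC
  set f : ℕ → ℝ := fun c => ∑ p ∈ S, ((rho a b (c : ℕ) p : ℝ) - 1) / p with hf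
  -- the exceptional set
  have hsub : (Icc 1 C).filter (fun c : ℕ =>
      τ < ∏ p ∈ (Ioc w z).filter Nat.Prime, (1 - 2 * (rho a b c p : ℝ) / p)) ⊆
      (Icc 1 C).filter (fun c : ℕ => T ^ 2 ≤ f c ^ 2) := by
    intro c hc
    rw [mem_filter] at hc ⊢
    refine ⟨hc.1, ?_⟩
    by_contra hcon
    push Not at hcon
    have h1 : -T ≤ f c := by
      have := abs_lt_of_sq_lt_sq hcon (by linarith)
      exact (abs_lt.1 this).1.le
    have hrange : ∀ p : ℕ, p.Prime → w < p →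
        0 ≤ 1 - 2 * (rho a b c p : ℝ) / p ∧ 1 - 2 * (rho a b c p : ℝ) / p ≤ 1 := by
      intro p hp hpw
      have hp0 : (0 : ℝ) < p := by exact_mod_cast hp.pos
      have h2 := rho_le_two a b (c : ℕ) p hp (hdvd p hpw)
      have h3 : (rho a b c p : ℝ) ≤ 2 := by exact_mod_cast h2
      have h4 : (4 : ℝ) ≤ p := by
        have : 4 ≤ p := by omega
        exact_mod_cast this
      have h5 : 2 * (rho a b c p : ℝ) / p ≤ 1 := by
        rw [div_le_one hp0]
        linarith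
      have h6 : 0 ≤ 2 * (rho a b c p : ℝ) / p := by positivity
      constructor <;> linarith
    have h2 : ∏ p ∈ (Ioc w z).filter Nat.Prime, (1 - 2 * (rho a b c p : ℝ) / p) ≤
        ∏ p ∈ S, (1 - 2 * (rho a b c p : ℝ) / p) := by
      have hSS : S ⊆ (Ioc w z).filter Nat.Prime := by
        intro p hp
        have := hSp p hp
        rw [mem_filter, mem_Ioc]
        exact ⟨⟨this.2.1, this.2.2.trans hyz⟩, this.1⟩
      rw [← prod_sdiff hSS]
      have h7 : ∏ p ∈ (Ioc w z).filter Nat.Prime \ S, (1 - 2 * (rho a b c p : ℝ) / p) ≤ 1 := by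
        refine prod_le_one ?_ ?_
        · intro p hp
          rw [Finset.mem_sdiff, mem_filter, mem_Ioc] at hp
          exact (hrange p hp.1.2 hp.1.1.1).1
        · intro p hp
          rw [Finset.mem_sdiff, mem_filter, mem_Ioc] at hp
          exact (hrange p hp.1.2 hp.1.1.1).2
      have h8 : 0 ≤ ∏ p ∈ S, (1 - 2 * (rho a b c p : ℝ) / p) :=
        prod_nonneg fun p hp => (hrange p (hSp p hp).1 (hSp p hp).2.1).1
      exact (mul_le_mul_of_nonneg_right h7 h8).trans (le_of_eq (one_mul _))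
    have h3 : ∏ p ∈ S, (1 - 2 * (rho a b c p : ℝ) / p) ≤
        Real.exp (-∑ p ∈ S, 2 * (rho a b c p : ℝ) / p) := by
      rw [← sum_neg_distrib, Real.exp_sum]
      refine prod_le_prod (fun p hp => (hrange p (hSp p hp).1 (hSp p hp).2.1).1) fun p hp => ?_
      have := Real.add_one_le_exp (-(2 * (rho a b c p : ℝ) / p))
      linarith
    have h4 : T ≤ ∑ p ∈ S, (rho a b c p : ℝ) / p := by
      have h5 : f c = ∑ p ∈ S, (rho a b c p : ℝ) / p - ∑ p ∈ S, 1 / (p : ℝ) := by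
        rw [hf, ← sum_sub_distrib]
        refine sum_congr rfl fun p _ => ?_
        rw [sub_div]
      linarith
    have h5 : ∑ p ∈ S, 2 * (rho a b c p : ℝ) / p = 2 * ∑ p ∈ S, (rho a b c p : ℝ) / p := by
      rw [mul_sum]
      refine sum_congr rfl fun p _ => ?_
      rw [mul_div_assoc]
    have h6 : Real.exp (-∑ p ∈ S, 2 * (rho a b c p : ℝ) / p) ≤ Real.exp (-(2 * T)) := by
      apply Real.exp_le_exp.2
      rw [h5]
      linarith
    have := hc.2
    linarith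
  have hcard : (#((Icc 1 C).filter (fun c : ℕ => T ^ 2 ≤ f c ^ 2)) : ℝ) * T ^ 2 ≤
      C + 3 * (#S : ℝ) ^ 2 := by
    have h1 : (#((Icc 1 C).filter (fun c : ℕ => T ^ 2 ≤ f c ^ 2)) : ℝ) * T ^ 2 ≤
        ∑ c ∈ Icc 1 C, f c ^ 2 := by
      rw [← nsmul_eq_mul, ← sum_const]
      refine (sum_le_sum fun c hc => (mem_filter.1 hc).2).trans ?_
      exact sum_le_sum_of_subset_of_nonneg (filter_subset _ _) fun _ _ _ => sq_nonneg _
    have h2 := second a b C S fun p hp => ⟨(hSp p hp).1, hdvd p (hSp p hp).2.1⟩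
    have h3 : (C : ℝ) * ∑ p ∈ S, ((p : ℝ) ^ 2)⁻¹ ≤ C * 1 :=
      mul_le_mul_of_nonneg_left hsum1 (Nat.cast_nonneg _)
    linarith
  have hle : (#((Icc 1 C).filter (fun c : ℕ =>
      τ < ∏ p ∈ (Ioc w z).filter Nat.Prime, (1 - 2 * (rho a b c p : ℝ) / p))) : ℝ) ≤
      #((Icc 1 C).filter (fun c : ℕ => T ^ 2 ≤ f c ^ 2)) := by
    exact_mod_cast card_le_card hsub
  refine hle.trans ?_
  have hC0 : (0 : ℝ) ≤ C := Nat.cast_nonneg _
  have h1 : (#((Icc 1 C).filter (fun c : ℕ => T ^ 2 ≤ f c ^ 2)) : ℝ) * (2 / τ) ≤ 2 * C := by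
    have h2 : (#((Icc 1 C).filter (fun c : ℕ => T ^ 2 ≤ f c ^ 2)) : ℝ) * (2 / τ) ≤
        (#((Icc 1 C).filter (fun c : ℕ => T ^ 2 ≤ f c ^ 2)) : ℝ) * T ^ 2 :=
      mul_le_mul_of_nonneg_left hT2 (Nat.cast_nonneg _)
    linarith
  rw [← mul_div_assoc, div_le_iff₀ hτ] at h1
  linarith

end Pool.Agent.N792.CH
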