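import Mathlib
import Pool.Agent.N792.CH.MvA
import Pool.Agent.N792.LamB
import Pool.Agent.N792.Rav

/-!
Assembly of the main estimate, part B: the parameters (helper792).
-/

set_option autoImplicit false

namespace Pool.Agent.N792.CH

open Finset Filter Topology
open Pool.Agent.N792 (Fn rho Rough R2)
open Pool.Agent.N791.C2 (lam)

/-- the choice of `η` -/
lemma par_eta (K1 K2 δ τ : ℝ) (hK1 : 1 ≤ K1) (hK2 : 0 < K2) (hδ : 0 < δ) (hτ : 0 < τ) : ∃ η1 : ℝ, 0 < η1 ∧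
    ∀ η : ℝ, 0 < η → η ≤ η1 → K1 * (2 : ℝ) ^ (-(δ / (K1 * η))) / η ^ 2 ≤ τ ∧
      4 * (3 : ℝ) ^ (6 / η) * (K2 * Real.exp (-(8 / η))) ≤ τ := by
  have hl2 : 0 < Real.log 2 := Real.log_pos (by norm_num)
  obtain ⟨q, hq⟩ : ∃ q : ℝ, q = Real.log 2 * δ / K1 := ⟨_, rfl⟩
  have hq0 : 0 < q := by rw [hq]; positivity
  refine ⟨min (τ * q ^ 3 / (6 * K1)) (τ / (4 * K2)), lt_min (by positivity) (by positivity), fun η hη hη1 => ⟨?_, ?_⟩⟩
  · have h1 : η ≤ τ * q ^ 3 / (6 * K1) := hη1.trans (min_le_left _ _)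
    have h2 : (2 : ℝ) ^ (-(δ / (K1 * η))) = Real.exp (-(q / η)) := by
      rw [Real.rpow_def_of_pos (by norm_num)]
      congr 1
      rw [hq]
      field_simp
    have h3 : (q / η) ^ 3 / 6 ≤ Real.exp (q / η) := by
      have := Real.pow_div_factorial_le_exp (q / η) (by positivity) 3
      norm_num [Nat.factorial] at this
      exact this
    have h4 : Real.exp (-(q / η)) ≤ 6 * η ^ 3 / q ^ 3 := by
      rw [Real.exp_neg, ← one_div, div_le_div_iff₀ (Real.exp_pos _) (by positivity)]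
      have h5 : q ^ 3 = ((q / η) ^ 3 / 6) * (6 * η ^ 3) := by field_simp
      rw [one_mul]
      calc q ^ 3 = ((q / η) ^ 3 / 6) * (6 * η ^ 3) := h5
        _ ≤ Real.exp (q / η) * (6 * η ^ 3) := mul_le_mul_of_nonneg_right h3 (by positivity)
        _ = 6 * η ^ 3 * Real.exp (q / η) := by ring
    rw [h2, div_le_iff₀ (by positivity)]
    calc K1 * Real.exp (-(q / η)) ≤ K1 * (6 * η ^ 3 / q ^ 3) := mul_le_mul_of_nonneg_left h4 (by linarith)
      _ = (6 * K1 / q ^ 3) * η * η ^ 2 := by ring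
      _ ≤ (6 * K1 / q ^ 3) * (τ * q ^ 3 / (6 * K1)) * η ^ 2 := by
          have : 0 ≤ 6 * K1 / q ^ 3 := by positivity
          exact mul_le_mul_of_nonneg_right (mul_le_mul_of_nonneg_left h1 this) (by positivity)
      _ = τ * η ^ 2 := by
          have : K1 ≠ 0 := by linarith
          field_simp
  · have h1 : η ≤ τ / (4 * K2) := hη1.trans (min_le_right _ _)
    have h3 : (3 : ℝ) ^ (6 / η) ≤ Real.exp (7 / η) := by
      have e1 : (3 : ℝ) ^ (6 / η) = ((3 : ℝ) ^ (6 : ℝ)) ^ (1 / η) := by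
        rw [← Real.rpow_mul (by norm_num)]; congr 1; ring
      have e2 : Real.exp (7 / η) = (Real.exp 7) ^ (1 / η) := by
        rw [← Real.exp_mul]; congr 1; ring
      rw [e1, e2]
      apply Real.rpow_le_rpow (by positivity) _ (by positivity)
      have e3 : (3 : ℝ) ^ (6 : ℝ) = 729 := by
        rw [show (6 : ℝ) = ((6 : ℕ) : ℝ) by norm_num, Real.rpow_natCast]; norm_num
      have e4 : Real.exp 7 = Real.exp 1 ^ 7 := by rw [← Real.exp_nat_mul]; norm_num
      rw [e3, e4]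
      have e5 : (2.7 : ℝ) ≤ Real.exp 1 := by linarith [Real.exp_one_gt_d9]
      calc (729 : ℝ) ≤ 2.7 ^ 7 := by norm_num
        _ ≤ Real.exp 1 ^ 7 := pow_le_pow_left₀ (by norm_num) e5 7
    have h4 : Real.exp (7 / η) * Real.exp (-(8 / η)) = Real.exp (-(1 / η)) := by
      rw [← Real.exp_add]; congr 1; ring
    have h5 : Real.exp (-(1 / η)) ≤ η := by
      rw [Real.exp_neg, ← one_div, div_le_iff₀ (Real.exp_pos _)]
      have := Real.add_one_le_exp (1 / η)
      calc (1 : ℝ) = η * (1 / η) := by field_simp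
        _ ≤ η * Real.exp (1 / η) := mul_le_mul_of_nonneg_left (by linarith) hη.le
    calc 4 * (3 : ℝ) ^ (6 / η) * (K2 * Real.exp (-(8 / η))) ≤ 4 * Real.exp (7 / η) * (K2 * Real.exp (-(8 / η))) := by
          gcongr
      _ = 4 * K2 * (Real.exp (7 / η) * Real.exp (-(8 / η))) := by ring
      _ = 4 * K2 * Real.exp (-(1 / η)) := by rw [h4]
      _ ≤ 4 * K2 * η := mul_le_mul_of_nonneg_left h5 (by positivity)
      _ ≤ 4 * K2 * (τ / (4 * K2)) := mul_le_mul_of_nonneg_left h1 (by positivity)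
      _ = τ := by field_simp

/-- the periodic function -/
lemma psi_per (hPS : PS) {a : ℤ} (ha : 0 < a) (b : ℤ) (w k : ℕ) : ∃ ψ : ℕ → ℕ → ℝ, (∀ c n, |ψ c n| ≤ 1) ∧
    (∀ c n n', n ≡ n' [MOD Pw w k] → ψ c n = ψ c n') ∧
    ∀ c n, 1 ≤ c → b.natAbs ≤ n → psi w k (Fn a b n + c) = ψ c n := by
  have hP : 0 < Pw w k := prod_pos fun p hp => pow_pos (mem_filter.1 hp).2.pos _
  refine ⟨fun c n => psi w k (Fn a b (n % Pw w k + Pw w k * b.natAbs) + c), fun c n => psi_abs _ _ _,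
    fun c n n' h => ?_, fun c n hc hn => ?_⟩
  · simp only
    rw [show n % Pw w k = n' % Pw w k from h]
  · simp only
    apply hPS w k _ _ (by omega) (by omega)
    apply Nat.ModEq.add_right
    have hn' : b.natAbs ≤ n % Pw w k + Pw w k * b.natAbs := by
      have : b.natAbs ≤ Pw w k * b.natAbs := Nat.le_mul_of_pos_left _ hP
      omega
    have h1 : n ≡ n % Pw w k + Pw w k * b.natAbs [MOD Pw w k] := by
      unfold Nat.ModEq
      rw [Nat.add_mul_mod_self_left, Nat.mod_mod]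
    have h2 : (n : ℤ) ≡ ((n % Pw w k + Pw w k * b.natAbs : ℕ) : ℤ) [ZMOD (Pw w k : ℤ)] := Int.natCast_modEq_iff.2 h1
    have h3 : ((Fn a b n : ℕ) : ℤ) = a * (n : ℤ) ^ 2 + b * n := by exact_mod_cast Mtm.Fn_cast (b := b) ha hn
    have h4 : ((Fn a b (n % Pw w k + Pw w k * b.natAbs) : ℕ) : ℤ) =
        a * (((n % Pw w k + Pw w k * b.natAbs : ℕ) : ℤ)) ^ 2 + b * ((n % Pw w k + Pw w k * b.natAbs : ℕ) : ℤ) := by
      exact_mod_cast Mtm.Fn_cast (b := b) ha hn'
    apply Int.natCast_modEq_iff.1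
    rw [h3, h4]
    exact ((h2.pow 2).mul_left a).add (h2.mul_left b)

end Pool.Agent.N792.CH
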