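import Mathlib
import Pool.Agent.N792.CH.MvB

/-!
Assembly of the main estimate, part C (helper792).
-/

set_option autoImplicit false

namespace Pool.Agent.N792.CH

open Finset Filter Topology
open Pool.Agent.N792 (Fn rho Rough R2)
open Pool.Agent.N791.C2 (lam)

open Classical in
theorem mv (a : ℤ) (ha : 0 < a) (b : ℤ) (hBL : BL) (hBP : BP) (hPS : PS) (hBS : BS a b) (hWN : WN a b) (hTS : TS a b)
    (hT2 : T2 a b) (hPW : PW) (hPV : PV) : MV a b := by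
  intro ε τ R hε hτ
  obtain ⟨ε0, hε0d⟩ : ∃ ε0 : ℝ, ε0 = min ε (1 / 6) := ⟨_, rfl⟩
  have hε0 : 0 < ε0 := by rw [hε0d]; exact lt_min hε (by norm_num)
  have hε06 : ε0 ≤ 1 / 6 := by rw [hε0d]; exact min_le_right _ _
  have hε0ε : ε0 ≤ ε := by rw [hε0d]; exact min_le_left _ _
  obtain ⟨δ, hδd⟩ : ∃ δ : ℝ, δ = ε0 / 4 := ⟨_, rfl⟩
  have hδ : 0 < δ := by rw [hδd]; linarith
  have hδ1 : δ ≤ 1 / 20 := by rw [hδd]; linarith
  obtain ⟨K1, hK1, HTS⟩ := hTS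
  obtain ⟨η1, hη1, hη1', HTS1⟩ := HTS δ hδ hδ1
  obtain ⟨K2, hK2, HBL⟩ := hBL (8 / δ) (by rw [le_div_iff₀ hδ]; linarith)
  obtain ⟨K3, hK3, HWN⟩ := hWN
  obtain ⟨η2, hη2, hη2'⟩ := par_eta K1 K2 δ (τ / 16) hK1 hK2 hδ (by linarith)
  obtain ⟨η, hηd⟩ : ∃ η : ℝ, η = min η1 η2 := ⟨_, rfl⟩
  have hη : 0 < η := by rw [hηd]; exact lt_min hη1 hη2
  have hηη1 : η ≤ η1 := by rw [hηd]; exact min_le_left _ _
  have hη10 : η ≤ 1 / 10 := hηη1.trans hη1'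
  obtain ⟨E1, E2⟩ := hη2' η hη (by rw [hηd]; exact min_le_right _ _)
  obtain ⟨W, hWd⟩ : ∃ W : ℝ, W = 4 * (3 : ℝ) ^ (6 / η) := ⟨_, rfl⟩
  have h3η : 1 ≤ (3 : ℝ) ^ (6 / η) := Real.one_le_rpow (by norm_num) (by positivity)
  have hW : 0 < W := by rw [hWd]; positivity
  rw [← hWd] at E2
  obtain ⟨ε', hε'd⟩ : ∃ ε' : ℝ, ε' = min (ε0 / 100) (min (1 / 400) (τ * η ^ 2 / (64 * W * K3))) := ⟨_, rfl⟩
  have hε' : 0 < ε' := by rw [hε'd]; exact lt_min (by linarith) (lt_min (by norm_num) (by positivity))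
  have hε'1 : ε' ≤ ε0 / 100 := by rw [hε'd]; exact min_le_left _ _
  have hε'2 : ε' ≤ 1 / 400 := by rw [hε'd]; exact (min_le_right _ _).trans (min_le_left _ _)
  have hε'3 : ε' ≤ τ * η ^ 2 / (64 * W * K3) := by rw [hε'd]; exact (min_le_right _ _).trans (min_le_right _ _)
  have hB5 : W * (K3 * (4 * ε' / η ^ 2)) ≤ τ / 16 := by
    rw [le_div_iff₀ (by positivity)] at hε'3
    have h1 : W * (K3 * (4 * ε' / η ^ 2)) = (ε' * (64 * W * K3)) / (16 * η ^ 2) := by field_simp; ring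
    rw [h1, div_le_div_iff₀ (by positivity) (by norm_num)]
    linarith
  have hB4 : W * (K3 * (ε' / η ^ 2)) ≤ τ / 16 := by
    refine le_trans ?_ hB5
    have : ε' / η ^ 2 ≤ 4 * ε' / η ^ 2 := by gcongr; linarith
    exact mul_le_mul_of_nonneg_left (mul_le_mul_of_nonneg_left this hK3.le) hW.le
  obtain ⟨κ, hκd⟩ : ∃ κ : ℝ, κ = ε' * η / 6 := ⟨_, rfl⟩
  have hκ : 0 < κ := by rw [hκd]; positivity
  have hκκ : κ * (6 / η) ≤ ε' := by rw [hκd]; field_simp; exact le_rfl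
  obtain ⟨w, hwd⟩ : ∃ w : ℕ, w = max (a.natAbs + 4) ⌈48 * W / τ⌉₊ := ⟨_, rfl⟩
  have hwa : a.natAbs + 4 ≤ w := by rw [hwd]; exact le_max_left _ _
  have hw1 : 1 ≤ w := by omega
  have hwr : (0 : ℝ) < w := by exact_mod_cast hw1
  have hB2 : W * (3 / w) ≤ τ / 16 := by
    have h1 : 48 * W / τ ≤ w := by
      have : ((⌈48 * W / τ⌉₊ : ℕ) : ℝ) ≤ w := by rw [hwd]; exact_mod_cast le_max_right _ _
      exact (Nat.le_ceil _).trans this
    rw [div_le_iff₀ hτ] at h1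
    have h2 : W * (3 / w) = 3 * W / w := by ring
    rw [h2, div_le_div_iff₀ hwr (by norm_num)]
    linarith
  obtain ⟨k, hk⟩ : ∃ k : ℕ, (1 / 2 : ℝ) ^ k < τ / (32 * W * w) :=
    exists_pow_lt_of_lt_one (by positivity) (by norm_num)
  have hB3 : W * (2 * w / 2 ^ k) ≤ τ / 16 := by
    have h1 : W * (2 * w / 2 ^ k) = (2 * W * w) * (1 / 2 : ℝ) ^ k := by
      rw [div_pow, one_pow]; ring
    rw [h1]
    calc (2 * W * w) * (1 / 2 : ℝ) ^ k ≤ (2 * W * w) * (τ / (32 * W * w)) :=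
          mul_le_mul_of_nonneg_left hk.le (by positivity)
      _ = τ / 16 := by field_simp; norm_num
  have hP1 : 1 ≤ Pw w k := Nat.succ_le_of_lt (prod_pos fun p hp => pow_pos (mem_filter.1 hp).2.pos _)
  have hPp : ∀ p : ℕ, p.Prime → p ∣ Pw w k → p ≤ w := by
    intro p hp hd
    unfold Pw at hd
    obtain ⟨q, hq, hqd⟩ := (Prime.dvd_finsetProd_iff hp.prime _).1 hd
    rw [mem_filter, mem_Icc] at hq
    have := (Nat.prime_dvd_prime_iff_eq hp hq.2).1 (hp.dvd_of_dvd_pow hqd)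
    omega
  obtain ⟨ψ, hψ1, hψ2, hψ3⟩ := psi_per hPS ha b w k
  obtain ⟨xa, Ha⟩ := HTS1 η hη hηη1 w (Pw w k) hwa hP1 hPp (τ / 16) R (by linarith)
  obtain ⟨xb, Hb⟩ := HBL δ η hδ (by linarith) hη hη10
  obtain ⟨xc, Hc⟩ := hBP w k
  obtain ⟨xd, Hd⟩ := hBS R w hw1
  obtain ⟨xe, He⟩ := HWN R η ε' hη hη10 hε' (by linarith)
  obtain ⟨xf, Hf⟩ := HWN R η (4 * ε') hη hη10 (by linarith) (by linarith)
  obtain ⟨xg, Hg⟩ := hT2 ε' η κ ε' (τ / 16) R hε' (by linarith) hη hη10 (by linarith) hκ hκκ le_rfl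
  obtain ⟨c0, A, hc0, hA, X0, hX0⟩ := Lam.range_bd a ha b R
  obtain ⟨es, hes⟩ : ∃ es : ℝ, es = 2 / 3 + ε' - ε0 := ⟨_, rfl⟩
  have hes0 : 0 < es := by rw [hes]; linarith
  have ev1 := Lam.pow_ev 2 0 η hη
  have ev2 := Lam.pow_ev w 0 (η / 2) (by linarith)
  have ev3 := Lam.pow_ev 2 es (3 / 4) (by rw [hes]; linarith)
  have ev4 := Lam.pow_ev (16 * Pw w k / c0) (3 * es + δ) 2 (by rw [hes, hδd]; linarith)
  have ev5 := Lam.pow_ev A 2 (2 + 2 * (2 * ε')) (by linarith)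
  have ev6 := Lam.pow_ev A 2 3 (by norm_num)
  obtain ⟨xh, Hh⟩ := eventually_atTop.1 (((((ev1.and ev2).and ev3).and ev4).and ev5).and ev6)
  refine ⟨xa + xb + xc + xd + xe + xf + xg + X0 + xh + 2, fun x hx x1 C hx1 hxR hC hCx => ?_⟩
  have ga : xa ≤ x := by omega
  have gb : xb ≤ x := by omega
  have gc : xc ≤ x := by omega
  have gd : xd ≤ x := by omega
  have ge : xe ≤ x := by omega
  have gf : xf ≤ x := by omega
  have gg : xg ≤ x := by omega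
  have gX : X0 ≤ x := by omega
  have gh : xh ≤ x := by omega
  have hx2 : 2 ≤ x := by omega
  obtain ⟨⟨⟨⟨⟨f1, f2⟩, f3⟩, f4⟩, f5⟩, f6⟩ := Hh x gh
  obtain ⟨hbx, hr1, hr2⟩ := hX0 x gX x1 hx1 hxR
  have hx2r : (2 : ℝ) ≤ x := by exact_mod_cast hx2
  have hxp : (0 : ℝ) < x := by linarith
  have hx1' : (1 : ℝ) ≤ x := by linarith
  rw [Real.rpow_zero, mul_one] at f1 f2
  -- the level
  obtain ⟨J, hJ1, hJ2⟩ := exists_level ((x : ℝ) ^ η) f1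
  obtain ⟨z, hzd⟩ : ∃ z : ℕ, z = 2 ^ 2 ^ J := ⟨_, rfl⟩
  have hz1 : (x : ℝ) ^ (η / 2) ≤ ((2 ^ 2 ^ J : ℕ) : ℝ) := by
    have h1 : ((x : ℝ) ^ (η / 2)) ^ 2 = (x : ℝ) ^ η := by
      rw [← Real.rpow_natCast, ← Real.rpow_mul hxp.le]; congr 1; push_cast; ring
    rw [← h1] at hJ2
    exact le_of_sq_le_sq hJ2 (by positivity)
  have hwz : w ≤ 2 ^ 2 ^ J := by exact_mod_cast f2.trans hz1
  -- the range of `C`
  have hCe : (x : ℝ) ^ (5 / 6 + ε0) ≤ C := (Real.rpow_le_rpow_of_exponent_le hx1' (by linarith)).trans hC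
  have hCle : ∀ e : ℝ, e ≤ 5 / 6 → (x : ℝ) ^ e ≤ C := fun e he =>
    (Real.rpow_le_rpow_of_exponent_le hx1' (by linarith)).trans hCe
  have hCp : (0 : ℝ) < C := lt_of_lt_of_le (by positivity) hCe
  -- the number `s`
  obtain ⟨s, hsd⟩ : ∃ s : ℕ, s = ⌈(x : ℝ) ^ (3 / 2 + ε') / C⌉₊ := ⟨_, rfl⟩
  have hs1 : (x : ℝ) ^ (3 / 2 + ε') / C ≤ s := by rw [hsd]; exact Nat.le_ceil _
  have hs2 : (s : ℝ) ≤ (x : ℝ) ^ (3 / 2 + ε') / C + 1 := by rw [hsd]; exact (Nat.ceil_lt_add_one (by positivity)).le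
  have hCs : (x : ℝ) ^ (3 / 2 + ε') ≤ C * s := by
    rw [div_le_iff₀ hCp] at hs1; linarith
  have hs3 : (s : ℝ) ≤ 2 * (x : ℝ) ^ es := by
    have h1 : (x : ℝ) ^ (3 / 2 + ε') / C ≤ (x : ℝ) ^ es := by
      rw [div_le_iff₀ hCp]
      calc (x : ℝ) ^ (3 / 2 + ε') = (x : ℝ) ^ es * (x : ℝ) ^ (5 / 6 + ε0) := by
            rw [← Real.rpow_add hxp]; congr 1; rw [hes]; ring
        _ ≤ (x : ℝ) ^ es * C := mul_le_mul_of_nonneg_left hCe (by positivity)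
    have h2 : (1 : ℝ) ≤ (x : ℝ) ^ es := Real.one_le_rpow hx1' hes0.le
    linarith
  have hs4 : (s : ℝ) ≤ (x : ℝ) ^ (3 / 4 : ℝ) := hs3.trans f3
  have hs5 : (s : ℝ) ≤ (x : ℝ) ^ (1 - 2 * ε') :=
    hs4.trans (Real.rpow_le_rpow_of_exponent_le hx1' (by linarith))
  have hCxr : (C : ℝ) ≤ x := by exact_mod_cast hCx
  have hs6 : (x : ℝ) ^ (1 / 2 : ℝ) ≤ s := by
    refine le_trans ?_ hs1
    rw [le_div_iff₀ hCp]
    calc (x : ℝ) ^ (1 / 2 : ℝ) * C ≤ (x : ℝ) ^ (1 / 2 : ℝ) * (x : ℝ) ^ (1 : ℝ) := by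
          rw [Real.rpow_one]; exact mul_le_mul_of_nonneg_left hCxr (by positivity)
      _ = (x : ℝ) ^ (3 / 2 : ℝ) := by rw [← Real.rpow_add hxp]; norm_num
      _ ≤ (x : ℝ) ^ (3 / 2 + ε') := Real.rpow_le_rpow_of_exponent_le hx1' (by linarith)
  have hs7 : 1 ≤ s := by
    have h1 : (1 : ℝ) ≤ s := (Real.one_le_rpow hx1' (by norm_num)).trans hs6
    exact_mod_cast h1
  -- the range of the values
  have hv1 : ∀ c ∈ Icc 1 C, ∀ n ∈ Ioc x1 x, c0 * (x : ℝ) ^ 2 ≤ ((Fn a b n + c : ℕ) : ℝ) := by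
    intro c hc n hn
    rw [mem_Ioc] at hn
    have h1 : Fn a b x1 ≤ Fn a b n := Mtm.Fn_mono ha hbx hn.1.le
    have h2 : ((Fn a b x1 : ℕ) : ℝ) ≤ ((Fn a b n + c : ℕ) : ℝ) := by exact_mod_cast (by omega)
    linarith
  have hv2 : ∀ c ∈ Icc 1 C, ∀ n ∈ Ioc x1 x, ((Fn a b n + c : ℕ) : ℝ) ≤ A * (x : ℝ) ^ 2 := by
    intro c hc n hn
    rw [mem_Ioc] at hn
    rw [mem_Icc] at hc
    have h1 : Fn a b n ≤ Fn a b x := Mtm.Fn_mono ha (hbx.trans hn.1.le) hn.2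
    have h2 : ((Fn a b n + c : ℕ) : ℝ) ≤ ((Fn a b x : ℕ) : ℝ) + x := by
      have : Fn a b n + c ≤ Fn a b x + x := by omega
      exact_mod_cast this
    linarith
  have hv3 : ∀ c ∈ Icc 1 C, ∀ n ∈ Ioc x1 x, 1 ≤ Fn a b n + c := by
    intro c hc n _
    rw [mem_Icc] at hc; omega
  have hv4 : ∀ c ∈ Icc 1 C, ∀ n ∈ Ioc x1 x, Fn a b n + c ≤ x ^ 3 := by
    intro c hc n hn
    have h1 := hv2 c hc n hn
    have h2 : A * (x : ℝ) ^ 2 ≤ (x : ℝ) ^ 3 := by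
      have h3 := f6
      rw [show (2 : ℝ) = ((2 : ℕ) : ℝ) by norm_num, show (3 : ℝ) = ((3 : ℕ) : ℝ) by norm_num, Real.rpow_natCast,
        Real.rpow_natCast] at h3
      exact h3
    exact_mod_cast h1.trans h2
  have hv5 : ∀ c ∈ Icc 1 C, ∀ n ∈ Ioc x1 x, ((Fn a b n + c : ℕ) : ℝ) ≤ (x : ℝ) ^ (2 + 2 * (2 * ε')) := by
    intro c hc n hn
    refine (hv2 c hc n hn).trans ?_
    rw [show (x : ℝ) ^ 2 = (x : ℝ) ^ (2 : ℝ) by rw [show (2 : ℝ) = ((2 : ℕ) : ℝ) by norm_num, Real.rpow_natCast]]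
    exact f5
  have hv6 : ∀ c ∈ Icc 1 C, ∀ n ∈ Ioc x1 x, (s : ℝ) ^ 3 * Pw w k * (x : ℝ) ^ δ < ((Fn a b n + c : ℕ) : ℝ) := by
    intro c hc n hn
    refine lt_of_lt_of_le ?_ (hv1 c hc n hn)
    have h1 : (s : ℝ) ^ 3 ≤ (2 * (x : ℝ) ^ es) ^ 3 := pow_le_pow_left₀ (Nat.cast_nonneg _) hs3 3
    have h2 : (2 * (x : ℝ) ^ es) ^ 3 * Pw w k * (x : ℝ) ^ δ = (c0 / 2) * ((16 * Pw w k / c0) * (x : ℝ) ^ (3 * es + δ)) := by
      have h3 : (x : ℝ) ^ (3 * es + δ) = ((x : ℝ) ^ es) ^ 3 * (x : ℝ) ^ δ := by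
        rw [Real.rpow_add hxp]
        congr 1
        rw [← Real.rpow_natCast, ← Real.rpow_mul hxp.le]; congr 1; push_cast; ring
      rw [h3]; field_simp; ring
    have hx2' : (x : ℝ) ^ (2 : ℝ) = (x : ℝ) ^ 2 := by
      rw [show (2 : ℝ) = ((2 : ℕ) : ℝ) by norm_num, Real.rpow_natCast]
    calc (s : ℝ) ^ 3 * Pw w k * (x : ℝ) ^ δ ≤ (2 * (x : ℝ) ^ es) ^ 3 * Pw w k * (x : ℝ) ^ δ := by gcongr
      _ = (c0 / 2) * ((16 * Pw w k / c0) * (x : ℝ) ^ (3 * es + δ)) := h2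
      _ ≤ (c0 / 2) * (x : ℝ) ^ (2 : ℝ) := mul_le_mul_of_nonneg_left f4 (by positivity)
      _ = (c0 / 2) * (x : ℝ) ^ 2 := by rw [hx2']
      _ < c0 * (x : ℝ) ^ 2 := by
          have : 0 < c0 * (x : ℝ) ^ 2 := by positivity
          linarith
  -- type I
  obtain ⟨Ex, hEx1, hEx2, hEx3⟩ := Ha x ga x1 C J s hx1 hxR (hCle _ (by norm_num)) hCx hz1 hJ1 hs4
  have hI := hEx3 ψ hψ1 hψ2
  have hCx0 : (0 : ℝ) ≤ C * x := by positivity
  have hI' := hI.trans (mul_le_mul_of_nonneg_right (show K1 * (2 : ℝ) ^ (-(δ / (K1 * η))) / η ^ 2 + τ / 16 ≤ τ / 8 by linarith) hCx0)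
  -- type II
  have hII := Hg x gg x1 C s z hx1 hxR hCs (hCle _ (by norm_num)) hCx (by rw [hzd]; exact hz1) (by rw [hzd]; exact hJ1)
  have hII' := hII.trans (mul_le_mul_of_nonneg_right (show τ / 16 ≤ τ / 8 by linarith) hCx0)
  -- the bad values
  have hD1 : 1 ≤ (x : ℝ) ^ δ := Real.one_le_rpow hx1' hδ.le
  have hexp : Real.exp (-(8 / δ * δ / η)) = Real.exp (-(8 / η)) := by
    congr 2
    field_simp
  have hbad := bad_le a b x1 x C s w k z ((x : ℝ) ^ δ) ε' (2 * ε') (K2 * Real.exp (-(8 / η))) (3 / w) (2 * w / 2 ^ k)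
    (K3 * (ε' / η ^ 2)) (K3 * (4 * ε' / η ^ 2)) hw1
    (by
      intro n hn
      have := Hb x gb C z (Fn a b n) (hCle _ (by norm_num)) (by rw [hzd]; exact hz1) (by rw [hzd]; exact hJ1)
      rw [hexp] at this
      exact this)
    (Hd x gd x1 C hx1 hxR (hCle _ (by norm_num)) hCx)
    (by
      intro n hn
      exact Hc x gc C (Fn a b n) (hCle _ (by norm_num)))
    (He x ge x1 C z s hx1 hxR (hCle _ (by norm_num)) hCx (by rw [hzd]; exact hz1)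
      ((Real.rpow_le_rpow_of_exponent_le hx1' (by norm_num)).trans hs6)
      (by
        calc (s : ℝ) * (x : ℝ) ^ ε' ≤ (x : ℝ) ^ (3 / 4 : ℝ) * (x : ℝ) ^ ε' := by gcongr
          _ = (x : ℝ) ^ (3 / 4 + ε') := (Real.rpow_add hxp _ _).symm
          _ ≤ (x : ℝ) ^ (1 + 1 / 100 : ℝ) := Real.rpow_le_rpow_of_exponent_le hx1' (by linarith)))
    (by
      have hww : (x : ℝ) ^ (1 - 2 * ε') * (x : ℝ) ^ (4 * ε') = (x : ℝ) ^ (1 + 2 * ε') := by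
        rw [← Real.rpow_add hxp]; congr 1; ring
      have := Hf x gf x1 C z ((x : ℝ) ^ (1 - 2 * ε')) hx1 hxR (hCle _ (by norm_num)) hCx (by rw [hzd]; exact hz1)
        (Real.rpow_le_rpow_of_exponent_le hx1' (by linarith))
        (by rw [hww]; exact Real.rpow_le_rpow_of_exponent_le hx1' (by linarith))
      rw [hww] at this
      exact this)
    (by positivity) (by positivity)
    (fun c hc n hn => by have := hv3 c hc n hn; omega)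
  have hbad' : W * ∑ c ∈ Icc 1 C, (#((Ioc x1 x).filter (fun n => ¬ Good w k s z x ε' (2 * ε') ((x : ℝ) ^ δ) (Fn a b n + c))) : ℝ) ≤
      (5 * τ / 16) * (C * x) := by
    refine (mul_le_mul_of_nonneg_left hbad hW.le).trans ?_
    rw [← mul_assoc]
    apply mul_le_mul_of_nonneg_right _ hCx0
    linarith
  have hfin := asm a b x1 x C s w k z ((x : ℝ) ^ δ) κ ε' (2 * ε') W (τ / 8) (5 * τ / 16) Ex ψ hEx1
    (hEx2.trans (mul_le_mul_of_nonneg_right (by linarith) hCp.le))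
    (fun c hc n hn => hψ3 c n (mem_Icc.1 hc).1 (hbx.trans (mem_Ioc.1 hn).1.le))
    (by rw [hzd]; exact hI') hII' hW.le hbad'
    (fun c hc n hn hg => hPW κ ε' (2 * ε') η ((x : ℝ) ^ δ) (Fn a b n + c) w k s x z hκ (by linarith) (by linarith) hη hD1 hx2 hs7
      (by rw [hzd]; exact hwz) (by rw [hzd]; exact hz1) (hv3 c hc n hn) (hv4 c hc n hn) hκκ hg (hv6 c hc n hn)
      (hv5 c hc n hn) hs5)
    (by
      intro c hc n hn
      obtain ⟨p1, p2⟩ := hPV κ (Real.log s / Real.log x) (1 - 2 * ε') η ((x : ℝ) ^ δ) (Fn a b n + c) w k s x z hη hx2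
        (by rw [hzd]; exact hz1) (hv3 c hc n hn) (hv4 c hc n hn)
      have p3 := lam_abs (Fn a b n + c)
      calc _ ≤ |lam (Fn a b n + c)| + |tI w k s z ((x : ℝ) ^ δ) (Fn a b n + c) +
            tII κ (Real.log s / Real.log x) (1 - 2 * ε') x z (Fn a b n + c)| := abs_sub _ _
        _ ≤ |lam (Fn a b n + c)| + (|tI w k s z ((x : ℝ) ^ δ) (Fn a b n + c)| +
            |tII κ (Real.log s / Real.log x) (1 - 2 * ε') x z (Fn a b n + c)|) := by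
            gcongr; exact abs_add_le _ _
        _ ≤ W := by rw [hWd]; linarith)
  refine hfin.trans ?_
  apply mul_le_mul_of_nonneg_right _ hCx0
  linarith

end Pool.Agent.N792.CH
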