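import Pool.Agent.N792.CH.CB

/-!
Patterns: finiteness, sizes (helper395 for helper792, project CH).
-/

set_option autoImplicit false

namespace Pool.Agent.N792.CH

open Finset
open Pool.Agent.N792 (Rough)

theorem pf : PF := by
  classical
  intro η κ hη hκ
  refine ⟨((⌈6 / η⌉₊ • (Multiset.range (⌈3 / κ⌉₊ + 1))).powerset).toFinset, ?_⟩
  intro x z N hx hR hz hN
  rw [Multiset.mem_toFinset, Multiset.mem_powerset, Multiset.le_iff_count]
  have hL : 0 < Real.log x := Real.log_pos (by exact_mod_cast hx)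
  have h1 := CBx.card_bound η x z N hη hx hR hz hN N.primeFactors (subset_refl _)
  have h2 : Multiset.card (pat κ x N) ≤ ⌈6 / η⌉₊ := by
    unfold pat
    rw [Multiset.card_map]
    have h3 : ((Multiset.card N.primeFactors.val : ℕ) : ℝ) ≤ ((⌈6 / η⌉₊ : ℕ) : ℝ) :=
      (show _ from h1).trans (Nat.le_ceil _)
    exact_mod_cast h3
  intro a
  rw [Multiset.count_nsmul]
  by_cases ha : a ∈ pat κ x N
  · have ha' := ha
    unfold pat at ha'
    rw [Multiset.mem_map] at ha'
    obtain ⟨p, hp, hpa⟩ := ha'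
    have hp' : p ∈ N.primeFactors := hp
    have hpp := Nat.prime_of_mem_primeFactors hp'
    have hpN : p ≤ x ^ 3 := (Nat.le_of_dvd (Nat.pos_of_ne_zero hR.1)
      (Nat.dvd_of_mem_primeFactors hp')).trans hN
    have h4 : Real.log p ≤ 3 * Real.log x := by
      have h8 : (3 : ℝ) * Real.log x = Real.log ((x : ℝ) ^ 3) := by
        rw [Real.log_pow]
        norm_num
      rw [h8]
      exact Real.log_le_log (by exact_mod_cast hpp.pos) (by exact_mod_cast hpN)
    have h5 : a < ⌈3 / κ⌉₊ + 1 := by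
      rw [← hpa, Nat.lt_succ_iff]
      unfold cell
      refine (Nat.floor_le_floor (?_ : _ ≤ 3 / κ)).trans (Nat.floor_le_ceil _)
      rw [div_le_div_iff₀ (by positivity) hκ]
      nlinarith
    have h6 : (Multiset.range (⌈3 / κ⌉₊ + 1)).count a = 1 :=
      Multiset.count_eq_one_of_mem (Multiset.nodup_range _) (Multiset.mem_range.mpr h5)
    rw [h6, mul_one]
    exact (Multiset.count_le_card _ _).trans h2
  · rw [Multiset.count_eq_zero_of_notMem ha]
    exact Nat.zero_le _

theorem pm : PM := by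
  intro κ κ' η σ x z m hκ hη hx hR hs hz hm hκ'
  have hx0 : (0 : ℝ) < x := by exact_mod_cast (by omega : 0 < x)
  have hL : 0 < Real.log x := Real.log_pos (by exact_mod_cast hx)
  have hm0 : (0 : ℝ) < m := by exact_mod_cast Nat.pos_of_ne_zero hR.1
  obtain ⟨h1, h2⟩ := CBx.cell_bounds κ x hκ hx m.primeFactors
    (fun p hp => Nat.prime_of_mem_primeFactors hp)
  have h3 := CBx.card_bound η x z m hη hx hR hz hm m.primeFactors (subset_refl _)
  have h4 : κ * (#m.primeFactors : ℝ) ≤ κ' := (mul_le_mul_of_nonneg_left h3 hκ.le).trans hκ'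
  rw [Nat.prod_primeFactors_of_squarefree hs] at h1 h2
  have h5 : (pat κ x m).sum = ∑ p ∈ m.primeFactors, cell κ x p := rfl
  rw [h5]
  constructor
  · intro h
    rw [← Real.log_lt_log_iff (Real.rpow_pos_of_pos hx0 _) hm0, Real.log_rpow hx0,
      ← lt_div_iff₀ hL]
    exact lt_of_lt_of_le h h1
  · intro h
    rw [← Real.log_le_log_iff hm0 (Real.rpow_pos_of_pos hx0 _), Real.log_rpow hx0,
      ← div_le_iff₀ hL]
    linarith

theorem pb : PB := by
  classical
  intro κ σ0 σ1 η x z N hη hx hR hz hN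
  have h3 := CBx.card_bound η x z N hη hx hR hz hN N.primeFactors (subset_refl _)
  have h3pos : (0 : ℝ) < (3 : ℝ) ^ (6 / η) := Real.rpow_pos_of_pos (by norm_num) _
  unfold Phi0
  split_ifs with hB
  · rw [CBx.ms_filter, pat, CBx.ms_sum]
    refine (abs_add_le _ _).trans ?_
    have e1 : |(-1 : ℝ) ^ (Multiset.card (N.primeFactors.val.map (cell κ x)))| = 1 := by
      rw [abs_pow, abs_neg, abs_one, one_pow]
    rw [e1]
    have e2 : |∑ T ∈ N.primeFactors.powerset,
        (if κ * (((T.val.map (cell κ x)).sum : ℕ) : ℝ) ≤ σ0 then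
          (-2 : ℝ) ^ (Multiset.card (T.val.map (cell κ x))) else 0)| ≤ (3 : ℝ) ^ (6 / η) := by
      refine (Finset.abs_sum_le_sum_abs _ _).trans ?_
      have e3 : ∀ T ∈ N.primeFactors.powerset,
          |(if κ * (((T.val.map (cell κ x)).sum : ℕ) : ℝ) ≤ σ0 then
          (-2 : ℝ) ^ (Multiset.card (T.val.map (cell κ x))) else 0)| ≤ (2 : ℝ) ^ #T := by
        intro T _
        split_ifs
        · rw [abs_pow, abs_neg, abs_two, Multiset.card_map]
          exact le_refl _
        · rw [abs_zero]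
          positivity
      refine (Finset.sum_le_sum e3).trans ?_
      have e4 := Finset.sum_pow_mul_eq_add_pow (2 : ℝ) 1 N.primeFactors
      simp only [one_pow, mul_one] at e4
      rw [e4]
      have e5 : (2 + 1 : ℝ) ^ #N.primeFactors = (3 : ℝ) ^ (#N.primeFactors : ℝ) := by
        rw [Real.rpow_natCast]
        norm_num
      rw [e5]
      exact Real.rpow_le_rpow_of_exponent_le (by norm_num) h3
    linarith
  · rw [abs_zero]
    linarith

end Pool.Agent.N792.CH
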