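import Pool.Agent.N792.CH.CB

/-!
The number of the divisors with a given pattern (helper395 for helper792, project CH).
-/

set_option autoImplicit false

namespace Pool.Agent.N792.CH

open Finset
open Pool.Agent.N792 (Rough)

namespace PTx

theorem count_sum (s : Multiset (Multiset ℕ)) (B : Multiset ℕ) :
    ((s.count B : ℕ) : ℝ) = (s.map (fun b => if b = B then (1 : ℝ) else 0)).sum := by
  induction s using Multiset.induction_on with
  | empty => simp
  | cons a s ih =>
    rw [Multiset.map_cons, Multiset.sum_cons, ← ih, Multiset.count_cons]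
    by_cases h : a = B
    · rw [if_pos h, if_pos h.symm]
      push_cast
      ring
    · rw [if_neg h, if_neg (fun h' => h h'.symm)]
      simp

end PTx

theorem pt : PT := by
  intro κ x N π B hN hB
  have hN0 := hN.ne_zero
  have hpr : ∀ T ⊆ N.primeFactors, ∀ p ∈ T, p.Prime := fun T hT p hp =>
    Nat.prime_of_mem_primeFactors (hT hp)
  have hpat1 : ∀ T ⊆ N.primeFactors, pat κ x (∏ p ∈ T, p) = T.val.map (cell κ x) := by
    intro T hT
    unfold pat
    rw [Nat.primeFactors_prod (hpr T hT)]
  have hdiv : ∀ T ⊆ N.primeFactors, N / (∏ p ∈ T, p) = ∏ p ∈ N.primeFactors \ T, p := by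
    intro T hT
    have h1 : (∏ p ∈ N.primeFactors \ T, p) * ∏ p ∈ T, p = N := by
      rw [Finset.prod_sdiff hT]
      exact Nat.prod_primeFactors_of_squarefree hN
    have h2 : 0 < ∏ p ∈ T, p := Finset.prod_pos fun p hp => (hpr T hT p hp).pos
    exact Nat.div_eq_of_eq_mul_left h2 h1.symm
  have hpat2 : ∀ T ⊆ N.primeFactors,
      pat κ x N = T.val.map (cell κ x) + pat κ x (N / (∏ p ∈ T, p)) := by
    intro T hT
    rw [hdiv T hT, hpat1 _ Finset.sdiff_subset, ← Multiset.map_add]
    unfold pat
    congr 1
    rw [Finset.sdiff_val, add_tsub_cancel_of_le (Finset.val_le_iff.mpr hT)]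
  have hmain : ((#(N.divisors.filter (fun m => pat κ x m = B ∧ pat κ x (N / m) = π - B)) : ℕ) : ℝ) =
      ((if pat κ x N = π then π.powerset.count B else 0 : ℕ) : ℝ) := by
    rw [Finset.card_filter, Nat.cast_sum, CBx.sum_div N hN]
    by_cases h : pat κ x N = π
    · rw [if_pos h, ← h, PTx.count_sum]
      conv_rhs => rw [pat, CBx.ms_sum]
      refine Finset.sum_congr rfl fun T hT => ?_
      have hT' := Finset.mem_powerset.mp hT
      rw [hpat1 T hT']
      have h3 := hpat2 T hT'
      by_cases h4 : T.val.map (cell κ x) = B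
      · rw [if_pos h4, if_pos]
        · simp
        · refine ⟨h4, ?_⟩
          rw [h3, h4, add_tsub_cancel_left]
      · rw [if_neg h4, if_neg (fun h' => h4 h'.1)]
        simp
    · rw [if_neg h]
      push_cast
      refine Finset.sum_eq_zero fun T hT => ?_
      have hT' := Finset.mem_powerset.mp hT
      rw [if_neg]
      rintro ⟨h4, h5⟩
      rw [hpat1 T hT'] at h4
      apply h
      rw [hpat2 T hT', h4, h5, add_tsub_cancel_of_le hB]
  exact_mod_cast hmain

end Pool.Agent.N792.CH
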