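import Pool.Agent.N792.CH.Stm

/-!
The pointwise identity for the Liouville function at the good values (PW), and the size of the two
parts (PV) (written by helper31 for the project CH of helper792).
-/

set_option autoImplicit false

namespace Pool.Agent.N792.CH

open Finset Filter Topology
open Pool.Agent.N792 (Rough)
open Pool.Agent.N791.C2 (lam)

/-! ### the decomposition of `v` -/

namespace PWp

lemma lam_mul {m n : ℕ} (hm : m ≠ 0) (hn : n ≠ 0) : lam (m * n) = lam m * lam n := by
  unfold lam; rw [ArithmeticFunction.cardFactors_mul hm hn, pow_add]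

lemma lam_one : lam 1 = 1 := by simp [lam]

lemma lam_prime {p : ℕ} (hp : p.Prime) : lam p = -1 := by
  unfold lam; rw [ArithmeticFunction.cardFactors_apply_prime hp]; simp

lemma abs_lam (n : ℕ) : |lam n| = 1 := by unfold lam; rw [abs_pow, abs_neg, abs_one, one_pow]

lemma lam_prod (S : Finset ℕ) (hS : ∀ p ∈ S, p.Prime) : lam (∏ p ∈ S, p) = (-1) ^ #S := by
  induction S using Finset.induction_on with
  | empty => simp [lam_one]
  | insert p S hp ih =>
    rw [Finset.prod_insert hp, lam_mul (hS p (Finset.mem_insert_self _ _)).ne_zero,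
      ih (fun q hq => hS q (Finset.mem_insert_of_mem hq)), lam_prime (hS p (Finset.mem_insert_self _ _)),
      Finset.card_insert_of_notMem hp, pow_succ]
    · ring
    · exact Finset.prod_ne_zero_iff.mpr fun q hq => (hS q (Finset.mem_insert_of_mem hq)).ne_zero

lemma sm_ne_zero (z N : ℕ) : sm z N ≠ 0 :=
  Finset.prod_ne_zero_iff.mpr fun _ hp =>
    pow_ne_zero _ (Nat.prime_of_mem_primeFactors (Finset.mem_filter.mp hp).1).ne_zero

lemma ro_ne_zero (z N : ℕ) : ro z N ≠ 0 :=
  Finset.prod_ne_zero_iff.mpr fun _ hp =>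
    pow_ne_zero _ (Nat.prime_of_mem_primeFactors (Finset.mem_filter.mp hp).1).ne_zero

lemma rd_ne_zero (w z N : ℕ) : rd w z N ≠ 0 :=
  Finset.prod_ne_zero_iff.mpr fun _ hp =>
    (Nat.prime_of_mem_primeFactors (Finset.mem_filter.mp hp).1).ne_zero

lemma sm_mul_ro {v : ℕ} (hv : v ≠ 0) (z : ℕ) : sm z v * ro z v = v := by
  unfold sm ro
  have := Finset.prod_filter_mul_prod_filter_not v.primeFactors (fun p => p ≤ z)
    (fun p => p ^ v.factorization p)
  simp only [not_le] at this
  rw [this]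
  exact Nat.prod_factorization_pow_eq_self hv

lemma ro_dvd {v : ℕ} (hv : v ≠ 0) (z : ℕ) : ro z v ∣ v := ⟨sm z v, by rw [mul_comm, sm_mul_ro hv]⟩

lemma lt_of_dvd_ro {z v p : ℕ} (hp : p.Prime) (h : p ∣ ro z v) : z < p := by
  unfold ro at h
  obtain ⟨q, hq, hpq⟩ := (hp.prime.dvd_finsetProd_iff _).mp h
  have hq' := Finset.mem_filter.mp hq
  have h1 := hp.dvd_of_dvd_pow hpq
  have h2 := (Nat.prime_dvd_prime_iff_eq hp (Nat.prime_of_mem_primeFactors hq'.1)).mp h1
  rw [h2]; exact hq'.2

lemma rough_ro (z v : ℕ) : Rough z (ro z v) := ⟨ro_ne_zero z v, fun _ hp h => lt_of_dvd_ro hp h⟩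

lemma coprime_sm {z v j : ℕ} (hj : Rough z j) : Nat.Coprime j (sm z v) := by
  unfold sm
  refine Nat.Coprime.prod_right fun q hq => Nat.Coprime.pow_right _ ?_
  have hq' := Finset.mem_filter.mp hq
  have hqp := Nat.prime_of_mem_primeFactors hq'.1
  rw [Nat.coprime_comm, hqp.coprime_iff_not_dvd]
  intro h
  have := hj.2 q hqp h
  omega

lemma rough_dvd_iff {z v j : ℕ} (hv : v ≠ 0) : (Rough z j ∧ j ∣ v) ↔ j ∣ ro z v := by
  constructor
  · rintro ⟨h1, h2⟩
    rw [← sm_mul_ro hv z] at h2
    exact (coprime_sm h1).dvd_of_dvd_mul_left h2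
  · intro h
    refine ⟨⟨?_, fun p hp hpj => lt_of_dvd_ro hp (hpj.trans h)⟩, h.trans (ro_dvd hv z)⟩
    rintro rfl
    exact ro_ne_zero z v (Nat.eq_zero_of_zero_dvd h)

lemma sqf_ro {w z v : ℕ} (hv : v ≠ 0) (hwz : w ≤ z)
    (h : ∀ p : ℕ, p.Prime → w < p → ¬ p ^ 2 ∣ v) : Squarefree (ro z v) := by
  rw [Nat.squarefree_iff_prime_squarefree]
  intro p hp hpp
  have h1 : z < p := lt_of_dvd_ro hp ((Dvd.intro _ rfl).trans hpp)
  refine h p hp (lt_of_le_of_lt hwz h1) ?_
  rw [pow_two]
  exact hpp.trans (ro_dvd hv z)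

lemma sm_eq {w z v : ℕ} (hv : v ≠ 0) (hwz : w ≤ z)
    (h : ∀ p : ℕ, p.Prime → w < p → ¬ p ^ 2 ∣ v) : sm z v = sm w v * rd w z v := by
  unfold sm rd
  have e : v.primeFactors.filter (fun p => p ≤ z) = v.primeFactors.filter (fun p => p ≤ w) ∪
      v.primeFactors.filter (fun p => w < p ∧ p ≤ z) := by
    ext p
    simp only [Finset.mem_filter, Finset.mem_union]
    constructor
    · rintro ⟨h1, h2⟩
      by_cases h3 : p ≤ w
      · exact Or.inl ⟨h1, h3⟩
      · exact Or.inr ⟨h1, by omega, h2⟩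
    · rintro (⟨h1, h2⟩ | ⟨h1, h2, h3⟩)
      · exact ⟨h1, by omega⟩
      · exact ⟨h1, h3⟩
  rw [e, Finset.prod_union]
  · congr 1
    refine Finset.prod_congr rfl fun p hp => ?_
    have hp' := Finset.mem_filter.mp hp
    have hpp := Nat.prime_of_mem_primeFactors hp'.1
    have h1 : v.factorization p < 2 := by
      by_contra hc
      exact h p hpp hp'.2.1 ((hpp.pow_dvd_iff_le_factorization hv).mpr (by omega))
    have h2 : 1 ≤ v.factorization p := by
      rw [← hpp.pow_dvd_iff_le_factorization hv, pow_one]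
      exact Nat.dvd_of_mem_primeFactors hp'.1
    have h3 : v.factorization p = 1 := by omega
    rw [h3, pow_one]
  · rw [Finset.disjoint_left]
    intro p h1 h2
    have := (Finset.mem_filter.mp h1).2
    have := (Finset.mem_filter.mp h2).2.1
    omega

lemma lam_rd (w z v : ℕ) : lam (rd w z v) = sg w z v := by
  unfold rd sg
  exact lam_prod _ fun p hp => Nat.prime_of_mem_primeFactors (Finset.mem_filter.mp hp).1

lemma sm_le_Pw {w k v : ℕ} (hv : v ≠ 0) (h : ∀ p : ℕ, p.Prime → p ≤ w → ¬ p ^ k ∣ v) :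
    sm w v ≤ Pw w k := by
  unfold sm Pw
  calc ∏ p ∈ v.primeFactors.filter (fun p => p ≤ w), p ^ v.factorization p
      ≤ ∏ p ∈ v.primeFactors.filter (fun p => p ≤ w), p ^ k := by
        refine Finset.prod_le_prod' fun p hp => ?_
        have hp' := Finset.mem_filter.mp hp
        have hpp := Nat.prime_of_mem_primeFactors hp'.1
        refine Nat.pow_le_pow_right hpp.pos ?_
        by_contra hc
        exact h p hpp hp'.2 ((hpp.pow_dvd_iff_le_factorization hv).mpr (by omega))
    _ ≤ ∏ p ∈ (Icc 1 w).filter Nat.Prime, p ^ k := by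
        refine Finset.prod_le_prod_of_subset_of_one_le' ?_ ?_
        · intro p hp
          have hp' := Finset.mem_filter.mp hp
          have hpp := Nat.prime_of_mem_primeFactors hp'.1
          exact Finset.mem_filter.mpr ⟨Finset.mem_Icc.mpr ⟨hpp.one_lt.le, hp'.2⟩, hpp⟩
        · intro p hp _
          exact Nat.one_le_pow _ _ (Finset.mem_filter.mp hp).2.pos

end PWp

open PWp in
theorem pw (hCB : CB) : PW := by
  classical
  intro κ κ' ε η D v w k s x z hκ hε hε1 hη hD hx hs hwz hz hv hvx hκ' hG hsv hv2 hs2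
  obtain ⟨g1, g2, g3, g4, g5⟩ := hG
  have hv0 : v ≠ 0 := by omega
  set N := ro z v with hN
  have hsq : Squarefree N := sqf_ro hv0 hwz g2
  have hro : Rough z N := rough_ro z v
  have hNv : N ≤ v := Nat.le_of_dvd (by omega) (ro_dvd hv0 z)
  have hsm : sm z v = sm w v * rd w z v := sm_eq hv0 hwz g2
  have hlsm : lam (sm z v) = lam (sm w v) * sg w z v := by
    rw [hsm, lam_mul (sm_ne_zero _ _) (rd_ne_zero _ _ _), lam_rd]
  have hN3 : s ^ 3 < N := by
    have h1 : (v : ℝ) ≤ Pw w k * D * N := by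
      have h2 : (v : ℝ) = (sm w v : ℝ) * (rd w z v : ℝ) * N := by
        rw [← Nat.cast_mul, ← Nat.cast_mul, ← hsm, hN, sm_mul_ro hv0]
      rw [h2]
      have h3 : (sm w v : ℝ) ≤ Pw w k := by exact_mod_cast sm_le_Pw hv0 g3
      gcongr
    have hP : (0 : ℝ) < Pw w k := by
      have : 0 < Pw w k := by
        unfold Pw
        exact Finset.prod_pos fun p hp => pow_pos (Finset.mem_filter.mp hp).2.pos _
      exact_mod_cast this
    have h4 : (s : ℝ) ^ 3 * (Pw w k * D) < N * (Pw w k * D) := by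
      calc (s : ℝ) ^ 3 * (Pw w k * D) = (s : ℝ) ^ 3 * Pw w k * D := by ring
        _ < (v : ℝ) := hsv
        _ ≤ Pw w k * D * N := h1
        _ = N * (Pw w k * D) := by ring
    have h5 : (s : ℝ) ^ 3 < N := lt_of_mul_lt_mul_right h4 (by positivity)
    exact_mod_cast h5
  have hcb := hCB κ κ' ε η N s x z hκ hε hε1 hη hx hs hsq hro hz (hNv.trans hvx) hκ'
    (fun j hj => g4 j ((rough_dvd_iff hv0).mpr hj).1 (hsq.squarefree_of_dvd hj)
      ((rough_dvd_iff hv0).mpr hj).2)
    (fun j hj => g5 j ((rough_dvd_iff hv0).mpr hj).1 (hsq.squarefree_of_dvd hj)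
      ((rough_dvd_iff hv0).mpr hj).2)
    hN3 (le_trans (by exact_mod_cast hNv) hv2) hs2
  have hpsi : psi w k v = lam (sm w v) := by
    unfold psi; rw [if_pos g3]
  have htI : tI w k s z D v = lam (sm z v) * Ti s N := by
    unfold tI Ti
    rw [mul_neg, Finset.mul_sum]
    congr 1
    have eS : (Icc 1 s).filter (fun j => Rough z j ∧ Squarefree j ∧ j ∣ v) =
        N.divisors.filter (fun j => j ≤ s ∧ Squarefree j) := by
      ext j
      simp only [Finset.mem_filter, Finset.mem_Icc, Nat.mem_divisors]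
      constructor
      · rintro ⟨⟨h1, h2⟩, h3, h4, h5⟩
        exact ⟨⟨(rough_dvd_iff hv0).mp ⟨h3, h5⟩, ro_ne_zero _ _⟩, h2, h4⟩
      · rintro ⟨⟨h1, h2⟩, h3, h4⟩
        have h5 := (rough_dvd_iff hv0).mpr h1
        exact ⟨⟨Nat.pos_of_ne_zero h5.1.1, h3⟩, h5.1, h4, h5.2⟩
    rw [eS]
    refine Finset.sum_congr rfl fun j _ => ?_
    rw [if_pos g1, hpsi, hlsm]
    ring
  have htII : tII κ (Real.log s / Real.log x) (1 - ε) x z v =
      lam (sm z v) * Phi0 κ (Real.log s / Real.log x) (1 - ε) (pat κ x N) := by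
    unfold tII
    rw [if_pos hsq]
  rw [htI, htII, ← hcb]
  conv_lhs => rw [← sm_mul_ro hv0 z, lam_mul (sm_ne_zero _ _) (ro_ne_zero _ _)]
  ring

open PWp in
theorem pv (hPB : PB) : PV := by
  classical
  intro κ σ0 σ1 η D v w k s x z hη hx hz hv hvx
  have hv0 : v ≠ 0 := by omega
  have hx1 : (1 : ℝ) < x := by exact_mod_cast (by omega : 1 < x)
  constructor
  · set P := v.primeFactors.filter (fun p => z < p) with hP
    have hcard : (#P : ℝ) ≤ 6 / η := by
      have h1 : (z : ℝ) ^ #P ≤ (x : ℝ) ^ 3 := by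
        have h2 : z ^ #P ≤ v := by
          calc z ^ #P = ∏ _p ∈ P, z := by rw [Finset.prod_const]
            _ ≤ ∏ p ∈ P, p := Finset.prod_le_prod' fun p hp => (Finset.mem_filter.mp hp).2.le
            _ ≤ v := by
              refine Nat.le_of_dvd (by omega) ?_
              refine (Finset.prod_dvd_prod_of_subset _ _ _ (Finset.filter_subset _ _)).trans
                (Nat.prod_primeFactors_dvd v)
        exact_mod_cast h2.trans hvx
      have h3 : (x : ℝ) ^ (η / 2 * #P) ≤ (x : ℝ) ^ (3 : ℝ) := by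
        rw [Real.rpow_mul (by positivity), Real.rpow_natCast]
        calc ((x : ℝ) ^ (η / 2)) ^ #P ≤ (z : ℝ) ^ #P := by gcongr
          _ ≤ (x : ℝ) ^ 3 := h1
          _ = (x : ℝ) ^ (3 : ℝ) := by norm_cast
      have h4 := (Real.rpow_le_rpow_left_iff hx1).mp h3
      rw [le_div_iff₀ hη]
      linarith
    have hterm : ∀ j ∈ (Icc 1 s).filter (fun j => Rough z j ∧ Squarefree j ∧ j ∣ v),
        |(-2 : ℝ) ^ #j.primeFactors * (if ((rd w z v : ℕ) : ℝ) ≤ D then psi w k v * sg w z v else 0)|
          ≤ 2 ^ #j.primeFactors := by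
      intro j _
      rw [abs_mul, abs_pow, abs_neg, abs_two]
      refine mul_le_of_le_one_right (by positivity) ?_
      split_ifs with h1
      · rw [abs_mul]
        have e1 : |psi w k v| ≤ 1 := by
          unfold psi
          split_ifs
          · rw [abs_lam]
          · simp
        have e2 : |sg w z v| ≤ 1 := by
          unfold sg
          rw [abs_pow, abs_neg, abs_one, one_pow]
        exact mul_le_one₀ e1 (abs_nonneg _) e2
      · simp
    unfold tI
    rw [abs_neg]
    calc |∑ j ∈ (Icc 1 s).filter (fun j => Rough z j ∧ Squarefree j ∧ j ∣ v),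
          (-2 : ℝ) ^ #j.primeFactors * (if ((rd w z v : ℕ) : ℝ) ≤ D then psi w k v * sg w z v else 0)|
        ≤ ∑ j ∈ (Icc 1 s).filter (fun j => Rough z j ∧ Squarefree j ∧ j ∣ v),
          (2 : ℝ) ^ #j.primeFactors :=
          (Finset.abs_sum_le_sum_abs _ _).trans (Finset.sum_le_sum hterm)
      _ = ∑ T ∈ ((Icc 1 s).filter (fun j => Rough z j ∧ Squarefree j ∧ j ∣ v)).image
            Nat.primeFactors, (2 : ℝ) ^ #T := by
          rw [Finset.sum_image]
          intro a ha b hb hab
          have ha' := (Finset.mem_filter.mp ha).2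
          have hb' := (Finset.mem_filter.mp hb).2
          rw [← Nat.prod_primeFactors_of_squarefree ha'.2.1,
            ← Nat.prod_primeFactors_of_squarefree hb'.2.1, hab]
      _ ≤ ∑ T ∈ P.powerset, (2 : ℝ) ^ #T := by
          refine Finset.sum_le_sum_of_subset_of_nonneg ?_ (fun _ _ _ => by positivity)
          intro T hT
          obtain ⟨j, hj, rfl⟩ := Finset.mem_image.mp hT
          have hj' := (Finset.mem_filter.mp hj).2
          rw [Finset.mem_powerset]
          intro p hp
          have hpp := Nat.prime_of_mem_primeFactors hp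
          have hpj := Nat.dvd_of_mem_primeFactors hp
          exact Finset.mem_filter.mpr ⟨Nat.mem_primeFactors.mpr ⟨hpp, hpj.trans hj'.2.2, hv0⟩,
            hj'.1.2 p hpp hpj⟩
      _ = (3 : ℝ) ^ #P := by
          have := Finset.sum_pow_mul_eq_add_pow (2 : ℝ) 1 P
          simp only [one_pow, mul_one] at this
          rw [this]; norm_num
      _ = (3 : ℝ) ^ (#P : ℝ) := (Real.rpow_natCast _ _).symm
      _ ≤ (3 : ℝ) ^ (6 / η) := Real.rpow_le_rpow_of_exponent_le (by norm_num) hcard
  · unfold tII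
    rw [abs_mul, abs_lam, one_mul]
    split_ifs with h1
    · exact hPB κ σ0 σ1 η x z (ro z v) hη hx (rough_ro z v) hz
        ((Nat.le_of_dvd (by omega) (ro_dvd hv0 z)).trans hvx)
    · rw [abs_zero]; positivity

end Pool.Agent.N792.CH
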