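import Mathlib
import Pool.Agent.N792.CH.Stm
import Pool.Agent.N792.Ty1a
import Pool.Agent.Helper923.HMertens

/-!
Project CH of helper792, file RW: the reciprocals of the rough numbers in a logarithmically short window (helper918).
-/

set_option autoImplicit false

namespace Pool.Agent.N792.CH

open Finset Filter Topology
open Pool.Agent.N792 (Fn rho Rough rg)

/-- the sum of the reciprocals of the primes in a logarithmically short interval -/
lemma prime_window : ∃ C : ℝ, 0 ≤ C ∧ ∀ η κ : ℝ, 0 < η → 0 < κ → ∀ x : ℝ, 2 ≤ x → 2 ≤ x ^ κ → C ≤ κ * Real.log x →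
    ∀ z : ℕ, 2 ≤ z → x ^ (η / 2) ≤ z → ∀ V : ℝ, 0 ≤ V → ∀ T : Finset ℕ,
    (∀ p ∈ T, p.Prime ∧ z < p ∧ V < p ∧ (p : ℝ) ≤ V * x ^ κ) → ∑ p ∈ T, 1 / (p : ℝ) ≤ 6 * (κ / η) := by
  obtain ⟨C, hC, H⟩ := Pool.Agent.Helper923.HMertens.mertens_ratio
  refine ⟨C, hC, fun η κ hη hκ x hx hxκ hCx z hz2 hz V hV T hT => ?_⟩
  have hx0 : 0 < x := by linarith
  have hlx : 0 < Real.log x := Real.log_pos (by linarith)
  set a : ℕ := max z ⌊V⌋₊ with ha
  have ha2 : 2 ≤ a := hz2.trans (le_max_left _ _)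
  have haz : (z : ℝ) ≤ a := by exact_mod_cast le_max_left _ _
  have ha0 : (2 : ℝ) ≤ a := by exact_mod_cast ha2
  have hVa : V ≤ 2 * a := by
    have h1 : V < ⌊V⌋₊ + 1 := Nat.lt_floor_add_one V
    have h2 : ((⌊V⌋₊ : ℕ) : ℝ) ≤ a := by exact_mod_cast le_max_right _ _
    linarith
  set b : ℕ := ⌊(a : ℝ) * x ^ (2 * κ)⌋₊ with hb
  have h2κ : x ^ (2 * κ) = x ^ κ * x ^ κ := by rw [← Real.rpow_add hx0]; congr 1; ring
  have h1κ : (1 : ℝ) ≤ x ^ (2 * κ) := by rw [h2κ]; nlinarith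
  have hab : a ≤ b := by
    rw [hb]
    refine Nat.le_floor ?_
    nlinarith
  have hb' : (b : ℝ) ≤ a * x ^ (2 * κ) := Nat.floor_le (by positivity)
  have hsub : T ⊆ (Ioc a b).filter Nat.Prime := by
    intro p hp
    obtain ⟨h1, h2, h3, h4⟩ := hT p hp
    rw [mem_filter, mem_Ioc]
    refine ⟨⟨?_, ?_⟩, h1⟩
    · rw [ha, max_lt_iff]
      exact ⟨h2, (Nat.floor_lt hV).2 h3⟩
    · rw [hb]
      refine Nat.le_floor (h4.trans ?_)
      rw [h2κ]
      have h5 : 0 < x ^ κ := by positivity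
      calc V * x ^ κ ≤ 2 * a * x ^ κ := mul_le_mul_of_nonneg_right hVa h5.le
        _ ≤ a * (x ^ κ * x ^ κ) := by nlinarith [mul_pos (by linarith : (0 : ℝ) < a) h5]
  have hla : η / 2 * Real.log x ≤ Real.log a := by
    rw [← Real.log_rpow hx0]
    exact Real.log_le_log (by positivity) (hz.trans haz)
  have hla0 : 0 < Real.log a := lt_of_lt_of_le (by positivity) hla
  have hlb : Real.log b ≤ Real.log a + 2 * κ * Real.log x := by
    rw [← Real.log_rpow hx0, ← Real.log_mul (by linarith) (by positivity)]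
    refine Real.log_le_log ?_ hb'
    exact_mod_cast (by omega : 0 < b)
  have hlb0 : 0 < Real.log b := lt_of_lt_of_le hla0 (Real.log_le_log (by linarith) (by exact_mod_cast hab))
  have h1 : ∑ p ∈ T, 1 / (p : ℝ) ≤ ∑ p ∈ (Ioc a b).filter Nat.Prime, 1 / (p : ℝ) :=
    sum_le_sum_of_subset_of_nonneg hsub fun _ _ _ => by positivity
  have h2 := (abs_le.1 (H a b ha2 hab)).2
  have h3 : Real.log (Real.log b / Real.log a) ≤ Real.log b / Real.log a - 1 :=
    Real.log_le_sub_one_of_pos (by positivity)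
  have h4 : Real.log b / Real.log a - 1 ≤ 4 * (κ / η) := by
    have e1 : Real.log b / Real.log a - 1 = (Real.log b - Real.log a) / Real.log a := by field_simp
    rw [e1]
    calc (Real.log b - Real.log a) / Real.log a ≤ (2 * κ * Real.log x) / (η / 2 * Real.log x) :=
          div_le_div₀ (by positivity) (by linarith) (by positivity) hla
      _ = 4 * (κ / η) := by field_simp; ring
  have h5 : C / Real.log a ≤ 2 * (κ / η) := by
    calc C / Real.log a ≤ (κ * Real.log x) / (η / 2 * Real.log x) :=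
          div_le_div₀ (by positivity) hCx (by positivity) hla
      _ = 2 * (κ / η) := by field_simp
  linarith

/-- the sum of `1 / j` over the rough numbers in a logarithmically short window -/
theorem rw1 : RW := by
  classical
  obtain ⟨K1, hK1, H1⟩ := Pool.Agent.N792.rough_recip
  obtain ⟨C, hC, H2⟩ := prime_window
  refine ⟨24 * K1, by positivity, fun η κ hη hη1 hκ hκ1 => ?_⟩
  obtain ⟨y1, H1⟩ := H1 (η / 4) (by positivity) (by linarith)
  obtain ⟨y2, hy2⟩ := eventually_atTop.1 ((tendsto_rpow_atTop hκ).eventually_ge_atTop 2)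
  obtain ⟨y3, hy3⟩ := eventually_atTop.1 ((tendsto_rpow_atTop (half_pos hη)).eventually_ge_atTop 2)
  obtain ⟨y4, hy4⟩ := eventually_atTop.1 ((Real.tendsto_log_atTop.const_mul_atTop hκ).eventually_ge_atTop C)
  refine ⟨y1 + ⌈y2⌉₊ + ⌈y3⌉₊ + ⌈y4⌉₊ + 2, fun x hx z u hz hu hux => ?_⟩
  have hx2 : (2 : ℝ) ≤ x := by exact_mod_cast (by omega : 2 ≤ x)
  have hc2 : y2 ≤ x := (Nat.le_ceil _).trans (by exact_mod_cast (by omega : ⌈y2⌉₊ ≤ x))
  have hc3 : y3 ≤ x := (Nat.le_ceil _).trans (by exact_mod_cast (by omega : ⌈y3⌉₊ ≤ x))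
  have hc4 : y4 ≤ x := (Nat.le_ceil _).trans (by exact_mod_cast (by omega : ⌈y4⌉₊ ≤ x))
  have hz2 : 2 ≤ z := by exact_mod_cast (hy3 x hc3).trans hz
  have hu1 : 1 ≤ u := le_trans (Real.one_le_rpow (by linarith) (by norm_num)) hu
  have hxx : x ≤ x ^ 2 := by nlinarith [(by omega : 2 ≤ x)]
  have h1 := H1 (x ^ 2) (by omega) z (x ^ 2) (by
    push_cast
    rw [← Real.rpow_natCast, ← Real.rpow_mul (by linarith)]
    refine le_of_eq_of_le ?_ hz
    congr 1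
    push_cast
    ring) le_rfl
  set J := (Icc 1 (x ^ 2)).filter (fun j : ℕ => Rough z j) with hJ
  have h1' : ∑ j ∈ J, 1 / (j : ℝ) ≤ 4 * K1 / η := by
    have e1 : ∑ j ∈ J, 1 / (j : ℝ) = ∑ j ∈ Icc 1 (x ^ 2), rg z j / j := by
      rw [hJ, sum_filter]
      refine sum_congr rfl fun j _ => ?_
      unfold rg
      split_ifs <;> simp
    rw [e1]
    refine h1.trans (le_of_eq ?_)
    field_simp
  let T : ℕ → Finset ℕ := fun i => (Icc 1 (x ^ 2)).filter
    (fun p : ℕ => p.Prime ∧ z < p ∧ u < ((p * i : ℕ) : ℝ) ∧ ((p * i : ℕ) : ℝ) ≤ u * (x : ℝ) ^ κ)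
  set W := (Icc 1 (x ^ 2)).filter (fun j : ℕ => Rough z j ∧ Squarefree j ∧ u < j ∧ (j : ℝ) ≤ u * (x : ℝ) ^ κ) with hW
  have hinj : Set.InjOn (fun j : ℕ => (⟨j / j.minFac, j.minFac⟩ : Σ _ : ℕ, ℕ)) W := by
    intro j _ j' _ h
    simp only [Sigma.mk.injEq, heq_eq_eq] at h
    rw [← Nat.div_mul_cancel (Nat.minFac_dvd j), ← Nat.div_mul_cancel (Nat.minFac_dvd j'), h.1, h.2]
  have h2 : ∑ j ∈ W, 1 / (j : ℝ) ≤ ∑ s ∈ J.sigma T, 1 / ((s.2 : ℝ) * s.1) := by
    have e1 : ∑ j ∈ W, 1 / (j : ℝ) =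
        ∑ s ∈ W.image (fun j : ℕ => (⟨j / j.minFac, j.minFac⟩ : Σ _ : ℕ, ℕ)), 1 / ((s.2 : ℝ) * s.1) := by
      rw [sum_image hinj]
      refine sum_congr rfl fun j _ => ?_
      dsimp only
      rw [← Nat.cast_mul, Nat.mul_div_cancel' (Nat.minFac_dvd j)]
    rw [e1]
    refine sum_le_sum_of_subset_of_nonneg ?_ fun _ _ _ => by positivity
    intro s hs
    rw [mem_image] at hs
    obtain ⟨j, hj, rfl⟩ := hs
    rw [hW, mem_filter, mem_Icc] at hj
    obtain ⟨⟨hj1, hj2⟩, hj3, hj4, hj5, hj6⟩ := hj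
    have hjne : j ≠ 1 := by
      rintro rfl
      push_cast at hj5
      linarith
    have hp := Nat.minFac_prime hjne
    have hdv := Nat.minFac_dvd j
    have hmul : j.minFac * (j / j.minFac) = j := Nat.mul_div_cancel' hdv
    rw [mem_sigma]
    constructor
    · simp only [hJ, mem_filter, mem_Icc]
      refine ⟨⟨Nat.div_pos (Nat.minFac_le hj1) hp.pos, (Nat.div_le_self _ _).trans hj2⟩, ?_, ?_⟩
      · exact (Nat.div_pos (Nat.minFac_le hj1) hp.pos).ne'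
      · intro q hq hqd
        exact hj3.2 q hq (hqd.trans (Nat.div_dvd_of_dvd hdv))
    · simp only [T, mem_filter, mem_Icc]
      rw [hmul]
      exact ⟨⟨hp.pos, (Nat.minFac_le hj1).trans hj2⟩, hp, hj3.2 _ hp hdv, hj5, hj6⟩
  refine h2.trans ?_
  rw [sum_sigma]
  have h3 : ∀ i ∈ J, ∑ p ∈ T i, 1 / (((⟨i, p⟩ : Σ _ : ℕ, ℕ).2 : ℝ) * (⟨i, p⟩ : Σ _ : ℕ, ℕ).1) ≤
      1 / (i : ℝ) * (6 * (κ / η)) := by
    intro i hi
    rw [hJ, mem_filter, mem_Icc] at hi
    have hi0 : (0 : ℝ) < i := by exact_mod_cast hi.1.1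
    have e1 : ∑ p ∈ T i, 1 / (((⟨i, p⟩ : Σ _ : ℕ, ℕ).2 : ℝ) * (⟨i, p⟩ : Σ _ : ℕ, ℕ).1) =
        1 / (i : ℝ) * ∑ p ∈ T i, 1 / (p : ℝ) := by
      rw [mul_sum]
      refine sum_congr rfl fun p _ => ?_
      dsimp only
      rw [one_div_mul_one_div, mul_comm]
    rw [e1]
    refine mul_le_mul_of_nonneg_left ?_ (by positivity)
    refine H2 η κ hη hκ x hx2 (hy2 x hc2) (hy4 x hc4) z hz2 hz (u / i) (by positivity) (T i) fun p hp => ?_
    simp only [T, mem_filter, mem_Icc] at hp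
    obtain ⟨_, hp1, hp2, hp3, hp4⟩ := hp
    push_cast at hp3 hp4
    refine ⟨hp1, hp2, ?_, ?_⟩
    · rw [div_lt_iff₀ hi0]
      exact hp3
    · rw [div_mul_eq_mul_div, le_div_iff₀ hi0]
      exact hp4
  refine (sum_le_sum h3).trans ?_
  rw [← sum_mul]
  calc (∑ i ∈ J, 1 / (i : ℝ)) * (6 * (κ / η)) ≤ 4 * K1 / η * (6 * (κ / η)) :=
        mul_le_mul_of_nonneg_right h1' (by positivity)
    _ = 24 * K1 * (κ / η ^ 2) := by field_simp; ring

end Pool.Agent.N792.CH
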