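import Pool.Agent.N792.CH.GD
import Pool.Agent.N792.FlGen
import Pool.Agent.Erdos456.Mertens

/-!
CH/TA (helper619): the sums of the signs `sg` over the values divisible by `j`, from the fundamental
lemma of the sieve, for every set `D` of primes in `(w, z]` separately.
-/

set_option autoImplicit false

namespace Pool.Agent.N792.CH

open Finset Filter Topology
open Pool.Agent.N792 (Fn rho Rough R2 fv)

namespace TAp

open GDp

/-- the value modulo `m` depends on the argument modulo `m` -/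
lemma fv_mod (a b c : ℤ) (m n : ℕ) : (m : ℤ) ∣ fv a b c n ↔ (m : ℤ) ∣ fv a b c (n % m) := by
  have h1 : (m : ℤ) ∣ (n : ℤ) - ((n % m : ℕ) : ℤ) := by
    refine ⟨((n / m : ℕ) : ℤ), ?_⟩
    have := Nat.div_add_mod n m
    have h2 : (n : ℤ) = ((m * (n / m) + n % m : ℕ) : ℤ) := by rw [this]
    rw [h2]; push_cast; ring_nf
  have h2 : (m : ℤ) ∣ fv a b c n - fv a b c (n % m) := by
    have : fv a b c n - fv a b c (n % m) =
        ((n : ℤ) - ((n % m : ℕ) : ℤ)) * (a * (n + ((n % m : ℕ) : ℤ)) + b) := by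
      unfold fv; push_cast; ring
    rw [this]
    exact h1.mul_right _
  constructor
  · intro h
    have := dvd_sub h h2
    simpa using this
  · intro h
    have := dvd_add h2 h
    simpa using this

lemma fv_modEq (a b c : ℤ) (m n n' : ℕ) (h : n ≡ n' [MOD m]) :
    (m : ℤ) ∣ fv a b c n ↔ (m : ℤ) ∣ fv a b c n' := by
  rw [fv_mod a b c m n, fv_mod a b c m n']
  have h1 : n % m = n' % m := h
  rw [h1]

/-- the value is a natural number -/
lemma val {a b : ℤ} (ha : 0 < a) {n : ℕ} (hn : b.natAbs < n) (c : ℕ) :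
    ((Fn a b n + c : ℕ) : ℤ) = fv a b c n ∧ 1 ≤ Fn a b n + c := by
  have h0 : |b| < (n : ℤ) := by
    have h1 : ((b.natAbs : ℕ) : ℤ) < (n : ℤ) := by exact_mod_cast hn
    rwa [Int.natCast_natAbs] at h1
  have h1 : -(n : ℤ) + 1 ≤ b := by
    have := neg_abs_le b
    omega
  have h2 : (1 : ℤ) ≤ n := by
    have := abs_nonneg b
    omega
  have h3 : (1 : ℤ) ≤ a * n + b := by nlinarith
  have h4 : (1 : ℤ) ≤ fv a b 0 n := by
    unfold fv
    nlinarith
  have h5 : ((Fn a b n : ℕ) : ℤ) = fv a b 0 n := by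
    unfold Fn
    exact Int.toNat_of_nonneg (by omega)
  constructor
  · push_cast
    rw [h5]
    unfold fv
    ring
  · have h6 : (1 : ℤ) ≤ ((Fn a b n : ℕ) : ℤ) := by rw [h5]; exact h4
    have h7 : 1 ≤ Fn a b n := by exact_mod_cast h6
    omega

/-- the number of the roots modulo `P m` in a class modulo `P` -/
lemma card_N0 (a b c : ℤ) (P m r : ℕ) (hP : 1 ≤ P) (hm : 1 ≤ m) (h : P.Coprime m) :
    #((range (P * m)).filter (fun t : ℕ => t ≡ r [MOD P] ∧ (m : ℤ) ∣ fv a b c t)) = rho a b c m := by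
  unfold rho
  refine card_bij (fun t _ => t % m) ?_ ?_ ?_
  · intro t ht
    rw [mem_filter] at ht ⊢
    rw [mem_range]
    exact ⟨Nat.mod_lt _ hm, (fv_mod a b c m t).1 ht.2.2⟩
  · intro t ht t' ht' htt
    rw [mem_filter, mem_range] at ht ht'
    have h1 : t ≡ t' [MOD P] := ht.2.1.trans ht'.2.1.symm
    have h2 : t ≡ t' [MOD m] := htt
    have h3 : t ≡ t' [MOD P * m] := (Nat.modEq_and_modEq_iff_modEq_mul h).1 ⟨h1, h2⟩
    exact Nat.ModEq.eq_of_lt_of_lt h3 ht.1 ht'.1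
  · intro s hs
    rw [mem_filter, mem_range] at hs
    have h1 := (Nat.chineseRemainder h r s).2
    have h2 := Nat.chineseRemainder_lt_mul h r s (by omega) (by omega)
    refine ⟨(Nat.chineseRemainder h r s : ℕ), ?_, ?_⟩
    · rw [mem_filter, mem_range]
      exact ⟨h2, h1.1, (fv_modEq a b c m _ s h1.2).2 hs.2⟩
    · have h3 : (Nat.chineseRemainder h r s : ℕ) % m = s % m := h1.2
      rw [h3, Nat.mod_eq_of_lt hs.1]

lemma rho_one (a b c : ℤ) : rho a b c 1 = 1 := by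
  unfold rho
  simp

lemma rho_prod (a b c : ℤ) (D : Finset ℕ) (hD : ∀ p ∈ D, p.Prime) :
    rho a b c (∏ p ∈ D, p) = ∏ p ∈ D, rho a b c p := by
  induction D using Finset.induction_on with
  | empty => simp [rho_one]
  | insert q D hq ih =>
    rw [prod_insert hq, prod_insert hq]
    have hD' : ∀ p ∈ D, p.Prime := fun p hp => hD p (mem_insert_of_mem hp)
    have hqp : q.Prime := hD q (mem_insert_self _ _)
    rw [rho_mul a b c q _ hqp.ne_zero (prod_ne_zero_iff.2 fun p hp => (hD' p hp).ne_zero), ih hD']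
    refine Nat.Coprime.prod_right fun p hp => (Nat.coprime_primes hqp (hD' p hp)).2 ?_
    rintro rfl
    exact hq hp

/-- the prime factors in `(w, z]` -/
def Dv (w z N : ℕ) : Finset ℕ := N.primeFactors.filter (fun p => w < p ∧ p ≤ z)

/-- the main term of the set `D` -/
noncomputable def gg (a b c : ℤ) (w z : ℕ) (D : Finset ℕ) : ℝ :=
  (∏ p ∈ D, (rho a b c p : ℝ) / p) * ∏ p ∈ (Ioc w z).filter Nat.Prime \ D, (1 - (rho a b c p : ℝ) / p)

lemma dvd_iff {j N : ℕ} {D : Finset ℕ} (hD : ∀ p ∈ D, p.Prime) (hj : ∀ p ∈ D, ¬ p ∣ j) :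
    j * ∏ p ∈ D, p ∣ N ↔ j ∣ N ∧ ∀ p ∈ D, p ∣ N := by
  constructor
  · intro h
    exact ⟨(dvd_mul_right _ _).trans h, fun p hp =>
      ((dvd_prod_of_mem (fun p => p) hp).trans (dvd_mul_left _ _)).trans h⟩
  · rintro ⟨h1, h2⟩
    refine Nat.Coprime.mul_dvd_of_dvd_of_dvd ?_ h1 ?_
    · refine Nat.Coprime.prod_right fun p hp => ?_
      exact ((Nat.Prime.coprime_iff_not_dvd (hD p hp)).2 (hj p hp)).symm
    · exact Finset.prod_primes_dvd N (fun p hp => (hD p hp).prime) h2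

/-- the estimate for one set `D` -/
lemma est (a : ℤ) (ha : 0 < a) (b : ℤ) : ∃ C : ℕ, 1 ≤ C ∧ ∀ (b0 J w P x1 x c r j : ℕ),
    3 * C ≤ b0 → a.natAbs + 4 ≤ w → w ≤ 2 ^ 2 ^ J → 1 ≤ P → (∀ p : ℕ, p.Prime → p ∣ P → p ≤ w) →
    x1 ≤ x → b.natAbs ≤ x1 → Rough (2 ^ 2 ^ J) j → ∀ D ⊆ (Ioc w (2 ^ 2 ^ J)).filter Nat.Prime,
    |(#((Ioc x1 x).filter (fun n => (n ≡ r [MOD P] ∧ j ∣ Fn a b n + c) ∧
      Dv w (2 ^ 2 ^ J) (Fn a b n + c) = D)) : ℝ) -
      ((x : ℝ) - x1) * ((rho a b c j : ℝ) / (j * P)) * gg a b c w (2 ^ 2 ^ J) D| ≤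
      (1 / 2) ^ b0 * (((x : ℝ) - x1) * ((rho a b c j : ℝ) / (j * P)) * gg a b c w (2 ^ 2 ^ J) D) +
      rho a b c j * 2 ^ #D *
        (((3 * C : ℕ) : ℝ) ^ (3 * C) * ((J : ℝ) + 2) * ((2 ^ 2 ^ J) ^ (C * b0)) ^ 2) := by
  obtain ⟨C, hC, H⟩ := fl_gen'
  refine ⟨C, hC, ?_⟩
  intro b0 J w P x1 x c r j hb0 hw hwz hP1 hP hx hb hj D hDQ
  obtain ⟨z, hz⟩ : ∃ z : ℕ, z = 2 ^ 2 ^ J := ⟨_, rfl⟩
  rw [← hz] at hwz hj hDQ ⊢
  set Q : Finset ℕ := (Ioc w z).filter Nat.Prime with hQ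
  have hQm : ∀ p, p ∈ Q ↔ (w < p ∧ p ≤ z) ∧ p.Prime := by
    intro p
    rw [hQ, mem_filter, mem_Ioc]
  have hDp : ∀ p ∈ D, p.Prime := fun p hp => ((hQm p).1 (hDQ hp)).2
  have hj0 : j ≠ 0 := hj.1
  have hpj : ∀ p ∈ Q, ¬ p ∣ j := by
    intro p hp hpj
    have h1 := hj.2 p ((hQm p).1 hp).2 hpj
    have h2 := ((hQm p).1 hp).1.2
    omega
  have hpP : ∀ p ∈ Q, ¬ p ∣ P := by
    intro p hp hpP
    have h1 := hP p ((hQm p).1 hp).2 hpP
    have h2 := ((hQm p).1 hp).1.1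
    omega
  have hpa : ∀ p ∈ Q, ¬ (p : ℤ) ∣ a := by
    intro p hp h
    have h1 := Int.natAbs_dvd_natAbs.2 h
    rw [Int.natAbs_natCast] at h1
    have h2 := Nat.le_of_dvd (Int.natAbs_pos.2 ha.ne') h1
    have h3 := ((hQm p).1 hp).1.1
    omega
  set d : ℕ := ∏ p ∈ D, p with hd
  have hd0 : d ≠ 0 := prod_ne_zero_iff.2 fun p hp => (hDp p hp).ne_zero
  have hjd : 1 ≤ j * d := Nat.one_le_iff_ne_zero.2 (mul_ne_zero hj0 hd0)
  have hcjd : j.Coprime d := Nat.Coprime.prod_right fun p hp =>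
    ((Nat.Prime.coprime_iff_not_dvd (hDp p hp)).2 (hpj p (hDQ hp))).symm
  have hcop : P.Coprime (j * d) := by
    refine Nat.Coprime.mul_right ?_ ?_
    · refine Nat.coprime_of_dvd fun p hp h1 h2 => ?_
      have h3 := hj.2 p hp h2
      have h4 := hP p hp h1
      omega
    · refine Nat.Coprime.prod_right fun p hp => ?_
      exact ((Nat.Prime.coprime_iff_not_dvd (hDp p hp)).2 (hpP p (hDQ hp))).symm
  set N0 : Finset ℕ := (range (P * (j * d))).filter
    (fun t : ℕ => t ≡ r [MOD P] ∧ ((j * d : ℕ) : ℤ) ∣ fv a b c t) with hN0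
  have hcard : #N0 = rho a b c j * ∏ p ∈ D, rho a b c p := by
    rw [hN0, card_N0 a b c P (j * d) r hP1 hjd hcop, rho_mul a b c j d hj0 hd0 hcjd,
      rho_prod a b c D hDp]
  set S : Finset ℕ := (Ioc x1 x).filter (fun n => (n ≡ r [MOD P] ∧ j ∣ Fn a b n + c) ∧
      Dv w z (Fn a b n + c) = D) with hS
  have h := H 2 b0 J (3 * C) (P * (j * d)) x1 x (Q \ D)
    (fun p => (range p).filter (fun t : ℕ => (p : ℤ) ∣ fv a b c t)) N0 S le_rfl (by omega) (by omega)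
    (Nat.one_le_iff_ne_zero.2 (mul_ne_zero (by omega) (by omega))) hx (filter_subset _ _)
    (by
      intro p hp
      rw [Finset.mem_sdiff] at hp
      refine ⟨((hQm p).1 hp.1).2, ?_, fun hd' => ?_⟩
      · rw [← hz]
        exact ((hQm p).1 hp.1).1.2
      · have hpp := ((hQm p).1 hp.1).2
        rcases hpp.dvd_mul.1 hd' with h1 | h1
        · exact hpP p hp.1 h1
        · rcases hpp.dvd_mul.1 h1 with h2 | h2
          · exact hpj p hp.1 h2
          · rw [hd, hpp.prime.dvd_finsetProd_iff] at h2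
            obtain ⟨q, hq, hpq⟩ := h2
            rw [Nat.prime_dvd_prime_iff_eq hpp (hDp q hq)] at hpq
            rw [hpq] at hp
            exact hp.2 hq)
    (fun p _ => filter_subset _ _)
    (by
      intro p hp _
      rw [Finset.mem_sdiff] at hp
      exact rho_le_two a b c p ((hQm p).1 hp.1).2 (hpa p hp.1))
    (by
      intro n
      rw [hS, mem_filter, mem_Ioc]
      have key : ∀ hn : x1 < n, (((n ≡ r [MOD P] ∧ j ∣ Fn a b n + c) ∧
          Dv w z (Fn a b n + c) = D) ↔ (n % (P * (j * d)) ∈ N0 ∧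
          ∀ p ∈ Q \ D, n % p ∉ (range p).filter (fun t : ℕ => (p : ℤ) ∣ fv a b c t))) := by
        intro hn
        obtain ⟨hv1, hv2⟩ := val ha (show b.natAbs < n by omega) c
        have hdv : ∀ m : ℕ, m ∣ Fn a b n + c ↔ (m : ℤ) ∣ fv a b c n := by
          intro m
          rw [← hv1]
          exact Int.natCast_dvd_natCast.symm
        have hN : n % (P * (j * d)) ∈ N0 ↔ n ≡ r [MOD P] ∧ j * d ∣ Fn a b n + c := by
          rw [hN0, mem_filter, mem_range]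
          have h1 : n % (P * (j * d)) ≡ n [MOD P] :=
            (Nat.mod_modEq n (P * (j * d))).of_mul_right _
          have h2 : n % (P * (j * d)) ≡ n [MOD (j * d)] :=
            (Nat.mod_modEq n (P * (j * d))).of_mul_left _
          have h3 : n % (P * (j * d)) < P * (j * d) :=
            Nat.mod_lt _ (Nat.mul_pos (by omega) (by omega))
          rw [fv_modEq a b c (j * d) _ n h2, hdv]
          constructor
          · rintro ⟨_, h4, h5⟩
            exact ⟨h1.symm.trans h4, h5⟩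
          · rintro ⟨h4, h5⟩
            exact ⟨h3, h1.trans h4, h5⟩
        have hR : ∀ p : ℕ, p.Prime → (n % p ∉ (range p).filter (fun t : ℕ => (p : ℤ) ∣ fv a b c t) ↔
            ¬ p ∣ Fn a b n + c) := by
          intro p hp
          rw [mem_filter, mem_range, hdv, fv_mod a b c p n]
          constructor
          · intro h1 h2
            exact h1 ⟨Nat.mod_lt _ hp.pos, h2⟩
          · intro h1 h2
            exact h1 h2.2
        have hDm : ∀ p, p ∈ Dv w z (Fn a b n + c) ↔ p ∈ Q ∧ p ∣ Fn a b n + c := by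
          intro p
          unfold Dv
          rw [mem_filter, Nat.mem_primeFactors, hQm]
          constructor
          · rintro ⟨⟨h1, h2, _⟩, h3⟩
            exact ⟨⟨h3, h1⟩, h2⟩
          · rintro ⟨⟨h3, h1⟩, h2⟩
            exact ⟨⟨h1, h2, by omega⟩, h3⟩
        rw [hN, dvd_iff hDp fun p hp => hpj p (hDQ hp)]
        constructor
        · rintro ⟨⟨h1, h2⟩, h3⟩
          refine ⟨⟨h1, h2, fun p hp => ?_⟩, fun p hp => ?_⟩
          · rw [← h3] at hp
            exact ((hDm p).1 hp).2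
          · rw [Finset.mem_sdiff] at hp
            rw [hR p ((hQm p).1 hp.1).2]
            intro h4
            apply hp.2
            rw [← h3]
            exact (hDm p).2 ⟨hp.1, h4⟩
        · rintro ⟨⟨h1, h2, h3⟩, h4⟩
          refine ⟨⟨h1, h2⟩, ?_⟩
          ext p
          rw [hDm]
          constructor
          · rintro ⟨h5, h6⟩
            by_contra h7
            exact (hR p ((hQm p).1 h5).2).1 (h4 p (Finset.mem_sdiff.2 ⟨h5, h7⟩)) h6
          · intro h5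
            exact ⟨hDQ h5, h3 p h5⟩
      constructor
      · rintro ⟨h1, h2⟩
        exact ⟨h1, (key h1.1).1 h2⟩
      · rintro ⟨h1, h2⟩
        exact ⟨h1, (key h1.1).2 h2⟩)
  have hPr : (0 : ℝ) < P := by exact_mod_cast hP1
  have hjr : (0 : ℝ) < j := by exact_mod_cast Nat.pos_of_ne_zero hj0
  have hmain : ((x : ℝ) - x1) * ((#N0 : ℝ) / ((P * (j * d) : ℕ) : ℝ)) *
      ∏ p ∈ Q \ D, (1 - (#((range p).filter (fun t : ℕ => (p : ℤ) ∣ fv a b c t)) : ℝ) / p) =
      ((x : ℝ) - x1) * ((rho a b c j : ℝ) / (j * P)) * gg a b c w z D := by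
    have e1 : (#N0 : ℝ) / ((P * (j * d) : ℕ) : ℝ) =
        (rho a b c j : ℝ) / (j * P) * ∏ p ∈ D, (rho a b c p : ℝ) / p := by
      rw [hcard, hd, prod_div_distrib]
      push_cast
      have hdr : (∏ p ∈ D, (p : ℝ)) ≠ 0 :=
        prod_ne_zero_iff.2 fun p hp => by exact_mod_cast (hDp p hp).ne_zero
      field_simp
    rw [e1]
    unfold gg
    have e2 : ∏ p ∈ Q \ D, (1 - (#((range p).filter (fun t : ℕ => (p : ℤ) ∣ fv a b c t)) : ℝ) / p) =
        ∏ p ∈ (Ioc w z).filter Nat.Prime \ D, (1 - (rho a b c p : ℝ) / p) := rfl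
    rw [e2]
    ring
  rw [hmain] at h
  refine h.trans ?_
  have h2D : ((∏ p ∈ D, rho a b c p : ℕ) : ℝ) ≤ 2 ^ #D := by
    have h1 : ∏ p ∈ D, rho a b c p ≤ 2 ^ #D := by
      rw [← prod_const]
      exact prod_le_prod' fun p hp => rho_le_two a b c p (hDp p hp) (hpa p (hDQ hp))
    exact_mod_cast h1
  have hlast : (#N0 : ℝ) * ((3 * C : ℕ) : ℝ) ^ (3 * C) * ((J : ℝ) + 2) * ((2 ^ 2 ^ J) ^ (C * b0)) ^ 2 ≤
      rho a b c j * 2 ^ #D *
        (((3 * C : ℕ) : ℝ) ^ (3 * C) * ((J : ℝ) + 2) * ((2 ^ 2 ^ J) ^ (C * b0)) ^ 2) := by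
    rw [hcard, Nat.cast_mul]
    have h3 : (rho a b c j : ℝ) * ((∏ p ∈ D, rho a b c p : ℕ) : ℝ) ≤ rho a b c j * 2 ^ #D :=
      mul_le_mul_of_nonneg_left h2D (Nat.cast_nonneg _)
    have h4 : (0 : ℝ) ≤ ((3 * C : ℕ) : ℝ) ^ (3 * C) * ((J : ℝ) + 2) * ((2 ^ 2 ^ J) ^ (C * b0)) ^ 2 := by
      positivity
    have h5 := mul_le_mul_of_nonneg_right h3 h4
    refine le_trans (le_of_eq ?_) h5
    ring
  linarith

lemma sum_pow (a b c : ℤ) (w z : ℕ) (f : ℕ → ℝ) :
    ∑ D ∈ ((Ioc w z).filter Nat.Prime).powerset, (∏ p ∈ D, f p) *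
      ∏ p ∈ (Ioc w z).filter Nat.Prime \ D, (1 - (rho a b c p : ℝ) / p) =
    ∏ p ∈ (Ioc w z).filter Nat.Prime, (f p + (1 - (rho a b c p : ℝ) / p)) := (prod_add _ _ _).symm

lemma rng {a b c : ℤ} {w z : ℕ} (hw : 4 ≤ w)
    (hr : ∀ p ∈ (Ioc w z).filter Nat.Prime, rho a b c p ≤ 2) :
    ∀ p ∈ (Ioc w z).filter Nat.Prime, 0 ≤ (rho a b c p : ℝ) / p ∧ 2 * ((rho a b c p : ℝ) / p) ≤ 1 := by
  intro p hp
  have h1 := hr p hp
  rw [mem_filter, mem_Ioc] at hp
  have h2 : (4 : ℝ) ≤ p := by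
    have : 4 ≤ p := by omega
    exact_mod_cast this
  have h3 : (rho a b c p : ℝ) ≤ 2 := by exact_mod_cast h1
  refine ⟨by positivity, ?_⟩
  rw [← mul_div_assoc, div_le_one (by linarith)]
  linarith

lemma gg_nonneg {a b c : ℤ} {w z : ℕ} (hw : 4 ≤ w)
    (hr : ∀ p ∈ (Ioc w z).filter Nat.Prime, rho a b c p ≤ 2) (D : Finset ℕ) :
    0 ≤ gg a b c w z D := by
  unfold gg
  refine mul_nonneg (prod_nonneg fun p _ => by positivity) (prod_nonneg fun p hp => ?_)
  have h := rng hw hr p (Finset.mem_sdiff.1 hp).1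
  linarith

lemma sum_gg (a b c : ℤ) (w z : ℕ) :
    ∑ D ∈ ((Ioc w z).filter Nat.Prime).powerset, gg a b c w z D = 1 := by
  unfold gg
  rw [sum_pow a b c w z fun p => (rho a b c p : ℝ) / p]
  refine prod_eq_one fun p _ => ?_
  ring

lemma sum_sgn (a b c : ℤ) (w z : ℕ) :
    ∑ D ∈ ((Ioc w z).filter Nat.Prime).powerset, (-1 : ℝ) ^ #D * gg a b c w z D =
      ∏ p ∈ (Ioc w z).filter Nat.Prime, (1 - 2 * (rho a b c p : ℝ) / p) := by
  have h1 : ∀ D ∈ ((Ioc w z).filter Nat.Prime).powerset, (-1 : ℝ) ^ #D * gg a b c w z D =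
      (∏ p ∈ D, (-1 * ((rho a b c p : ℝ) / p))) *
        ∏ p ∈ (Ioc w z).filter Nat.Prime \ D, (1 - (rho a b c p : ℝ) / p) := by
    intro D _
    unfold gg
    rw [prod_mul_distrib, prod_const]
    ring
  rw [sum_congr rfl h1, sum_pow a b c w z fun p => -1 * ((rho a b c p : ℝ) / p)]
  refine prod_congr rfl fun p _ => ?_
  ring

/-- the large sets -/
lemma tail : ∃ K1 : ℝ, 0 < K1 ∧ ∀ (a b c : ℤ) (w z : ℕ) (x δ η : ℝ), 4 ≤ w → 2 ≤ z →
    (∀ p ∈ (Ioc w z).filter Nat.Prime, rho a b c p ≤ 2) → 1 ≤ x → 0 < δ → 0 < η →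
    (z : ℝ) ≤ x ^ η →
    ∑ D ∈ ((Ioc w z).filter Nat.Prime).powerset.filter
      (fun D => ¬ ((∏ p ∈ D, p : ℕ) : ℝ) ≤ x ^ δ), gg a b c w z D ≤ K1 * Real.exp (-(δ / η)) := by
  obtain ⟨CM, hCM⟩ := Pool.Agent.Erdos456.Mert.mertens_log
  refine ⟨Real.exp (4 + 8 * |CM|), Real.exp_pos _, ?_⟩
  intro a b c w z x δ η hw hz hr hx hδ hη hzx
  set Q : Finset ℕ := (Ioc w z).filter Nat.Prime with hQ
  have hx0 : 0 < x := by linarith
  have hz2 : (2 : ℝ) ≤ z := by exact_mod_cast hz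
  set L : ℝ := Real.log z with hL
  have hL1 : 1 / 2 ≤ L := by
    have h1 : Real.log 2 ≤ L := Real.log_le_log (by norm_num) hz2
    have h2 := Real.log_two_gt_d9
    linarith
  have hL0 : 0 < L := by linarith
  set y : ℝ := x ^ δ with hy
  have hy0 : 0 < y := Real.rpow_pos_of_pos hx0 _
  have hyL : 0 < y ^ (1 / L) := Real.rpow_pos_of_pos hy0 _
  have hterm : ∀ D ∈ Q.powerset, gg a b c w z D * (((∏ p ∈ D, p : ℕ) : ℝ) / y) ^ (1 / L) =
      (y ^ (1 / L))⁻¹ * ((∏ p ∈ D, ((rho a b c p : ℝ) / p * (p : ℝ) ^ (1 / L))) *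
        ∏ p ∈ Q \ D, (1 - (rho a b c p : ℝ) / p)) := by
    intro D _
    rw [Real.div_rpow (Nat.cast_nonneg _) hy0.le, Nat.cast_prod,
      ← Real.finsetProd_rpow D (fun p : ℕ => (p : ℝ)) (fun p _ => Nat.cast_nonneg _) (1 / L),
      prod_mul_distrib]
    unfold gg
    rw [div_eq_mul_inv]
    ring
  have h1 : ∑ D ∈ Q.powerset.filter (fun D => ¬ ((∏ p ∈ D, p : ℕ) : ℝ) ≤ y), gg a b c w z D ≤
      ∑ D ∈ Q.powerset, gg a b c w z D * (((∏ p ∈ D, p : ℕ) : ℝ) / y) ^ (1 / L) := by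
    refine (sum_le_sum (g := fun D => gg a b c w z D * (((∏ p ∈ D, p : ℕ) : ℝ) / y) ^ (1 / L))
      fun D hD => ?_).trans (sum_le_sum_of_subset_of_nonneg (filter_subset _ _) fun D _ _ => ?_)
    · rw [mem_filter] at hD
      have h2 := gg_nonneg hw hr D
      have h3 : 1 ≤ (((∏ p ∈ D, p : ℕ) : ℝ) / y) ^ (1 / L) := by
        apply Real.one_le_rpow
        · rw [one_le_div hy0]
          exact (not_le.1 hD.2).le
        · positivity
      exact le_mul_of_one_le_right h2 h3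
    · exact mul_nonneg (gg_nonneg hw hr D) (by positivity)
  refine h1.trans ?_
  rw [sum_congr rfl hterm, ← mul_sum, hQ,
    sum_pow a b c w z fun p => (rho a b c p : ℝ) / p * (p : ℝ) ^ (1 / L), ← hQ]
  have hfac : ∀ p ∈ Q, (rho a b c p : ℝ) / p * (p : ℝ) ^ (1 / L) + (1 - (rho a b c p : ℝ) / p) ≤
      Real.exp (4 / L * (Real.log p / p)) := by
    intro p hp
    have h2 := rng hw hr p hp
    have h3 := hr p hp
    rw [hQ, mem_filter, mem_Ioc] at hp
    have hp0 : (0 : ℝ) < p := by exact_mod_cast hp.2.pos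
    have hp1 : (1 : ℝ) ≤ p := by exact_mod_cast hp.2.one_le
    have hpz : (p : ℝ) ≤ z := by exact_mod_cast hp.1.2
    have hlp : 0 ≤ Real.log p := Real.log_nonneg hp1
    set u : ℝ := Real.log p / L with hu
    have hu0 : 0 ≤ u := by positivity
    have hu1 : u ≤ 1 := by
      rw [hu, div_le_one hL0]
      exact Real.log_le_log hp0 hpz
    have h4 : (p : ℝ) ^ (1 / L) = Real.exp u := by
      rw [Real.rpow_def_of_pos hp0, hu]
      congr 1
      ring
    have h5 : Real.exp u ≤ 1 + 2 * u := by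
      have h6 := Real.abs_exp_sub_one_sub_id_le (x := u) (by rw [abs_of_nonneg hu0]; exact hu1)
      have h7 := (abs_le.1 h6).2
      nlinarith
    rw [h4]
    have h8 : (rho a b c p : ℝ) / p ≤ 2 / p := by
      have : (rho a b c p : ℝ) ≤ 2 := by exact_mod_cast h3
      gcongr
    have h9 : (rho a b c p : ℝ) / p * Real.exp u + (1 - (rho a b c p : ℝ) / p) ≤
        1 + 2 / p * (2 * u) := by
      have h10 : (rho a b c p : ℝ) / p * (Real.exp u - 1) ≤ 2 / p * (2 * u) := by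
        apply mul_le_mul h8 (by linarith) _ (by positivity)
        have := Real.add_one_le_exp u
        linarith
      linarith
    have h11 : 2 / (p : ℝ) * (2 * u) = 4 / L * (Real.log p / p) := by
      rw [hu]
      field_simp
      ring
    rw [h11] at h9
    have h12 := Real.add_one_le_exp (4 / L * (Real.log p / p))
    linarith
  have hprod : ∏ p ∈ Q, ((rho a b c p : ℝ) / p * (p : ℝ) ^ (1 / L) + (1 - (rho a b c p : ℝ) / p)) ≤
      Real.exp (4 + 8 * |CM|) := by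
    have h2 : ∏ p ∈ Q, ((rho a b c p : ℝ) / p * (p : ℝ) ^ (1 / L) + (1 - (rho a b c p : ℝ) / p)) ≤
        ∏ p ∈ Q, Real.exp (4 / L * (Real.log p / p)) := by
      refine prod_le_prod (fun p hp => ?_) hfac
      have h3 := rng hw hr p hp
      have h4 : 0 ≤ (rho a b c p : ℝ) / p * (p : ℝ) ^ (1 / L) := mul_nonneg h3.1 (by positivity)
      linarith
    refine h2.trans ?_
    rw [← Real.exp_sum]
    apply Real.exp_le_exp.2
    rw [← mul_sum]
    have h3 : ∑ p ∈ Q, Real.log p / p ≤ ∑ p ∈ (Icc 1 z).filter Nat.Prime, Real.log p / p := by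
      refine sum_le_sum_of_subset_of_nonneg ?_ fun p hp _ => ?_
      · intro p hp
        rw [hQ, mem_filter, mem_Ioc] at hp
        rw [mem_filter, mem_Icc]
        exact ⟨⟨hp.2.one_le, hp.1.2⟩, hp.2⟩
      · have : (1 : ℝ) ≤ p := by exact_mod_cast (mem_filter.1 hp).2.one_le
        have := Real.log_nonneg this
        positivity
    have h4 := (abs_le.1 (hCM z (by omega))).2
    have h5 : ∑ p ∈ Q, Real.log p / p ≤ L + |CM| := by
      have := le_abs_self CM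
      linarith
    have h6 : 4 / L * ∑ p ∈ Q, Real.log p / p ≤ 4 / L * (L + |CM|) :=
      mul_le_mul_of_nonneg_left h5 (by positivity)
    have h7 : 4 / L * (L + |CM|) = 4 + 4 / L * |CM| := by
      field_simp
    have h8 : 4 / L ≤ 8 := by
      rw [div_le_iff₀ hL0]
      linarith
    have h9 : 4 / L * |CM| ≤ 8 * |CM| := mul_le_mul_of_nonneg_right h8 (abs_nonneg _)
    linarith
  have hyinv : (y ^ (1 / L))⁻¹ ≤ Real.exp (-(δ / η)) := by
    rw [Real.exp_neg]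
    apply inv_anti₀ (Real.exp_pos _)
    rw [hy, ← Real.rpow_mul hx0.le, Real.rpow_def_of_pos hx0]
    apply Real.exp_le_exp.2
    have h2 : L ≤ η * Real.log x := by
      have h3 := Real.log_le_log (by linarith) hzx
      rwa [Real.log_rpow hx0] at h3
    rw [div_le_iff₀ hη]
    have h3 : Real.log x * (δ * (1 / L)) * η = δ * ((η * Real.log x) / L) := by ring
    rw [h3]
    have h4 : 1 ≤ (η * Real.log x) / L := by rw [one_le_div hL0]; exact h2
    exact le_mul_of_one_le_right hδ.le h4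
  calc (y ^ (1 / L))⁻¹ * ∏ p ∈ Q, ((rho a b c p : ℝ) / p * (p : ℝ) ^ (1 / L) +
        (1 - (rho a b c p : ℝ) / p))
      ≤ Real.exp (-(δ / η)) * Real.exp (4 + 8 * |CM|) := by
        apply mul_le_mul hyinv hprod _ (Real.exp_pos _).le
        refine prod_nonneg fun p hp => ?_
        have h3 := rng hw hr p hp
        have h4 : 0 ≤ (rho a b c p : ℝ) / p * (p : ℝ) ^ (1 / L) := mul_nonneg h3.1 (by positivity)
        linarith
    _ = _ := mul_comm _ _

/-- the small sets -/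
lemma small (w z : ℕ) (hw : 4 ≤ w) (y : ℝ) (hy : 0 ≤ y) :
    ∑ D ∈ ((Ioc w z).filter Nat.Prime).powerset.filter (fun D => ((∏ p ∈ D, p : ℕ) : ℝ) ≤ y),
      (2 : ℝ) ^ #D ≤ y * √y := by
  set Q : Finset ℕ := (Ioc w z).filter Nat.Prime with hQ
  have hQp : ∀ D ∈ Q.powerset, ∀ p ∈ D, p.Prime ∧ 4 ≤ p := by
    intro D hD p hp
    have h1 := mem_powerset.1 hD hp
    rw [hQ, mem_filter, mem_Ioc] at h1
    exact ⟨h1.2, by omega⟩
  have h1 : ∀ D ∈ Q.powerset.filter (fun D => ((∏ p ∈ D, p : ℕ) : ℝ) ≤ y), (2 : ℝ) ^ #D ≤ √y := by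
    intro D hD
    rw [mem_filter] at hD
    apply Real.le_sqrt_of_sq_le
    have h2 : 4 ^ #D ≤ ∏ p ∈ D, p := by
      rw [← prod_const]
      exact prod_le_prod' fun p hp => (hQp D hD.1 p hp).2
    have h3 : ((4 ^ #D : ℕ) : ℝ) ≤ ((∏ p ∈ D, p : ℕ) : ℝ) := by exact_mod_cast h2
    have h4 : ((2 : ℝ) ^ #D) ^ 2 = ((4 ^ #D : ℕ) : ℝ) := by
      push_cast
      rw [← pow_mul, mul_comm, pow_mul]
      norm_num
    rw [h4]
    exact h3.trans hD.2
  have h2 : (#(Q.powerset.filter (fun D => ((∏ p ∈ D, p : ℕ) : ℝ) ≤ y)) : ℝ) ≤ y := by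
    have h3 : #(Q.powerset.filter (fun D => ((∏ p ∈ D, p : ℕ) : ℝ) ≤ y)) ≤ #(Icc 1 ⌊y⌋₊) := by
      refine card_le_card_of_injOn (fun D => ∏ p ∈ D, p) ?_ ?_
      · intro D hD
        have hD' := mem_filter.1 (mem_coe.1 hD)
        rw [mem_coe, mem_Icc]
        refine ⟨?_, Nat.le_floor hD'.2⟩
        exact Nat.one_le_iff_ne_zero.2
          (prod_ne_zero_iff.2 fun p hp => (hQp D hD'.1 p hp).1.ne_zero)
      · intro D hD D' hD' h
        have hD1 := mem_filter.1 (mem_coe.1 hD)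
        have hD2 := mem_filter.1 (mem_coe.1 hD')
        rw [← Nat.primeFactors_prod fun p hp => (hQp D hD1.1 p hp).1,
          ← Nat.primeFactors_prod fun p hp => (hQp D' hD2.1 p hp).1]
        exact congrArg Nat.primeFactors h
    rw [Nat.card_Icc, Nat.add_sub_cancel] at h3
    have h4 : (#(Q.powerset.filter (fun D => ((∏ p ∈ D, p : ℕ) : ℝ) ≤ y)) : ℝ) ≤ (⌊y⌋₊ : ℝ) := by
      exact_mod_cast h3
    exact h4.trans (Nat.floor_le hy)
  refine (sum_le_sum h1).trans ?_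
  rw [sum_const, nsmul_eq_mul]
  exact mul_le_mul_of_nonneg_right h2 (Real.sqrt_nonneg _)

end TAp

open TAp GDp in
theorem ta (a : ℤ) (ha : 0 < a) (b : ℤ) : TA a b := by
  obtain ⟨C, hC, H⟩ := est a ha b
  obtain ⟨K1, hK1, T⟩ := tail
  have hCr : (1 : ℝ) ≤ C := by exact_mod_cast hC
  set K : ℝ := 8 * C + K1 + 2 with hK
  have hK1' : 1 ≤ K := by linarith
  have hK0 : 0 < K := by linarith
  refine ⟨K, hK1', fun δ hδ hδ' => ?_⟩
  have hden : 0 < 8 * (C : ℝ) * (3 * C + 1) := by positivity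
  refine ⟨min (1 / 10) (δ / (8 * C * (3 * C + 1))), by positivity, min_le_left _ _, ?_⟩
  intro η hη hη0 w P hw hP1 hP
  have hη1 : η ≤ 1 / 10 := hη0.trans (min_le_left _ _)
  have hη2 : η ≤ δ / (8 * C * (3 * C + 1)) := hη0.trans (min_le_right _ _)
  set b0 : ℕ := ⌊δ / (8 * C * η)⌋₊ with hb0
  have h8 : 0 < 8 * (C : ℝ) * η := by positivity
  have hb3 : 3 * C ≤ b0 := by
    apply Nat.le_floor
    push_cast
    rw [le_div_iff₀ h8]
    rw [le_div_iff₀ hden] at hη2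
    nlinarith
  have hb1 : (b0 : ℝ) ≤ δ / (8 * C * η) := Nat.floor_le (by positivity)
  have hb2 : δ / (8 * C * η) < b0 + 1 := Nat.lt_floor_add_one _
  -- large `x`
  have hev : ∀ᶠ x : ℕ in atTop, ((3 * C : ℕ) : ℝ) ^ (3 * C) * (2 * Real.log x + 2) ≤
      (x : ℝ) ^ (δ / 4) ∧ (w : ℝ) ≤ (x : ℝ) ^ (η / 2) ∧ (1 : ℝ) ≤ x := by
    set Z : ℝ := ((3 * C : ℕ) : ℝ) ^ (3 * C) with hZ
    have hZ0 : 0 < Z := by
      have : (0 : ℝ) < ((3 * C : ℕ) : ℝ) := by
        have : 0 < 3 * C := by omega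
        exact_mod_cast this
      positivity
    have h1 := (isLittleO_log_rpow_atTop (r := δ / 4) (by positivity)).def
      (show 0 < 1 / (4 * Z) by positivity)
    have h2 := (tendsto_rpow_atTop (show 0 < δ / 4 by positivity)).eventually_ge_atTop (4 * Z)
    have h3 := (tendsto_rpow_atTop (show 0 < η / 2 by positivity)).eventually_ge_atTop (w : ℝ)
    have h4 : ∀ᶠ x : ℝ in atTop, Z * (2 * Real.log x + 2) ≤ x ^ (δ / 4) ∧
        (w : ℝ) ≤ x ^ (η / 2) ∧ 1 ≤ x := by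
      filter_upwards [h1, h2, h3, eventually_ge_atTop (1 : ℝ)] with x g1 g2 g3 g4
      refine ⟨?_, g3, g4⟩
      rw [Real.norm_eq_abs, Real.norm_eq_abs, abs_of_nonneg (Real.log_nonneg g4),
        abs_of_nonneg (by positivity)] at g1
      have g5 : Z * Real.log x ≤ x ^ (δ / 4) / 4 := by
        calc Z * Real.log x ≤ Z * (1 / (4 * Z) * x ^ (δ / 4)) :=
              mul_le_mul_of_nonneg_left g1 hZ0.le
          _ = x ^ (δ / 4) / 4 := by field_simp
      linarith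
    exact tendsto_natCast_atTop_atTop.eventually h4
  obtain ⟨x0, hx0⟩ := eventually_atTop.1 hev
  refine ⟨x0, fun x hx x1 J c r j hx1 hb hz1 hz2 hj => ?_⟩
  obtain ⟨hxE, hxw, hx1'⟩ := hx0 x hx
  have hest := fun D hD => H b0 J w P x1 x c r j hb3 hw (by
    have : (w : ℝ) ≤ ((2 ^ 2 ^ J : ℕ) : ℝ) := hxw.trans hz1
    exact_mod_cast this) hP1 hP hx1.le hb hj D hD
  have hzr : ((2 : ℝ) ^ 2 ^ J) = ((2 ^ 2 ^ J : ℕ) : ℝ) := by push_cast; rfl
  rw [hzr] at hest
  have hJz : (J : ℝ) + 2 ≤ 2 * Real.log x + 2 := by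
    have h1 : Real.log ((2 ^ 2 ^ J : ℕ) : ℝ) ≤ Real.log ((x : ℝ) ^ η) :=
      Real.log_le_log (by positivity) hz2
    rw [Real.log_rpow (by linarith)] at h1
    push_cast at h1
    rw [Real.log_pow] at h1
    push_cast at h1
    have h2 : (J : ℝ) ≤ 2 ^ J := by exact_mod_cast (Nat.lt_two_pow_self (n := J)).le
    have h3 := Real.log_two_gt_d9
    have h4 : 0 ≤ Real.log x := Real.log_nonneg hx1'
    have h5 : (2 : ℝ) ^ J * (1 / 2) ≤ 2 ^ J * Real.log 2 := by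
      apply mul_le_mul_of_nonneg_left (by linarith) (by positivity)
    have h6 : η * Real.log x ≤ 1 * Real.log x := mul_le_mul_of_nonneg_right (by linarith) h4
    linarith
  obtain ⟨z, hz⟩ : ∃ z : ℕ, z = 2 ^ 2 ^ J := ⟨_, rfl⟩
  rw [← hz] at hest hz1 hz2 hj ⊢
  have hz2' : 2 ≤ z := by
    rw [hz]
    calc 2 = 2 ^ 1 := by norm_num
      _ ≤ 2 ^ 2 ^ J := Nat.pow_le_pow_right (by norm_num) Nat.one_le_two_pow
  have hw4 : 4 ≤ w := by omega
  set Q : Finset ℕ := (Ioc w z).filter Nat.Prime with hQ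
  have hr : ∀ p ∈ Q, rho a b c p ≤ 2 := by
    intro p hp
    rw [hQ, mem_filter, mem_Ioc] at hp
    refine rho_le_two a b c p hp.2 fun h => ?_
    have h1 := Int.natAbs_dvd_natAbs.2 h
    rw [Int.natAbs_natCast] at h1
    have h2 := Nat.le_of_dvd (Int.natAbs_pos.2 ha.ne') h1
    omega
  set y : ℝ := (x : ℝ) ^ δ with hy
  have hy0 : 0 ≤ y := by positivity
  set DD : Finset (Finset ℕ) := Q.powerset.filter (fun D => ((∏ p ∈ D, p : ℕ) : ℝ) ≤ y) with hDD
  set A : ℝ := ((x : ℝ) - x1) * ((rho a b c j : ℝ) / (j * P)) with hA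
  have hx1r : (x1 : ℝ) ≤ x := by exact_mod_cast hx1.le
  have hρ : 0 ≤ (rho a b c j : ℝ) / (j * P) := by positivity
  have hA0 : 0 ≤ A := mul_nonneg (by linarith) hρ
  set E : ℝ := ((3 * C : ℕ) : ℝ) ^ (3 * C) * ((J : ℝ) + 2) * (((z : ℕ) : ℝ) ^ (C * b0)) ^ 2 with hE
  have hE0 : 0 ≤ E := by positivity
  -- the decomposition
  have hdec : ∑ n ∈ (Ioc x1 x).filter (fun n => n ≡ r [MOD P] ∧ j ∣ Fn a b n + c ∧
      ((rd w z (Fn a b n + c) : ℕ) : ℝ) ≤ y), sg w z (Fn a b n + c) =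
      ∑ D ∈ DD, (-1 : ℝ) ^ #D * #((Ioc x1 x).filter (fun n => (n ≡ r [MOD P] ∧
        j ∣ Fn a b n + c) ∧ Dv w z (Fn a b n + c) = D)) := by
    rw [← sum_fiberwise_of_maps_to (t := DD) (g := fun n => Dv w z (Fn a b n + c))]
    · refine sum_congr rfl fun D hD => ?_
      have h1 : ((Ioc x1 x).filter (fun n => n ≡ r [MOD P] ∧ j ∣ Fn a b n + c ∧
          ((rd w z (Fn a b n + c) : ℕ) : ℝ) ≤ y)).filter (fun n => Dv w z (Fn a b n + c) = D) =
          (Ioc x1 x).filter (fun n => (n ≡ r [MOD P] ∧ j ∣ Fn a b n + c) ∧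
            Dv w z (Fn a b n + c) = D) := by
        ext n
        rw [mem_filter, mem_filter, mem_filter]
        constructor
        · rintro ⟨⟨g1, g2, g3, g4⟩, g5⟩
          exact ⟨g1, ⟨g2, g3⟩, g5⟩
        · rintro ⟨g1, ⟨g2, g3⟩, g5⟩
          refine ⟨⟨g1, g2, g3, ?_⟩, g5⟩
          have h2 : rd w z (Fn a b n + c) = ∏ p ∈ D, p := by rw [← g5]; rfl
          rw [h2]
          exact (mem_filter.1 hD).2
      rw [h1]
      have h2 : ∀ n ∈ (Ioc x1 x).filter (fun n => (n ≡ r [MOD P] ∧ j ∣ Fn a b n + c) ∧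
          Dv w z (Fn a b n + c) = D), sg w z (Fn a b n + c) = (-1 : ℝ) ^ #D := by
        intro n hn
        rw [← (mem_filter.1 hn).2.2]
        rfl
      rw [sum_congr rfl h2, sum_const, nsmul_eq_mul, mul_comm]
    · intro n hn
      rw [mem_filter] at hn
      rw [hDD, mem_filter, mem_powerset]
      refine ⟨fun p hp => ?_, hn.2.2.2⟩
      unfold Dv at hp
      rw [mem_filter, Nat.mem_primeFactors] at hp
      rw [hQ, mem_filter, mem_Ioc]
      exact ⟨hp.2, hp.1.1⟩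
  rw [hdec]
  have hsplit : ∑ D ∈ DD, (-1 : ℝ) ^ #D * #((Ioc x1 x).filter (fun n => (n ≡ r [MOD P] ∧
      j ∣ Fn a b n + c) ∧ Dv w z (Fn a b n + c) = D)) =
      A * ∑ D ∈ DD, (-1 : ℝ) ^ #D * gg a b c w z D +
      ∑ D ∈ DD, (-1 : ℝ) ^ #D * ((#((Ioc x1 x).filter (fun n => (n ≡ r [MOD P] ∧
        j ∣ Fn a b n + c) ∧ Dv w z (Fn a b n + c) = D)) : ℝ) - A * gg a b c w z D) := by
    rw [mul_sum, ← sum_add_distrib]
    refine sum_congr rfl fun D _ => ?_
    ring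
  have hS1 : |∑ D ∈ DD, (-1 : ℝ) ^ #D * gg a b c w z D| ≤
      ∏ p ∈ Q, (1 - 2 * (rho a b c p : ℝ) / p) + K1 * Real.exp (-(δ / η)) := by
    have h1 := sum_filter_add_sum_filter_not Q.powerset
      (fun D => ((∏ p ∈ D, p : ℕ) : ℝ) ≤ y) (fun D => (-1 : ℝ) ^ #D * gg a b c w z D)
    rw [hQ, sum_sgn a b c w z, ← hQ] at h1
    have h2 : |∑ D ∈ Q.powerset.filter (fun D => ¬ ((∏ p ∈ D, p : ℕ) : ℝ) ≤ y),
        (-1 : ℝ) ^ #D * gg a b c w z D| ≤ K1 * Real.exp (-(δ / η)) := by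
      refine (abs_sum_le_sum_abs _ _).trans (le_trans (le_of_eq ?_)
        (T a b c w z x δ η hw4 hz2' hr hx1' hδ hη hz2))
      refine sum_congr rfl fun D _ => ?_
      rw [abs_mul, abs_pow, abs_neg, abs_one, one_pow, one_mul, abs_of_nonneg (gg_nonneg hw4 hr D)]
    have h3 : 0 ≤ ∏ p ∈ Q, (1 - 2 * (rho a b c p : ℝ) / p) := by
      refine prod_nonneg fun p hp => ?_
      have := (rng hw4 hr p hp).2
      rw [mul_div_assoc]
      linarith
    have h4 : ∑ D ∈ DD, (-1 : ℝ) ^ #D * gg a b c w z D =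
        ∏ p ∈ Q, (1 - 2 * (rho a b c p : ℝ) / p) -
        ∑ D ∈ Q.powerset.filter (fun D => ¬ ((∏ p ∈ D, p : ℕ) : ℝ) ≤ y),
          (-1 : ℝ) ^ #D * gg a b c w z D := by
      rw [hDD]
      linarith
    rw [h4]
    refine (abs_sub _ _).trans ?_
    rw [abs_of_nonneg h3]
    linarith
  have hS2 : |∑ D ∈ DD, (-1 : ℝ) ^ #D * ((#((Ioc x1 x).filter (fun n => (n ≡ r [MOD P] ∧
        j ∣ Fn a b n + c) ∧ Dv w z (Fn a b n + c) = D)) : ℝ) - A * gg a b c w z D)| ≤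
      (1 / 2) ^ b0 * A + rho a b c j * (y * √y * E) := by
    refine (abs_sum_le_sum_abs _ _).trans ?_
    have h1 : ∀ D ∈ DD, |(-1 : ℝ) ^ #D * ((#((Ioc x1 x).filter (fun n => (n ≡ r [MOD P] ∧
        j ∣ Fn a b n + c) ∧ Dv w z (Fn a b n + c) = D)) : ℝ) - A * gg a b c w z D)| ≤
        (1 / 2) ^ b0 * (A * gg a b c w z D) + rho a b c j * 2 ^ #D * E := by
      intro D hD
      rw [abs_mul, abs_pow, abs_neg, abs_one, one_pow, one_mul]
      rw [hDD, mem_filter, mem_powerset] at hD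
      exact hest D hD.1
    refine (sum_le_sum h1).trans ?_
    rw [sum_add_distrib]
    refine add_le_add ?_ ?_
    · rw [← mul_sum, ← mul_sum]
      have h2 : ∑ D ∈ DD, gg a b c w z D ≤ 1 := by
        rw [← sum_gg a b c w z, ← hQ]
        exact sum_le_sum_of_subset_of_nonneg (filter_subset _ _) fun D _ _ => gg_nonneg hw4 hr D
      have h3 : A * ∑ D ∈ DD, gg a b c w z D ≤ A * 1 := mul_le_mul_of_nonneg_left h2 hA0
      have h4 : (0 : ℝ) ≤ (1 / 2) ^ b0 := by positivity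
      have h5 := mul_le_mul_of_nonneg_left h3 h4
      rwa [mul_one] at h5
    · rw [← sum_mul, ← mul_sum]
      have h2 := small w z hw4 y hy0
      rw [← hQ, ← hDD] at h2
      have h3 : (rho a b c j : ℝ) * ∑ D ∈ DD, (2 : ℝ) ^ #D * E ≤ rho a b c j * (y * √y * E) := by
        rw [← sum_mul]
        exact mul_le_mul_of_nonneg_left (mul_le_mul_of_nonneg_right h2 hE0) (Nat.cast_nonneg _)
      rw [← sum_mul] at h3
      linarith
  have hxp : (0 : ℝ) < x := by linarith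
  have hyE : y * √y * E ≤ (x : ℝ) ^ (2 * δ) := by
    have h1 : √y = (x : ℝ) ^ (δ / 2) := by
      rw [hy, Real.sqrt_eq_rpow, ← Real.rpow_mul hxp.le]
      congr 1
      ring
    have h2 : (((z : ℕ) : ℝ) ^ (C * b0)) ^ 2 ≤ (x : ℝ) ^ (δ / 4) := by
      rw [← pow_mul]
      calc ((z : ℕ) : ℝ) ^ (C * b0 * 2) ≤ ((x : ℝ) ^ η) ^ (C * b0 * 2) :=
            pow_le_pow_left₀ (Nat.cast_nonneg _) hz2 _
        _ = (x : ℝ) ^ (η * ((C * b0 * 2 : ℕ) : ℝ)) := by
            rw [Real.rpow_mul hxp.le, Real.rpow_natCast]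
        _ ≤ (x : ℝ) ^ (δ / 4) := by
            apply Real.rpow_le_rpow_of_exponent_le hx1'
            rw [le_div_iff₀ h8] at hb1
            push_cast
            nlinarith
    have h3 : ((3 * C : ℕ) : ℝ) ^ (3 * C) * ((J : ℝ) + 2) ≤ (x : ℝ) ^ (δ / 4) :=
      (mul_le_mul_of_nonneg_left hJz (by positivity)).trans hxE
    have h4 : E ≤ (x : ℝ) ^ (δ / 4) * (x : ℝ) ^ (δ / 4) :=
      mul_le_mul h3 h2 (by positivity) (by positivity)
    calc y * √y * E ≤ y * √y * ((x : ℝ) ^ (δ / 4) * (x : ℝ) ^ (δ / 4)) :=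
          mul_le_mul_of_nonneg_left h4 (by positivity)
      _ = (x : ℝ) ^ (2 * δ) := by
          rw [h1, hy, ← Real.rpow_add hxp, ← Real.rpow_add hxp, ← Real.rpow_add hxp]
          congr 1
          ring
  have hconst : K1 * Real.exp (-(δ / η)) + (1 / 2) ^ b0 ≤ K * (2 : ℝ) ^ (-(δ / (K * η))) := by
    have h1 : Real.exp (-(δ / η)) ≤ (2 : ℝ) ^ (-(δ / (K * η))) := by
      rw [Real.rpow_def_of_pos (by norm_num)]
      apply Real.exp_le_exp.2
      have h2 : Real.log 2 ≤ 1 := by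
        have := Real.log_two_lt_d9
        linarith
      have h3 : δ / (K * η) ≤ δ / η := by
        apply div_le_div_of_nonneg_left hδ.le hη
        nlinarith
      have h4 : Real.log 2 * (δ / (K * η)) ≤ 1 * (δ / η) :=
        mul_le_mul h2 h3 (by positivity) (by norm_num)
      linarith
    have h5 : ((1 : ℝ) / 2) ^ b0 ≤ 2 * (2 : ℝ) ^ (-(δ / (K * η))) := by
      have h6 : ((1 : ℝ) / 2) ^ b0 = (2 : ℝ) ^ (-(b0 : ℝ)) := by
        rw [Real.rpow_neg (by norm_num), Real.rpow_natCast, one_div, inv_pow]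
      have h7 : 2 * (2 : ℝ) ^ (-(δ / (K * η))) = (2 : ℝ) ^ (1 + -(δ / (K * η))) := by
        rw [Real.rpow_add (by norm_num), Real.rpow_one]
      rw [h6, h7]
      apply Real.rpow_le_rpow_of_exponent_le (by norm_num)
      have h8' : δ / (K * η) ≤ δ / (8 * C * η) := by
        apply div_le_div_of_nonneg_left hδ.le h8
        apply mul_le_mul_of_nonneg_right _ hη.le
        linarith
      linarith
    have h6 : 0 < (2 : ℝ) ^ (-(δ / (K * η))) := by positivity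
    have h7 : K1 * Real.exp (-(δ / η)) ≤ K1 * (2 : ℝ) ^ (-(δ / (K * η))) :=
      mul_le_mul_of_nonneg_left h1 hK1.le
    have h9 : (K1 + 2) * (2 : ℝ) ^ (-(δ / (K * η))) ≤ K * (2 : ℝ) ^ (-(δ / (K * η))) :=
      mul_le_mul_of_nonneg_right (by linarith) h6.le
    linarith
  have hprod0 : 0 ≤ ∏ p ∈ Q, (1 - 2 * (rho a b c p : ℝ) / p) := by
    refine prod_nonneg fun p hp => ?_
    have := (rng hw4 hr p hp).2
    rw [mul_div_assoc]
    linarith
  rw [hsplit]
  have hAx : A ≤ (rho a b c j : ℝ) / (j * P) * x := by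
    rw [hA, mul_comm]
    apply mul_le_mul_of_nonneg_left _ hρ
    have : (0 : ℝ) ≤ x1 := Nat.cast_nonneg _
    linarith
  have hbr : 0 ≤ ∏ p ∈ Q, (1 - 2 * (rho a b c p : ℝ) / p) + K * (2 : ℝ) ^ (-(δ / (K * η))) := by
    positivity
  calc |A * ∑ D ∈ DD, (-1 : ℝ) ^ #D * gg a b c w z D +
      ∑ D ∈ DD, (-1 : ℝ) ^ #D * ((#((Ioc x1 x).filter (fun n => (n ≡ r [MOD P] ∧
        j ∣ Fn a b n + c) ∧ Dv w z (Fn a b n + c) = D)) : ℝ) - A * gg a b c w z D)|
      ≤ A * (∏ p ∈ Q, (1 - 2 * (rho a b c p : ℝ) / p) + K1 * Real.exp (-(δ / η))) +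
        ((1 / 2) ^ b0 * A + rho a b c j * (y * √y * E)) := by
        refine (abs_add_le _ _).trans (add_le_add ?_ hS2)
        rw [abs_mul, abs_of_nonneg hA0]
        exact mul_le_mul_of_nonneg_left hS1 hA0
    _ ≤ A * (∏ p ∈ Q, (1 - 2 * (rho a b c p : ℝ) / p) + K * (2 : ℝ) ^ (-(δ / (K * η)))) +
        rho a b c j * (x : ℝ) ^ (2 * δ) := by
        have h1 := mul_le_mul_of_nonneg_left hconst hA0
        have h2 : (rho a b c j : ℝ) * (y * √y * E) ≤ rho a b c j * (x : ℝ) ^ (2 * δ) :=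
          mul_le_mul_of_nonneg_left hyE (Nat.cast_nonneg _)
        nlinarith
    _ ≤ (rho a b c j : ℝ) / (j * P) * x *
          (∏ p ∈ Q, (1 - 2 * (rho a b c p : ℝ) / p) + K * (2 : ℝ) ^ (-(δ / (K * η)))) +
        rho a b c j * (x : ℝ) ^ (2 * δ) := by
        have := mul_le_mul_of_nonneg_right hAx hbr
        linarith

end Pool.Agent.N792.CH
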