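import Pool.Agent.N792.CH.Stm
import Pool.Agent.N792.SwRa

/-! Project CH (helper792): the decomposition of `λ(sm k) G(ro k)` (TI and TB). -/

set_option autoImplicit false

namespace Pool.Agent.N792.CH

open Finset
open Pool.Agent.N792 (Rough)
open Pool.Agent.N791.C2 (lam)

namespace TIa

lemma lam_mul {m n : ℕ} (hm : m ≠ 0) (hn : n ≠ 0) : lam (m * n) = lam m * lam n := by
  unfold lam
  rw [ArithmeticFunction.cardFactors_mul hm hn, pow_add]

lemma lam_sq (n : ℕ) : lam n * lam n = 1 := by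
  unfold lam
  rw [← mul_pow]
  norm_num

lemma abs_lam (n : ℕ) : |lam n| = 1 := by
  unfold lam
  rw [abs_pow, abs_neg, abs_one, one_pow]

lemma lam_div {n d : ℕ} (hn : n ≠ 0) (h : d ∣ n) : lam (n / d) = lam n * lam d := by
  have hd : d ≠ 0 := fun h0 => hn (by rw [h0] at h; exact Nat.eq_zero_of_zero_dvd h)
  obtain ⟨e, rfl⟩ := h
  have he : e ≠ 0 := fun h0 => hn (by rw [h0, mul_zero])
  rw [Nat.mul_div_cancel_left e (Nat.pos_of_ne_zero hd), lam_mul hd he]
  have := lam_sq d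
  calc lam e = (lam d * lam d) * lam e := by rw [this, one_mul]
    _ = lam d * lam e * lam d := by ring

lemma mob_lam (d : ℕ) : |((ArithmeticFunction.moebius d : ℤ) : ℝ)| * lam d =
    ((ArithmeticFunction.moebius d : ℤ) : ℝ) := by
  by_cases h : Squarefree d
  · rw [ArithmeticFunction.moebius_apply_of_squarefree h]
    unfold lam
    push_cast
    rw [abs_pow, abs_neg, abs_one, one_pow, one_mul]
  · rw [ArithmeticFunction.moebius_eq_zero_of_not_squarefree h]
    simp

/-- `|μ| * λ = 1` -/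
lemma conv_one (n : ℕ) (hn : n ≠ 0) :
    ∑ d ∈ n.divisors, |((ArithmeticFunction.moebius d : ℤ) : ℝ)| * lam (n / d) =
      if n = 1 then 1 else 0 := by
  have h1 : ∀ d ∈ n.divisors, |((ArithmeticFunction.moebius d : ℤ) : ℝ)| * lam (n / d) =
      lam n * ((ArithmeticFunction.moebius d : ℤ) : ℝ) := by
    intro d hd
    rw [lam_div hn (Nat.dvd_of_mem_divisors hd)]
    calc |((ArithmeticFunction.moebius d : ℤ) : ℝ)| * (lam n * lam d)
        = lam n * (|((ArithmeticFunction.moebius d : ℤ) : ℝ)| * lam d) := by ring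
      _ = _ := by rw [mob_lam]
  rw [sum_congr rfl h1, ← mul_sum]
  have h2 : ∑ d ∈ n.divisors, ArithmeticFunction.moebius d = if n = 1 then 1 else 0 := by
    rw [← ArithmeticFunction.coe_mul_zeta_apply, ArithmeticFunction.moebius_mul_coe_zeta,
      ArithmeticFunction.one_apply]
  have h3 : ∑ d ∈ n.divisors, ((ArithmeticFunction.moebius d : ℤ) : ℝ) =
      if n = 1 then 1 else 0 := by
    have := congrArg (fun t : ℤ => (t : ℝ)) h2
    push_cast at this
    exact this
  rw [h3]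
  split_ifs with h
  · rw [h, mul_one]
    unfold lam
    simp
  · rw [mul_zero]

/-- `(G * |μ|) * λ = G` -/
lemma gt_lam (G : ℕ → ℝ) (n : ℕ) (hn : n ≠ 0) : ∑ i ∈ n.divisors, gt G i * lam (n / i) = G n := by
  let Gf : ArithmeticFunction ℝ := ⟨fun m => if m = 0 then 0 else G m, by simp⟩
  let Af : ArithmeticFunction ℝ :=
    ⟨fun m => |((ArithmeticFunction.moebius m : ℤ) : ℝ)|, by simp⟩
  let Lf : ArithmeticFunction ℝ := ⟨fun m => if m = 0 then 0 else lam m, by simp⟩
  have hAL : Af * Lf = 1 := by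
    ext m
    rcases Nat.eq_zero_or_pos m with h0 | h0
    · rw [h0]
      simp
    · rw [ArithmeticFunction.mul_apply,
        Nat.sum_divisorsAntidiagonal (f := fun a b => Af a * Lf b), ArithmeticFunction.one_apply,
        ← conv_one m h0.ne']
      refine sum_congr rfl fun d hd => ?_
      have h1 : m / d ≠ 0 := (Nat.div_pos (Nat.divisor_le hd) (Nat.pos_of_mem_divisors hd)).ne'
      change |((ArithmeticFunction.moebius d : ℤ) : ℝ)| * (if m / d = 0 then 0 else lam (m / d)) = _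
      rw [if_neg h1]
  have h1 : (Gf * Af * Lf) n = G n := by
    rw [mul_assoc, hAL, mul_one]
    change (if n = 0 then 0 else G n) = G n
    rw [if_neg hn]
  rw [← h1, ArithmeticFunction.mul_apply,
    Nat.sum_divisorsAntidiagonal (f := fun a b => (Gf * Af) a * Lf b)]
  refine sum_congr rfl fun i hi => ?_
  have hi0 : n / i ≠ 0 := (Nat.div_pos (Nat.divisor_le hi) (Nat.pos_of_mem_divisors hi)).ne'
  have h2 : (Gf * Af) i = gt G i := by
    rw [ArithmeticFunction.mul_apply, Nat.sum_divisorsAntidiagonal (f := fun a b => Gf a * Af b)]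
    unfold gt
    refine sum_congr rfl fun j hj => ?_
    have hj0 : j ≠ 0 := (Nat.pos_of_mem_divisors hj).ne'
    change (if j = 0 then 0 else G j) * |((ArithmeticFunction.moebius (i / j) : ℤ) : ℝ)| = _
    rw [if_neg hj0]
  rw [h2]
  change _ = gt G i * (if n / i = 0 then 0 else lam (n / i))
  rw [if_neg hi0]

lemma sm_mul_ro {z k : ℕ} (hk : k ≠ 0) : sm z k * ro z k = k := by
  have h1 : ∀ p, z < p ↔ ¬ p ≤ z := fun p => not_le.symm
  unfold sm ro
  simp only [h1]
  rw [prod_filter_mul_prod_filter_not]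
  exact Nat.prod_factorization_pow_eq_self hk

lemma sm_ne {z k : ℕ} (hk : k ≠ 0) : sm z k ≠ 0 := fun h => hk (by
  rw [← sm_mul_ro (z := z) hk, h, zero_mul])

lemma ro_ne {z k : ℕ} (hk : k ≠ 0) : ro z k ≠ 0 := fun h => hk (by
  rw [← sm_mul_ro (z := z) hk, h, mul_zero])

lemma prime_dvd_sm {z k p : ℕ} (hp : p.Prime) (h : p ∣ sm z k) : p ≤ z := by
  unfold sm at h
  obtain ⟨q, hq, hpq⟩ := (Prime.dvd_finsetProd_iff hp.prime _).1 h
  rw [mem_filter] at hq
  have h1 := (Nat.prime_dvd_prime_iff_eq hp (Nat.prime_of_mem_primeFactors hq.1)).1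
    (hp.dvd_of_dvd_pow hpq)
  rw [h1]
  exact hq.2

lemma rough_ro {z k : ℕ} (hk : k ≠ 0) : Rough z (ro z k) := by
  refine ⟨ro_ne hk, fun p hp h => ?_⟩
  unfold ro at h
  obtain ⟨q, hq, hpq⟩ := (Prime.dvd_finsetProd_iff hp.prime _).1 h
  rw [mem_filter] at hq
  have h1 := (Nat.prime_dvd_prime_iff_eq hp (Nat.prime_of_mem_primeFactors hq.1)).1
    (hp.dvd_of_dvd_pow hpq)
  rw [h1]
  exact hq.2

lemma rough_dvd_iff {z k i : ℕ} (hk : k ≠ 0) : (i ∣ k ∧ Rough z i) ↔ i ∣ ro z k := by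
  constructor
  · rintro ⟨h1, h2⟩
    rw [← sm_mul_ro (z := z) hk] at h1
    refine Nat.Coprime.dvd_of_dvd_mul_left ?_ h1
    rw [Nat.coprime_iff_gcd_eq_one]
    by_contra hne
    obtain ⟨p, hp, hpd⟩ := Nat.exists_prime_and_dvd hne
    have h3 := h2.2 p hp (hpd.trans (Nat.gcd_dvd_left _ _))
    have h4 := prime_dvd_sm hp (hpd.trans (Nat.gcd_dvd_right _ _))
    omega
  · intro h
    refine ⟨?_, SwR.rough_of_dvd (rough_ro hk) h⟩
    rw [← sm_mul_ro (z := z) hk]
    exact h.mul_left _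

open Classical in
lemma filter_rough {z k : ℕ} (hk : k ≠ 0) :
    k.divisors.filter (fun i => Rough z i) = (ro z k).divisors := by
  ext i
  rw [mem_filter, Nat.mem_divisors, Nat.mem_divisors]
  constructor
  · rintro ⟨⟨h1, _⟩, h2⟩
    exact ⟨(rough_dvd_iff hk).1 ⟨h1, h2⟩, ro_ne hk⟩
  · rintro ⟨h1, _⟩
    have h2 := (rough_dvd_iff hk).2 h1
    exact ⟨⟨h2.1, hk⟩, h2.2⟩

lemma div_eq {z k i : ℕ} (hk : k ≠ 0) (hi : i ∣ ro z k) : k / i = sm z k * (ro z k / i) := by
  conv_lhs => rw [← sm_mul_ro (z := z) hk]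
  exact Nat.mul_div_assoc _ hi

end TIa

open TIa

theorem ti : TI := by
  classical
  intro z G k hk
  have hk0 : k ≠ 0 := by omega
  rw [filter_rough hk0, ← gt_lam G (ro z k) (ro_ne hk0), mul_sum]
  refine sum_congr rfl fun i hi => ?_
  have h1 : ro z k / i ≠ 0 :=
    (Nat.div_pos (Nat.divisor_le hi) (Nat.pos_of_mem_divisors hi)).ne'
  rw [div_eq hk0 (Nat.dvd_of_mem_divisors hi), lam_mul (sm_ne hk0) h1]
  ring

theorem tb : TB := by
  classical
  intro η hη
  refine ⟨(2 : ℝ) ^ (6 / η) * (2 : ℝ) ^ (6 / η), ?_, ?_⟩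
  · have h1 : (1 : ℝ) ≤ (2 : ℝ) ^ (6 / η) := Real.one_le_rpow (by norm_num) (by positivity)
    nlinarith
  intro x z Y k hx hz hk hkx G hG
  have hk0 : k ≠ 0 := by omega
  constructor
  · -- the number of the divisors of the rough part
    obtain ⟨n, hn1, hn2⟩ := SwR.rough_div (ro z k) (rough_ro hk0)
    have hx1 : (1 : ℝ) < x := by exact_mod_cast (by omega : 1 < x)
    have hx0 : (0 : ℝ) < x := by linarith
    have hn : (n : ℝ) ≤ 6 / η := by
      have h1 : ((x : ℝ) ^ (η / 2)) ^ n ≤ (x : ℝ) ^ (3 : ℝ) := by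
        calc ((x : ℝ) ^ (η / 2)) ^ n ≤ (z : ℝ) ^ n := pow_le_pow_left₀ (by positivity) hz n
          _ ≤ (ro z k : ℝ) := by exact_mod_cast hn1
          _ ≤ (k : ℝ) := by
              exact_mod_cast Nat.le_of_dvd (by omega) (Dvd.intro_left _ (sm_mul_ro hk0))
          _ ≤ (x : ℝ) ^ 3 := by exact_mod_cast hkx
          _ = (x : ℝ) ^ (3 : ℝ) := by norm_num
      rw [← Real.rpow_natCast, ← Real.rpow_mul hx0.le] at h1
      have h2 := (Real.rpow_le_rpow_left_iff hx1).1 h1
      rw [le_div_iff₀ hη]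
      linarith
    have hcard : (#(ro z k).divisors : ℝ) ≤ (2 : ℝ) ^ (6 / η) := by
      calc (#(ro z k).divisors : ℝ) ≤ (2 : ℝ) ^ n := by exact_mod_cast hn2
        _ = (2 : ℝ) ^ (n : ℝ) := by rw [Real.rpow_natCast]
        _ ≤ _ := Real.rpow_le_rpow_of_exponent_le (by norm_num) hn
    have hsub : k.divisors.filter (fun i => Rough z i ∧ Y ≤ k / i) ⊆ (ro z k).divisors := by
      rw [← filter_rough hk0]
      intro i hi
      rw [mem_filter] at hi ⊢
      exact ⟨hi.1, hi.2.1⟩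
    have hgt : ∀ i ∈ (ro z k).divisors, |gt G i| ≤ (2 : ℝ) ^ (6 / η) := by
      intro i hi
      unfold gt
      refine (abs_sum_le_sum_abs _ _).trans ?_
      calc (∑ j ∈ i.divisors, abs (G j * |((ArithmeticFunction.moebius (i / j) : ℤ) : ℝ)|))
          ≤ ∑ j ∈ i.divisors, (1 : ℝ) := by
            refine sum_le_sum fun j _ => ?_
            rw [abs_mul, abs_abs]
            have h1 : |((ArithmeticFunction.moebius (i / j) : ℤ) : ℝ)| ≤ 1 := by
              have := ArithmeticFunction.abs_moebius_le_one (n := i / j)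
              exact_mod_cast this
            calc |G j| * |((ArithmeticFunction.moebius (i / j) : ℤ) : ℝ)| ≤ 1 * 1 :=
                  mul_le_mul (hG j) h1 (abs_nonneg _) zero_le_one
              _ = 1 := one_mul 1
        _ = (#i.divisors : ℝ) := by rw [sum_const, nsmul_eq_mul, mul_one]
        _ ≤ (#(ro z k).divisors : ℝ) := by
            exact_mod_cast card_le_card
              (Nat.divisors_subset_of_dvd (ro_ne hk0) (Nat.dvd_of_mem_divisors hi))
        _ ≤ _ := hcard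
    unfold bet
    refine (abs_sum_le_sum_abs _ _).trans ?_
    refine (sum_le_sum_of_subset_of_nonneg hsub fun _ _ _ => abs_nonneg _).trans ?_
    calc (∑ i ∈ (ro z k).divisors, |gt G i * lam (k / i)|)
        ≤ ∑ i ∈ (ro z k).divisors, (2 : ℝ) ^ (6 / η) := by
          refine sum_le_sum fun i hi => ?_
          rw [abs_mul, abs_lam, mul_one]
          exact hgt i hi
      _ = (#(ro z k).divisors : ℝ) * (2 : ℝ) ^ (6 / η) := by rw [sum_const, nsmul_eq_mul]
      _ ≤ _ := mul_le_mul_of_nonneg_right hcard (by positivity)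
  · intro hY
    rw [← ti z G k hk]
    unfold bet
    refine sum_congr ?_ fun _ _ => rfl
    ext i
    rw [mem_filter, mem_filter]
    constructor
    · rintro ⟨h1, h2, _⟩
      exact ⟨h1, h2⟩
    · rintro ⟨h1, h2⟩
      refine ⟨h1, h2, ?_⟩
      have h3 := (rough_dvd_iff hk0).1 ⟨Nat.dvd_of_mem_divisors h1, h2⟩
      rw [div_eq hk0 h3]
      have h4 : 1 ≤ ro z k / i := Nat.div_pos (Nat.le_of_dvd (Nat.pos_of_ne_zero (ro_ne hk0)) h3)
        (Nat.pos_of_mem_divisors h1)
      calc Y ≤ sm z k * 1 := by rw [mul_one]; exact hY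
        _ ≤ _ := Nat.mul_le_mul_left _ h4

end Pool.Agent.N792.CH
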