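import Mathlib
import Pool.Agent.N792.CH.Stm
import Pool.Agent.H305R2.MertensM

/-!
TK: almost all numbers in short intervals have a prime factor in a long range (helper458, for helper792).
-/

set_option autoImplicit false

namespace Pool.Agent.N792.CH

open Finset Filter Topology

namespace TKP

/-- the number of the multiples of `d` in a short interval -/
theorem cnt (h C d : ℕ) (hd : 1 ≤ d) :
    |(#((Icc 1 C).filter (fun c => d ∣ h + c)) : ℝ) - C / d| ≤ 1 := by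
  have h1 : #((Icc 1 C).filter (fun c => d ∣ h + c)) + h / d = (h + C) / d := by
    rw [← Nat.Ioc_filter_dvd_card_eq_div (h + C) d, ← Nat.Ioc_filter_dvd_card_eq_div h d]
    have h2 : (Ioc 0 (h + C)).filter (fun x => d ∣ x) =
        ((Icc 1 C).filter (fun c => d ∣ h + c)).map (addLeftEmbedding h) ∪
          (Ioc 0 h).filter (fun x => d ∣ x) := by
      ext x
      simp only [mem_filter, mem_Ioc, mem_union, Finset.mem_map, mem_Icc, addLeftEmbedding_apply]
      constructor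
      · rintro ⟨⟨h3, h4⟩, h5⟩
        rcases le_or_gt x h with h6 | h6
        · exact Or.inr ⟨⟨h3, h6⟩, h5⟩
        · refine Or.inl ⟨x - h, ⟨⟨by omega, by omega⟩, ?_⟩, by omega⟩
          rw [show h + (x - h) = x by omega]
          exact h5
      · rintro (⟨c, ⟨⟨h3, h4⟩, h5⟩, rfl⟩ | ⟨⟨h3, h4⟩, h5⟩)
        · exact ⟨⟨by omega, by omega⟩, h5⟩
        · exact ⟨⟨h3, by omega⟩, h5⟩
    rw [h2, card_union_of_disjoint, card_map]
    rw [disjoint_left]
    intro x hx hx'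
    simp only [Finset.mem_map, mem_filter, mem_Icc, addLeftEmbedding_apply, mem_Ioc] at hx hx'
    obtain ⟨c, hc, rfl⟩ := hx
    omega
  have hd0 : (0 : ℝ) < d := by exact_mod_cast hd
  have h3 : (#((Icc 1 C).filter (fun c => d ∣ h + c)) : ℝ) + ((h / d : ℕ) : ℝ) =
      (((h + C) / d : ℕ) : ℝ) := by exact_mod_cast h1
  have h4 : ((h / d : ℕ) : ℝ) ≤ h / d := Nat.cast_div_le
  have h5 : (((h + C) / d : ℕ) : ℝ) ≤ (h + C) / d := by
    have := Nat.cast_div_le (α := ℝ) (m := h + C) (n := d)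
    push_cast at this
    exact this
  have h6 : (h : ℝ) / d < ((h / d : ℕ) : ℝ) + 1 := by
    rw [div_lt_iff₀ hd0]
    rw [mul_comm]
    exact_mod_cast Nat.lt_mul_div_succ h hd
  have h7 : ((h : ℝ) + C) / d < (((h + C) / d : ℕ) : ℝ) + 1 := by
    rw [div_lt_iff₀ hd0]
    rw [mul_comm]
    exact_mod_cast Nat.lt_mul_div_succ (h + C) hd
  have h8 : ((h : ℝ) + C) / d = h / d + C / d := add_div _ _ _
  rw [abs_le]
  constructor <;> linarith

/-- the inequality of Turan and Kubilius in a short interval -/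
theorem tk0 (h C : ℕ) (Q : Finset ℕ) (hQ : ∀ p ∈ Q, p.Prime) :
    (#((Icc 1 C).filter (fun c => ∀ p ∈ Q, ¬ p ∣ h + c)) : ℝ) * (∑ p ∈ Q, 1 / (p : ℝ)) ^ 2 ≤
      C * (∑ p ∈ Q, 1 / (p : ℝ)) + 3 * (#Q : ℝ) ^ 2 := by
  classical
  set M : ℝ := ∑ p ∈ Q, 1 / (p : ℝ) with hM
  have hM0 : 0 ≤ M := sum_nonneg fun _ _ => by positivity
  have hMQ : M ≤ #Q := by
    rw [hM]
    calc ∑ p ∈ Q, 1 / (p : ℝ) ≤ ∑ _p ∈ Q, (1 : ℝ) := by
          refine sum_le_sum fun p hp => ?_
          have : (1 : ℝ) ≤ p := by exact_mod_cast (hQ p hp).one_le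
          rw [div_le_one (by linarith)]
          exact this
      _ = #Q := by rw [sum_const, nsmul_eq_mul, mul_one]
  set N : ℕ → ℝ := fun c => ∑ p ∈ Q, if p ∣ h + c then (1 : ℝ) else 0 with hN
  -- the first moment
  have h1 : C * M - #Q ≤ ∑ c ∈ Icc 1 C, N c := by
    rw [hN]
    simp only
    rw [sum_comm]
    have h2 : ∀ p ∈ Q, (C : ℝ) * (1 / p) - 1 ≤ ∑ c ∈ Icc 1 C, if p ∣ h + c then (1 : ℝ) else 0 := by
      intro p hp
      have h3 := (abs_le.1 (cnt h C p (hQ p hp).one_le)).1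
      rw [sum_boole]
      rw [mul_one_div]
      linarith
    calc (C : ℝ) * M - #Q = ∑ p ∈ Q, ((C : ℝ) * (1 / p) - 1) := by
          rw [sum_sub_distrib, ← mul_sum, sum_const, nsmul_eq_mul, mul_one]
      _ ≤ _ := sum_le_sum h2
  -- the second moment
  have h4 : ∑ c ∈ Icc 1 C, N c ^ 2 ≤ C * M ^ 2 + C * M + (#Q : ℝ) ^ 2 := by
    have h5 : ∀ c, N c ^ 2 = ∑ p ∈ Q, ∑ q ∈ Q, if p ∣ h + c ∧ q ∣ h + c then (1 : ℝ) else 0 := by
      intro c
      rw [hN, sq]
      simp only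
      rw [sum_mul_sum]
      refine sum_congr rfl fun p _ => sum_congr rfl fun q _ => ?_
      by_cases hp : p ∣ h + c <;> by_cases hq : q ∣ h + c <;> simp [hp, hq]
    rw [sum_congr rfl (fun c _ => h5 c), sum_comm]
    have h6 : ∀ p ∈ Q, ∑ c ∈ Icc 1 C, ∑ q ∈ Q, (if p ∣ h + c ∧ q ∣ h + c then (1 : ℝ) else 0) ≤
        ∑ q ∈ Q, ((C : ℝ) * ((1 / p) * (1 / q)) + 1) + C * (1 / p) := by
      intro p hp
      rw [sum_comm]
      have h7 : ∀ q ∈ Q, ∑ c ∈ Icc 1 C, (if p ∣ h + c ∧ q ∣ h + c then (1 : ℝ) else 0) ≤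
          ((C : ℝ) * ((1 / p) * (1 / q)) + 1) + (if q = p then (C : ℝ) * (1 / p) else 0) := by
        intro q hq
        rw [sum_boole]
        by_cases hpq : q = p
        · subst hpq
          rw [if_pos rfl]
          have h8 := (abs_le.1 (cnt h C q (hQ q hq).one_le)).2
          simp only [and_self]
          have h9 : (0 : ℝ) ≤ C * ((1 / q) * (1 / q)) := by positivity
          have h9' : (C : ℝ) * (1 / q) = C / q := mul_one_div _ _
          rw [h9']
          linarith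
        · rw [if_neg hpq, add_zero]
          have hco : Nat.Coprime p q :=
            (Nat.coprime_primes (hQ p hp) (hQ q hq)).2 (fun hh => hpq hh.symm)
          have h8 := (abs_le.1 (cnt h C (p * q)
            (Nat.mul_pos (hQ p hp).pos (hQ q hq).pos))).2
          have h10 : (Icc 1 C).filter (fun c => p ∣ h + c ∧ q ∣ h + c) =
              (Icc 1 C).filter (fun c => p * q ∣ h + c) := by
            refine filter_congr fun c _ => ?_
            exact ⟨fun hh => hco.mul_dvd_of_dvd_of_dvd hh.1 hh.2,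
              fun hh => ⟨(dvd_mul_right p q).trans hh, (dvd_mul_left q p).trans hh⟩⟩
          rw [h10]
          have h11 : (C : ℝ) * ((1 / p) * (1 / q)) = C / ((p * q : ℕ) : ℝ) := by
            push_cast
            rw [one_div_mul_one_div, mul_one_div]
          rw [h11]
          linarith
      calc _ ≤ ∑ q ∈ Q, (((C : ℝ) * ((1 / p) * (1 / q)) + 1) +
            (if q = p then (C : ℝ) * (1 / p) else 0)) := sum_le_sum h7
        _ = _ := by
            rw [sum_add_distrib, sum_ite_eq' Q p, if_pos hp]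
    calc _ ≤ ∑ p ∈ Q, (∑ q ∈ Q, ((C : ℝ) * ((1 / p) * (1 / q)) + 1) + C * (1 / p)) :=
          sum_le_sum h6
      _ = C * M ^ 2 + C * M + (#Q : ℝ) ^ 2 := by
          rw [sum_add_distrib, ← mul_sum, ← hM]
          have h12 : ∀ p : ℕ, ∑ q ∈ Q, ((C : ℝ) * ((1 / p) * (1 / q)) + 1) =
              C * (1 / p) * M + #Q := by
            intro p
            rw [sum_add_distrib, sum_const, nsmul_eq_mul, mul_one, hM, mul_sum]
            congr 1
            refine sum_congr rfl fun q _ => ?_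
            ring
          rw [sum_congr rfl (fun p _ => h12 p), sum_add_distrib, ← sum_mul, ← mul_sum, ← hM,
            sum_const, nsmul_eq_mul]
          ring
  have h13 : ∑ c ∈ Icc 1 C, (N c - M) ^ 2 ≤ C * M + 3 * (#Q : ℝ) ^ 2 := by
    have h14 : ∑ c ∈ Icc 1 C, (N c - M) ^ 2 =
        ∑ c ∈ Icc 1 C, N c ^ 2 - 2 * M * ∑ c ∈ Icc 1 C, N c + C * M ^ 2 := by
      have : ∀ c, (N c - M) ^ 2 = N c ^ 2 - 2 * M * N c + M ^ 2 := fun c => by ring
      rw [sum_congr rfl (fun c _ => this c), sum_add_distrib, sum_sub_distrib, ← mul_sum,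
        sum_const, Nat.card_Icc, nsmul_eq_mul, Nat.add_sub_cancel]
    rw [h14]
    have h15 : 2 * M * (C * M - #Q) ≤ 2 * M * ∑ c ∈ Icc 1 C, N c :=
      mul_le_mul_of_nonneg_left h1 (by positivity)
    have h16 : M * #Q ≤ #Q * #Q := mul_le_mul_of_nonneg_right hMQ (Nat.cast_nonneg _)
    nlinarith
  refine le_trans ?_ h13
  have h17 : ∑ c ∈ (Icc 1 C).filter (fun c => ∀ p ∈ Q, ¬ p ∣ h + c), (N c - M) ^ 2 ≤
      ∑ c ∈ Icc 1 C, (N c - M) ^ 2 :=
    sum_le_sum_of_subset_of_nonneg (filter_subset _ _) (fun _ _ _ => sq_nonneg _)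
  refine le_trans (le_of_eq ?_) h17
  have h18 : ∀ c ∈ (Icc 1 C).filter (fun c => ∀ p ∈ Q, ¬ p ∣ h + c), (N c - M) ^ 2 = M ^ 2 := by
    intro c hc
    have h19 : N c = 0 := by
      rw [hN]
      simp only
      refine sum_eq_zero fun p hp => ?_
      rw [if_neg ((mem_filter.1 hc).2 p hp)]
    rw [h19]
    ring
  rw [sum_congr rfl h18, sum_const, nsmul_eq_mul]

/-- TK without the definition -/
theorem main (η τ : ℝ) (hη : 0 < η) (hτ : 0 < τ) : ∃ x0 : ℕ, ∀ x : ℕ, x0 ≤ x → ∀ C z h : ℕ,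
    (x : ℝ) ^ (1 / 2 : ℝ) ≤ C → (x : ℝ) ^ η ≤ z → ∃ Q : Finset ℕ,
    (∀ p ∈ Q, p.Prime ∧ p ≤ z ∧ 2 * Real.exp (√(Real.log x)) ≤ p) ∧
    (#((Icc 1 C).filter (fun c => ∀ p ∈ Q, ¬ p ∣ h + c)) : ℝ) ≤ τ * C := by
  obtain ⟨M0, hM0⟩ := Pool.Agent.H305R2.mertens_inv_tendsto
  obtain ⟨N0, hN0⟩ := Metric.tendsto_atTop.1 hM0 (1 / 2) (by norm_num)
  set η' : ℝ := min η (1 / 10) with hη'
  have hη'0 : 0 < η' := lt_min hη (by norm_num)
  have hη'1 : η' ≤ η := min_le_left _ _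
  have hη'2 : η' ≤ 1 / 10 := min_le_right _ _
  set R : ℝ := max 1 (2 / τ) with hR
  have hR1 : 1 ≤ R := le_max_left _ _
  have hR2 : 2 / τ ≤ R := le_max_right _ _
  -- the size of √ log x
  set s0 : ℝ := 4 / η' * Real.exp (1 + R) + N0 + 10 with hs0
  have hs1 : 0 < 4 / η' * Real.exp (1 + R) := by positivity
  obtain ⟨x0, hx0⟩ := exists_nat_ge (Real.exp (s0 ^ 2))
  refine ⟨x0, fun x hx C z h hC hz => ?_⟩
  have hxe : Real.exp (s0 ^ 2) ≤ x := hx0.trans (by exact_mod_cast hx)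
  have hxp : (0 : ℝ) < x := lt_of_lt_of_le (Real.exp_pos _) hxe
  set L : ℝ := Real.log x with hL
  have hLs : s0 ^ 2 ≤ L := by
    rw [hL, ← Real.log_exp (s0 ^ 2)]
    exact Real.log_le_log (Real.exp_pos _) hxe
  have hs0p : 10 ≤ s0 := by
    have : (0 : ℝ) ≤ N0 := Nat.cast_nonneg _
    linarith
  have hL0 : 0 < L := by nlinarith
  set s : ℝ := √L with hs
  have hss : s0 ≤ s := by
    rw [hs]
    exact Real.le_sqrt_of_sq_le hLs
  have hsL : s ^ 2 = L := Real.sq_sqrt hL0.le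
  have hsp : 10 ≤ s := hs0p.trans hss
  have hexpR : 1 ≤ Real.exp (1 + R) := Real.one_le_exp (by linarith)
  have hs4 : 4 / η' * Real.exp (1 + R) ≤ s := by
    have : (0 : ℝ) ≤ N0 := Nat.cast_nonneg _
    linarith
  have hs5 : 4 * Real.exp (1 + R) ≤ η' * s := by
    rw [div_mul_eq_mul_div, div_le_iff₀ hη'0] at hs4
    linarith
  have hs6 : 4 ≤ η' * s := by linarith
  have hsN : (N0 : ℝ) ≤ s := by linarith
  -- exponentials
  have hxL : (x : ℝ) = Real.exp L := (Real.exp_log hxp).symm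
  have hpow : ∀ a : ℝ, (x : ℝ) ^ a = Real.exp (L * a) := by
    intro a
    rw [Real.rpow_def_of_pos hxp]
  have hes : 1 + s ≤ Real.exp s := by linarith [Real.add_one_le_exp s]
  set y : ℝ := 2 * Real.exp s with hy
  have hy1 : 2 * (1 + s) ≤ y := by linarith
  set u : ℕ := ⌊y⌋₊ with hu
  have hy0 : 0 ≤ y := by positivity
  have hu1 : (u : ℝ) ≤ y := Nat.floor_le hy0
  have hu2 : y < u + 1 := Nat.lt_floor_add_one y
  have huN : N0 ≤ u := by
    have : (N0 : ℝ) < u + 1 := by linarith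
    have : N0 < u + 1 := by exact_mod_cast this
    omega
  set v : ℕ := min z ⌊(x : ℝ) ^ (1 / 10 : ℝ)⌋₊ with hv
  have hx10 : (2 : ℝ) ≤ (x : ℝ) ^ (1 / 10 : ℝ) := by
    rw [hpow]
    have : L * (1 / 10) + 1 ≤ Real.exp (L * (1 / 10)) := Real.add_one_le_exp _
    nlinarith
  have hvle : (v : ℝ) ≤ (x : ℝ) ^ (1 / 10 : ℝ) := by
    have h1 : (v : ℝ) ≤ ⌊(x : ℝ) ^ (1 / 10 : ℝ)⌋₊ := by exact_mod_cast min_le_right _ _
    exact h1.trans (Nat.floor_le (by linarith))
  have hvge : (x : ℝ) ^ η' / 2 ≤ v := by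
    have hx1 : (1 : ℝ) ≤ x := by
      rw [hxL]
      exact Real.one_le_exp hL0.le
    rcases min_choice z ⌊(x : ℝ) ^ (1 / 10 : ℝ)⌋₊ with h1 | h1
    · rw [hv, h1]
      have h2 : (x : ℝ) ^ η' ≤ (x : ℝ) ^ η := Real.rpow_le_rpow_of_exponent_le hx1 hη'1
      have h3 : 0 ≤ (x : ℝ) ^ η' := by positivity
      linarith
    · rw [hv, h1]
      have h2 : (x : ℝ) ^ η' ≤ (x : ℝ) ^ (1 / 10 : ℝ) :=
        Real.rpow_le_rpow_of_exponent_le hx1 hη'2
      have h3 := Nat.lt_floor_add_one ((x : ℝ) ^ (1 / 10 : ℝ))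
      linarith
  have h2s : L * η' = s * (η' * s) := by rw [← hsL]; ring
  have hlarge : 2 * y ≤ (x : ℝ) ^ η' / 2 := by
    rw [hpow, hy, h2s]
    have h1 : s * (η' * s) ≥ 3 + s := by nlinarith
    have h2 : Real.exp (3 + s) ≤ Real.exp (s * (η' * s)) := Real.exp_le_exp.2 h1
    rw [Real.exp_add] at h2
    have h3 : (8 : ℝ) ≤ Real.exp 3 := by
      have : Real.exp 3 = Real.exp 1 ^ 3 := by
        rw [← Real.exp_nat_mul]
        norm_num
      rw [this]
      have h4 := Real.exp_one_gt_d9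
      have h5 : (2 : ℝ) ≤ Real.exp 1 := by linarith
      calc (8 : ℝ) = 2 ^ 3 := by norm_num
        _ ≤ Real.exp 1 ^ 3 := pow_le_pow_left₀ (by norm_num) h5 3
    have h6 := Real.exp_pos s
    nlinarith
  have hyv : y ≤ v := by linarith
  have huv : u ≤ v := by
    have : (u : ℝ) ≤ v := hu1.trans hyv
    exact_mod_cast this
  set Q : Finset ℕ := (Ioc u v).filter Nat.Prime with hQ
  have hQp : ∀ p ∈ Q, p.Prime := fun p hp => (mem_filter.1 hp).2
  refine ⟨Q, fun p hp => ?_, ?_⟩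
  · obtain ⟨h1, h2⟩ := mem_filter.1 hp
    rw [mem_Ioc] at h1
    refine ⟨h2, h1.2.trans (min_le_left _ _), ?_⟩
    have h3 : (u : ℝ) + 1 ≤ p := by exact_mod_cast h1.1
    linarith
  -- Mertens
  set M : ℝ := ∑ p ∈ Q, 1 / (p : ℝ) with hM
  have hMge : R ≤ M := by
    have e1 := hN0 u huN
    have e2 := hN0 v (huN.trans huv)
    rw [Real.dist_eq, abs_lt] at e1 e2
    have e3 : ∑ p ∈ (Icc 1 v).filter Nat.Prime, (1 : ℝ) / p =
        ∑ p ∈ (Icc 1 u).filter Nat.Prime, (1 : ℝ) / p + M := by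
      rw [hM, ← sum_union]
      · congr 1
        ext p
        simp only [hQ, mem_union, mem_filter, mem_Ioc, mem_Icc]
        constructor
        · rintro ⟨⟨h3, h4⟩, h5⟩
          rcases le_or_gt p u with h | h
          · exact Or.inl ⟨⟨h3, h⟩, h5⟩
          · exact Or.inr ⟨⟨h, h4⟩, h5⟩
        · rintro (⟨⟨h3, h4⟩, h5⟩ | ⟨⟨h3, h4⟩, h5⟩)
          · exact ⟨⟨h3, h4.trans huv⟩, h5⟩
          · exact ⟨⟨by omega, h4⟩, h5⟩
      · rw [disjoint_left]
        intro p hp hq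
        rw [mem_filter, mem_Icc] at hp
        rw [hQ, mem_filter, mem_Ioc] at hq
        omega
    rw [e3] at e2
    have hu3 : (1 : ℝ) < u := by linarith
    have hlu : Real.log u ≤ 2 * s := by
      have h1 : Real.log u ≤ Real.log y := Real.log_le_log (by linarith) hu1
      rw [hy, Real.log_mul (by norm_num) (Real.exp_pos _).ne', Real.log_exp] at h1
      linarith [Real.log_two_lt_d9]
    have hlu0 : 0 < Real.log u := Real.log_pos hu3
    have hlv : η' * L / 2 ≤ Real.log v := by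
      have h1 : Real.log ((x : ℝ) ^ η' / 2) ≤ Real.log v :=
        Real.log_le_log (by positivity) hvge
      rw [Real.log_div (by positivity) (by norm_num), Real.log_rpow hxp, ← hL] at h1
      have h2 : L * η' ≥ 40 := by rw [h2s]; nlinarith
      linarith [Real.log_two_lt_d9]
    have hllu : Real.log (Real.log u) ≤ Real.log (2 * s) := Real.log_le_log hlu0 hlu
    have hllv : Real.log (η' * L / 2) ≤ Real.log (Real.log v) :=
      Real.log_le_log (by positivity) hlv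
    have h5 : Real.log (η' * L / 2) - Real.log (2 * s) = Real.log (η' * s / 4) := by
      rw [← Real.log_div (by positivity) (by positivity)]
      congr 1
      rw [← hsL]
      field_simp
      ring
    have h6 : 1 + R ≤ Real.log (η' * s / 4) := by
      rw [← Real.log_exp (1 + R)]
      exact Real.log_le_log (Real.exp_pos _) (by linarith)
    linarith [e1.1, e1.2, e2.1, e2.2]
  have hQc : (#Q : ℝ) ≤ (x : ℝ) ^ (1 / 10 : ℝ) := by
    have h1 : #Q ≤ v := by
      refine (card_filter_le _ _).trans ?_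
      rw [Nat.card_Ioc]
      omega
    have h2 : (#Q : ℝ) ≤ v := by exact_mod_cast h1
    exact h2.trans hvle
  have hQC : 3 * (#Q : ℝ) ^ 2 ≤ C := by
    have h1 : (#Q : ℝ) ^ 2 ≤ ((x : ℝ) ^ (1 / 10 : ℝ)) ^ 2 :=
      pow_le_pow_left₀ (Nat.cast_nonneg _) hQc 2
    have h2 : 3 * ((x : ℝ) ^ (1 / 10 : ℝ)) ^ 2 ≤ (x : ℝ) ^ (1 / 2 : ℝ) := by
      rw [hpow, hpow, ← Real.exp_nat_mul]
      have h3 : L * (1 / 2) = L * (3 / 10) + (2 : ℕ) * (L * (1 / 10)) := by
        push_cast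
        ring
      rw [h3, Real.exp_add]
      have h4 : (3 : ℝ) ≤ Real.exp (L * (3 / 10)) := by
        have := Real.add_one_le_exp (L * (3 / 10))
        nlinarith
      exact mul_le_mul_of_nonneg_right h4 (Real.exp_pos _).le
    linarith
  have h1 := tk0 h C Q hQp
  rw [← hM] at h1
  have hM1 : 1 ≤ M := hR1.trans hMge
  have hC0 : (0 : ℝ) ≤ C := Nat.cast_nonneg _
  have h2 : (#((Icc 1 C).filter (fun c => ∀ p ∈ Q, ¬ p ∣ h + c)) : ℝ) * M ^ 2 ≤ 2 * C * M := by
    nlinarith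
  have h3 : (#((Icc 1 C).filter (fun c => ∀ p ∈ Q, ¬ p ∣ h + c)) : ℝ) * M ≤ 2 * C := by
    have hM2 : 0 < M := by linarith
    rw [sq, ← mul_assoc] at h2
    exact le_of_mul_le_mul_right h2 hM2
  have h4 : 2 ≤ τ * M := by
    have : 2 / τ ≤ M := hR2.trans hMge
    rw [div_le_iff₀ hτ] at this
    linarith
  have h5 : (0 : ℝ) ≤ (#((Icc 1 C).filter (fun c => ∀ p ∈ Q, ¬ p ∣ h + c)) : ℝ) :=
    Nat.cast_nonneg _
  have hM2 : 0 < M := by linarith
  refine le_of_mul_le_mul_right (a := M) ?_ hM2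
  calc _ ≤ 2 * (C : ℝ) := h3
    _ ≤ (τ * M) * C := mul_le_mul_of_nonneg_right h4 hC0
    _ = τ * C * M := by ring

end TKP

open Classical in
/-- TK: almost all numbers in short intervals have a prime factor between `exp (√log x)` and `z ≥ x^η` -/
theorem tk : TK := by
  intro η τ hη hτ
  obtain ⟨x0, hx0⟩ := TKP.main η τ hη hτ
  refine ⟨x0, fun x hx C z h hC hz => ?_⟩
  obtain ⟨Q, hQ, hle⟩ := hx0 x hx C z h hC hz
  refine le_trans ?_ hle
  refine Nat.cast_le.2 (card_le_card ?_)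
  intro c hc
  rw [mem_filter] at hc ⊢
  refine ⟨hc.1, fun p hp hdvd => ?_⟩
  obtain ⟨h1, h2, h3⟩ := hQ p hp
  exact absurd (hc.2 p h1 h2 hdvd) (not_lt.2 h3)

end Pool.Agent.N792.CH
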