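import Pool.Agent.N792.CH.CB

/-!
The function `bet` has small sums in progressions (helper395 for helper792, project CH).
-/

set_option autoImplicit false

namespace Pool.Agent.N792.CH

open Finset Filter Topology
open Pool.Agent.N792 (Rough)
open Pool.Agent.N791.C2 (lam null_lam ap_interval)

namespace TNx

theorem gt_bound (η : ℝ) (x z k : ℕ) (hη : 0 < η) (hx : 2 ≤ x) (hR : Rough z k)
    (hz : (x : ℝ) ^ (η / 2) ≤ z) (hk : k ≤ x ^ 3) (G : ℕ → ℝ) (hG : ∀ k, |G k| ≤ 1) :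
    |gt G k| ≤ (2 : ℝ) ^ (6 / η) := by
  classical
  unfold gt
  have h1 : |(∑ i ∈ k.divisors, G i * |((ArithmeticFunction.moebius (k / i) : ℤ) : ℝ)|)| ≤
      ∑ i ∈ k.divisors, |((ArithmeticFunction.moebius (k / i) : ℤ) : ℝ)| := by
    refine (abs_sum_le_sum_abs _ _).trans (sum_le_sum fun i _ => ?_)
    rw [abs_mul, abs_abs]
    exact mul_le_of_le_one_left (abs_nonneg _) (hG i)
  have h2 : ∑ i ∈ k.divisors, |((ArithmeticFunction.moebius (k / i) : ℤ) : ℝ)| =
      ∑ i ∈ k.divisors, |((ArithmeticFunction.moebius i : ℤ) : ℝ)| :=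
    Nat.sum_div_divisors k (fun i => |((ArithmeticFunction.moebius i : ℤ) : ℝ)|)
  have h3 : ∑ i ∈ k.divisors, |((ArithmeticFunction.moebius i : ℤ) : ℝ)| ≤
      #(k.divisors.filter Squarefree) := by
    rw [Finset.card_filter]
    push_cast
    refine sum_le_sum fun i _ => ?_
    split_ifs with h
    · exact_mod_cast @ArithmeticFunction.abs_moebius_le_one i
    · rw [ArithmeticFunction.moebius_eq_zero_of_not_squarefree h]
      simp
  have h4 : #(k.divisors.filter Squarefree) ≤ 2 ^ #k.primeFactors := by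
    rw [← Finset.card_powerset]
    refine Finset.card_le_card_of_injOn (fun j => j.primeFactors) ?_ ?_
    · intro j hj
      have hj' := Finset.mem_filter.mp (Finset.mem_coe.mp hj)
      exact Finset.mem_coe.mpr (Finset.mem_powerset.mpr
        (Nat.primeFactors_mono (Nat.dvd_of_mem_divisors hj'.1) hR.1))
    · intro j hj j' hj' h
      have e1 := (Finset.mem_filter.mp (Finset.mem_coe.mp hj)).2
      have e2 := (Finset.mem_filter.mp (Finset.mem_coe.mp hj')).2
      have h' : j.primeFactors = j'.primeFactors := h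
      rw [← Nat.prod_primeFactors_of_squarefree e1, h', Nat.prod_primeFactors_of_squarefree e2]
  have h5 : ((#(k.divisors.filter Squarefree) : ℕ) : ℝ) ≤ (2 : ℝ) ^ #k.primeFactors := by
    exact_mod_cast h4
  have h6 := CBx.card_bound η x z k hη hx hR hz hk k.primeFactors (subset_refl _)
  have h7 : (2 : ℝ) ^ #k.primeFactors ≤ (2 : ℝ) ^ (6 / η) := by
    rw [← Real.rpow_natCast]
    exact Real.rpow_le_rpow_of_exponent_le (by norm_num) h6
  linarith

/-- sums in progressions, with a coefficient -/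
theorem inner_bound (U : ℕ) : ∃ N0 : ℕ, ∀ A B d q r : ℕ, N0 ≤ A → 2 ≤ A → 1 ≤ q → Nat.Coprime q d →
    |∑ l ∈ (Ioc A B).filter (fun l => d * l ≡ r [MOD q]), lam l| ≤ 2 * B / Real.log A ^ U := by
  obtain ⟨N0, h⟩ := ap_interval null_lam U
  refine ⟨N0, fun A B d q r hA hA2 hq hqd => ?_⟩
  have hlog : 0 < Real.log A := Real.log_pos (by exact_mod_cast hA2)
  have hpos : (0 : ℝ) ≤ 2 * B / Real.log A ^ U := by positivity
  by_cases hAB : A ≤ B
  · by_cases hex : ∃ l0, d * l0 ≡ r [MOD q]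
    · obtain ⟨l0, hl0⟩ := hex
      have h1 : (Ioc A B).filter (fun l => d * l ≡ r [MOD q]) =
          (Ioc A B).filter (fun l => l ≡ l0 [MOD q]) := by
        refine Finset.filter_congr fun l _ => ?_
        constructor
        · intro h2
          exact Nat.ModEq.cancel_left_of_coprime hqd (h2.trans hl0.symm)
        · intro h2
          exact (Nat.ModEq.mul_left d h2).trans hl0
      rw [h1]
      exact h A B hA hAB q l0 hq
    · rw [Finset.filter_eq_empty_iff.mpr, Finset.sum_empty, abs_zero]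
      · exact hpos
      · intro l _ hl
        exact hex ⟨l, hl⟩
  · rw [Finset.Ioc_eq_empty (by omega)]
    simpa using hpos

open Classical in
theorem swap (z Y : ℕ) (hY : 1 ≤ Y) (G : ℕ → ℝ) (M v q r : ℕ) :
    ∑ k ∈ (Ioc M v).filter (fun k => k ≡ r [MOD q]), bet z Y G k =
      ∑ d ∈ (Icc 1 v).filter (fun d => Rough z d), gt G d *
        ∑ l ∈ (Ioc (max (M / d) (Y - 1)) (v / d)).filter (fun l => d * l ≡ r [MOD q]), lam l := by
  simp only [bet, Finset.mul_sum]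
  rw [Finset.sum_sigma', Finset.sum_sigma']
  refine Finset.sum_nbij' (fun p => (⟨p.2, p.1 / p.2⟩ : Σ _ : ℕ, ℕ))
    (fun p => (⟨p.1 * p.2, p.1⟩ : Σ _ : ℕ, ℕ)) ?_ ?_ ?_ ?_ ?_
  · rintro ⟨k, d⟩ h
    simp only [Finset.mem_sigma, Finset.mem_filter, Finset.mem_Ioc, Nat.mem_divisors,
      Finset.mem_Icc] at h ⊢
    obtain ⟨⟨⟨h1, h2⟩, h3⟩, ⟨h4, h5⟩, h6, h7⟩ := h
    have hd : 0 < d := Nat.pos_of_dvd_of_pos h4 (Nat.pos_of_ne_zero h5)
    have hk : d * (k / d) = k := Nat.mul_div_cancel' h4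
    refine ⟨⟨⟨hd, (Nat.le_of_dvd (Nat.pos_of_ne_zero h5) h4).trans h2⟩, h6⟩, ⟨?_, ?_⟩, ?_⟩
    · rw [max_lt_iff]
      refine ⟨?_, by omega⟩
      rw [Nat.div_lt_iff_lt_mul hd, mul_comm, hk]
      exact h1
    · exact Nat.div_le_div_right h2
    · rw [hk]
      exact h3
  · rintro ⟨d, l⟩ h
    simp only [Finset.mem_sigma, Finset.mem_filter, Finset.mem_Ioc, Nat.mem_divisors,
      Finset.mem_Icc] at h ⊢
    obtain ⟨⟨⟨h1, h2⟩, h3⟩, ⟨h4, h5⟩, h6⟩ := h
    rw [max_lt_iff, Nat.div_lt_iff_lt_mul h1] at h4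
    rw [Nat.le_div_iff_mul_le h1] at h5
    have hl : 0 < l := by omega
    refine ⟨⟨⟨?_, ?_⟩, h6⟩, ⟨⟨dvd_mul_right _ _, ?_⟩, h3, ?_⟩⟩
    · rw [mul_comm]
      exact h4.1
    · rw [mul_comm]
      exact h5
    · exact (Nat.mul_pos h1 hl).ne'
    · rw [Nat.mul_div_cancel_left _ h1]
      omega
  · rintro ⟨k, d⟩ h
    simp only [Finset.mem_sigma, Finset.mem_filter, Finset.mem_Ioc, Nat.mem_divisors] at h
    obtain ⟨⟨⟨h1, h2⟩, h3⟩, ⟨h4, h5⟩, h6, h7⟩ := h
    show (⟨d * (k / d), d⟩ : Σ _ : ℕ, ℕ) = ⟨k, d⟩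
    rw [Nat.mul_div_cancel' h4]
  · rintro ⟨d, l⟩ h
    simp only [Finset.mem_sigma, Finset.mem_filter, Finset.mem_Ioc, Finset.mem_Icc] at h
    show (⟨d, d * l / d⟩ : Σ _ : ℕ, ℕ) = ⟨d, l⟩
    rw [Nat.mul_div_cancel_left _ h.1.1.1]
  · rintro ⟨k, d⟩ h
    rfl

theorem harm (v : ℕ) (hv : 1 ≤ v) : ∑ d ∈ Icc 1 v, 1 / (d : ℝ) ≤ 1 + Real.log v := by
  have h := harmonic_le_one_add_log v
  have h2 : ((harmonic v : ℚ) : ℝ) = ∑ d ∈ Icc 1 v, 1 / (d : ℝ) := by
    rw [harmonic_eq_sum_Icc]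
    push_cast
    simp
  rwa [h2] at h

end TNx

theorem tn : TN := by
  classical
  intro η U E hη
  obtain ⟨N0, hN0⟩ := TNx.inner_bound (2 * (U + 2))
  set D : ℝ := 12 * (2 : ℝ) ^ (6 / η) * 4 ^ (U + 2) with hD
  have hlog : Tendsto (fun x : ℕ => Real.log (x : ℝ)) atTop atTop :=
    Real.tendsto_log_atTop.comp tendsto_natCast_atTop_atTop
  have hsq : Tendsto (fun x : ℕ => √(Real.log (x : ℝ))) atTop atTop :=
    Real.tendsto_sqrt_atTop.comp hlog
  have hev : ∀ᶠ x : ℕ in atTop, 2 ≤ x ∧ max D 1 ≤ Real.log x ∧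
      max (Real.log ((N0 : ℝ) + 4)) 4 ≤ √(Real.log x) ∧
      Real.log x ^ E < (x : ℝ) ^ (η / 2) := by
    have e4 : ∀ᶠ x : ℕ in atTop, Real.log x ^ E < (x : ℝ) ^ (η / 2) := by
      have h2 := (isLittleO_log_rpow_rpow_atTop (s := η / 2) (E : ℝ) (by positivity))
      have h3 := h2.def (show (0 : ℝ) < 1 / 2 by norm_num)
      have h4 := (tendsto_natCast_atTop_atTop (R := ℝ)).eventually h3
      filter_upwards [h4, eventually_ge_atTop 2] with x hx hx2
      have hx0 : (0 : ℝ) < x := by exact_mod_cast (by omega : 0 < x)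
      have hL : 0 < Real.log x := Real.log_pos (by exact_mod_cast hx2)
      have hp : 0 < (x : ℝ) ^ (η / 2) := Real.rpow_pos_of_pos hx0 _
      rw [Real.norm_of_nonneg (Real.rpow_nonneg hL.le _), Real.norm_of_nonneg hp.le,
        Real.rpow_natCast] at hx
      linarith
    exact (eventually_ge_atTop 2).and ((hlog.eventually (eventually_ge_atTop _)).and
      ((hsq.eventually (eventually_ge_atTop _)).and e4))
  obtain ⟨x0, hx0⟩ := eventually_atTop.mp hev
  refine ⟨x0, ?_⟩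
  intro x hx z Y hz hzx hY1 hY2 G hG i v q r hxi hix hiv hvi hq hqE
  obtain ⟨hx2, hL1, hs1, hlE⟩ := hx0 x hx
  have hD1 := (le_max_left D 1).trans hL1
  have hL0 : (1 : ℝ) ≤ Real.log x := (le_max_right D 1).trans hL1
  have hs2 := (le_max_left _ _).trans hs1
  have hs3 : (4 : ℝ) ≤ √(Real.log x) := (le_max_right _ _).trans hs1
  have hxpos : (0 : ℝ) < x := by exact_mod_cast (by omega : 0 < x)
  -- the lower end
  have hY4 : (4 : ℝ) ≤ Y := by
    refine le_trans ?_ hY1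
    have := Real.add_one_le_exp (√(Real.log x))
    linarith
  have hY4' : 4 ≤ Y := by exact_mod_cast hY4
  have hYc : ((Y - 1 : ℕ) : ℝ) = (Y : ℝ) - 1 := by
    rw [Nat.cast_sub (by omega)]
    simp
  have hYlog : √(Real.log x) / 2 ≤ Real.log ((Y - 1 : ℕ) : ℝ) := by
    rw [hYc, Real.le_log_iff_exp_le (by linarith)]
    have h1 : Real.exp (√(Real.log x)) = Real.exp (√(Real.log x) / 2) * Real.exp (√(Real.log x) / 2) := by
      rw [← Real.exp_add]
      congr 1
      ring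
    have h2 := Real.add_one_le_exp (√(Real.log x) / 2)
    nlinarith
  have hYN0 : N0 ≤ Y - 1 := by
    have h1 : Real.exp (Real.log ((N0 : ℝ) + 4)) ≤ Real.exp (√(Real.log x)) := Real.exp_le_exp.mpr hs2
    rw [Real.exp_log (by positivity)] at h1
    have h2 : ((N0 : ℕ) : ℝ) + 4 ≤ Y := h1.trans hY1
    have h3 : N0 + 4 ≤ Y := by exact_mod_cast h2
    omega
  have hqz : q < z := by
    have : (q : ℝ) < z := lt_of_le_of_lt hqE (lt_of_lt_of_le hlE hz)
    exact_mod_cast this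
  have hvpos : 1 ≤ v := le_trans (Nat.one_le_two_pow) hiv
  have hvx : v ≤ x ^ 2 := hvi.trans hix
  have hvx3 : v ≤ x ^ 3 := hvx.trans (Nat.pow_le_pow_right (by omega) (by norm_num))
  have hlogA : ∀ A : ℕ, Y - 1 ≤ A → √(Real.log x) / 2 ≤ Real.log A := by
    intro A hA
    refine hYlog.trans (Real.log_le_log ?_ (by exact_mod_cast hA))
    rw [hYc]
    linarith
  rw [TNx.swap z Y (by omega) G (2 ^ i) v q r]
  have hterm : ∀ d ∈ (Icc 1 v).filter (fun d => Rough z d),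
      |gt G d * ∑ l ∈ (Ioc (max (2 ^ i / d) (Y - 1)) (v / d)).filter (fun l => d * l ≡ r [MOD q]), lam l| ≤
        ((2 : ℝ) ^ (6 / η) * (2 * v * 4 ^ (U + 2) / Real.log x ^ (U + 2))) * (1 / (d : ℝ)) := by
    intro d hd
    rw [Finset.mem_filter, Finset.mem_Icc] at hd
    obtain ⟨⟨hd1, hdv⟩, hdR⟩ := hd
    have hd0 : (0 : ℝ) < d := by exact_mod_cast hd1
    have hcop : Nat.Coprime q d := by
      rw [Nat.coprime_iff_gcd_eq_one] 
      by_contra hne
      obtain ⟨p, hp, hpd⟩ := Nat.exists_prime_and_dvd hne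
      have h1 := hdR.2 p hp (hpd.trans (Nat.gcd_dvd_right _ _))
      have h2 := Nat.le_of_dvd (by omega) (hpd.trans (Nat.gcd_dvd_left _ _))
      omega
    have hg := TNx.gt_bound η x z d hη hx2 hdR hz (hdv.trans hvx3) G hG
    set A := max (2 ^ i / d) (Y - 1) with hA
    have hA1 : Y - 1 ≤ A := le_max_right _ _
    have h1 := hN0 A (v / d) d q r (hYN0.trans hA1) (by omega) hq hcop
    have h2 := hlogA A hA1
    have h3 : Real.log x ^ (U + 2) / 4 ^ (U + 2) ≤ Real.log A ^ (2 * (U + 2)) := by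
      have h4 : Real.log x / 4 = (√(Real.log x) / 2) ^ 2 := by
        rw [div_pow, Real.sq_sqrt (by linarith)]
        norm_num
      rw [← div_pow, h4, ← pow_mul]
      exact pow_le_pow_left₀ (by positivity) h2 _
    have hLp : 0 < Real.log x ^ (U + 2) / 4 ^ (U + 2) := by positivity
    have h5 : 2 * ((v / d : ℕ) : ℝ) / Real.log A ^ (2 * (U + 2)) ≤
        (2 * v * 4 ^ (U + 2) / Real.log x ^ (U + 2)) * (1 / (d : ℝ)) := by
      have h6 : ((v / d : ℕ) : ℝ) ≤ v / d := Nat.cast_div_le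
      calc 2 * ((v / d : ℕ) : ℝ) / Real.log A ^ (2 * (U + 2))
          ≤ 2 * (v / d : ℝ) / (Real.log x ^ (U + 2) / 4 ^ (U + 2)) :=
            div_le_div₀ (by positivity) (by linarith) hLp h3
        _ = _ := by
          field_simp
    rw [abs_mul]
    calc |gt G d| * |∑ l ∈ (Ioc A (v / d)).filter (fun l => d * l ≡ r [MOD q]), lam l|
        ≤ (2 : ℝ) ^ (6 / η) * ((2 * v * 4 ^ (U + 2) / Real.log x ^ (U + 2)) * (1 / (d : ℝ))) :=
          mul_le_mul hg (h1.trans h5) (abs_nonneg _) (by positivity)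
      _ = _ := by ring
  refine (Finset.abs_sum_le_sum_abs _ _).trans ((Finset.sum_le_sum hterm).trans ?_)
  rw [← Finset.mul_sum]
  have hh : ∑ d ∈ (Icc 1 v).filter (fun d => Rough z d), 1 / (d : ℝ) ≤ 3 * Real.log x := by
    refine (Finset.sum_le_sum_of_subset_of_nonneg (Finset.filter_subset _ _)
      (fun d _ _ => by positivity)).trans ((TNx.harm v hvpos).trans ?_)
    have h1 : Real.log v ≤ 2 * Real.log x := by
      have h2 : (2 : ℝ) * Real.log x = Real.log ((x : ℝ) ^ 2) := by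
        rw [Real.log_pow]
        norm_num
      rw [h2]
      exact Real.log_le_log (by exact_mod_cast hvpos) (by exact_mod_cast hvx)
    linarith
  have hc0 : (0 : ℝ) ≤ (2 : ℝ) ^ (6 / η) * (2 * v * 4 ^ (U + 2) / Real.log x ^ (U + 2)) := by positivity
  refine (mul_le_mul_of_nonneg_left hh hc0).trans ?_
  have hv2 : (v : ℝ) ≤ 2 * 2 ^ i := by
    have : (v : ℝ) ≤ (2 : ℝ) ^ (i + 1) := by exact_mod_cast hvi
    rw [pow_succ] at this
    linarith
  have hLU : 0 < Real.log x ^ U := by positivity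
  rw [le_div_iff₀ hLU]
  have e1 : (2 : ℝ) ^ (6 / η) * (2 * v * 4 ^ (U + 2) / Real.log x ^ (U + 2)) * (3 * Real.log x) * Real.log x ^ U =
      (6 * (2 : ℝ) ^ (6 / η) * 4 ^ (U + 2)) * v / Real.log x := by
    rw [pow_add]
    field_simp
    ring
  rw [e1, div_le_iff₀ (by linarith)]
  have h2i : (0 : ℝ) < 2 ^ i := by positivity
  have hc1 : (0 : ℝ) < 6 * (2 : ℝ) ^ (6 / η) * 4 ^ (U + 2) := by positivity
  calc (6 * (2 : ℝ) ^ (6 / η) * 4 ^ (U + 2)) * v
      ≤ (6 * (2 : ℝ) ^ (6 / η) * 4 ^ (U + 2)) * (2 * 2 ^ i) := mul_le_mul_of_nonneg_left hv2 hc1.le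
    _ = 2 ^ i * D := by rw [hD]; ring
    _ ≤ 2 ^ i * Real.log x := mul_le_mul_of_nonneg_left hD1 h2i.le

end Pool.Agent.N792.CH
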