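import Pool.Agent.N792.CH.Stm
import Pool.Agent.N792.SwRa
import Pool.Agent.N792.Ty1a

/-! Project CH (helper792): the type I sums (TS). -/

set_option autoImplicit false

namespace Pool.Agent.N792.CH

open Finset Filter Topology
open Pool.Agent.N792 (Fn rho Rough R2 rg rough_recip)

namespace TSa

lemma two_pow_omega {j : ℕ} (h : Squarefree j) : (2 : ℝ) ^ #j.primeFactors ≤ (#j.divisors : ℝ) := by
  have h1 : #j.divisors = 2 ^ #j.primeFactors := by
    rw [Nat.card_divisors h.ne_zero, ← prod_const]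
    refine prod_congr rfl fun p hp => ?_
    have h2 : j.factorization p ≤ 1 := h.natFactorization_le_one p
    have h3 : 1 ≤ j.factorization p :=
      (Nat.prime_of_mem_primeFactors hp).factorization_pos_of_dvd h.ne_zero
        (Nat.dvd_of_mem_primeFactors hp)
    omega
  rw [h1]
  push_cast
  exact le_rfl

lemma rg_nonneg (z j : ℕ) : 0 ≤ rg z j := by
  unfold rg
  split_ifs <;> norm_num

open Classical in
lemma sum_two (z s : ℕ) :
    ∑ j ∈ (Icc 1 s).filter (fun j => Rough z j ∧ Squarefree j), (2 : ℝ) ^ #j.primeFactors * (1 / j) ≤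
      (∑ j ∈ Icc 1 s, rg z j / j) ^ 2 := by
  set S := (Icc 1 s).filter (fun j => Rough z j ∧ Squarefree j) with hS
  set F : ℕ → ℝ := fun j => rg z j / j with hF
  have hF0 : ∀ j, 0 ≤ F j := fun j => div_nonneg (rg_nonneg z j) (Nat.cast_nonneg j)
  have hmem : ∀ j ∈ S, 1 ≤ j ∧ j ≤ s ∧ Rough z j ∧ Squarefree j := by
    intro j hj
    rw [hS, mem_filter, mem_Icc] at hj
    exact ⟨hj.1.1, hj.1.2, hj.2.1, hj.2.2⟩
  have h1 : ∀ j ∈ S, (2 : ℝ) ^ #j.primeFactors * (1 / j) ≤ ∑ u ∈ j.divisors, F u * F (j / u) := by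
    intro j hj
    obtain ⟨hj1, hj2, hj3, hj4⟩ := hmem j hj
    have h2 : ∀ u ∈ j.divisors, F u * F (j / u) = 1 / (j : ℝ) := by
      intro u hu
      have hud := Nat.dvd_of_mem_divisors hu
      have hr1 : Rough z u := SwR.rough_of_dvd hj3 hud
      have hr2 : Rough z (j / u) := SwR.rough_of_dvd hj3 (Nat.div_dvd_of_dvd hud)
      have e : ((u : ℝ)) * ((j / u : ℕ) : ℝ) = j := by
        rw [← Nat.cast_mul, Nat.mul_div_cancel' hud]
      simp only [hF]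
      unfold rg
      rw [if_pos hr1, if_pos hr2, div_mul_div_comm, one_mul, e]
    rw [sum_congr rfl h2, sum_const, nsmul_eq_mul]
    exact mul_le_mul_of_nonneg_right (two_pow_omega hj4) (by positivity)
  refine (sum_le_sum h1).trans ?_
  rw [sum_sigma', sq, sum_mul_sum, ← sum_product']
  set g : (Σ _ : ℕ, ℕ) → ℕ × ℕ := fun y => (y.2, y.1 / y.2) with hg
  have hinj : Set.InjOn g (S.sigma fun j => j.divisors : Finset (Σ _ : ℕ, ℕ)) := by
    rintro ⟨j, u⟩ hy ⟨j', u'⟩ hy' he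
    rw [mem_coe, mem_sigma] at hy hy'
    simp only [hg, Prod.mk.injEq] at he
    obtain ⟨he1, he2⟩ := he
    subst he1
    have e1 := Nat.div_mul_cancel (Nat.dvd_of_mem_divisors hy.2)
    have e2 := Nat.div_mul_cancel (Nat.dvd_of_mem_divisors hy'.2)
    simp only at e1 e2
    have : j = j' := by rw [← e1, ← e2, he2]
    subst this
    rfl
  calc ∑ y ∈ S.sigma (fun j => j.divisors), F y.2 * F (y.1 / y.2)
      = ∑ q ∈ (S.sigma fun j => j.divisors).image g, F q.1 * F q.2 := by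
        rw [sum_image hinj]
    _ ≤ ∑ q ∈ Icc 1 s ×ˢ Icc 1 s, F q.1 * F q.2 := by
        refine sum_le_sum_of_subset_of_nonneg ?_ fun q _ _ => mul_nonneg (hF0 _) (hF0 _)
        intro q hq
        rw [mem_image] at hq
        obtain ⟨⟨j, u⟩, hy, rfl⟩ := hq
        rw [mem_sigma] at hy
        obtain ⟨hj1, hj2, hj3, hj4⟩ := hmem j hy.1
        simp only at hy
        have hud := Nat.dvd_of_mem_divisors hy.2
        have hu0 := Nat.pos_of_mem_divisors hy.2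
        have hul := Nat.le_of_dvd (by omega) hud
        simp only [hg, mem_product, mem_Icc]
        refine ⟨⟨hu0, by omega⟩, Nat.div_pos hul hu0, (Nat.div_le_self _ _).trans hj2⟩

lemma omega_le {z j x : ℕ} {η : ℝ} (hη : 0 < η) (hx : 2 ≤ x) (hz : (x : ℝ) ^ (η / 2) ≤ z)
    (hj : Rough z j) (hjx : j ≤ x) : (2 : ℝ) ^ #j.primeFactors ≤ (2 : ℝ) ^ (2 / η) := by
  have hx1 : (1 : ℝ) < x := by exact_mod_cast (by omega : 1 < x)
  have hx0 : (0 : ℝ) < x := by linarith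
  have h1 : z ^ #j.primeFactors ≤ j := by
    calc z ^ #j.primeFactors = ∏ _p ∈ j.primeFactors, z := by rw [prod_const]
      _ ≤ ∏ p ∈ j.primeFactors, p := by
          refine prod_le_prod (fun _ _ => Nat.zero_le _) fun p hp => ?_
          exact (hj.2 p (Nat.prime_of_mem_primeFactors hp) (Nat.dvd_of_mem_primeFactors hp)).le
      _ ≤ j := Nat.le_of_dvd (Nat.pos_of_ne_zero hj.1) (Nat.prod_primeFactors_dvd j)
  have h2 : ((x : ℝ) ^ (η / 2)) ^ #j.primeFactors ≤ (x : ℝ) ^ (1 : ℝ) := by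
    calc ((x : ℝ) ^ (η / 2)) ^ #j.primeFactors ≤ (z : ℝ) ^ #j.primeFactors :=
          pow_le_pow_left₀ (by positivity) hz _
      _ ≤ (j : ℝ) := by exact_mod_cast h1
      _ ≤ (x : ℝ) := by exact_mod_cast hjx
      _ = (x : ℝ) ^ (1 : ℝ) := (Real.rpow_one _).symm
  rw [← Real.rpow_natCast, ← Real.rpow_mul hx0.le] at h2
  have h3 := (Real.rpow_le_rpow_left_iff hx1).1 h2
  rw [← Real.rpow_natCast]
  refine Real.rpow_le_rpow_of_exponent_le (by norm_num) ?_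
  rw [le_div_iff₀ hη]
  linarith

end TSa

open TSa

theorem ts (a : ℤ) (ha : 0 < a) (b : ℤ) (hTA : TA a b) (hGD : GD a b) (hR2 : R2 a b) : TS a b := by
  classical
  obtain ⟨KA, hKA1, HA⟩ := hTA
  obtain ⟨KR, hKR0, HR⟩ := rough_recip
  have hKA0 : 0 < KA := by linarith
  refine ⟨KA * (1 + 8 * KR ^ 2), ?_, fun δ hδ hδ1 => ?_⟩
  · have : 0 ≤ 8 * KR ^ 2 := by positivity
    nlinarith
  obtain ⟨η0, hη0, hη01, HA1⟩ := HA δ hδ hδ1
  refine ⟨η0, hη0, hη01, fun η hη hηη w P hw hP hPw τ R hτ => ?_⟩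
  obtain ⟨xA, hxA⟩ := HA1 η hη hηη w P hw hP hPw
  have hη1 : η ≤ 1 / 10 := hηη.trans hη01
  set τ1 : ℝ := τ * η ^ 2 / (16 * KR ^ 2 + 1) with hτ1d
  have hτ1 : 0 < τ1 := by positivity
  have hτ1τ : τ1 ≤ τ := by
    rw [hτ1d, div_le_iff₀ (by positivity)]
    have h1 : η ^ 2 ≤ 1 := by nlinarith
    have h2 : (0:ℝ) ≤ 16 * KR ^ 2 := by positivity
    nlinarith
  have hτ1K : 8 * KR ^ 2 * τ1 / η ^ 2 ≤ τ / 2 := by
    rw [hτ1d]
    have h2 : (0:ℝ) < 16 * KR ^ 2 + 1 := by positivity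
    have e : 8 * KR ^ 2 * (τ * η ^ 2 / (16 * KR ^ 2 + 1)) / η ^ 2 =
        8 * KR ^ 2 * τ / (16 * KR ^ 2 + 1) := by
      field_simp
    rw [e, div_le_div_iff₀ h2 (by norm_num)]
    nlinarith
  obtain ⟨xG, hxG⟩ := hGD w τ1 (η / 2) hw hτ1 (half_pos hη)
  obtain ⟨xR, hxR⟩ := hR2 (η / 2) (1 / 50) (half_pos hη) (by norm_num)
  obtain ⟨xU, hxU⟩ := HR (η / 2) (half_pos hη) (by linarith)
  set M : ℝ := 4 * P * (2 : ℝ) ^ (2 / η) / τ with hM
  obtain ⟨y1, hy1⟩ := eventually_atTop.1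
    ((tendsto_rpow_atTop (show (0:ℝ) < 3 / 20 by norm_num)).eventually_ge_atTop M)
  refine ⟨xA + xG + xR + xU + ⌈y1⌉₊ + R * b.natAbs + 3, fun x hx => ?_⟩
  intro x1 C J s hx1 hxR1 hC hCx hz1 hz2 hs
  have hx2 : 2 ≤ x := by omega
  have hxr : (2 : ℝ) ≤ x := by exact_mod_cast hx2
  have hx0 : (0 : ℝ) < x := by linarith
  have hx1r : (1 : ℝ) ≤ x := by linarith
  have hxy : y1 ≤ x := (Nat.le_ceil _).trans (by exact_mod_cast (by omega : ⌈y1⌉₊ ≤ x))
  have hbx1 : b.natAbs ≤ x1 := by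
    by_contra hlt
    have h1 : x1 ≤ b.natAbs := by omega
    have h2 : R * x1 ≤ R * b.natAbs := Nat.mul_le_mul_left _ h1
    omega
  have hC0 : (0 : ℝ) ≤ C := Nat.cast_nonneg C
  have hC12 : (x : ℝ) ^ (1 / 2 : ℝ) ≤ C :=
    (Real.rpow_le_rpow_of_exponent_le hx1r (by norm_num)).trans hC
  have hC52 : (x : ℝ) ^ (1 / 2 + 1 / 50 : ℝ) ≤ C :=
    (Real.rpow_le_rpow_of_exponent_le hx1r (by norm_num)).trans hC
  have hsx : s ≤ x := by
    have h1 : (s : ℝ) ≤ x := by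
      refine hs.trans ?_
      calc (x : ℝ) ^ (3 / 4 : ℝ) ≤ (x : ℝ) ^ (1 : ℝ) :=
            Real.rpow_le_rpow_of_exponent_le hx1r (by norm_num)
        _ = x := Real.rpow_one _
    exact_mod_cast h1
  set z : ℕ := 2 ^ 2 ^ J with hz
  set Ex : Finset ℕ := (Icc 1 C).filter
    (fun c : ℕ => τ1 < ∏ p ∈ (Ioc w z).filter Nat.Prime, (1 - 2 * (rho a b c p : ℝ) / p)) with hEx
  refine ⟨Ex, filter_subset _ _, ?_, ?_⟩
  · exact (hxG x (by omega) C z hC12 hz1).trans (mul_le_mul_of_nonneg_right hτ1τ hC0)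
  intro ψ hψ hψP
  set E : ℝ := KA * (2 : ℝ) ^ (-(δ / (KA * η))) with hE
  have hE0 : 0 ≤ E := by positivity
  have hPr : (0 : ℝ) < P := by exact_mod_cast hP
  -- the bound for single `c`, `j`
  have key : ∀ c ∈ Icc 1 C \ Ex, ∀ j ∈ (Icc 1 s).filter (fun j => Rough z j ∧ Squarefree j),
      |∑ n ∈ (Ioc x1 x).filter (fun n => j ∣ Fn a b n + c ∧
        ((rd w z (Fn a b n + c) : ℕ) : ℝ) ≤ (x : ℝ) ^ δ), ψ c n * sg w z (Fn a b n + c)| ≤
      (rho a b c j : ℝ) * (x * (τ1 + E) * (1 / j) + P * (x : ℝ) ^ (2 * δ)) := by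
    intro c hc j hj
    have hc1 : c ∈ Icc 1 C := (Finset.mem_sdiff.1 hc).1
    have hc2 : c ∉ Ex := (Finset.mem_sdiff.1 hc).2
    rw [mem_filter, mem_Icc] at hj
    have hprod : ∏ p ∈ (Ioc w z).filter Nat.Prime, (1 - 2 * (rho a b c p : ℝ) / p) ≤ τ1 := by
      by_contra hlt
      exact hc2 (by
        rw [hEx, mem_filter]
        exact ⟨hc1, not_le.1 hlt⟩)
    have hj0 : (0 : ℝ) < j := by exact_mod_cast hj.1.1
    rw [← sum_fiberwise_of_maps_to (t := range P) (g := fun n => n % P)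
      (fun n _ => mem_range.2 (Nat.mod_lt _ hP))]
    refine (abs_sum_le_sum_abs _ _).trans ?_
    have h1 : ∀ r ∈ range P,
        |∑ n ∈ ((Ioc x1 x).filter (fun n => j ∣ Fn a b n + c ∧
          ((rd w z (Fn a b n + c) : ℕ) : ℝ) ≤ (x : ℝ) ^ δ)).filter (fun n => n % P = r),
          ψ c n * sg w z (Fn a b n + c)| ≤
        (rho a b c j : ℝ) / (j * P) * x * (τ1 + E) + rho a b c j * (x : ℝ) ^ (2 * δ) := by
      intro r hr
      rw [mem_range] at hr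
      have h2 := hxA x (by omega) x1 J c r j hx1 hbx1 hz1 hz2 hj.2.1
      have h3 : ((Ioc x1 x).filter (fun n => j ∣ Fn a b n + c ∧
          ((rd w z (Fn a b n + c) : ℕ) : ℝ) ≤ (x : ℝ) ^ δ)).filter (fun n => n % P = r) =
          (Ioc x1 x).filter (fun n => n ≡ r [MOD P] ∧ j ∣ Fn a b n + c ∧
            ((rd w (2 ^ 2 ^ J) (Fn a b n + c) : ℕ) : ℝ) ≤ (x : ℝ) ^ δ) := by
        ext n
        simp only [mem_filter]
        have e : n % P = r ↔ n ≡ r [MOD P] := by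
          unfold Nat.ModEq
          rw [Nat.mod_eq_of_lt hr]
        rw [e]
        tauto
      rw [h3]
      have h4 : ∑ n ∈ (Ioc x1 x).filter (fun n => n ≡ r [MOD P] ∧ j ∣ Fn a b n + c ∧
            ((rd w (2 ^ 2 ^ J) (Fn a b n + c) : ℕ) : ℝ) ≤ (x : ℝ) ^ δ),
            ψ c n * sg w z (Fn a b n + c) =
          ψ c r * ∑ n ∈ (Ioc x1 x).filter (fun n => n ≡ r [MOD P] ∧ j ∣ Fn a b n + c ∧
            ((rd w (2 ^ 2 ^ J) (Fn a b n + c) : ℕ) : ℝ) ≤ (x : ℝ) ^ δ),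
            sg w (2 ^ 2 ^ J) (Fn a b n + c) := by
        rw [mul_sum]
        refine sum_congr rfl fun n hn => ?_
        rw [mem_filter] at hn
        rw [hψP c n r hn.2.1]
      rw [h4, abs_mul]
      calc |ψ c r| * _ ≤ 1 * _ := mul_le_mul_of_nonneg_right (hψ c r) (abs_nonneg _)
        _ = _ := one_mul _
        _ ≤ _ := h2
        _ ≤ _ := by
          refine add_le_add ?_ le_rfl
          refine mul_le_mul_of_nonneg_left ?_ (by positivity)
          exact add_le_add hprod le_rfl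
    refine (sum_le_sum h1).trans (le_of_eq ?_)
    rw [sum_const, card_range, nsmul_eq_mul]
    field_simp
  -- summation
  have hsum1 : ∑ c ∈ Icc 1 C \ Ex, ∑ j ∈ (Icc 1 s).filter (fun j => Rough z j ∧ Squarefree j),
      (2 : ℝ) ^ #j.primeFactors * |∑ n ∈ (Ioc x1 x).filter (fun n => j ∣ Fn a b n + c ∧
        ((rd w z (Fn a b n + c) : ℕ) : ℝ) ≤ (x : ℝ) ^ δ), ψ c n * sg w z (Fn a b n + c)| ≤
      ∑ c ∈ Icc 1 C, ∑ j ∈ (Icc 1 s).filter (fun j => Rough z j ∧ Squarefree j),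
        (2 : ℝ) ^ #j.primeFactors * ((rho a b (c : ℕ) j : ℝ) *
          (x * (τ1 + E) * (1 / j) + P * (x : ℝ) ^ (2 * δ))) := by
    refine (sum_le_sum fun c hc => sum_le_sum fun j hj =>
      mul_le_mul_of_nonneg_left (key c hc j hj) (by positivity)).trans ?_
    refine sum_le_sum_of_subset_of_nonneg sdiff_subset fun c _ _ => ?_
    refine sum_nonneg fun j _ => ?_
    positivity
  refine hsum1.trans ?_
  rw [sum_comm]
  have hsum2 : ∀ j ∈ (Icc 1 s).filter (fun j => Rough z j ∧ Squarefree j),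
      ∑ c ∈ Icc 1 C, (2 : ℝ) ^ #j.primeFactors * ((rho a b (c : ℕ) j : ℝ) *
          (x * (τ1 + E) * (1 / j) + P * (x : ℝ) ^ (2 * δ))) ≤
      2 * C * (x * (τ1 + E)) * ((2 : ℝ) ^ #j.primeFactors * (1 / j)) +
        2 * C * P * (x : ℝ) ^ (2 * δ) * (2 : ℝ) ^ (2 / η) := by
    intro j hj
    rw [mem_filter, mem_Icc] at hj
    have h1 := hxR x (by omega) C z j hC52 hCx hz1 (by omega) hj.2.1 hj.2.2
    have h2 := omega_le hη hx2 hz1 hj.2.1 (by omega)
    have h3 : ∑ c ∈ Icc 1 C, (2 : ℝ) ^ #j.primeFactors * ((rho a b (c : ℕ) j : ℝ) *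
          (x * (τ1 + E) * (1 / j) + P * (x : ℝ) ^ (2 * δ))) =
        (2 : ℝ) ^ #j.primeFactors * (x * (τ1 + E) * (1 / j) + P * (x : ℝ) ^ (2 * δ)) *
          ∑ c ∈ Icc 1 C, (rho a b (c : ℕ) j : ℝ) := by
      rw [mul_sum]
      exact sum_congr rfl fun c _ => by ring
    rw [h3]
    calc (2 : ℝ) ^ #j.primeFactors * (x * (τ1 + E) * (1 / j) + P * (x : ℝ) ^ (2 * δ)) *
          ∑ c ∈ Icc 1 C, (rho a b (c : ℕ) j : ℝ)
        ≤ (2 : ℝ) ^ #j.primeFactors * (x * (τ1 + E) * (1 / j) + P * (x : ℝ) ^ (2 * δ)) * (2 * C) :=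
          mul_le_mul_of_nonneg_left h1 (by positivity)
      _ = 2 * C * (x * (τ1 + E)) * ((2 : ℝ) ^ #j.primeFactors * (1 / j)) +
          2 * C * P * (x : ℝ) ^ (2 * δ) * (2 : ℝ) ^ #j.primeFactors := by ring
      _ ≤ _ := add_le_add le_rfl (mul_le_mul_of_nonneg_left h2 (by positivity))
  refine (sum_le_sum hsum2).trans ?_
  rw [sum_add_distrib, ← mul_sum, sum_const, nsmul_eq_mul]
  have hA : ∑ j ∈ (Icc 1 s).filter (fun j => Rough z j ∧ Squarefree j),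
      (2 : ℝ) ^ #j.primeFactors * (1 / j) ≤ 4 * KR ^ 2 / η ^ 2 := by
    refine (sum_two z s).trans ?_
    have h1 := hxU x (by omega) z s hz1 hsx
    have h2 : 0 ≤ ∑ j ∈ Icc 1 s, rg z j / j :=
      sum_nonneg fun j _ => div_nonneg (rg_nonneg z j) (Nat.cast_nonneg j)
    calc (∑ j ∈ Icc 1 s, rg z j / j) ^ 2 ≤ (KR / (η / 2)) ^ 2 := pow_le_pow_left₀ h2 h1 2
      _ = 4 * KR ^ 2 / η ^ 2 := by
        field_simp
        ring
  have hcard : (#((Icc 1 s).filter (fun j => Rough z j ∧ Squarefree j)) : ℝ) ≤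
      (x : ℝ) ^ (3 / 4 : ℝ) := by
    refine le_trans ?_ hs
    have h1 : #((Icc 1 s).filter (fun j => Rough z j ∧ Squarefree j)) ≤ s := by
      refine (card_filter_le _ _).trans ?_
      rw [Nat.card_Icc]
      omega
    exact_mod_cast h1
  -- the two parts
  have hpart1 : 2 * C * (x * (τ1 + E)) *
      ∑ j ∈ (Icc 1 s).filter (fun j => Rough z j ∧ Squarefree j),
        (2 : ℝ) ^ #j.primeFactors * (1 / j) ≤
      (KA * (1 + 8 * KR ^ 2) * (2 : ℝ) ^ (-(δ / (KA * (1 + 8 * KR ^ 2) * η))) / η ^ 2 + τ / 2) *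
        (C * x) := by
    calc _ ≤ 2 * C * (x * (τ1 + E)) * (4 * KR ^ 2 / η ^ 2) :=
          mul_le_mul_of_nonneg_left hA (by positivity)
      _ = (8 * KR ^ 2 * E / η ^ 2 + 8 * KR ^ 2 * τ1 / η ^ 2) * (C * x) := by ring
      _ ≤ _ := by
          refine mul_le_mul_of_nonneg_right (add_le_add ?_ hτ1K) (by positivity)
          refine div_le_div_of_nonneg_right ?_ (by positivity)
          have h1 : (2 : ℝ) ^ (-(δ / (KA * η))) ≤
              (2 : ℝ) ^ (-(δ / (KA * (1 + 8 * KR ^ 2) * η))) := by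
            refine Real.rpow_le_rpow_of_exponent_le (by norm_num) ?_
            refine neg_le_neg ?_
            refine div_le_div_of_nonneg_left hδ.le (by positivity) ?_
            have h2 : (0:ℝ) ≤ KA * η * (8 * KR ^ 2) := by positivity
            nlinarith
          rw [hE]
          have h3 : (0:ℝ) ≤ (2 : ℝ) ^ (-(δ / (KA * η))) := by positivity
          calc 8 * KR ^ 2 * (KA * (2 : ℝ) ^ (-(δ / (KA * η))))
              ≤ KA * (1 + 8 * KR ^ 2) * (2 : ℝ) ^ (-(δ / (KA * η))) := by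
                have : 0 ≤ KA * (2 : ℝ) ^ (-(δ / (KA * η))) := by positivity
                nlinarith
            _ ≤ _ := mul_le_mul_of_nonneg_left h1 (by positivity)
  have hpart2 : (#((Icc 1 s).filter (fun j => Rough z j ∧ Squarefree j)) : ℝ) *
      (2 * C * P * (x : ℝ) ^ (2 * δ) * (2 : ℝ) ^ (2 / η)) ≤ τ / 2 * (C * x) := by
    have h1 : (x : ℝ) ^ (2 * δ) ≤ (x : ℝ) ^ (1 / 10 : ℝ) :=
      Real.rpow_le_rpow_of_exponent_le hx1r (by linarith)
    have h2 := hy1 x hxy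
    have h3 : (x : ℝ) ^ (3 / 4 : ℝ) * (x : ℝ) ^ (1 / 10 : ℝ) * (x : ℝ) ^ (3 / 20 : ℝ) = x := by
      rw [← Real.rpow_add hx0, ← Real.rpow_add hx0]
      norm_num
    have h4 : 0 < (x : ℝ) ^ (3 / 4 : ℝ) * (x : ℝ) ^ (1 / 10 : ℝ) := by positivity
    have h5 : 2 * P * (2 : ℝ) ^ (2 / η) ≤ τ / 2 * (x : ℝ) ^ (3 / 20 : ℝ) := by
      have : M * τ ≤ (x : ℝ) ^ (3 / 20 : ℝ) * τ := mul_le_mul_of_nonneg_right h2 hτ.le
      rw [hM, div_mul_cancel₀ _ hτ.ne'] at this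
      linarith
    calc (#((Icc 1 s).filter (fun j => Rough z j ∧ Squarefree j)) : ℝ) *
          (2 * C * P * (x : ℝ) ^ (2 * δ) * (2 : ℝ) ^ (2 / η))
        ≤ (x : ℝ) ^ (3 / 4 : ℝ) * (2 * C * P * (x : ℝ) ^ (1 / 10 : ℝ) * (2 : ℝ) ^ (2 / η)) := by
          gcongr
      _ = C * ((x : ℝ) ^ (3 / 4 : ℝ) * (x : ℝ) ^ (1 / 10 : ℝ)) * (2 * P * (2 : ℝ) ^ (2 / η)) := by
          ring
      _ ≤ C * ((x : ℝ) ^ (3 / 4 : ℝ) * (x : ℝ) ^ (1 / 10 : ℝ)) *
          (τ / 2 * (x : ℝ) ^ (3 / 20 : ℝ)) := mul_le_mul_of_nonneg_left h5 (by positivity)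
      _ = τ / 2 * (C * ((x : ℝ) ^ (3 / 4 : ℝ) * (x : ℝ) ^ (1 / 10 : ℝ) *
          (x : ℝ) ^ (3 / 20 : ℝ))) := by ring
      _ = τ / 2 * (C * x) := by rw [h3]
  refine (add_le_add hpart1 hpart2).trans (le_of_eq ?_)
  ring

end Pool.Agent.N792.CH
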