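import Mathlib
import Pool.Agent.N792.CH.FinC
import Pool.Agent.N792.CH.MvC
import Pool.Agent.N792.CH.BL
import Pool.Agent.N792.CH.BP
import Pool.Agent.N792.CH.BS
import Pool.Agent.N792.CH.CB
import Pool.Agent.N792.CH.GD
import Pool.Agent.N792.CH.PM
import Pool.Agent.N792.CH.PT
import Pool.Agent.N792.CH.PW
import Pool.Agent.N792.CH.RW
import Pool.Agent.N792.CH.T2
import Pool.Agent.N792.CH.TA
import Pool.Agent.N792.CH.TI
import Pool.Agent.N792.CH.TK
import Pool.Agent.N792.CH.TL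
import Pool.Agent.N792.CH.TN
import Pool.Agent.N792.CH.TS
import Pool.Agent.N792.CH.WN
import Pool.Agent.N792.QR2

/-!
All the lemmas together (helper792).
-/

set_option autoImplicit false

namespace Pool.Agent.N792.CH

open Finset Filter Topology
open Pool.Agent.N792 (Fn rho Rough R2 fv)
open Pool.Agent.N791.C2 (lam)

theorem mv' (hCL : ∀ a : ℤ, 0 < a → ∀ b : ℤ, CL a b) (a : ℤ) (ha : 0 < a) (b : ℤ) : MV a b :=
  mv a ha b bl bp ps (bs a ha b) (wn a b (hCL a ha b) rw1) (ts a ha b (ta a ha b) (gd a ha b) (r2 a ha b))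
    (t2 a ha b (tl a ha b tk tb tn) pt pf pm pb (bs a ha b)) (pw cb) (pv pb)

/-- positive and negative arguments -/
theorem finZ (hCL : ∀ a : ℤ, 0 < a → ∀ b : ℤ, CL a b) (a : ℤ) (ha : 0 < a) (b : ℤ) (ε τ : ℝ) (Q : ℕ) (hε : 0 < ε)
    (hτ : 0 < τ) :
    ∃ x0 : ℕ, ∀ x : ℕ, x0 ≤ x → ∀ C : ℕ, (x : ℝ) ^ (5 / 6 + ε) ≤ C → C ≤ x →
      ∃ Ex ⊆ Icc 1 C, (#Ex : ℝ) ≤ τ * C ∧ ∀ c ∈ Icc 1 C, c ∉ Ex → ∀ q : ℕ, 1 ≤ q → q ≤ Q → ∀ (r : ℤ) (t : ℕ), t ≤ x →
        |∑ n ∈ (Icc (-(t : ℤ)) t).filter (fun n => n ≡ r [ZMOD q]), lamZ (a * n ^ 2 + b * n + (c : ℕ))| ≤ τ * x ∧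
        |∑ n ∈ (Icc (-(t : ℤ)) t).filter (fun n => n ≡ r [ZMOD q]), mobZ (a * n ^ 2 + b * n + (c : ℕ))| ≤ τ * x := by
  classical
  have hMV := mv' hCL
  obtain ⟨x1, h1⟩ := finM hMV (fun a ha b => bs a ha b) a ha b ε (τ / 4) Q hε (by linarith)
  obtain ⟨x2, h2⟩ := finM hMV (fun a ha b => bs a ha b) a ha (-b) ε (τ / 4) Q hε (by linarith)
  refine ⟨x1 + x2 + ⌈4 / τ⌉₊, fun x hx C hC hCx => ?_⟩
  obtain ⟨E1, p1, p2, p3⟩ := h1 x (by omega) C hC hCx
  obtain ⟨E2, q1, q2, q3⟩ := h2 x (by omega) C hC hCx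
  have hx4 : 1 ≤ τ / 4 * x := by
    have h3 : (⌈4 / τ⌉₊ : ℝ) ≤ x := by
      have : ⌈4 / τ⌉₊ ≤ x := by omega
      exact_mod_cast this
    have h4 : 4 / τ ≤ x := (Nat.le_ceil _).trans h3
    rw [div_le_iff₀ hτ] at h4
    linarith
  have hC0 : (0 : ℝ) ≤ C := Nat.cast_nonneg _
  refine ⟨E1 ∪ E2, union_subset p1 q1, ?_, ?_⟩
  · have h5 : (#(E1 ∪ E2) : ℝ) ≤ #E1 + #E2 := by exact_mod_cast card_union_le _ _
    have : 0 ≤ τ * C := by positivity
    linarith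
  · intro c hc hcE q hq hqQ r t ht
    rw [mem_union, not_or] at hcE
    obtain ⟨r1, hr1⟩ : ∃ r1 : ℕ, (r1 : ℤ) = r % q := ⟨(r % q).toNat, Int.toNat_of_nonneg (Int.emod_nonneg _ (by omega))⟩
    obtain ⟨r2, hr2⟩ : ∃ r2 : ℕ, (r2 : ℤ) = (-r) % q := ⟨((-r) % q).toNat, Int.toNat_of_nonneg (Int.emod_nonneg _ (by omega))⟩
    have key : ∀ G : ℤ → ℝ, (∀ m, |G m| ≤ 1) →
        |∑ n ∈ (Icc 1 t).filter (fun n => n ≡ r1 [MOD q]), G (fv a b (c : ℕ) n)| ≤ τ / 4 * x →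
        |∑ n ∈ (Icc 1 t).filter (fun n => n ≡ r2 [MOD q]), G (fv a (-b) (c : ℕ) n)| ≤ τ / 4 * x →
        |∑ n ∈ (Icc (-(t : ℤ)) t).filter (fun n => n ≡ r [ZMOD q]), G (a * n ^ 2 + b * n + (c : ℕ))| ≤ τ * x := by
      intro G hG g1 g2
      have e1 : (Icc (-(t : ℤ)) t).filter (fun n => n ≡ r [ZMOD q]) =
          (((Icc 1 t).filter (fun n => n ≡ r1 [MOD q])).image (fun n : ℕ => (n : ℤ)) ∪
          ((Icc 1 t).filter (fun n => n ≡ r2 [MOD q])).image (fun n : ℕ => -(n : ℤ))) ∪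
          ({(0 : ℤ)} : Finset ℤ).filter (fun n => n ≡ r [ZMOD q]) := by
        ext n
        simp only [mem_filter, mem_union, mem_image, mem_Icc, mem_singleton]
        have hm1 : ∀ m : ℕ, m ≡ r1 [MOD q] ↔ (m : ℤ) ≡ r [ZMOD q] := by
          intro m
          rw [← Int.natCast_modEq_iff, hr1]
          unfold Int.ModEq
          rw [Int.emod_emod_of_dvd _ (dvd_refl _)]
        have hm2 : ∀ m : ℕ, m ≡ r2 [MOD q] ↔ -(m : ℤ) ≡ r [ZMOD q] := by
          intro m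
          rw [← Int.natCast_modEq_iff, hr2]
          have e2 : (m : ℤ) ≡ (-r) % q [ZMOD q] ↔ (m : ℤ) ≡ -r [ZMOD q] := by
            unfold Int.ModEq
            rw [Int.emod_emod_of_dvd _ (dvd_refl _)]
          rw [e2]
          constructor
          · intro h
            have := h.neg
            rwa [neg_neg] at this
          · intro h
            have := h.neg
            rwa [neg_neg] at this
        constructor
        · rintro ⟨⟨g1, g2⟩, g3⟩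
          rcases lt_trichotomy n 0 with h | h | h
          · left; right
            refine ⟨n.natAbs, ⟨⟨by omega, by omega⟩, ?_⟩, by omega⟩
            rw [hm2]
            have : -((n.natAbs : ℕ) : ℤ) = n := by omega
            rw [this]; exact g3
          · right; exact ⟨h, g3⟩
          · left; left
            refine ⟨n.natAbs, ⟨⟨by omega, by omega⟩, ?_⟩, by omega⟩
            rw [hm1]
            have : ((n.natAbs : ℕ) : ℤ) = n := by omega
            rw [this]; exact g3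
        · rintro ((⟨m, ⟨⟨g1, g2⟩, g3⟩, rfl⟩ | ⟨m, ⟨⟨g1, g2⟩, g3⟩, rfl⟩) | ⟨rfl, g3⟩)
          · exact ⟨⟨by omega, by omega⟩, (hm1 m).1 g3⟩
          · exact ⟨⟨by omega, by omega⟩, (hm2 m).1 g3⟩
          · exact ⟨⟨by omega, by omega⟩, g3⟩
      rw [e1, sum_union, sum_union, sum_image, sum_image]
      · have e2 : ∑ n ∈ (Icc 1 t).filter (fun n => n ≡ r1 [MOD q]), G (a * (n : ℤ) ^ 2 + b * (n : ℤ) + (c : ℕ)) =
            ∑ n ∈ (Icc 1 t).filter (fun n => n ≡ r1 [MOD q]), G (fv a b (c : ℕ) n) := rfl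
        have e3 : ∑ n ∈ (Icc 1 t).filter (fun n => n ≡ r2 [MOD q]), G (a * (-(n : ℤ)) ^ 2 + b * (-(n : ℤ)) + (c : ℕ)) =
            ∑ n ∈ (Icc 1 t).filter (fun n => n ≡ r2 [MOD q]), G (fv a (-b) (c : ℕ) n) := by
          refine sum_congr rfl fun n _ => ?_
          congr 1
          unfold fv
          ring
        have e4 : |∑ n ∈ ({(0 : ℤ)} : Finset ℤ).filter (fun n => n ≡ r [ZMOD q]), G (a * n ^ 2 + b * n + (c : ℕ))| ≤ 1 := by
          refine (abs_sum_le_sum_abs _ _).trans ((sum_le_sum fun n _ => hG _).trans ?_)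
          rw [sum_const, nsmul_eq_mul, mul_one]
          have := card_filter_le ({(0 : ℤ)} : Finset ℤ) (fun n => n ≡ r [ZMOD q])
          rw [card_singleton] at this
          exact_mod_cast this
        rw [e2, e3]
        have h6 := abs_add_le (∑ n ∈ (Icc 1 t).filter (fun n => n ≡ r1 [MOD q]), G (fv a b (c : ℕ) n) +
          ∑ n ∈ (Icc 1 t).filter (fun n => n ≡ r2 [MOD q]), G (fv a (-b) (c : ℕ) n))
          (∑ n ∈ ({(0 : ℤ)} : Finset ℤ).filter (fun n => n ≡ r [ZMOD q]), G (a * n ^ 2 + b * n + (c : ℕ)))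
        have h7 := abs_add_le (∑ n ∈ (Icc 1 t).filter (fun n => n ≡ r1 [MOD q]), G (fv a b (c : ℕ) n))
          (∑ n ∈ (Icc 1 t).filter (fun n => n ≡ r2 [MOD q]), G (fv a (-b) (c : ℕ) n))
        linarith
      · intro m _ m' _ h
        simp only at h
        omega
      · intro m _ m' _ h
        simp only at h
        omega
      · rw [disjoint_left]
        intro n hn hn'
        simp only [mem_image, mem_filter, mem_Icc] at hn hn'
        obtain ⟨m, ⟨⟨g1, _⟩, _⟩, rfl⟩ := hn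
        obtain ⟨m', ⟨⟨g2, _⟩, _⟩, g3⟩ := hn'
        omega
      · rw [disjoint_left]
        intro n hn hn'
        simp only [mem_union, mem_image, mem_filter, mem_Icc, mem_singleton] at hn hn'
        rcases hn with ⟨m, ⟨⟨g1, _⟩, _⟩, rfl⟩ | ⟨m, ⟨⟨g1, _⟩, _⟩, rfl⟩
        · omega
        · omega
    have f1 := p3 c hc hcE.1 q r1 t hq hqQ ht
    have f2 := q3 c hc hcE.2 q r2 t hq hqQ ht
    exact ⟨key lamZ lamZ_abs f1.1 f2.1, key mobZ mobZ_abs f1.2 f2.2⟩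

end Pool.Agent.N792.CH
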