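import Mathlib
import Pool.Agent.N792.CH.StmU
import Pool.Agent.N792.CH.T2

/-!
T2U: the sum of the type II part, uniformly in the linear coefficient `b`, `b² ≤ Λ C`
(helper281 for helper792, after T2.lean by helper402).
-/

set_option autoImplicit false
set_option maxHeartbeats 1000000

namespace Pool.Agent.N792.CH

open Finset Filter Topology
open Pool.Agent.N792 (Fn fv rho Rough R2)
open Pool.Agent.N791.C2 (lam)
open T2aux

open Classical in
/-- T2U: the sum of the type II part, uniformly in `b` -/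
theorem t2U (a : ℤ) (ha : 0 < a) (Λ : ℝ) (hΛ : 1 ≤ Λ) (hTL : TLU a Λ) (hPT : PT) (hPF : PF)
    (hPM : PM) (hPB : PB) (hBS : BSU a Λ) : T2U a Λ := by
  intro ε η κ κ' τ R hε hε1 hη hη1 hτ hκ hκ' hκε
  obtain ⟨Q, hQ⟩ := hPF η κ hη hκ
  obtain ⟨M, hM⟩ : ∃ M : ℝ, M = ∑ π ∈ Q, (1 + (4 : ℝ) ^ Multiset.card π) := ⟨_, rfl⟩
  have hM0 : 0 ≤ M := by rw [hM]; positivity
  have hMle : ∀ σ0 σ1 : ℝ, ∀ π ∈ Q, |Phi0 κ σ0 σ1 π| ≤ M := by
    intro σ0 σ1 π hπ
    refine (Phi_le κ σ0 σ1 π).trans ?_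
    rw [hM]
    exact single_le_sum (f := fun π : Multiset ℕ => 1 + (4 : ℝ) ^ Multiset.card π)
      (fun _ _ => by positivity) hπ
  obtain ⟨K, hK⟩ : ∃ K : ℝ, K = #Q * M := ⟨_, rfl⟩
  have hK0 : 0 ≤ K := by rw [hK]; positivity
  obtain ⟨D, hD⟩ : ∃ D : ℝ, D = 2 ^ ⌊6 / η⌋₊ := ⟨_, rfl⟩
  have hD0 : 0 < D := by rw [hD]; positivity
  obtain ⟨w, hw⟩ : ∃ w : ℕ, w = ⌈6 * (K * D) / τ⌉₊ + 1 := ⟨_, rfl⟩
  have hw1 : 1 ≤ w := by omega
  have hwR : (0 : ℝ) < w := by exact_mod_cast hw1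
  have hwb : 3 / (w : ℝ) * (K * D) ≤ τ / 2 := by
    have h1 : 6 * (K * D) / τ ≤ w := by
      rw [hw]
      push_cast
      have := Nat.le_ceil (6 * (K * D) / τ)
      linarith
    rw [div_le_iff₀ hτ] at h1
    rw [div_mul_eq_mul_div, div_le_iff₀ hwR]
    linarith
  have hτ1 : 0 < τ / (2 * (K + 1)) := by positivity
  obtain ⟨x1', hx1'⟩ := hTL ε η (τ / (2 * (K + 1))) R hε hε1 hη hη1 hτ1
  obtain ⟨x2', hx2'⟩ := hBS R w hw1
  refine ⟨x1' + x2' + 2 * (a.natAbs + 2) + ⌈4 * Λ⌉₊ + ⌈(w : ℝ) ^ (2 / η)⌉₊, ?_⟩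
  intro x hx b x1 C s z hbC hx1 hR hCs hC1 hC2 hz1 hz2
  have hxR : (1 : ℝ) < x := by exact_mod_cast (by omega : 1 < x)
  have hx0R : (0 : ℝ) < x := by linarith
  have hbx : (b : ℝ) ^ 2 ≤ Λ * x :=
    hbC.trans (mul_le_mul_of_nonneg_left (by exact_mod_cast hC2) (by linarith))
  have habx : a.natAbs + b.natAbs + 2 ≤ x := by
    have h1 : 4 * Λ ≤ x := by
      refine (Nat.le_ceil _).trans ?_
      exact_mod_cast (by omega : ⌈4 * Λ⌉₊ ≤ x)
    have h2 : (2 * |(b : ℝ)|) ^ 2 ≤ (x : ℝ) ^ 2 := by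
      rw [mul_pow, sq_abs]
      nlinarith
    have h3 : 2 * |(b : ℝ)| ≤ x := abs_le_of_sq_le_sq' h2 hx0R.le |>.2
    have h4 : ((2 * b.natAbs : ℕ) : ℝ) ≤ x := by
      push_cast
      rw [Nat.cast_natAbs, Int.cast_abs]
      exact h3
    have h5 : 2 * b.natAbs ≤ x := by exact_mod_cast h4
    omega
  have hwz : w ≤ z := by
    have h1 : (w : ℝ) ^ (2 / η) ≤ x := by
      refine (Nat.le_ceil _).trans ?_
      exact_mod_cast (by omega : ⌈(w : ℝ) ^ (2 / η)⌉₊ ≤ x)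
    have h2 : (w : ℝ) ≤ (x : ℝ) ^ (η / 2) := by
      calc (w : ℝ) = ((w : ℝ) ^ (2 / η)) ^ (η / 2) := by
            have e0 : 2 / η * (η / 2) = 1 := by field_simp
            rw [← Real.rpow_mul hwR.le, e0, Real.rpow_one]
        _ ≤ _ := Real.rpow_le_rpow (Real.rpow_nonneg hwR.le _) h1 (by positivity)
    exact_mod_cast h2.trans hz1
  have hCR : (0 : ℝ) < C := lt_of_lt_of_le (Real.rpow_pos_of_pos hx0R _) hC1
  have hs : 0 < s := by
    rcases Nat.eq_zero_or_pos s with h | h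
    · exfalso
      rw [h] at hCs
      have := Real.rpow_pos_of_pos hx0R (3 / 2 + ε)
      simp at hCs
      linarith
    · exact h
  have hsR : (0 : ℝ) < s := by exact_mod_cast hs
  set σ0 := Real.log s / Real.log x with hσ0
  set σ1 := 1 - 2 * ε with hσ1
  set y := ⌊(x : ℝ) ^ (1 - ε)⌋₊ with hy
  have hyle : (y : ℝ) ≤ (x : ℝ) ^ (1 - ε) := Nat.floor_le (Real.rpow_nonneg hx0R.le _)
  have hxs : (x : ℝ) ^ σ0 = s := by
    have hl : Real.log x ≠ 0 := (Real.log_pos hxR).ne'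
    rw [Real.rpow_def_of_pos hx0R, hσ0, mul_div_cancel₀ _ hl, Real.exp_log hsR]
  have hC35 : (x : ℝ) ^ (3 / 5 : ℝ) ≤ C :=
    (Real.rpow_le_rpow_of_exponent_le hxR.le (by norm_num)).trans hC1
  -- the choice of the sub-patterns
  have hch : ∀ π : Multiset ℕ, ∃ B : Multiset ℕ,
      (∃ B ≤ π, σ0 < κ * (B.sum : ℕ) ∧ κ * (B.sum : ℕ) ≤ σ1) →
        B ≤ π ∧ σ0 < κ * (B.sum : ℕ) ∧ κ * (B.sum : ℕ) ≤ σ1 := by
    intro π
    by_cases h : ∃ B ≤ π, σ0 < κ * (B.sum : ℕ) ∧ κ * (B.sum : ℕ) ≤ σ1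
    · obtain ⟨B, h1, h2⟩ := h
      exact ⟨B, fun _ => ⟨h1, h2⟩⟩
    · exact ⟨0, fun h' => absurd h' h⟩
  choose Bf hBf using hch
  obtain ⟨Q', hQ'⟩ : ∃ Q' : Finset (Multiset ℕ), Q' =
    Q.filter (fun π => ∃ B ≤ π, σ0 < κ * (B.sum : ℕ) ∧ κ * (B.sum : ℕ) ≤ σ1) := ⟨_, rfl⟩
  obtain ⟨Sf, hSf⟩ : ∃ Sf : Multiset ℕ → Finset ℕ, ∀ π, Sf π =
    (Ioc s y).filter (fun m => Rough z m ∧ Squarefree m ∧ pat κ x m = Bf π) := ⟨_, fun _ => rfl⟩
  obtain ⟨Gf, hGf⟩ : ∃ Gf : Multiset ℕ → ℕ → ℝ, ∀ π k, Gf π k =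
    if Squarefree k ∧ pat κ x k = π - Bf π then (1 : ℝ) else 0 := ⟨_, fun _ _ => rfl⟩
  obtain ⟨cf, hcf⟩ : ∃ cf : Multiset ℕ → ℝ, ∀ π, cf π =
    Phi0 κ σ0 σ1 π / (π.powerset.count (Bf π)) := ⟨_, fun _ => rfl⟩
  have hcount : ∀ π ∈ Q', (1 : ℝ) ≤ (π.powerset.count (Bf π)) := by
    intro π hπ
    rw [hQ', mem_filter] at hπ
    have h1 : Bf π ∈ π.powerset := Multiset.mem_powerset.2 (hBf π hπ.2).1
    exact_mod_cast Multiset.one_le_count_iff_mem.2 h1
  have hcfle : ∀ π ∈ Q', |cf π| ≤ M := by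
    intro π hπ
    have h1 := hcount π hπ
    rw [hcf, abs_div, abs_of_pos (by linarith : (0 : ℝ) < (π.powerset.count (Bf π)))]
    rw [hQ', mem_filter] at hπ
    exact (div_le_self (abs_nonneg _) h1).trans (hMle _ _ π hπ.1)
  obtain ⟨W, hW⟩ : ∃ W : Multiset ℕ → ℕ → ℝ, ∀ π v, W π v =
    ∑ m ∈ (Sf π).filter (fun m => m ∣ v), lam (sm z (v / m)) * Gf π (ro z (v / m)) :=
    ⟨_, fun _ _ => rfl⟩
  have hGf1 : ∀ π k, |Gf π k| ≤ 1 := by
    intro π k
    rw [hGf]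
    split_ifs <;> simp
  have hlam1 : ∀ k, |lam k| ≤ 1 := by
    intro k
    unfold lam
    rw [abs_pow, abs_neg, abs_one, one_pow]
  -- the identity
  have hid : ∀ v : ℕ, v ≠ 0 → v ≤ x ^ 3 → Squarefree (ro z v) →
      tII κ σ0 σ1 x z v = ∑ π ∈ Q', cf π * W π v := by
    intro v hv hv3 hsq
    have hrv : ro z v ≤ v := Nat.le_of_dvd (Nat.pos_of_ne_zero hv) (ro_dvd z hv)
    have h1 : ∀ π ∈ Q', cf π * W π v =
        if pat κ x (ro z v) = π then lam (sm z v) * Phi0 κ σ0 σ1 π else 0 := by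
      intro π hπ
      have hc1 := hcount π hπ
      rw [hQ', mem_filter] at hπ
      obtain ⟨hB1, hB2, hB3⟩ := hBf π hπ.2
      have h2 := key (κ := κ) (x := x) (z := z) (v := v) (s := s) (y := y) (π := π) (B := Bf π)
        hv hsq (by
          intro m hm hpm
          have hmr := rough_dvd (ro_rough z v) hm
          have hmle : m ≤ x ^ 3 := (Nat.le_of_dvd (ro_pos z v) hm).trans (hrv.trans hv3)
          have k1 := (hPM κ κ' η σ0 x z m hκ hη (by omega) hmr (hsq.squarefree_of_dvd hm) hz1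
            hmle hκ').1
          have k2 := (hPM κ κ' η σ1 x z m hκ hη (by omega) hmr (hsq.squarefree_of_dvd hm) hz1
            hmle hκ').2
          rw [hpm] at k1 k2
          refine ⟨?_, ?_⟩
          · have := k1 hB2
            rw [hxs] at this
            exact_mod_cast this
          · rw [hy]
            refine Nat.le_floor ((k2 hB3).trans ?_)
            refine Real.rpow_le_rpow_of_exponent_le hxR.le ?_
            rw [hσ1]
            linarith)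
      have h3 : W π v = lam (sm z v) * (if pat κ x (ro z v) = π then
          (π.powerset.count (Bf π) : ℝ) else 0) := by
        rw [hW, hSf]
        simp only [hGf]
        rw [h2, hPT κ x (ro z v) π (Bf π) hsq hB1]
        push_cast
        rfl
      rw [h3, hcf]
      split_ifs
      · have : (π.powerset.count (Bf π) : ℝ) ≠ 0 := by linarith
        field_simp
      · rw [mul_zero, mul_zero]
    rw [sum_congr rfl h1, sum_ite_eq]
    unfold tII
    rw [if_pos hsq]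
    have hpQ : pat κ x (ro z v) ∈ Q :=
      hQ x z (ro z v) (by omega) (ro_rough z v) hz1 (hrv.trans hv3)
    split_ifs with h
    · rfl
    · have : Phi0 κ σ0 σ1 (pat κ x (ro z v)) = 0 := by
        unfold Phi0
        rw [if_neg]
        intro h'
        apply h
        rw [hQ', mem_filter]
        exact ⟨hpQ, h'⟩
      rw [this, mul_zero]
  have hWle : ∀ π, ∀ v : ℕ, v ≠ 0 → v ≤ x ^ 3 → |W π v| ≤ D := by
    intro π v hv hv3
    rw [hW]
    refine (abs_sum_le_sum_abs _ _).trans ?_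
    have h1 : ∀ m ∈ (Sf π).filter (fun m => m ∣ v),
        |lam (sm z (v / m)) * Gf π (ro z (v / m))| ≤ 1 := by
      intro m _
      rw [abs_mul]
      exact mul_le_one₀ (hlam1 _) (abs_nonneg _) (hGf1 _ _)
    refine (sum_le_card_nsmul _ _ _ h1).trans ?_
    rw [nsmul_eq_mul, mul_one, hD]
    have h2 := card_rough hη (by omega : 2 ≤ x) hz1 hv hv3 ((Sf π).filter (fun m => m ∣ v)) (by
      intro m hm
      rw [mem_filter, hSf, mem_filter] at hm
      exact ⟨hm.1.2.1, hm.1.2.2.1, hm.2⟩)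
    exact_mod_cast h2
  have hQQ : (#Q' : ℝ) ≤ #Q := by
    rw [hQ']
    exact_mod_cast card_le_card (filter_subset _ _)
  -- the pointwise bound of the difference
  have hdiff : ∀ v : ℕ, v ≠ 0 → v ≤ x ^ 3 →
      |tII κ σ0 σ1 x z v - ∑ π ∈ Q', cf π * W π v| ≤
        K * D * (if ∃ p : ℕ, p.Prime ∧ w < p ∧ p ^ 2 ∣ v then 1 else 0) := by
    intro v hv hv3
    by_cases hsq : Squarefree (ro z v)
    · rw [hid v hv hv3 hsq, sub_self, abs_zero]
      split_ifs <;> positivity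
    · have h1 : ∃ p : ℕ, p.Prime ∧ w < p ∧ p ^ 2 ∣ v := by
        rw [Nat.squarefree_iff_prime_squarefree] at hsq
        push Not at hsq
        obtain ⟨p, hp, hd⟩ := hsq
        refine ⟨p, hp, lt_of_le_of_lt hwz ((ro_rough z v).2 p hp ((dvd_mul_right p p).trans hd)), ?_⟩
        rw [pow_two]
        exact hd.trans (ro_dvd z hv)
      rw [if_pos h1, mul_one]
      have h2 : tII κ σ0 σ1 x z v = 0 := by
        unfold tII
        rw [if_neg hsq, mul_zero]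
      rw [h2, zero_sub, abs_neg]
      refine (abs_sum_le_sum_abs _ _).trans ?_
      have h3 : ∀ π ∈ Q', |cf π * W π v| ≤ M * D := by
        intro π hπ
        rw [abs_mul]
        exact mul_le_mul (hcfle π hπ) (hWle π v hv hv3) (abs_nonneg _) hM0
      refine (sum_le_card_nsmul _ _ _ h3).trans ?_
      rw [nsmul_eq_mul, hK]
      calc (#Q' : ℝ) * (M * D) ≤ #Q * (M * D) :=
            mul_le_mul_of_nonneg_right hQQ (by positivity)
        _ = #Q * M * D := by ring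
  -- the size of the values
  have hval : ∀ c ∈ Icc 1 C, ∀ n ∈ Ioc x1 x, Fn a b n + c ≠ 0 ∧ Fn a b n + c ≤ x ^ 3 := by
    intro c hc n hn
    rw [mem_Icc] at hc
    rw [mem_Ioc] at hn
    refine ⟨by omega, ?_⟩
    have h1 : Fn a b n ≤ a.natAbs * x ^ 2 + b.natAbs * x := by
      unfold Fn
      rw [Int.toNat_le]
      unfold fv
      push_cast
      have e1 : a * (n : ℤ) ^ 2 ≤ |a| * (x : ℤ) ^ 2 := by
        refine mul_le_mul (le_abs_self a) ?_ (by positivity) (abs_nonneg a)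
        exact pow_le_pow_left₀ (by positivity) (by exact_mod_cast hn.2) 2
      have e2 : b * (n : ℤ) ≤ |b| * (x : ℤ) := by
        refine (mul_le_mul_of_nonneg_right (le_abs_self b) (by positivity)).trans ?_
        exact mul_le_mul_of_nonneg_left (by exact_mod_cast hn.2) (abs_nonneg b)
      linarith
    have hCx : C ≤ x := by exact_mod_cast hC2
    have h2 : a.natAbs * x ^ 2 + b.natAbs * x + C ≤ (a.natAbs + b.natAbs + 2) * x ^ 2 := by
      have h3 : x ≤ x ^ 2 := Nat.le_self_pow (by norm_num) x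
      have h4 : b.natAbs * x ≤ b.natAbs * x ^ 2 := Nat.mul_le_mul_left _ h3
      nlinarith
    have h3 : (a.natAbs + b.natAbs + 2) * x ^ 2 ≤ x * x ^ 2 := Nat.mul_le_mul_right _ habx
    have h4 : x * x ^ 2 = x ^ 3 := by ring
    omega
  -- the main sum
  have hc1 : ∀ c ∈ Icc 1 C, |∑ n ∈ Ioc x1 x, tII κ σ0 σ1 x z (Fn a b n + c)| ≤
      ∑ π ∈ Q', M * ∑ m ∈ Sf π, |∑ n ∈ (Ioc x1 x).filter (fun n => m ∣ Fn a b n + c),
        lam (sm z ((Fn a b n + c) / m)) * Gf π (ro z ((Fn a b n + c) / m))| +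
      K * D * #((Ioc x1 x).filter (fun n => ∃ p : ℕ, p.Prime ∧ w < p ∧ p ^ 2 ∣ Fn a b n + c)) := by
    intro c hc
    have e1 : ∑ n ∈ Ioc x1 x, tII κ σ0 σ1 x z (Fn a b n + c) =
        ∑ π ∈ Q', cf π * ∑ n ∈ Ioc x1 x, W π (Fn a b n + c) +
        ∑ n ∈ Ioc x1 x, (tII κ σ0 σ1 x z (Fn a b n + c) - ∑ π ∈ Q', cf π * W π (Fn a b n + c)) := by
      rw [sum_sub_distrib]
      have e2 : ∑ n ∈ Ioc x1 x, ∑ π ∈ Q', cf π * W π (Fn a b n + c) =
          ∑ π ∈ Q', cf π * ∑ n ∈ Ioc x1 x, W π (Fn a b n + c) := by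
        rw [sum_comm]
        exact sum_congr rfl fun π _ => (mul_sum _ _ _).symm
      rw [e2]
      ring
    rw [e1]
    refine (abs_add_le _ _).trans (add_le_add ?_ ?_)
    · refine (abs_sum_le_sum_abs _ _).trans (sum_le_sum fun π hπ => ?_)
      rw [abs_mul]
      refine mul_le_mul (hcfle π hπ) ?_ (abs_nonneg _) hM0
      have e3 : ∑ n ∈ Ioc x1 x, W π (Fn a b n + c) =
          ∑ m ∈ Sf π, ∑ n ∈ (Ioc x1 x).filter (fun n => m ∣ Fn a b n + c),
            lam (sm z ((Fn a b n + c) / m)) * Gf π (ro z ((Fn a b n + c) / m)) := by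
        simp only [hW, sum_filter]
        rw [sum_comm]
      rw [e3]
      exact abs_sum_le_sum_abs _ _
    · refine (abs_sum_le_sum_abs _ _).trans ?_
      refine (sum_le_sum fun n hn => hdiff _ (hval c hc n hn).1 (hval c hc n hn).2).trans ?_
      rw [← mul_sum, ← sum_filter, sum_const, nsmul_eq_mul, mul_one]
  refine (sum_le_sum hc1).trans ?_
  rw [sum_add_distrib, ← mul_sum]
  have hb2 := hx2' x (by omega) b hbx x1 C hx1 hR hC1 hC2
  have hb1 : ∀ π ∈ Q', ∑ c ∈ Icc 1 C, ∑ m ∈ Sf π,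
      |∑ n ∈ (Ioc x1 x).filter (fun n => m ∣ Fn a b n + c),
        lam (sm z ((Fn a b n + c) / m)) * Gf π (ro z ((Fn a b n + c) / m))| ≤
      τ / (2 * (K + 1)) * (C * x) := by
    intro π _
    refine hx1' x (by omega) b x1 C s y z hbC hx1 hR hCs hC35 hC2 hyle hz1 hz2 (Sf π) ?_ ?_ ?_ (Gf π)
      (hGf1 π)
    · rw [hSf]; exact filter_subset _ _
    · intro m hm
      rw [hSf, mem_filter] at hm
      exact hm.2.1
    · intro m hm
      rw [hSf, mem_filter] at hm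
      exact hm.2.2.1
  have hb3 : ∑ c ∈ Icc 1 C, ∑ π ∈ Q', M * ∑ m ∈ Sf π,
      |∑ n ∈ (Ioc x1 x).filter (fun n => m ∣ Fn a b n + c),
        lam (sm z ((Fn a b n + c) / m)) * Gf π (ro z ((Fn a b n + c) / m))| ≤
      K * (τ / (2 * (K + 1)) * (C * x)) := by
    rw [sum_comm]
    have e1 : ∀ π ∈ Q', ∑ c ∈ Icc 1 C, M * ∑ m ∈ Sf π,
        |∑ n ∈ (Ioc x1 x).filter (fun n => m ∣ Fn a b n + c),
          lam (sm z ((Fn a b n + c) / m)) * Gf π (ro z ((Fn a b n + c) / m))| ≤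
        M * (τ / (2 * (K + 1)) * (C * x)) := by
      intro π hπ
      rw [← mul_sum]
      exact mul_le_mul_of_nonneg_left (hb1 π hπ) hM0
    refine (sum_le_card_nsmul _ _ _ e1).trans ?_
    rw [nsmul_eq_mul, hK]
    calc (#Q' : ℝ) * (M * (τ / (2 * (#Q * M + 1)) * (C * x)))
        ≤ #Q * (M * (τ / (2 * (#Q * M + 1)) * (C * x))) :=
          mul_le_mul_of_nonneg_right hQQ (by positivity)
      _ = _ := by ring
  have hb4 : K * (τ / (2 * (K + 1)) * (C * x)) ≤ τ / 2 * (C * x) := by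
    have h1 : K * (τ / (2 * (K + 1))) ≤ τ / 2 := by
      rw [← mul_div_assoc, div_le_div_iff₀ (by positivity) (by norm_num)]
      nlinarith
    have h2 : (0 : ℝ) ≤ C * x := by positivity
    calc K * (τ / (2 * (K + 1)) * (C * x)) = K * (τ / (2 * (K + 1))) * (C * x) := by ring
      _ ≤ _ := mul_le_mul_of_nonneg_right h1 h2
  have hb5 : K * D * ∑ c ∈ Icc 1 C, (#((Ioc x1 x).filter
      (fun n => ∃ p : ℕ, p.Prime ∧ w < p ∧ p ^ 2 ∣ Fn a b n + c)) : ℝ) ≤ τ / 2 * (C * x) := by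
    have h2 : (0 : ℝ) ≤ C * x := by positivity
    calc K * D * ∑ c ∈ Icc 1 C, (#((Ioc x1 x).filter
          (fun n => ∃ p : ℕ, p.Prime ∧ w < p ∧ p ^ 2 ∣ Fn a b n + c)) : ℝ)
        ≤ K * D * (3 / w * (C * x)) := mul_le_mul_of_nonneg_left hb2 (by positivity)
      _ = 3 / w * (K * D) * (C * x) := by ring
      _ ≤ _ := mul_le_mul_of_nonneg_right hwb h2
  linarith

end Pool.Agent.N792.CH
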