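import Pool.Agent.N792.CH.TA
import Pool.Agent.N792.CH.StmU

/-!
CH/TAU (helper265, after the files TA.lean and GD.lean of helper619): TA and GD, uniformly in `b`.
-/

set_option autoImplicit false

namespace Pool.Agent.N792.CH

open Finset Filter Topology
open Pool.Agent.N792 (Fn rho Rough R2 fv)

namespace TAp

open GDp

/-- the estimate for one set `D` -/
lemma estU (a : ℤ) (ha : 0 < a) : ∃ C : ℕ, 1 ≤ C ∧ ∀ (b : ℤ) (b0 J w P x1 x c r j : ℕ),
    3 * C ≤ b0 → a.natAbs + 4 ≤ w → w ≤ 2 ^ 2 ^ J → 1 ≤ P → (∀ p : ℕ, p.Prime → p ∣ P → p ≤ w) →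
    x1 ≤ x → b.natAbs ≤ x1 → Rough (2 ^ 2 ^ J) j → ∀ D ⊆ (Ioc w (2 ^ 2 ^ J)).filter Nat.Prime,
    |(#((Ioc x1 x).filter (fun n => (n ≡ r [MOD P] ∧ j ∣ Fn a b n + c) ∧
      Dv w (2 ^ 2 ^ J) (Fn a b n + c) = D)) : ℝ) -
      ((x : ℝ) - x1) * ((rho a b c j : ℝ) / (j * P)) * gg a b c w (2 ^ 2 ^ J) D| ≤
      (1 / 2) ^ b0 * (((x : ℝ) - x1) * ((rho a b c j : ℝ) / (j * P)) * gg a b c w (2 ^ 2 ^ J) D) +
      rho a b c j * 2 ^ #D *
        (((3 * C : ℕ) : ℝ) ^ (3 * C) * ((J : ℝ) + 2) * ((2 ^ 2 ^ J) ^ (C * b0)) ^ 2) := by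
  obtain ⟨C, hC, H⟩ := fl_gen'
  refine ⟨C, hC, ?_⟩
  intro b b0 J w P x1 x c r j hb0 hw hwz hP1 hP hx hb hj D hDQ
  obtain ⟨z, hz⟩ : ∃ z : ℕ, z = 2 ^ 2 ^ J := ⟨_, rfl⟩
  rw [← hz] at hwz hj hDQ ⊢
  set Q : Finset ℕ := (Ioc w z).filter Nat.Prime with hQ
  have hQm : ∀ p, p ∈ Q ↔ (w < p ∧ p ≤ z) ∧ p.Prime := by
    intro p
    rw [hQ, mem_filter, mem_Ioc]
  have hDp : ∀ p ∈ D, p.Prime := fun p hp => ((hQm p).1 (hDQ hp)).2
  have hj0 : j ≠ 0 := hj.1
  have hpj : ∀ p ∈ Q, ¬ p ∣ j := by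
    intro p hp hpj
    have h1 := hj.2 p ((hQm p).1 hp).2 hpj
    have h2 := ((hQm p).1 hp).1.2
    omega
  have hpP : ∀ p ∈ Q, ¬ p ∣ P := by
    intro p hp hpP
    have h1 := hP p ((hQm p).1 hp).2 hpP
    have h2 := ((hQm p).1 hp).1.1
    omega
  have hpa : ∀ p ∈ Q, ¬ (p : ℤ) ∣ a := by
    intro p hp h
    have h1 := Int.natAbs_dvd_natAbs.2 h
    rw [Int.natAbs_natCast] at h1
    have h2 := Nat.le_of_dvd (Int.natAbs_pos.2 ha.ne') h1
    have h3 := ((hQm p).1 hp).1.1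
    omega
  set d : ℕ := ∏ p ∈ D, p with hd
  have hd0 : d ≠ 0 := prod_ne_zero_iff.2 fun p hp => (hDp p hp).ne_zero
  have hjd : 1 ≤ j * d := Nat.one_le_iff_ne_zero.2 (mul_ne_zero hj0 hd0)
  have hcjd : j.Coprime d := Nat.Coprime.prod_right fun p hp =>
    ((Nat.Prime.coprime_iff_not_dvd (hDp p hp)).2 (hpj p (hDQ hp))).symm
  have hcop : P.Coprime (j * d) := by
    refine Nat.Coprime.mul_right ?_ ?_
    · refine Nat.coprime_of_dvd fun p hp h1 h2 => ?_
      have h3 := hj.2 p hp h2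
      have h4 := hP p hp h1
      omega
    · refine Nat.Coprime.prod_right fun p hp => ?_
      exact ((Nat.Prime.coprime_iff_not_dvd (hDp p hp)).2 (hpP p (hDQ hp))).symm
  set N0 : Finset ℕ := (range (P * (j * d))).filter
    (fun t : ℕ => t ≡ r [MOD P] ∧ ((j * d : ℕ) : ℤ) ∣ fv a b c t) with hN0
  have hcard : #N0 = rho a b c j * ∏ p ∈ D, rho a b c p := by
    rw [hN0, card_N0 a b c P (j * d) r hP1 hjd hcop, rho_mul a b c j d hj0 hd0 hcjd,
      rho_prod a b c D hDp]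
  set S : Finset ℕ := (Ioc x1 x).filter (fun n => (n ≡ r [MOD P] ∧ j ∣ Fn a b n + c) ∧
      Dv w z (Fn a b n + c) = D) with hS
  have h := H 2 b0 J (3 * C) (P * (j * d)) x1 x (Q \ D)
    (fun p => (range p).filter (fun t : ℕ => (p : ℤ) ∣ fv a b c t)) N0 S le_rfl (by omega) (by omega)
    (Nat.one_le_iff_ne_zero.2 (mul_ne_zero (by omega) (by omega))) hx (filter_subset _ _)
    (by
      intro p hp
      rw [Finset.mem_sdiff] at hp
      refine ⟨((hQm p).1 hp.1).2, ?_, fun hd' => ?_⟩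
      · rw [← hz]
        exact ((hQm p).1 hp.1).1.2
      · have hpp := ((hQm p).1 hp.1).2
        rcases hpp.dvd_mul.1 hd' with h1 | h1
        · exact hpP p hp.1 h1
        · rcases hpp.dvd_mul.1 h1 with h2 | h2
          · exact hpj p hp.1 h2
          · rw [hd, hpp.prime.dvd_finsetProd_iff] at h2
            obtain ⟨q, hq, hpq⟩ := h2
            rw [Nat.prime_dvd_prime_iff_eq hpp (hDp q hq)] at hpq
            rw [hpq] at hp
            exact hp.2 hq)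
    (fun p _ => filter_subset _ _)
    (by
      intro p hp _
      rw [Finset.mem_sdiff] at hp
      exact rho_le_two a b c p ((hQm p).1 hp.1).2 (hpa p hp.1))
    (by
      intro n
      rw [hS, mem_filter, mem_Ioc]
      have key : ∀ hn : x1 < n, (((n ≡ r [MOD P] ∧ j ∣ Fn a b n + c) ∧
          Dv w z (Fn a b n + c) = D) ↔ (n % (P * (j * d)) ∈ N0 ∧
          ∀ p ∈ Q \ D, n % p ∉ (range p).filter (fun t : ℕ => (p : ℤ) ∣ fv a b c t))) := by
        intro hn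
        obtain ⟨hv1, hv2⟩ := val ha (show b.natAbs < n by omega) c
        have hdv : ∀ m : ℕ, m ∣ Fn a b n + c ↔ (m : ℤ) ∣ fv a b c n := by
          intro m
          rw [← hv1]
          exact Int.natCast_dvd_natCast.symm
        have hN : n % (P * (j * d)) ∈ N0 ↔ n ≡ r [MOD P] ∧ j * d ∣ Fn a b n + c := by
          rw [hN0, mem_filter, mem_range]
          have h1 : n % (P * (j * d)) ≡ n [MOD P] :=
            (Nat.mod_modEq n (P * (j * d))).of_mul_right _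
          have h2 : n % (P * (j * d)) ≡ n [MOD (j * d)] :=
            (Nat.mod_modEq n (P * (j * d))).of_mul_left _
          have h3 : n % (P * (j * d)) < P * (j * d) :=
            Nat.mod_lt _ (Nat.mul_pos (by omega) (by omega))
          rw [fv_modEq a b c (j * d) _ n h2, hdv]
          constructor
          · rintro ⟨_, h4, h5⟩
            exact ⟨h1.symm.trans h4, h5⟩
          · rintro ⟨h4, h5⟩
            exact ⟨h3, h1.trans h4, h5⟩
        have hR : ∀ p : ℕ, p.Prime → (n % p ∉ (range p).filter (fun t : ℕ => (p : ℤ) ∣ fv a b c t) ↔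
            ¬ p ∣ Fn a b n + c) := by
          intro p hp
          rw [mem_filter, mem_range, hdv, fv_mod a b c p n]
          constructor
          · intro h1 h2
            exact h1 ⟨Nat.mod_lt _ hp.pos, h2⟩
          · intro h1 h2
            exact h1 h2.2
        have hDm : ∀ p, p ∈ Dv w z (Fn a b n + c) ↔ p ∈ Q ∧ p ∣ Fn a b n + c := by
          intro p
          unfold Dv
          rw [mem_filter, Nat.mem_primeFactors, hQm]
          constructor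
          · rintro ⟨⟨h1, h2, _⟩, h3⟩
            exact ⟨⟨h3, h1⟩, h2⟩
          · rintro ⟨⟨h3, h1⟩, h2⟩
            exact ⟨⟨h1, h2, by omega⟩, h3⟩
        rw [hN, dvd_iff hDp fun p hp => hpj p (hDQ hp)]
        constructor
        · rintro ⟨⟨h1, h2⟩, h3⟩
          refine ⟨⟨h1, h2, fun p hp => ?_⟩, fun p hp => ?_⟩
          · rw [← h3] at hp
            exact ((hDm p).1 hp).2
          · rw [Finset.mem_sdiff] at hp
            rw [hR p ((hQm p).1 hp.1).2]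
            intro h4
            apply hp.2
            rw [← h3]
            exact (hDm p).2 ⟨hp.1, h4⟩
        · rintro ⟨⟨h1, h2, h3⟩, h4⟩
          refine ⟨⟨h1, h2⟩, ?_⟩
          ext p
          rw [hDm]
          constructor
          · rintro ⟨h5, h6⟩
            by_contra h7
            exact (hR p ((hQm p).1 h5).2).1 (h4 p (Finset.mem_sdiff.2 ⟨h5, h7⟩)) h6
          · intro h5
            exact ⟨hDQ h5, h3 p h5⟩
      constructor
      · rintro ⟨h1, h2⟩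
        exact ⟨h1, (key h1.1).1 h2⟩
      · rintro ⟨h1, h2⟩
        exact ⟨h1, (key h1.1).2 h2⟩)
  have hPr : (0 : ℝ) < P := by exact_mod_cast hP1
  have hjr : (0 : ℝ) < j := by exact_mod_cast Nat.pos_of_ne_zero hj0
  have hmain : ((x : ℝ) - x1) * ((#N0 : ℝ) / ((P * (j * d) : ℕ) : ℝ)) *
      ∏ p ∈ Q \ D, (1 - (#((range p).filter (fun t : ℕ => (p : ℤ) ∣ fv a b c t)) : ℝ) / p) =
      ((x : ℝ) - x1) * ((rho a b c j : ℝ) / (j * P)) * gg a b c w z D := by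
    have e1 : (#N0 : ℝ) / ((P * (j * d) : ℕ) : ℝ) =
        (rho a b c j : ℝ) / (j * P) * ∏ p ∈ D, (rho a b c p : ℝ) / p := by
      rw [hcard, hd, prod_div_distrib]
      push_cast
      have hdr : (∏ p ∈ D, (p : ℝ)) ≠ 0 :=
        prod_ne_zero_iff.2 fun p hp => by exact_mod_cast (hDp p hp).ne_zero
      field_simp
    rw [e1]
    unfold gg
    have e2 : ∏ p ∈ Q \ D, (1 - (#((range p).filter (fun t : ℕ => (p : ℤ) ∣ fv a b c t)) : ℝ) / p) =
        ∏ p ∈ (Ioc w z).filter Nat.Prime \ D, (1 - (rho a b c p : ℝ) / p) := rfl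
    rw [e2]
    ring
  rw [hmain] at h
  refine h.trans ?_
  have h2D : ((∏ p ∈ D, rho a b c p : ℕ) : ℝ) ≤ 2 ^ #D := by
    have h1 : ∏ p ∈ D, rho a b c p ≤ 2 ^ #D := by
      rw [← prod_const]
      exact prod_le_prod' fun p hp => rho_le_two a b c p (hDp p hp) (hpa p (hDQ hp))
    exact_mod_cast h1
  have hlast : (#N0 : ℝ) * ((3 * C : ℕ) : ℝ) ^ (3 * C) * ((J : ℝ) + 2) * ((2 ^ 2 ^ J) ^ (C * b0)) ^ 2 ≤
      rho a b c j * 2 ^ #D *
        (((3 * C : ℕ) : ℝ) ^ (3 * C) * ((J : ℝ) + 2) * ((2 ^ 2 ^ J) ^ (C * b0)) ^ 2) := by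
    rw [hcard, Nat.cast_mul]
    have h3 : (rho a b c j : ℝ) * ((∏ p ∈ D, rho a b c p : ℕ) : ℝ) ≤ rho a b c j * 2 ^ #D :=
      mul_le_mul_of_nonneg_left h2D (Nat.cast_nonneg _)
    have h4 : (0 : ℝ) ≤ ((3 * C : ℕ) : ℝ) ^ (3 * C) * ((J : ℝ) + 2) * ((2 ^ 2 ^ J) ^ (C * b0)) ^ 2 := by
      positivity
    have h5 := mul_le_mul_of_nonneg_right h3 h4
    refine le_trans (le_of_eq ?_) h5
    ring
  linarith

end TAp

open TAp GDp in
theorem taU (a : ℤ) (ha : 0 < a) : TAU a := by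
  obtain ⟨C, hC, H⟩ := estU a ha
  obtain ⟨K1, hK1, T⟩ := tail
  have hCr : (1 : ℝ) ≤ C := by exact_mod_cast hC
  set K : ℝ := 8 * C + K1 + 2 with hK
  have hK1' : 1 ≤ K := by linarith
  have hK0 : 0 < K := by linarith
  refine ⟨K, hK1', fun δ hδ hδ' => ?_⟩
  have hden : 0 < 8 * (C : ℝ) * (3 * C + 1) := by positivity
  refine ⟨min (1 / 10) (δ / (8 * C * (3 * C + 1))), by positivity, min_le_left _ _, ?_⟩
  intro η hη hη0 w P hw hP1 hP
  have hη1 : η ≤ 1 / 10 := hη0.trans (min_le_left _ _)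
  have hη2 : η ≤ δ / (8 * C * (3 * C + 1)) := hη0.trans (min_le_right _ _)
  set b0 : ℕ := ⌊δ / (8 * C * η)⌋₊ with hb0
  have h8 : 0 < 8 * (C : ℝ) * η := by positivity
  have hb3 : 3 * C ≤ b0 := by
    apply Nat.le_floor
    push_cast
    rw [le_div_iff₀ h8]
    rw [le_div_iff₀ hden] at hη2
    nlinarith
  have hb1 : (b0 : ℝ) ≤ δ / (8 * C * η) := Nat.floor_le (by positivity)
  have hb2 : δ / (8 * C * η) < b0 + 1 := Nat.lt_floor_add_one _
  -- large `x`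
  have hev : ∀ᶠ x : ℕ in atTop, ((3 * C : ℕ) : ℝ) ^ (3 * C) * (2 * Real.log x + 2) ≤
      (x : ℝ) ^ (δ / 4) ∧ (w : ℝ) ≤ (x : ℝ) ^ (η / 2) ∧ (1 : ℝ) ≤ x := by
    set Z : ℝ := ((3 * C : ℕ) : ℝ) ^ (3 * C) with hZ
    have hZ0 : 0 < Z := by
      have : (0 : ℝ) < ((3 * C : ℕ) : ℝ) := by
        have : 0 < 3 * C := by omega
        exact_mod_cast this
      positivity
    have h1 := (isLittleO_log_rpow_atTop (r := δ / 4) (by positivity)).def
      (show 0 < 1 / (4 * Z) by positivity)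
    have h2 := (tendsto_rpow_atTop (show 0 < δ / 4 by positivity)).eventually_ge_atTop (4 * Z)
    have h3 := (tendsto_rpow_atTop (show 0 < η / 2 by positivity)).eventually_ge_atTop (w : ℝ)
    have h4 : ∀ᶠ x : ℝ in atTop, Z * (2 * Real.log x + 2) ≤ x ^ (δ / 4) ∧
        (w : ℝ) ≤ x ^ (η / 2) ∧ 1 ≤ x := by
      filter_upwards [h1, h2, h3, eventually_ge_atTop (1 : ℝ)] with x g1 g2 g3 g4
      refine ⟨?_, g3, g4⟩
      rw [Real.norm_eq_abs, Real.norm_eq_abs, abs_of_nonneg (Real.log_nonneg g4),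
        abs_of_nonneg (by positivity)] at g1
      have g5 : Z * Real.log x ≤ x ^ (δ / 4) / 4 := by
        calc Z * Real.log x ≤ Z * (1 / (4 * Z) * x ^ (δ / 4)) :=
              mul_le_mul_of_nonneg_left g1 hZ0.le
          _ = x ^ (δ / 4) / 4 := by field_simp
      linarith
    exact tendsto_natCast_atTop_atTop.eventually h4
  obtain ⟨x0, hx0⟩ := eventually_atTop.1 hev
  refine ⟨x0, fun x hx b x1 J c r j hx1 hb hz1 hz2 hj => ?_⟩
  obtain ⟨hxE, hxw, hx1'⟩ := hx0 x hx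
  have hest := fun D hD => H b b0 J w P x1 x c r j hb3 hw (by
    have : (w : ℝ) ≤ ((2 ^ 2 ^ J : ℕ) : ℝ) := hxw.trans hz1
    exact_mod_cast this) hP1 hP hx1.le hb hj D hD
  have hzr : ((2 : ℝ) ^ 2 ^ J) = ((2 ^ 2 ^ J : ℕ) : ℝ) := by push_cast; rfl
  rw [hzr] at hest
  have hJz : (J : ℝ) + 2 ≤ 2 * Real.log x + 2 := by
    have h1 : Real.log ((2 ^ 2 ^ J : ℕ) : ℝ) ≤ Real.log ((x : ℝ) ^ η) :=
      Real.log_le_log (by positivity) hz2
    rw [Real.log_rpow (by linarith)] at h1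
    push_cast at h1
    rw [Real.log_pow] at h1
    push_cast at h1
    have h2 : (J : ℝ) ≤ 2 ^ J := by exact_mod_cast (Nat.lt_two_pow_self (n := J)).le
    have h3 := Real.log_two_gt_d9
    have h4 : 0 ≤ Real.log x := Real.log_nonneg hx1'
    have h5 : (2 : ℝ) ^ J * (1 / 2) ≤ 2 ^ J * Real.log 2 := by
      apply mul_le_mul_of_nonneg_left (by linarith) (by positivity)
    have h6 : η * Real.log x ≤ 1 * Real.log x := mul_le_mul_of_nonneg_right (by linarith) h4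
    linarith
  obtain ⟨z, hz⟩ : ∃ z : ℕ, z = 2 ^ 2 ^ J := ⟨_, rfl⟩
  rw [← hz] at hest hz1 hz2 hj ⊢
  have hz2' : 2 ≤ z := by
    rw [hz]
    calc 2 = 2 ^ 1 := by norm_num
      _ ≤ 2 ^ 2 ^ J := Nat.pow_le_pow_right (by norm_num) Nat.one_le_two_pow
  have hw4 : 4 ≤ w := by omega
  set Q : Finset ℕ := (Ioc w z).filter Nat.Prime with hQ
  have hr : ∀ p ∈ Q, rho a b c p ≤ 2 := by
    intro p hp
    rw [hQ, mem_filter, mem_Ioc] at hp
    refine rho_le_two a b c p hp.2 fun h => ?_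
    have h1 := Int.natAbs_dvd_natAbs.2 h
    rw [Int.natAbs_natCast] at h1
    have h2 := Nat.le_of_dvd (Int.natAbs_pos.2 ha.ne') h1
    omega
  set y : ℝ := (x : ℝ) ^ δ with hy
  have hy0 : 0 ≤ y := by positivity
  set DD : Finset (Finset ℕ) := Q.powerset.filter (fun D => ((∏ p ∈ D, p : ℕ) : ℝ) ≤ y) with hDD
  set A : ℝ := ((x : ℝ) - x1) * ((rho a b c j : ℝ) / (j * P)) with hA
  have hx1r : (x1 : ℝ) ≤ x := by exact_mod_cast hx1.le
  have hρ : 0 ≤ (rho a b c j : ℝ) / (j * P) := by positivity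
  have hA0 : 0 ≤ A := mul_nonneg (by linarith) hρ
  set E : ℝ := ((3 * C : ℕ) : ℝ) ^ (3 * C) * ((J : ℝ) + 2) * (((z : ℕ) : ℝ) ^ (C * b0)) ^ 2 with hE
  have hE0 : 0 ≤ E := by positivity
  -- the decomposition
  have hdec : ∑ n ∈ (Ioc x1 x).filter (fun n => n ≡ r [MOD P] ∧ j ∣ Fn a b n + c ∧
      ((rd w z (Fn a b n + c) : ℕ) : ℝ) ≤ y), sg w z (Fn a b n + c) =
      ∑ D ∈ DD, (-1 : ℝ) ^ #D * #((Ioc x1 x).filter (fun n => (n ≡ r [MOD P] ∧
        j ∣ Fn a b n + c) ∧ Dv w z (Fn a b n + c) = D)) := by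
    rw [← sum_fiberwise_of_maps_to (t := DD) (g := fun n => Dv w z (Fn a b n + c))]
    · refine sum_congr rfl fun D hD => ?_
      have h1 : ((Ioc x1 x).filter (fun n => n ≡ r [MOD P] ∧ j ∣ Fn a b n + c ∧
          ((rd w z (Fn a b n + c) : ℕ) : ℝ) ≤ y)).filter (fun n => Dv w z (Fn a b n + c) = D) =
          (Ioc x1 x).filter (fun n => (n ≡ r [MOD P] ∧ j ∣ Fn a b n + c) ∧
            Dv w z (Fn a b n + c) = D) := by
        ext n
        rw [mem_filter, mem_filter, mem_filter]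
        constructor
        · rintro ⟨⟨g1, g2, g3, g4⟩, g5⟩
          exact ⟨g1, ⟨g2, g3⟩, g5⟩
        · rintro ⟨g1, ⟨g2, g3⟩, g5⟩
          refine ⟨⟨g1, g2, g3, ?_⟩, g5⟩
          have h2 : rd w z (Fn a b n + c) = ∏ p ∈ D, p := by rw [← g5]; rfl
          rw [h2]
          exact (mem_filter.1 hD).2
      rw [h1]
      have h2 : ∀ n ∈ (Ioc x1 x).filter (fun n => (n ≡ r [MOD P] ∧ j ∣ Fn a b n + c) ∧
          Dv w z (Fn a b n + c) = D), sg w z (Fn a b n + c) = (-1 : ℝ) ^ #D := by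
        intro n hn
        rw [← (mem_filter.1 hn).2.2]
        rfl
      rw [sum_congr rfl h2, sum_const, nsmul_eq_mul, mul_comm]
    · intro n hn
      rw [mem_filter] at hn
      rw [hDD, mem_filter, mem_powerset]
      refine ⟨fun p hp => ?_, hn.2.2.2⟩
      unfold Dv at hp
      rw [mem_filter, Nat.mem_primeFactors] at hp
      rw [hQ, mem_filter, mem_Ioc]
      exact ⟨hp.2, hp.1.1⟩
  rw [hdec]
  have hsplit : ∑ D ∈ DD, (-1 : ℝ) ^ #D * #((Ioc x1 x).filter (fun n => (n ≡ r [MOD P] ∧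
      j ∣ Fn a b n + c) ∧ Dv w z (Fn a b n + c) = D)) =
      A * ∑ D ∈ DD, (-1 : ℝ) ^ #D * gg a b c w z D +
      ∑ D ∈ DD, (-1 : ℝ) ^ #D * ((#((Ioc x1 x).filter (fun n => (n ≡ r [MOD P] ∧
        j ∣ Fn a b n + c) ∧ Dv w z (Fn a b n + c) = D)) : ℝ) - A * gg a b c w z D) := by
    rw [mul_sum, ← sum_add_distrib]
    refine sum_congr rfl fun D _ => ?_
    ring
  have hS1 : |∑ D ∈ DD, (-1 : ℝ) ^ #D * gg a b c w z D| ≤
      ∏ p ∈ Q, (1 - 2 * (rho a b c p : ℝ) / p) + K1 * Real.exp (-(δ / η)) := by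
    have h1 := sum_filter_add_sum_filter_not Q.powerset
      (fun D => ((∏ p ∈ D, p : ℕ) : ℝ) ≤ y) (fun D => (-1 : ℝ) ^ #D * gg a b c w z D)
    rw [hQ, sum_sgn a b c w z, ← hQ] at h1
    have h2 : |∑ D ∈ Q.powerset.filter (fun D => ¬ ((∏ p ∈ D, p : ℕ) : ℝ) ≤ y),
        (-1 : ℝ) ^ #D * gg a b c w z D| ≤ K1 * Real.exp (-(δ / η)) := by
      refine (abs_sum_le_sum_abs _ _).trans (le_trans (le_of_eq ?_)
        (T a b c w z x δ η hw4 hz2' hr hx1' hδ hη hz2))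
      refine sum_congr rfl fun D _ => ?_
      rw [abs_mul, abs_pow, abs_neg, abs_one, one_pow, one_mul, abs_of_nonneg (gg_nonneg hw4 hr D)]
    have h3 : 0 ≤ ∏ p ∈ Q, (1 - 2 * (rho a b c p : ℝ) / p) := by
      refine prod_nonneg fun p hp => ?_
      have := (rng hw4 hr p hp).2
      rw [mul_div_assoc]
      linarith
    have h4 : ∑ D ∈ DD, (-1 : ℝ) ^ #D * gg a b c w z D =
        ∏ p ∈ Q, (1 - 2 * (rho a b c p : ℝ) / p) -
        ∑ D ∈ Q.powerset.filter (fun D => ¬ ((∏ p ∈ D, p : ℕ) : ℝ) ≤ y),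
          (-1 : ℝ) ^ #D * gg a b c w z D := by
      rw [hDD]
      linarith
    rw [h4]
    refine (abs_sub _ _).trans ?_
    rw [abs_of_nonneg h3]
    linarith
  have hS2 : |∑ D ∈ DD, (-1 : ℝ) ^ #D * ((#((Ioc x1 x).filter (fun n => (n ≡ r [MOD P] ∧
        j ∣ Fn a b n + c) ∧ Dv w z (Fn a b n + c) = D)) : ℝ) - A * gg a b c w z D)| ≤
      (1 / 2) ^ b0 * A + rho a b c j * (y * √y * E) := by
    refine (abs_sum_le_sum_abs _ _).trans ?_
    have h1 : ∀ D ∈ DD, |(-1 : ℝ) ^ #D * ((#((Ioc x1 x).filter (fun n => (n ≡ r [MOD P] ∧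
        j ∣ Fn a b n + c) ∧ Dv w z (Fn a b n + c) = D)) : ℝ) - A * gg a b c w z D)| ≤
        (1 / 2) ^ b0 * (A * gg a b c w z D) + rho a b c j * 2 ^ #D * E := by
      intro D hD
      rw [abs_mul, abs_pow, abs_neg, abs_one, one_pow, one_mul]
      rw [hDD, mem_filter, mem_powerset] at hD
      exact hest D hD.1
    refine (sum_le_sum h1).trans ?_
    rw [sum_add_distrib]
    refine add_le_add ?_ ?_
    · rw [← mul_sum, ← mul_sum]
      have h2 : ∑ D ∈ DD, gg a b c w z D ≤ 1 := by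
        rw [← sum_gg a b c w z, ← hQ]
        exact sum_le_sum_of_subset_of_nonneg (filter_subset _ _) fun D _ _ => gg_nonneg hw4 hr D
      have h3 : A * ∑ D ∈ DD, gg a b c w z D ≤ A * 1 := mul_le_mul_of_nonneg_left h2 hA0
      have h4 : (0 : ℝ) ≤ (1 / 2) ^ b0 := by positivity
      have h5 := mul_le_mul_of_nonneg_left h3 h4
      rwa [mul_one] at h5
    · rw [← sum_mul, ← mul_sum]
      have h2 := small w z hw4 y hy0
      rw [← hQ, ← hDD] at h2
      have h3 : (rho a b c j : ℝ) * ∑ D ∈ DD, (2 : ℝ) ^ #D * E ≤ rho a b c j * (y * √y * E) := by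
        rw [← sum_mul]
        exact mul_le_mul_of_nonneg_left (mul_le_mul_of_nonneg_right h2 hE0) (Nat.cast_nonneg _)
      rw [← sum_mul] at h3
      linarith
  have hxp : (0 : ℝ) < x := by linarith
  have hyE : y * √y * E ≤ (x : ℝ) ^ (2 * δ) := by
    have h1 : √y = (x : ℝ) ^ (δ / 2) := by
      rw [hy, Real.sqrt_eq_rpow, ← Real.rpow_mul hxp.le]
      congr 1
      ring
    have h2 : (((z : ℕ) : ℝ) ^ (C * b0)) ^ 2 ≤ (x : ℝ) ^ (δ / 4) := by
      rw [← pow_mul]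
      calc ((z : ℕ) : ℝ) ^ (C * b0 * 2) ≤ ((x : ℝ) ^ η) ^ (C * b0 * 2) :=
            pow_le_pow_left₀ (Nat.cast_nonneg _) hz2 _
        _ = (x : ℝ) ^ (η * ((C * b0 * 2 : ℕ) : ℝ)) := by
            rw [Real.rpow_mul hxp.le, Real.rpow_natCast]
        _ ≤ (x : ℝ) ^ (δ / 4) := by
            apply Real.rpow_le_rpow_of_exponent_le hx1'
            rw [le_div_iff₀ h8] at hb1
            push_cast
            nlinarith
    have h3 : ((3 * C : ℕ) : ℝ) ^ (3 * C) * ((J : ℝ) + 2) ≤ (x : ℝ) ^ (δ / 4) :=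
      (mul_le_mul_of_nonneg_left hJz (by positivity)).trans hxE
    have h4 : E ≤ (x : ℝ) ^ (δ / 4) * (x : ℝ) ^ (δ / 4) :=
      mul_le_mul h3 h2 (by positivity) (by positivity)
    calc y * √y * E ≤ y * √y * ((x : ℝ) ^ (δ / 4) * (x : ℝ) ^ (δ / 4)) :=
          mul_le_mul_of_nonneg_left h4 (by positivity)
      _ = (x : ℝ) ^ (2 * δ) := by
          rw [h1, hy, ← Real.rpow_add hxp, ← Real.rpow_add hxp, ← Real.rpow_add hxp]
          congr 1
          ring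
  have hconst : K1 * Real.exp (-(δ / η)) + (1 / 2) ^ b0 ≤ K * (2 : ℝ) ^ (-(δ / (K * η))) := by
    have h1 : Real.exp (-(δ / η)) ≤ (2 : ℝ) ^ (-(δ / (K * η))) := by
      rw [Real.rpow_def_of_pos (by norm_num)]
      apply Real.exp_le_exp.2
      have h2 : Real.log 2 ≤ 1 := by
        have := Real.log_two_lt_d9
        linarith
      have h3 : δ / (K * η) ≤ δ / η := by
        apply div_le_div_of_nonneg_left hδ.le hη
        nlinarith
      have h4 : Real.log 2 * (δ / (K * η)) ≤ 1 * (δ / η) :=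
        mul_le_mul h2 h3 (by positivity) (by norm_num)
      linarith
    have h5 : ((1 : ℝ) / 2) ^ b0 ≤ 2 * (2 : ℝ) ^ (-(δ / (K * η))) := by
      have h6 : ((1 : ℝ) / 2) ^ b0 = (2 : ℝ) ^ (-(b0 : ℝ)) := by
        rw [Real.rpow_neg (by norm_num), Real.rpow_natCast, one_div, inv_pow]
      have h7 : 2 * (2 : ℝ) ^ (-(δ / (K * η))) = (2 : ℝ) ^ (1 + -(δ / (K * η))) := by
        rw [Real.rpow_add (by norm_num), Real.rpow_one]
      rw [h6, h7]
      apply Real.rpow_le_rpow_of_exponent_le (by norm_num)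
      have h8' : δ / (K * η) ≤ δ / (8 * C * η) := by
        apply div_le_div_of_nonneg_left hδ.le h8
        apply mul_le_mul_of_nonneg_right _ hη.le
        linarith
      linarith
    have h6 : 0 < (2 : ℝ) ^ (-(δ / (K * η))) := by positivity
    have h7 : K1 * Real.exp (-(δ / η)) ≤ K1 * (2 : ℝ) ^ (-(δ / (K * η))) :=
      mul_le_mul_of_nonneg_left h1 hK1.le
    have h9 : (K1 + 2) * (2 : ℝ) ^ (-(δ / (K * η))) ≤ K * (2 : ℝ) ^ (-(δ / (K * η))) :=
      mul_le_mul_of_nonneg_right (by linarith) h6.le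
    linarith
  have hprod0 : 0 ≤ ∏ p ∈ Q, (1 - 2 * (rho a b c p : ℝ) / p) := by
    refine prod_nonneg fun p hp => ?_
    have := (rng hw4 hr p hp).2
    rw [mul_div_assoc]
    linarith
  rw [hsplit]
  have hAx : A ≤ (rho a b c j : ℝ) / (j * P) * x := by
    rw [hA, mul_comm]
    apply mul_le_mul_of_nonneg_left _ hρ
    have : (0 : ℝ) ≤ x1 := Nat.cast_nonneg _
    linarith
  have hbr : 0 ≤ ∏ p ∈ Q, (1 - 2 * (rho a b c p : ℝ) / p) + K * (2 : ℝ) ^ (-(δ / (K * η))) := by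
    positivity
  calc |A * ∑ D ∈ DD, (-1 : ℝ) ^ #D * gg a b c w z D +
      ∑ D ∈ DD, (-1 : ℝ) ^ #D * ((#((Ioc x1 x).filter (fun n => (n ≡ r [MOD P] ∧
        j ∣ Fn a b n + c) ∧ Dv w z (Fn a b n + c) = D)) : ℝ) - A * gg a b c w z D)|
      ≤ A * (∏ p ∈ Q, (1 - 2 * (rho a b c p : ℝ) / p) + K1 * Real.exp (-(δ / η))) +
        ((1 / 2) ^ b0 * A + rho a b c j * (y * √y * E)) := by
        refine (abs_add_le _ _).trans (add_le_add ?_ hS2)
        rw [abs_mul, abs_of_nonneg hA0]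
        exact mul_le_mul_of_nonneg_left hS1 hA0
    _ ≤ A * (∏ p ∈ Q, (1 - 2 * (rho a b c p : ℝ) / p) + K * (2 : ℝ) ^ (-(δ / (K * η)))) +
        rho a b c j * (x : ℝ) ^ (2 * δ) := by
        have h1 := mul_le_mul_of_nonneg_left hconst hA0
        have h2 : (rho a b c j : ℝ) * (y * √y * E) ≤ rho a b c j * (x : ℝ) ^ (2 * δ) :=
          mul_le_mul_of_nonneg_left hyE (Nat.cast_nonneg _)
        nlinarith
    _ ≤ (rho a b c j : ℝ) / (j * P) * x *
          (∏ p ∈ Q, (1 - 2 * (rho a b c p : ℝ) / p) + K * (2 : ℝ) ^ (-(δ / (K * η)))) +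
        rho a b c j * (x : ℝ) ^ (2 * δ) := by
        have := mul_le_mul_of_nonneg_right hAx hbr
        linarith

open GDp in
theorem gdU (a : ℤ) (ha : 0 < a) : GDU a := by
  intro w τ η hw hτ hη
  set T : ℝ := 1 + 2 / τ with hT
  have hτ2 : 0 < 2 / τ := by positivity
  have hT1 : 1 ≤ T := by linarith
  have hT2 : 2 / τ ≤ T ^ 2 := by nlinarith
  have hT3 : Real.exp (-(2 * T)) ≤ τ := by
    have h1 : 2 * T + 1 ≤ Real.exp (2 * T) := Real.add_one_le_exp _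
    have h2 : 1 / τ ≤ Real.exp (2 * T) := by
      have : 1 / τ ≤ 2 / τ := by gcongr; norm_num
      linarith
    rw [Real.exp_neg]
    rw [inv_le_comm₀ (Real.exp_pos _) hτ, ← one_div]
    exact h2
  obtain ⟨y, hy⟩ := diverge w (2 * T)
  set S : Finset ℕ := (Ioc w y).filter Nat.Prime with hS
  have hSp : ∀ p ∈ S, p.Prime ∧ w < p ∧ p ≤ y := by
    intro p hp
    rw [hS, mem_filter, mem_Ioc] at hp
    exact ⟨hp.2, hp.1⟩
  have hdvd : ∀ p : ℕ, w < p → ¬ (p : ℤ) ∣ a := by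
    intro p hp h
    have h1 := Int.natAbs_dvd_natAbs.2 h
    rw [Int.natAbs_natCast] at h1
    have h2 := Nat.le_of_dvd (Int.natAbs_pos.2 ha.ne') h1
    omega
  have hsum1 : ∑ p ∈ S, ((p : ℝ) ^ 2)⁻¹ ≤ 1 := by
    have h1 : S ⊆ Ioo w (y + 1) := by
      intro p hp
      have := hSp p hp
      rw [mem_Ioo]
      omega
    have h2 := sum_Ioo_inv_sq_le (α := ℝ) w (y + 1)
    have h3 : ∑ p ∈ S, ((p : ℝ) ^ 2)⁻¹ ≤ ∑ p ∈ Ioo w (y + 1), ((p : ℝ) ^ 2)⁻¹ :=
      sum_le_sum_of_subset_of_nonneg h1 fun _ _ _ => by positivity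
    have h4 : (2 : ℝ) / (w + 1) ≤ 1 := by
      rw [div_le_one (by positivity)]
      have : (4 : ℝ) ≤ w := by
        have : 4 ≤ w := by omega
        exact_mod_cast this
      linarith
    linarith
  have hev : ∀ᶠ x : ℕ in atTop, (y : ℝ) ≤ (x : ℝ) ^ η ∧ 3 * (#S : ℝ) ^ 2 ≤ (x : ℝ) ^ (1 / 2 : ℝ) := by
    have h1 := ((tendsto_rpow_atTop hη).comp tendsto_natCast_atTop_atTop).eventually_ge_atTop (y : ℝ)
    have h2 := ((tendsto_rpow_atTop (by norm_num : (0 : ℝ) < 1 / 2)).comp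
      tendsto_natCast_atTop_atTop).eventually_ge_atTop (3 * (#S : ℝ) ^ 2)
    filter_upwards [h1, h2] with x hx1 hx2
    exact ⟨hx1, hx2⟩
  obtain ⟨x0, hx0⟩ := eventually_atTop.1 hev
  refine ⟨x0, fun x hx b C z hC hz => ?_⟩
  obtain ⟨hx1, hx2⟩ := hx0 x hx
  have hyz : y ≤ z := by
    have : (y : ℝ) ≤ z := hx1.trans hz
    exact_mod_cast this
  have hCS : 3 * (#S : ℝ) ^ 2 ≤ C := hx2.trans hC
  set f : ℕ → ℝ := fun c => ∑ p ∈ S, ((rho a b (c : ℕ) p : ℝ) - 1) / p with hf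
  -- the exceptional set
  have hsub : (Icc 1 C).filter (fun c : ℕ =>
      τ < ∏ p ∈ (Ioc w z).filter Nat.Prime, (1 - 2 * (rho a b c p : ℝ) / p)) ⊆
      (Icc 1 C).filter (fun c : ℕ => T ^ 2 ≤ f c ^ 2) := by
    intro c hc
    rw [mem_filter] at hc ⊢
    refine ⟨hc.1, ?_⟩
    by_contra hcon
    push Not at hcon
    have h1 : -T ≤ f c := by
      have := abs_lt_of_sq_lt_sq hcon (by linarith)
      exact (abs_lt.1 this).1.le
    have hrange : ∀ p : ℕ, p.Prime → w < p →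
        0 ≤ 1 - 2 * (rho a b c p : ℝ) / p ∧ 1 - 2 * (rho a b c p : ℝ) / p ≤ 1 := by
      intro p hp hpw
      have hp0 : (0 : ℝ) < p := by exact_mod_cast hp.pos
      have h2 := rho_le_two a b (c : ℕ) p hp (hdvd p hpw)
      have h3 : (rho a b c p : ℝ) ≤ 2 := by exact_mod_cast h2
      have h4 : (4 : ℝ) ≤ p := by
        have : 4 ≤ p := by omega
        exact_mod_cast this
      have h5 : 2 * (rho a b c p : ℝ) / p ≤ 1 := by
        rw [div_le_one hp0]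
        linarith
      have h6 : 0 ≤ 2 * (rho a b c p : ℝ) / p := by positivity
      constructor <;> linarith
    have h2 : ∏ p ∈ (Ioc w z).filter Nat.Prime, (1 - 2 * (rho a b c p : ℝ) / p) ≤
        ∏ p ∈ S, (1 - 2 * (rho a b c p : ℝ) / p) := by
      have hSS : S ⊆ (Ioc w z).filter Nat.Prime := by
        intro p hp
        have := hSp p hp
        rw [mem_filter, mem_Ioc]
        exact ⟨⟨this.2.1, this.2.2.trans hyz⟩, this.1⟩
      rw [← prod_sdiff hSS]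
      have h7 : ∏ p ∈ (Ioc w z).filter Nat.Prime \ S, (1 - 2 * (rho a b c p : ℝ) / p) ≤ 1 := by
        refine prod_le_one ?_ ?_
        · intro p hp
          rw [Finset.mem_sdiff, mem_filter, mem_Ioc] at hp
          exact (hrange p hp.1.2 hp.1.1.1).1
        · intro p hp
          rw [Finset.mem_sdiff, mem_filter, mem_Ioc] at hp
          exact (hrange p hp.1.2 hp.1.1.1).2
      have h8 : 0 ≤ ∏ p ∈ S, (1 - 2 * (rho a b c p : ℝ) / p) :=
        prod_nonneg fun p hp => (hrange p (hSp p hp).1 (hSp p hp).2.1).1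
      exact (mul_le_mul_of_nonneg_right h7 h8).trans (le_of_eq (one_mul _))
    have h3 : ∏ p ∈ S, (1 - 2 * (rho a b c p : ℝ) / p) ≤
        Real.exp (-∑ p ∈ S, 2 * (rho a b c p : ℝ) / p) := by
      rw [← sum_neg_distrib, Real.exp_sum]
      refine prod_le_prod (fun p hp => (hrange p (hSp p hp).1 (hSp p hp).2.1).1) fun p hp => ?_
      have := Real.add_one_le_exp (-(2 * (rho a b c p : ℝ) / p))
      linarith
    have h4 : T ≤ ∑ p ∈ S, (rho a b c p : ℝ) / p := by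
      have h5 : f c = ∑ p ∈ S, (rho a b c p : ℝ) / p - ∑ p ∈ S, 1 / (p : ℝ) := by
        rw [hf, ← sum_sub_distrib]
        refine sum_congr rfl fun p _ => ?_
        rw [sub_div]
      linarith
    have h5 : ∑ p ∈ S, 2 * (rho a b c p : ℝ) / p = 2 * ∑ p ∈ S, (rho a b c p : ℝ) / p := by
      rw [mul_sum]
      refine sum_congr rfl fun p _ => ?_
      rw [mul_div_assoc]
    have h6 : Real.exp (-∑ p ∈ S, 2 * (rho a b c p : ℝ) / p) ≤ Real.exp (-(2 * T)) := by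
      apply Real.exp_le_exp.2
      rw [h5]
      linarith
    have := hc.2
    linarith
  have hcard : (#((Icc 1 C).filter (fun c : ℕ => T ^ 2 ≤ f c ^ 2)) : ℝ) * T ^ 2 ≤
      C + 3 * (#S : ℝ) ^ 2 := by
    have h1 : (#((Icc 1 C).filter (fun c : ℕ => T ^ 2 ≤ f c ^ 2)) : ℝ) * T ^ 2 ≤
        ∑ c ∈ Icc 1 C, f c ^ 2 := by
      rw [← nsmul_eq_mul, ← sum_const]
      refine (sum_le_sum fun c hc => (mem_filter.1 hc).2).trans ?_
      exact sum_le_sum_of_subset_of_nonneg (filter_subset _ _) fun _ _ _ => sq_nonneg _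
    have h2 := second a b C S fun p hp => ⟨(hSp p hp).1, hdvd p (hSp p hp).2.1⟩
    have h3 : (C : ℝ) * ∑ p ∈ S, ((p : ℝ) ^ 2)⁻¹ ≤ C * 1 :=
      mul_le_mul_of_nonneg_left hsum1 (Nat.cast_nonneg _)
    linarith
  have hle : (#((Icc 1 C).filter (fun c : ℕ =>
      τ < ∏ p ∈ (Ioc w z).filter Nat.Prime, (1 - 2 * (rho a b c p : ℝ) / p))) : ℝ) ≤
      #((Icc 1 C).filter (fun c : ℕ => T ^ 2 ≤ f c ^ 2)) := by
    exact_mod_cast card_le_card hsub
  refine hle.trans ?_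
  have hC0 : (0 : ℝ) ≤ C := Nat.cast_nonneg _
  have h1 : (#((Icc 1 C).filter (fun c : ℕ => T ^ 2 ≤ f c ^ 2)) : ℝ) * (2 / τ) ≤ 2 * C := by
    have h2 : (#((Icc 1 C).filter (fun c : ℕ => T ^ 2 ≤ f c ^ 2)) : ℝ) * (2 / τ) ≤
        (#((Icc 1 C).filter (fun c : ℕ => T ^ 2 ≤ f c ^ 2)) : ℝ) * T ^ 2 :=
      mul_le_mul_of_nonneg_left hT2 (Nat.cast_nonneg _)
    linarith
  rw [← mul_div_assoc, div_le_iff₀ hτ] at h1
  linarith

end Pool.Agent.N792.CH
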