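import Pool.Agent.N792.CH.StmU
import Pool.Agent.N792.QA
import Pool.Agent.N792.QD
import Pool.Agent.N791.U.Base
import Pool.Agent.N791.U.D

/-!
TLU: the type II sums, uniformly in `b` (helper505, after helper31, for the project CH of helper792).
-/

set_option autoImplicit false

namespace Pool.Agent.N792.CH

open Finset Filter Topology
open Pool.Agent.N792 (fv rho Fn Rough ev_log_pow q1 q4)
open Pool.Agent.N791.U (core_bound3U r2U)
open Pool.Agent.N791.C2 (lam)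

namespace TLUp

lemma abs_lam (n : ℕ) : |lam n| = 1 := by unfold lam; rw [abs_pow, abs_neg, abs_one, one_pow]

/-- the number of the squarefree rough divisors -/
lemma card_rdiv31 {η : ℝ} (hη : 0 < η) {x z v : ℕ} (hx : 2 ≤ x) (hz : (x : ℝ) ^ (η / 2) ≤ z)
    (hv : v ≠ 0) (hvx : v ≤ x ^ 3) (S : Finset ℕ) (hS1 : ∀ m ∈ S, Rough z m)
    (hS2 : ∀ m ∈ S, Squarefree m) (hS3 : ∀ m ∈ S, m ∣ v) : (#S : ℝ) ≤ (2 : ℝ) ^ (6 / η) := by
  classical
  have hx1 : (1 : ℝ) < x := by exact_mod_cast (by omega : 1 < x)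
  set P := v.primeFactors.filter (fun p => z < p) with hP
  have hcard : (#P : ℝ) ≤ 6 / η := by
    have h1 : (z : ℝ) ^ #P ≤ (x : ℝ) ^ 3 := by
      have h2 : z ^ #P ≤ v := by
        calc z ^ #P = ∏ _p ∈ P, z := by rw [Finset.prod_const]
          _ ≤ ∏ p ∈ P, p := Finset.prod_le_prod' fun p hp => (Finset.mem_filter.mp hp).2.le
          _ ≤ v := by
            refine Nat.le_of_dvd (by omega) ?_
            refine (Finset.prod_dvd_prod_of_subset _ _ _ (Finset.filter_subset _ _)).trans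
              (Nat.prod_primeFactors_dvd v)
      exact_mod_cast h2.trans hvx
    have h3 : (x : ℝ) ^ (η / 2 * #P) ≤ (x : ℝ) ^ (3 : ℝ) := by
      rw [Real.rpow_mul (by positivity), Real.rpow_natCast]
      calc ((x : ℝ) ^ (η / 2)) ^ #P ≤ (z : ℝ) ^ #P := by gcongr
        _ ≤ (x : ℝ) ^ 3 := h1
        _ = (x : ℝ) ^ (3 : ℝ) := by norm_cast
    have h4 := (Real.rpow_le_rpow_left_iff hx1).mp h3
    rw [le_div_iff₀ hη]
    linarith
  have h5 : #S ≤ 2 ^ #P := by
    rw [← Finset.card_powerset]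
    refine Finset.card_le_card_of_injOn Nat.primeFactors ?_ ?_
    · intro m hm
      rw [Finset.mem_coe, Finset.mem_powerset]
      intro p hp
      have hpp := Nat.prime_of_mem_primeFactors hp
      have hpj := Nat.dvd_of_mem_primeFactors hp
      exact Finset.mem_filter.mpr ⟨Nat.mem_primeFactors.mpr ⟨hpp, hpj.trans (hS3 m hm), hv⟩,
        (hS1 m hm).2 p hpp hpj⟩
    · intro m hm m' hm' he
      rw [← Nat.prod_primeFactors_of_squarefree (hS2 m hm),
        ← Nat.prod_primeFactors_of_squarefree (hS2 m' hm'), he]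
  calc (#S : ℝ) ≤ ((2 ^ #P : ℕ) : ℝ) := by exact_mod_cast h5
    _ = (2 : ℝ) ^ (#P : ℝ) := by push_cast; rw [Real.rpow_natCast]
    _ ≤ (2 : ℝ) ^ (6 / η) := Real.rpow_le_rpow_of_exponent_le (by norm_num) hcard

end TLUp

open TLUp in
theorem tlU (a : ℤ) (ha : 0 < a) (Λ : ℝ) (hΛ : 1 ≤ Λ) (hTK : TK) (hTB : TB) (hTN : TN) : TLU a Λ := by
  classical
  intro ε η τ R hε hε1 hη hη1 hτ
  obtain ⟨K, hK1, hK⟩ := hTB η hη
  set M : ℝ := (2 : ℝ) ^ (6 / η) with hM
  have hM0 : 0 < M := by positivity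
  set τ' : ℝ := τ / (2 * ((K + 1) * M)) with hτ'
  have hτ'0 : 0 < τ' := by positivity
  obtain ⟨x0, h0⟩ := core_bound3U q1 q4 a ha (Λ + 2) (by linarith) (η / 2) ε (by positivity) hε hε1 R 33
  obtain ⟨x2, h2⟩ := r2U a ha (η / 2) (1 / 10) (by positivity) (by norm_num)
  obtain ⟨x4, h4⟩ := hTK (η / 2) τ' (by positivity) hτ'0
  obtain ⟨x5, h5⟩ := hTN η (72 * 8 + 1) (48 * 8 + 1) hη
  obtain ⟨K0, hK0⟩ : ∃ K0 : ℝ, K0 = 10 ^ 12 * 4 * 2 ^ 72 + 2 * K / τ := ⟨_, rfl⟩
  have hKτ : 0 ≤ 2 * K / τ := by positivity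
  have e1 : ∀ᶠ x : ℕ in atTop, K0 ≤ Real.log x := Pool.Agent.N792.Shp.log_ge _
  obtain ⟨x3, h3⟩ := eventually_atTop.1 e1
  refine ⟨x0 + x2 + x3 + x4 + x5 + 3, fun x hx b x1 C U y z hbC hx1 hR hCU hC hCx hy hz hzx S hSU hSr hSs G hG => ?_⟩
  have hx3 : 3 ≤ x := by omega
  have hL := h3 x (by omega)
  set L := Real.log x with hLdef
  have hLbig : (10 ^ 12 * 4 * 2 ^ 72 : ℝ) ≤ L := by linarith
  have hLτ : 2 * K / τ ≤ L := by
    have : (0 : ℝ) ≤ 10 ^ 12 * 4 * 2 ^ 72 := by norm_num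
    linarith
  have hL10 : (10 : ℝ) ≤ L := le_trans (by norm_num) hLbig
  have hL16 : (16 : ℝ) ≤ L := le_trans (by norm_num) hLbig
  have hL1 : (1 : ℝ) ≤ L := by linarith
  have hx1' : (1 : ℝ) ≤ x := by
    have : 1 ≤ x := by omega
    exact_mod_cast this
  have hLD : 1 ≤ L ^ 8 := one_le_pow₀ hL1
  obtain ⟨m, hm1, hm2⟩ := exists_nat_pow_near (x := L ^ 8) (y := (2 : ℝ)) hLD (by norm_num)
  obtain ⟨t, ht⟩ : ∃ t : ℕ, t = m + 1 := ⟨_, rfl⟩
  have ht1 : L ^ 8 ≤ (2 : ℝ) ^ t := by rw [ht]; exact hm2.le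
  have ht2 : (2 : ℝ) ^ t ≤ 2 * L ^ 8 := by rw [ht, pow_succ]; linarith
  have hLL : L ≤ L ^ 8 := by
    calc L = L ^ 1 := (pow_one L).symm
      _ ≤ L ^ 8 := pow_le_pow_right₀ hL1 (by omega)
  have hyx : y ≤ x := by
    have : (y : ℝ) ≤ x := hy.trans (by
      calc (x : ℝ) ^ (1 - ε) ≤ (x : ℝ) ^ (1 : ℝ) := Real.rpow_le_rpow_of_exponent_le hx1' (by linarith)
        _ = x := Real.rpow_one _)
    exact_mod_cast this
  have hzx' : z ≤ x := by
    have : (z : ℝ) ≤ x := hzx.trans (by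
      calc (x : ℝ) ^ η ≤ (x : ℝ) ^ (1 : ℝ) := Real.rpow_le_rpow_of_exponent_le hx1' (by linarith)
        _ = x := Real.rpow_one _)
    exact_mod_cast this
  have hC35 : (x : ℝ) ^ (1 / 2 + 1 / 10 : ℝ) ≤ C := by
    have : (1 / 2 + 1 / 10 : ℝ) = 3 / 5 := by norm_num
    rw [this]; exact hC
  have hC12 : (x : ℝ) ^ (1 / 2 : ℝ) ≤ C :=
    le_trans (Real.rpow_le_rpow_of_exponent_le hx1' (by norm_num)) hC
  have hsum : ∀ m ∈ S, ∑ c ∈ Icc 1 C, (rho a b (c : ℕ) m : ℝ) ≤ 2 * C := by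
    intro m hm
    have hm' := Finset.mem_Ioc.1 (hSU hm)
    exact h2 x (by omega) b C z m hC35 hCx hz (hm'.2.trans hyx) (hSr m hm) (hSs m hm)
  have hpow4 : (2 : ℝ) ^ (4 * t) ≤ L ^ 33 := by
    have h5 : (2 : ℝ) ^ (4 * t) = ((2 : ℝ) ^ t) ^ 4 := by rw [← pow_mul]; congr 1; ring
    rw [h5]
    calc ((2 : ℝ) ^ t) ^ 4 ≤ (2 * L ^ 8) ^ 4 := pow_le_pow_left₀ (by positivity) ht2 4
      _ = 16 * L ^ 32 := by ring
      _ ≤ L * L ^ 32 := by
          exact mul_le_mul_of_nonneg_right hL16 (by positivity)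
      _ = L ^ 33 := by ring
  -- the parameter `Y`
  set Y : ℕ := ⌈Real.exp (√L)⌉₊ with hY
  have hY1 : Real.exp (√L) ≤ Y := Nat.le_ceil _
  have hY2 : (Y : ℝ) ≤ 2 * Real.exp (√L) := by
    have h6 := Nat.ceil_lt_add_one (Real.exp_pos (√L)).le
    have h7 : 1 ≤ Real.exp (√L) := Real.one_le_exp (Real.sqrt_nonneg _)
    linarith
  -- the coefficients
  set g : ℕ → ℝ := fun k => lam (sm z k) * G (ro z k) with hg
  set β : ℕ → ℝ := fun k => if 1 ≤ k ∧ k ≤ x ^ 2 then bet z Y G k else 0 with hβdef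
  have hx23 : x ^ 2 ≤ x ^ 3 := Nat.pow_le_pow_right (by omega) (by norm_num)
  have hβ : ∀ k, |β k| ≤ K := by
    intro k
    rw [hβdef]
    dsimp only
    split_ifs with hk
    · exact (hK x z Y k (by omega) hz hk.1 (hk.2.trans hx23) G hG).1
    · rw [abs_zero]; linarith
  have hAP : ∀ i v q r : ℕ, x ≤ 2 ^ i → 2 ^ (i + 1) ≤ x ^ 2 → 2 ^ i ≤ v → v ≤ 2 ^ (i + 1) → 1 ≤ q →
      q ≤ 6 * 10 ^ 7 * 2 ^ (12 * (4 * t)) →
      |∑ k ∈ (Ioc (2 ^ i) v).filter (fun k => k ≡ r [MOD q]), β k| * (2 * (10 ^ 12 * (2 : ℝ) ^ (18 * (4 * t)))) ≤ (2 : ℝ) ^ i := by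
    intro i v q r hi1 hi2 hv1 hv2 hq hqb
    have hqE : (q : ℝ) ≤ L ^ (48 * 8 + 1) := by
      have h5 : (q : ℝ) ≤ 6 * 10 ^ 7 * 2 ^ (12 * (4 * t)) := by exact_mod_cast hqb
      refine h5.trans ?_
      have h6 : (2 : ℝ) ^ (12 * (4 * t)) = ((2 : ℝ) ^ t) ^ 48 := by rw [← pow_mul]; congr 1; ring
      rw [h6]
      calc 6 * 10 ^ 7 * ((2 : ℝ) ^ t) ^ 48 ≤ 6 * 10 ^ 7 * (2 * L ^ 8) ^ 48 := by
            have := pow_le_pow_left₀ (by positivity) ht2 48
            linarith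
        _ = (6 * 10 ^ 7 * 2 ^ 48) * L ^ (48 * 8) := by rw [mul_pow, ← pow_mul]; ring
        _ ≤ L * L ^ (48 * 8) := by
            refine mul_le_mul_of_nonneg_right (le_trans (by norm_num) hLbig) (by positivity)
        _ = L ^ (48 * 8 + 1) := by ring
    have h7 := h5 x (by omega) z Y hz hzx' hY1 hY2 G hG i v q r hi1 hi2 hv1 hv2 hq hqE
    have h7' : ∑ k ∈ (Ioc (2 ^ i) v).filter (fun k => k ≡ r [MOD q]), β k =
        ∑ k ∈ (Ioc (2 ^ i) v).filter (fun k => k ≡ r [MOD q]), bet z Y G k := by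
      refine Finset.sum_congr rfl fun k hk => ?_
      have hk' := Finset.mem_Ioc.1 (Finset.mem_filter.1 hk).1
      rw [hβdef]
      dsimp only
      rw [if_pos ⟨by omega, by omega⟩]
    rw [h7']
    have h8 : (2 : ℝ) ^ (18 * (4 * t)) ≤ 2 ^ 72 * L ^ (72 * 8) := by
      have h6 : (2 : ℝ) ^ (18 * (4 * t)) = ((2 : ℝ) ^ t) ^ 72 := by rw [← pow_mul]; congr 1; ring
      rw [h6]
      calc ((2 : ℝ) ^ t) ^ 72 ≤ (2 * L ^ 8) ^ 72 := pow_le_pow_left₀ (by positivity) ht2 72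
        _ = 2 ^ 72 * L ^ (72 * 8) := by rw [mul_pow, ← pow_mul]
    have hL0 : 0 < L ^ (72 * 8) := by positivity
    have hiP : (0 : ℝ) < 2 ^ i := by positivity
    have h10 : |∑ k ∈ (Ioc (2 ^ i) v).filter (fun k => k ≡ r [MOD q]), bet z Y G k| ≤ 2 ^ i / (L * L ^ (72 * 8)) := by
      refine h7.trans (le_of_eq ?_)
      rw [pow_succ, mul_comm (L ^ (72 * 8)) L]
    have h11 : 2 * (10 ^ 12 * (2 : ℝ) ^ (18 * (4 * t))) ≤ 2 * (10 ^ 12 * (2 ^ 72 * L ^ (72 * 8))) := by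
      have : (0 : ℝ) ≤ 2 * 10 ^ 12 := by norm_num
      linarith [mul_le_mul_of_nonneg_left h8 this]
    calc _ ≤ (2 ^ i / (L * L ^ (72 * 8))) * (2 * (10 ^ 12 * (2 ^ 72 * L ^ (72 * 8)))) := by
          refine mul_le_mul h10 h11 ?_ ?_
          · positivity
          · positivity
      _ = (2 : ℝ) ^ i * ((2 * 10 ^ 12 * 2 ^ 72) / L) := by
          field_simp
      _ ≤ (2 : ℝ) ^ i * 1 := by
          apply mul_le_mul_of_nonneg_left _ hiP.le
          rw [div_le_one (by linarith)]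
          refine le_trans (by norm_num) hLbig
      _ = (2 : ℝ) ^ i := mul_one _
  have hbC' : (b : ℝ) ^ 2 / (4 * a) ≤ (Λ + 2 - 2) * C := by
    have ha1 : (1 : ℝ) ≤ a := by exact_mod_cast ha
    have h6 : (0 : ℝ) ≤ (b : ℝ) ^ 2 := sq_nonneg _
    calc (b : ℝ) ^ 2 / (4 * a) ≤ (b : ℝ) ^ 2 := div_le_self h6 (by linarith)
      _ ≤ Λ * C := hbC
      _ = (Λ + 2 - 2) * C := by ring
  obtain ⟨c1, c2⟩ := h0 x (by omega) b x1 C z U y t S β K hbC' hx1 hR hCU hCx hz hy hSU hSr hsum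
    (hLL.trans ht1) hpow4 hK1 hβ hAP
  have hC0 : (0 : ℝ) ≤ C := Nat.cast_nonneg _
  have hx0' : (0 : ℝ) < x := by linarith
  -- the first part
  have hpart1 : ∑ c ∈ Icc 1 C, ∑ m ∈ S, |∑ n ∈ (Ioc x1 x).filter (fun n => m ∣ Fn a b n + c), β ((Fn a b n + c) / m)|
      ≤ τ / 2 * (C * x) := by
    refine c2.trans ?_
    calc K * (C * x) * L ^ 6 / (2 : ℝ) ^ t ≤ K * (C * x) * L ^ 6 / L ^ 8 := by gcongr
      _ = (K / L) * (C * x) / L := by field_simp
      _ ≤ (K / L) * (C * x) / 1 := by gcongr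
      _ = (K / L) * (C * x) := by rw [div_one]
      _ ≤ τ / 2 * (C * x) := by
          refine mul_le_mul_of_nonneg_right ?_ (by positivity)
          rw [div_le_iff₀ (by linarith)]
          rw [div_le_iff₀ hτ] at hLτ
          linarith
  -- the second part
  set bad : ℕ → ℕ → Prop := fun n c => ∀ p : ℕ, p.Prime → p ≤ z → p ∣ Fn a b n + c → (p : ℝ) < 2 * Real.exp (√L) with hbad
  have hdiff : ∀ c ∈ Icc 1 C, ∀ m ∈ S, ∀ n ∈ (Ioc x1 x).filter (fun n => m ∣ Fn a b n + c),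
      |β ((Fn a b n + c) / m) - g ((Fn a b n + c) / m)| ≤ if bad n c then K + 1 else 0 := by
    intro c hc m hm n hn
    obtain ⟨hn1, hn2⟩ := Finset.mem_filter.1 hn
    have hkx := c1 c hc m (hSU hm) n hn1 hn2
    have hm0 : 0 < m := by have := (Finset.mem_Ioc.1 (hSU hm)).1; omega
    have hc1 := (Finset.mem_Icc.1 hc).1
    set k := (Fn a b n + c) / m with hk
    have hmk : m * k = Fn a b n + c := Nat.mul_div_cancel' hn2
    have hk1 : 1 ≤ k := by
      rcases Nat.eq_zero_or_pos k with h | h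
      · rw [h, mul_zero] at hmk; omega
      · exact h
    have hβk : β k = bet z Y G k := by
      rw [hβdef]; dsimp only; rw [if_pos ⟨hk1, hkx⟩]
    have hTBk := hK x z Y k (by omega) hz hk1 (hkx.trans hx23) G hG
    by_cases hb : bad n c
    · rw [if_pos hb]
      have h6 : |g k| ≤ 1 := by
        rw [hg]; dsimp only; rw [abs_mul, abs_lam, one_mul]; exact hG _
      calc |β k - g k| ≤ |β k| + |g k| := abs_sub _ _
        _ ≤ K + 1 := add_le_add (hβ k) h6
    · rw [if_neg hb]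
      have hYk : Y ≤ sm z k := by
        by_contra hlt
        push Not at hlt
        apply hb
        intro p hp hpz hpv
        rw [← hmk] at hpv
        have hpk : p ∣ k := by
          rcases hp.dvd_mul.1 hpv with h6 | h6
          · have := (hSr m hm).2 p hp h6
            omega
          · exact h6
        have hpsm : p ∣ sm z k := by
          have hmem : p ∈ k.primeFactors.filter (fun p => p ≤ z) :=
            Finset.mem_filter.2 ⟨Nat.mem_primeFactors.2 ⟨hp, hpk, by omega⟩, hpz⟩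
          have h8 : p ^ k.factorization p ∣ sm z k := Finset.dvd_prod_of_mem _ hmem
          have h9 : p ∣ p ^ k.factorization p := by
            refine dvd_pow_self p ?_
            have := hp.factorization_pos_of_dvd (by omega) hpk
            omega
          exact h9.trans h8
        have hsm0 : sm z k ≠ 0 := by
          unfold sm
          exact Finset.prod_ne_zero_iff.mpr fun q hq =>
            pow_ne_zero _ (Nat.prime_of_mem_primeFactors (Finset.mem_filter.mp hq).1).ne_zero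
        have h10 : p ≤ sm z k := Nat.le_of_dvd (Nat.pos_of_ne_zero hsm0) hpsm
        have h11 : (p : ℝ) < Y := by exact_mod_cast lt_of_le_of_lt h10 hlt
        linarith
      rw [hβk, hTBk.2 hYk]
      rw [hg]; dsimp only; rw [sub_self, abs_zero]
  have hcount : ∀ c ∈ Icc 1 C, ∀ n ∈ Ioc x1 x,
      (#(S.filter (fun m => m ∣ Fn a b n + c)) : ℝ) ≤ M := by
    intro c hc n hn
    rcases (S.filter (fun m => m ∣ Fn a b n + c)).eq_empty_or_nonempty with h6 | ⟨m, hm⟩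
    · rw [h6]; simp only [Finset.card_empty, Nat.cast_zero]; exact hM0.le
    · obtain ⟨hmS, hmd⟩ := Finset.mem_filter.1 hm
      have hkx := c1 c hc m (hSU hmS) n hn hmd
      have hmk : m * ((Fn a b n + c) / m) = Fn a b n + c := Nat.mul_div_cancel' hmd
      have hmx : m ≤ x := (Finset.mem_Ioc.1 (hSU hmS)).2.trans hyx
      have hc1 := (Finset.mem_Icc.1 hc).1
      refine card_rdiv31 hη (by omega) hz (v := Fn a b n + c) (by omega) ?_ _
        (fun m hm => hSr m (Finset.mem_filter.1 hm).1) (fun m hm => hSs m (Finset.mem_filter.1 hm).1)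
        (fun m hm => (Finset.mem_filter.1 hm).2)
      rw [← hmk]
      calc m * ((Fn a b n + c) / m) ≤ x * x ^ 2 := Nat.mul_le_mul hmx hkx
        _ = x ^ 3 := by ring
  have hpart2 : ∑ c ∈ Icc 1 C, ∑ m ∈ S, ∑ n ∈ (Ioc x1 x).filter (fun n => m ∣ Fn a b n + c),
      (if bad n c then K + 1 else 0) ≤ τ / 2 * (C * x) := by
    have e3 : ∀ c ∈ Icc 1 C, ∑ m ∈ S, ∑ n ∈ (Ioc x1 x).filter (fun n => m ∣ Fn a b n + c),
        (if bad n c then K + 1 else 0) ≤ ∑ n ∈ Ioc x1 x, (if bad n c then (K + 1) * M else 0) := by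
      intro c hc
      calc ∑ m ∈ S, ∑ n ∈ (Ioc x1 x).filter (fun n => m ∣ Fn a b n + c), (if bad n c then K + 1 else 0)
          = ∑ m ∈ S, ∑ n ∈ Ioc x1 x, (if m ∣ Fn a b n + c then (if bad n c then K + 1 else 0) else 0) := by
            refine Finset.sum_congr rfl fun m _ => ?_
            rw [Finset.sum_filter]
        _ = ∑ n ∈ Ioc x1 x, ∑ m ∈ S, (if m ∣ Fn a b n + c then (if bad n c then K + 1 else 0) else 0) :=
            Finset.sum_comm
        _ = ∑ n ∈ Ioc x1 x, (#(S.filter (fun m => m ∣ Fn a b n + c)) : ℝ) * (if bad n c then K + 1 else 0) := by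
            refine Finset.sum_congr rfl fun n _ => ?_
            rw [← Finset.sum_filter, Finset.sum_const, nsmul_eq_mul]
        _ ≤ ∑ n ∈ Ioc x1 x, (if bad n c then (K + 1) * M else 0) := by
            refine Finset.sum_le_sum fun n hn => ?_
            split_ifs
            · rw [mul_comm (K + 1) M]
              exact mul_le_mul_of_nonneg_right (hcount c hc n hn) (by linarith)
            · rw [mul_zero]
    refine (Finset.sum_le_sum e3).trans ?_
    rw [Finset.sum_comm]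
    have e4 : ∀ n ∈ Ioc x1 x, ∑ c ∈ Icc 1 C, (if bad n c then (K + 1) * M else 0) ≤ (K + 1) * M * (τ' * C) := by
      intro n _
      rw [← Finset.sum_filter, Finset.sum_const, nsmul_eq_mul, mul_comm]
      refine mul_le_mul_of_nonneg_left ?_ (by positivity)
      exact h4 x (by omega) C z (Fn a b n) hC12 hz
    refine (Finset.sum_le_sum e4).trans ?_
    rw [Finset.sum_const, nsmul_eq_mul, Nat.card_Ioc]
    have e5 : (K + 1) * M * (τ' * C) = τ / 2 * C := by
      rw [hτ']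
      have : (K + 1) * M ≠ 0 := by positivity
      field_simp
    rw [e5]
    have e6 : ((x - x1 : ℕ) : ℝ) ≤ x := by exact_mod_cast Nat.sub_le x x1
    calc ((x - x1 : ℕ) : ℝ) * (τ / 2 * C) ≤ x * (τ / 2 * C) := mul_le_mul_of_nonneg_right e6 (by positivity)
      _ = τ / 2 * (C * x) := by ring
  -- the conclusion
  calc ∑ c ∈ Icc 1 C, ∑ m ∈ S, |∑ n ∈ (Ioc x1 x).filter (fun n => m ∣ Fn a b n + c),
        lam (sm z ((Fn a b n + c) / m)) * G (ro z ((Fn a b n + c) / m))|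
      ≤ ∑ c ∈ Icc 1 C, ∑ m ∈ S, (|∑ n ∈ (Ioc x1 x).filter (fun n => m ∣ Fn a b n + c), β ((Fn a b n + c) / m)| +
          ∑ n ∈ (Ioc x1 x).filter (fun n => m ∣ Fn a b n + c), (if bad n c then K + 1 else 0)) := by
        refine Finset.sum_le_sum fun c hc => Finset.sum_le_sum fun m hm => ?_
        have e7 : ∑ n ∈ (Ioc x1 x).filter (fun n => m ∣ Fn a b n + c),
            lam (sm z ((Fn a b n + c) / m)) * G (ro z ((Fn a b n + c) / m)) =
            ∑ n ∈ (Ioc x1 x).filter (fun n => m ∣ Fn a b n + c), β ((Fn a b n + c) / m) -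
            ∑ n ∈ (Ioc x1 x).filter (fun n => m ∣ Fn a b n + c),
              (β ((Fn a b n + c) / m) - g ((Fn a b n + c) / m)) := by
          rw [← Finset.sum_sub_distrib]
          refine Finset.sum_congr rfl fun n _ => ?_
          rw [hg]; ring
        rw [e7]
        refine (abs_sub _ _).trans (add_le_add le_rfl ?_)
        exact (Finset.abs_sum_le_sum_abs _ _).trans (Finset.sum_le_sum fun n hn => hdiff c hc m hm n hn)
    _ = (∑ c ∈ Icc 1 C, ∑ m ∈ S, |∑ n ∈ (Ioc x1 x).filter (fun n => m ∣ Fn a b n + c), β ((Fn a b n + c) / m)|) +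
          ∑ c ∈ Icc 1 C, ∑ m ∈ S, ∑ n ∈ (Ioc x1 x).filter (fun n => m ∣ Fn a b n + c),
            (if bad n c then K + 1 else 0) := by
        simp only [Finset.sum_add_distrib]
    _ ≤ τ / 2 * (C * x) + τ / 2 * (C * x) := add_le_add hpart1 hpart2
    _ = τ * (C * x) := by ring

end Pool.Agent.N792.CH
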