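import Mathlib
import Pool.Agent.N792.CH.FinBU
import Pool.Agent.N791.U.TrG
import Pool.Agent.N791.U.Tr3

/-!
Transfers: two-sided sums, negative constant terms, negative leading coefficients, pairs `(b, c)` (helper792).
-/

set_option autoImplicit false

namespace Pool.Agent.N792.CH

open Finset Filter Topology
open Pool.Agent.N792 (Fn rho Rough R2 fv)
open Pool.Agent.N791.C2 (lam)
open Pool.Agent.N791.U (UnifG neg_transferG pair_transferG win_shift sh)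

/-- the property of one polynomial: the sums of `λ` and `μ` over `n ≤ t`, `n ≡ r (mod q)` are at most `E` -/
def OneP (a : ℤ) (Q : ℕ) (E : ℝ) (x : ℕ) (b c : ℤ) : Prop := ∀ q r t : ℕ, 1 ≤ q → q ≤ Q → t ≤ x →
        |∑ n ∈ (Icc 1 t).filter (fun n => n ≡ r [MOD q]), lamZ (fv a b c n)| ≤ E ∧
        |∑ n ∈ (Icc 1 t).filter (fun n => n ≡ r [MOD q]), mobZ (fv a b c n)| ≤ E

/-- the sums over all windows in `[-x, x]` -/
def TwoP (a : ℤ) (Q : ℕ) (E : ℝ) (x : ℕ) (b c : ℤ) : Prop := ∀ q : ℕ, 1 ≤ q → q ≤ Q → ∀ r u v : ℤ, -(x : ℤ) ≤ u → v ≤ x →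
        |∑ n ∈ (Icc u v).filter (fun n => n ≡ r [ZMOD q]), lamZ (a * n ^ 2 + b * n + c)| ≤ E ∧
        |∑ n ∈ (Icc u v).filter (fun n => n ≡ r [ZMOD q]), mobZ (a * n ^ 2 + b * n + c)| ≤ E

/-- the shift of the argument, for one function -/
lemma shift_one (G : ℤ → ℝ) (hG : ∀ m, |G m| ≤ 1) (a b c s : ℤ) (q r t X : ℕ) (E : ℝ) (hq : 1 ≤ q)
    (hX : t + s.natAbs ≤ X)
    (h : ∀ r' t' : ℕ, t' ≤ X → |∑ n ∈ (Icc 1 t').filter (fun n => n ≡ r' [MOD q]),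
      G (fv a (b + 2 * a * s) (c + b * s + a * s ^ 2) n)| ≤ E) :
    |∑ n ∈ (Icc 1 t).filter (fun n => n ≡ r [MOD q]), G (fv a b c n)| ≤ 2 * E + s.natAbs := by
  classical
  have hq0 : (0 : ℤ) < q := by exact_mod_cast hq
  obtain ⟨g, hg⟩ : ∃ g : ℤ → ℝ, g = fun m : ℤ => if m ≡ r [ZMOD q] then G (a * m ^ 2 + b * m + c) else 0 := ⟨_, rfl⟩
  have hg1 : ∀ n, |g n| ≤ 1 := by
    intro n
    rw [hg]
    simp only
    split_ifs
    · exact hG _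
    · simp
  obtain ⟨r1, hr1⟩ : ∃ r1 : ℕ, (r1 : ℤ) = ((r : ℤ) - s) % q :=
    ⟨(((r : ℤ) - s) % q).toNat, Int.toNat_of_nonneg (Int.emod_nonneg _ (by omega))⟩
  have e0 : ∑ n ∈ (Icc 1 t).filter (fun n => n ≡ r [MOD q]), G (fv a b c n) = ∑ m ∈ Ioc 0 t, g m := by
    rw [sum_filter]
    refine sum_congr (by ext m; simp only [mem_Icc, mem_Ioc]; omega) fun m _ => ?_
    rw [hg]
    simp only
    refine if_congr ?_ rfl rfl
    exact Int.natCast_modEq_iff.symm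
  have e1 : ∀ v : ℕ, ∑ n ∈ Ioc 0 v, g ((n : ℤ) + s) = ∑ n ∈ (Icc 1 v).filter (fun n => n ≡ r1 [MOD q]),
      G (fv a (b + 2 * a * s) (c + b * s + a * s ^ 2) n) := by
    intro v
    rw [sum_filter]
    refine sum_congr (by ext m; simp only [mem_Icc, mem_Ioc]; omega) fun m _ => ?_
    rw [hg]
    simp only
    have e2 : (m ≡ r1 [MOD q]) ↔ ((m : ℤ) + s ≡ r [ZMOD q]) := by
      rw [← Int.natCast_modEq_iff, hr1]
      have e3 : (m : ℤ) ≡ ((r : ℤ) - s) % q [ZMOD q] ↔ (m : ℤ) ≡ (r : ℤ) - s [ZMOD q] := by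
        unfold Int.ModEq
        rw [Int.emod_emod_of_dvd _ (dvd_refl _)]
      rw [e3]
      constructor
      · intro h
        have := h.add_right s
        rwa [sub_add_cancel] at this
      · intro h
        have := h.sub_right s
        rwa [add_sub_cancel_right] at this
    refine if_congr e2.symm ?_ rfl
    congr 1
    unfold fv
    ring
  have hw := win_shift g hg1 s (Nat.zero_le t)
  rw [mul_one] at hw
  obtain ⟨u', hu'⟩ : ∃ u' : ℕ, u' = (((0 : ℕ) : ℤ) - s).toNat := ⟨_, rfl⟩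
  obtain ⟨v', hv'⟩ : ∃ v' : ℕ, v' = ((t : ℤ) - s).toNat := ⟨_, rfl⟩
  rw [← hu', ← hv'] at hw
  have huv : u' ≤ v' := by omega
  have h1 := h r1 u' (by omega)
  have h2 := h r1 v' (by omega)
  rw [← e1] at h1 h2
  have h3 : ∑ n ∈ Ioc 0 v', g ((n : ℤ) + s) = ∑ n ∈ Ioc 0 u', g ((n : ℤ) + s) + ∑ n ∈ Ioc u' v', g ((n : ℤ) + s) := by
    rw [← sum_union]
    · congr 1
      ext m
      simp only [mem_union, mem_Ioc]
      omega
    · rw [disjoint_left]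
      intro m hm hm'
      rw [mem_Ioc] at hm hm'
      omega
  have h4 : |∑ n ∈ Ioc u' v', g ((n : ℤ) + s)| ≤ 2 * E := by
    have : ∑ n ∈ Ioc u' v', g ((n : ℤ) + s) = ∑ n ∈ Ioc 0 v', g ((n : ℤ) + s) - ∑ n ∈ Ioc 0 u', g ((n : ℤ) + s) := by
      linarith
    rw [this]
    refine (abs_sub _ _).trans ?_
    linarith
  rw [e0]
  have h5 := abs_add_le (∑ m ∈ Ioc 0 t, g m - ∑ n ∈ Ioc u' v', g ((n : ℤ) + s)) (∑ n ∈ Ioc u' v', g ((n : ℤ) + s))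
  rw [sub_add_cancel] at h5
  have h6 : |∑ m ∈ Ioc 0 t, g m| = |∑ m ∈ Ioc 0 t, g (m : ℤ)| := rfl
  linarith

/-- the shift of the argument -/
lemma oneP_shift {a b c s : ℤ} {Q : ℕ} {E : ℝ} {x X : ℕ} (hX : x + s.natAbs ≤ X)
    (h : OneP a Q E X (b + 2 * a * s) (c + b * s + a * s ^ 2)) : OneP a Q (2 * E + s.natAbs) x b c := by
  intro q r t hq hqQ ht
  exact ⟨shift_one lamZ lamZ_abs a b c s q r t X E hq (by omega) fun r' t' ht' => (h q r' t' hq hqQ ht').1,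
    shift_one mobZ mobZ_abs a b c s q r t X E hq (by omega) fun r' t' ht' => (h q r' t' hq hqQ ht').2⟩

lemma oneP_mono {a b c : ℤ} {Q : ℕ} {E E' : ℝ} {x : ℕ} (hE : E ≤ E') (h : OneP a Q E x b c) : OneP a Q E' x b c :=
  fun q r t hq hqQ ht => ⟨(h q r t hq hqQ ht).1.trans hE, (h q r t hq hqQ ht).2.trans hE⟩

lemma twoP_mono {a b c : ℤ} {Q : ℕ} {E E' : ℝ} {x : ℕ} (hE : E ≤ E') (h : TwoP a Q E x b c) : TwoP a Q E' x b c :=
  fun q hq hqQ r u v hu hv => ⟨(h q hq hqQ r u v hu hv).1.trans hE, (h q hq hqQ r u v hu hv).2.trans hE⟩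

lemma ioc_le (g : ℕ → ℝ) (p : ℕ → Prop) [DecidablePred p] {E : ℝ} {t u v : ℕ} (hu : u ≤ t) (hv : v ≤ t)
    (h : ∀ w, w ≤ t → |∑ n ∈ (Icc 1 w).filter p, g n| ≤ E) : |∑ n ∈ (Ioc u v).filter p, g n| ≤ 2 * E := by
  classical
  rcases le_or_gt u v with huv | huv
  · have e1 : ∑ n ∈ (Ioc u v).filter p, g n = ∑ n ∈ (Icc 1 v).filter p, g n - ∑ n ∈ (Icc 1 u).filter p, g n := by
      have : (Icc 1 v).filter p = (Icc 1 u).filter p ∪ (Ioc u v).filter p := by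
        ext m
        simp only [mem_union, mem_filter, mem_Icc, mem_Ioc]
        constructor
        · rintro ⟨h1, h2⟩
          rcases le_or_gt m u with h3 | h3
          · left; exact ⟨⟨h1.1, h3⟩, h2⟩
          · right; exact ⟨⟨h3, h1.2⟩, h2⟩
        · rintro (⟨h1, h2⟩ | ⟨h1, h2⟩)
          · exact ⟨⟨h1.1, by omega⟩, h2⟩
          · exact ⟨⟨by omega, h1.2⟩, h2⟩
      rw [this, sum_union]
      · ring
      · rw [disjoint_left]
        intro m hm hm'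
        rw [mem_filter, mem_Icc] at hm
        rw [mem_filter, mem_Ioc] at hm'
        omega
    rw [e1]
    refine (abs_sub _ _).trans ?_
    have := h u hu
    have := h v hv
    linarith
  · rw [Ioc_eq_empty_of_le huv.le, filter_empty, sum_empty, abs_zero]
    have := (abs_nonneg _).trans (h u hu)
    linarith

/-- positive and negative arguments, for one function -/
lemma two_one (G : ℤ → ℝ) (hG : ∀ m, |G m| ≤ 1) (a b c : ℤ) (q : ℕ) (r : ℤ) (t : ℕ) (u v : ℤ) (hu : -(t : ℤ) ≤ u)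
    (hv : v ≤ t) (E : ℝ) (hq : 1 ≤ q)
    (g1 : ∀ r1 w : ℕ, w ≤ t → |∑ n ∈ (Icc 1 w).filter (fun n => n ≡ r1 [MOD q]), G (fv a b c n)| ≤ E)
    (g2 : ∀ r2 w : ℕ, w ≤ t → |∑ n ∈ (Icc 1 w).filter (fun n => n ≡ r2 [MOD q]), G (fv a (-b) c n)| ≤ E) :
    |∑ n ∈ (Icc u v).filter (fun n => n ≡ r [ZMOD q]), G (a * n ^ 2 + b * n + c)| ≤ 4 * E + 1 := by
  classical
  obtain ⟨r1, hr1⟩ : ∃ r1 : ℕ, (r1 : ℤ) = r % q := ⟨(r % q).toNat, Int.toNat_of_nonneg (Int.emod_nonneg _ (by omega))⟩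
  obtain ⟨r2, hr2⟩ : ∃ r2 : ℕ, (r2 : ℤ) = (-r) % q := ⟨((-r) % q).toNat, Int.toNat_of_nonneg (Int.emod_nonneg _ (by omega))⟩
  obtain ⟨u1, hu1⟩ : ∃ u1 : ℕ, u1 = (u - 1).toNat := ⟨_, rfl⟩
  obtain ⟨v1, hv1⟩ : ∃ v1 : ℕ, v1 = v.toNat := ⟨_, rfl⟩
  obtain ⟨u2, hu2⟩ : ∃ u2 : ℕ, u2 = (-v - 1).toNat := ⟨_, rfl⟩
  obtain ⟨v2, hv2⟩ : ∃ v2 : ℕ, v2 = (-u).toNat := ⟨_, rfl⟩
  rcases lt_or_ge v u with huv | huv
  · rw [Icc_eq_empty (not_le.2 huv), filter_empty, sum_empty, abs_zero]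
    have := (abs_nonneg _).trans (g1 0 0 (by omega))
    linarith
  have e1 : (Icc u v).filter (fun n => n ≡ r [ZMOD q]) =
      (((Ioc u1 v1).filter (fun n => n ≡ r1 [MOD q])).image (fun n : ℕ => (n : ℤ)) ∪
      ((Ioc u2 v2).filter (fun n => n ≡ r2 [MOD q])).image (fun n : ℕ => -(n : ℤ))) ∪
      ({(0 : ℤ)} : Finset ℤ).filter (fun n => n ≡ r [ZMOD q] ∧ u ≤ 0 ∧ 0 ≤ v) := by
    ext n
    simp only [mem_filter, mem_union, mem_image, mem_Icc, mem_Ioc, mem_singleton]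
    have hm1 : ∀ m : ℕ, m ≡ r1 [MOD q] ↔ (m : ℤ) ≡ r [ZMOD q] := by
      intro m
      rw [← Int.natCast_modEq_iff, hr1]
      unfold Int.ModEq
      rw [Int.emod_emod_of_dvd _ (dvd_refl _)]
    have hm2 : ∀ m : ℕ, m ≡ r2 [MOD q] ↔ -(m : ℤ) ≡ r [ZMOD q] := by
      intro m
      rw [← Int.natCast_modEq_iff, hr2]
      have e2 : (m : ℤ) ≡ (-r) % q [ZMOD q] ↔ (m : ℤ) ≡ -r [ZMOD q] := by
        unfold Int.ModEq
        rw [Int.emod_emod_of_dvd _ (dvd_refl _)]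
      rw [e2]
      constructor
      · intro h
        have := h.neg
        rwa [neg_neg] at this
      · intro h
        have := h.neg
        rwa [neg_neg] at this
    constructor
    · rintro ⟨⟨g1, g2⟩, g3⟩
      rcases lt_trichotomy n 0 with h | h | h
      · left; right
        refine ⟨n.natAbs, ⟨⟨by omega, by omega⟩, ?_⟩, by omega⟩
        rw [hm2]
        have : -((n.natAbs : ℕ) : ℤ) = n := by omega
        rw [this]; exact g3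
      · right; exact ⟨h, g3, by omega, by omega⟩
      · left; left
        refine ⟨n.natAbs, ⟨⟨by omega, by omega⟩, ?_⟩, by omega⟩
        rw [hm1]
        have : ((n.natAbs : ℕ) : ℤ) = n := by omega
        rw [this]; exact g3
    · rintro ((⟨m, ⟨⟨g1, g2⟩, g3⟩, rfl⟩ | ⟨m, ⟨⟨g1, g2⟩, g3⟩, rfl⟩) | ⟨rfl, g3, g4, g5⟩)
      · exact ⟨⟨by omega, by omega⟩, (hm1 m).1 g3⟩
      · exact ⟨⟨by omega, by omega⟩, (hm2 m).1 g3⟩
      · exact ⟨⟨by omega, by omega⟩, g3⟩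
  rw [e1, sum_union, sum_union, sum_image, sum_image]
  · have e2 : ∑ n ∈ (Ioc u1 v1).filter (fun n => n ≡ r1 [MOD q]), G (a * (n : ℤ) ^ 2 + b * (n : ℤ) + c) =
        ∑ n ∈ (Ioc u1 v1).filter (fun n => n ≡ r1 [MOD q]), G (fv a b c n) := rfl
    have e3 : ∑ n ∈ (Ioc u2 v2).filter (fun n => n ≡ r2 [MOD q]), G (a * (-(n : ℤ)) ^ 2 + b * (-(n : ℤ)) + c) =
        ∑ n ∈ (Ioc u2 v2).filter (fun n => n ≡ r2 [MOD q]), G (fv a (-b) c n) := by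
      refine sum_congr rfl fun n _ => ?_
      congr 1
      unfold fv
      ring
    have e4 : |∑ n ∈ ({(0 : ℤ)} : Finset ℤ).filter (fun n => n ≡ r [ZMOD q] ∧ u ≤ 0 ∧ 0 ≤ v),
        G (a * n ^ 2 + b * n + c)| ≤ 1 := by
      refine (abs_sum_le_sum_abs _ _).trans ((sum_le_sum fun n _ => hG _).trans ?_)
      rw [sum_const, nsmul_eq_mul, mul_one]
      have := card_filter_le ({(0 : ℤ)} : Finset ℤ) (fun n => n ≡ r [ZMOD q] ∧ u ≤ 0 ∧ 0 ≤ v)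
      rw [card_singleton] at this
      exact_mod_cast this
    rw [e2, e3]
    have h6 := abs_add_le (∑ n ∈ (Ioc u1 v1).filter (fun n => n ≡ r1 [MOD q]), G (fv a b c n) +
      ∑ n ∈ (Ioc u2 v2).filter (fun n => n ≡ r2 [MOD q]), G (fv a (-b) c n))
      (∑ n ∈ ({(0 : ℤ)} : Finset ℤ).filter (fun n => n ≡ r [ZMOD q] ∧ u ≤ 0 ∧ 0 ≤ v), G (a * n ^ 2 + b * n + c))
    have h7 := abs_add_le (∑ n ∈ (Ioc u1 v1).filter (fun n => n ≡ r1 [MOD q]), G (fv a b c n))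
      (∑ n ∈ (Ioc u2 v2).filter (fun n => n ≡ r2 [MOD q]), G (fv a (-b) c n))
    have h8 := ioc_le (fun n => G (fv a b c n)) (fun n => n ≡ r1 [MOD q]) (t := t) (u := u1) (v := v1) (by omega) (by omega)
      (g1 r1)
    have h9 := ioc_le (fun n => G (fv a (-b) c n)) (fun n => n ≡ r2 [MOD q]) (t := t) (u := u2) (v := v2) (by omega)
      (by omega) (g2 r2)
    linarith
  · intro m _ m' _ h
    simp only at h
    omega
  · intro m _ m' _ h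
    simp only at h
    omega
  · rw [disjoint_left]
    intro n hn hn'
    simp only [mem_image, mem_filter, mem_Ioc] at hn hn'
    obtain ⟨m, ⟨⟨g1, _⟩, _⟩, rfl⟩ := hn
    obtain ⟨m', ⟨⟨g2, _⟩, _⟩, g3⟩ := hn'
    omega
  · rw [disjoint_left]
    intro n hn hn'
    simp only [mem_union, mem_image, mem_filter, mem_Ioc, mem_singleton] at hn hn'
    rcases hn with ⟨m, ⟨⟨g1, _⟩, _⟩, rfl⟩ | ⟨m, ⟨⟨g1, _⟩, _⟩, rfl⟩
    · omega
    · omega

lemma twoP_of_oneP {a b c : ℤ} {Q : ℕ} {E : ℝ} {x : ℕ} (h1 : OneP a Q E x b c) (h2 : OneP a Q E x (-b) c) :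
    TwoP a Q (4 * E + 1) x b c := by
  intro q hq hqQ r u v hu hv
  exact ⟨two_one lamZ lamZ_abs a b c q r x u v hu hv E hq (fun r1 w hw => (h1 q r1 w hq hqQ hw).1)
      (fun r1 w hw => (h2 q r1 w hq hqQ hw).1),
    two_one mobZ mobZ_abs a b c q r x u v hu hv E hq (fun r1 w hw => (h1 q r1 w hq hqQ hw).2)
      (fun r1 w hw => (h2 q r1 w hq hqQ hw).2)⟩

lemma lamZ_neg (m : ℤ) : lamZ (-m) = lamZ m := by
  unfold lamZ lam
  simp only [Int.natAbs_neg, neg_eq_zero]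

lemma mobZ_neg (m : ℤ) : mobZ (-m) = mobZ m := by
  unfold mobZ
  simp only [Int.natAbs_neg]

lemma twoP_neg {a b c : ℤ} {Q : ℕ} {E : ℝ} {x : ℕ} (h : TwoP (-a) Q E x (-b) (-c)) : TwoP a Q E x b c := by
  intro q hq hqQ r u v hu hv
  obtain ⟨h1, h2⟩ := h q hq hqQ r u v hu hv
  refine ⟨?_, ?_⟩
  · have : ∀ n : ℤ, lamZ (a * n ^ 2 + b * n + c) = lamZ (-a * n ^ 2 + -b * n + -c) := by
      intro n
      rw [← lamZ_neg]
      congr 1
      ring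
    simp only [this]
    exact h1
  · have : ∀ n : ℤ, mobZ (a * n ^ 2 + b * n + c) = mobZ (-a * n ^ 2 + -b * n + -c) := by
      intro n
      rw [← mobZ_neg]
      congr 1
      ring
    simp only [this]
    exact h2

/-- the hypothesis: the uniform theorem -/
def MainU : Prop := ∀ (a : ℤ), 0 < a → ∀ Λ : ℝ, 1 ≤ Λ → ∀ (ε τ : ℝ) (Q : ℕ), 0 < ε → 0 < τ →
    ∃ x0 : ℕ, ∀ x : ℕ, x0 ≤ x → ∀ (b : ℤ) (C : ℕ), (b : ℝ) ^ 2 ≤ Λ * C → (x : ℝ) ^ (5 / 6 + ε) ≤ C → C ≤ x →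
      ∃ Ex ⊆ Icc 1 C, (#Ex : ℝ) ≤ τ * C ∧ ∀ c ∈ Icc 1 C, c ∉ Ex → ∀ q r t : ℕ, 1 ≤ q → q ≤ Q → t ≤ x →
        |∑ n ∈ (Icc 1 t).filter (fun n => n ≡ r [MOD q]), lamZ (fv a b (c : ℕ) n)| ≤ τ * x ∧
        |∑ n ∈ (Icc 1 t).filter (fun n => n ≡ r [MOD q]), mobZ (fv a b (c : ℕ) n)| ≤ τ * x

/-- the uniform theorem in the language of the transfers -/
lemma unifG_main (hM : MainU) (a : ℤ) (ha : 0 < a) (Λ : ℝ) (hΛ : 1 ≤ Λ) (ε τ τ' : ℝ) (Q : ℕ) (hε : 0 < ε) (hτ : 0 < τ)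
    (hτ' : 0 < τ') :
    UnifG Λ (5 / 6 + ε) (fun _ => τ') (fun x _ b c => OneP a Q (τ * x) x b c) := by
  obtain ⟨x0, h0⟩ := hM a ha Λ hΛ ε (min τ τ') Q hε (lt_min hτ hτ')
  refine ⟨x0, fun x hx b C hb hC hCx => ?_⟩
  obtain ⟨Ex, p1, p2, p3⟩ := h0 x hx b C hb hC hCx
  refine ⟨Ex, p1, p2.trans (mul_le_mul_of_nonneg_right (min_le_right _ _) (Nat.cast_nonneg _)), fun c hc hcE => ?_⟩
  intro q r t hq hqQ ht
  obtain ⟨g1, g2⟩ := p3 c hc hcE q r t hq hqQ ht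
  have : min τ τ' * (x : ℝ) ≤ τ * x := mul_le_mul_of_nonneg_right (min_le_left _ _) (Nat.cast_nonneg _)
  exact ⟨g1.trans this, g2.trans this⟩

end Pool.Agent.N792.CH
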