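import Mathlib
import Pool.Agent.N792.CH.StmU

/-!
Project CH of helper792, file WNU: the union bound for the values with a rough divisor in a window, uniformly in `b`
(adapted by helper519 from the file WN of helper918).
-/

set_option autoImplicit false

namespace Pool.Agent.N792.CH

open Finset Filter Topology
open Pool.Agent.N792 (Fn rho Rough rg)

/-- the union bound for the values with a rough divisor in a logarithmically short window -/
theorem wnU (a : ℤ) (Λ : ℝ) (hCL : CLU a Λ) (hRW : RW) : WNU a Λ := by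
  classical
  obtain ⟨K1, hK1, H1⟩ := hCL
  obtain ⟨K2, hK2, H2⟩ := hRW
  refine ⟨K1 * K2, by positivity, fun R η κ hη hη1 hκ hκ1 => ?_⟩
  obtain ⟨y1, H1⟩ := H1 R
  obtain ⟨y2, H2⟩ := H2 η κ hη hη1 hκ hκ1
  refine ⟨y1 + y2 + 2, fun x hx b hb x1 C z u hx1 hR hC hCx hz hu hux => ?_⟩
  have hx2 : (1 : ℝ) ≤ x := by exact_mod_cast (by omega : 1 ≤ x)
  have h1 := H1 x (by omega) b hb x1 C
  have h2 := H2 x (by omega) z u hz hu hux
  set W := (Icc 1 (x ^ 2)).filter (fun j : ℕ => Rough z j ∧ Squarefree j ∧ u < j ∧ (j : ℝ) ≤ u * (x : ℝ) ^ κ) with hW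
  have hup : ∀ j : ℕ, (j : ℝ) ≤ u * (x : ℝ) ^ κ → (j : ℝ) ≤ (x : ℝ) ^ (1 + 1 / 100 : ℝ) := fun j hj => hj.trans hux
  have hmem : ∀ j : ℕ, Rough z j → Squarefree j → u < j → (j : ℝ) ≤ u * (x : ℝ) ^ κ → j ∈ W := by
    intro j hj1 hj2 hj3 hj4
    rw [hW, mem_filter, mem_Icc]
    refine ⟨⟨Nat.one_le_iff_ne_zero.2 hj1.1, ?_⟩, hj1, hj2, hj3, hj4⟩
    have h3 : (j : ℝ) ≤ (x : ℝ) ^ (2 : ℝ) := (hup j hj4).trans (Real.rpow_le_rpow_of_exponent_le hx2 (by norm_num))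
    have h4 : (j : ℝ) ≤ ((x ^ 2 : ℕ) : ℝ) := by
      push_cast
      rw [← Real.rpow_natCast]
      exact_mod_cast h3
    exact_mod_cast h4
  calc ∑ c ∈ Icc 1 C, (#((Ioc x1 x).filter (fun n => ∃ j : ℕ, Rough z j ∧ Squarefree j ∧ u < j ∧
        (j : ℝ) ≤ u * (x : ℝ) ^ κ ∧ j ∣ Fn a b n + c)) : ℝ)
      ≤ ∑ c ∈ Icc 1 C, ∑ j ∈ W, (#((Ioc x1 x).filter (fun n => j ∣ Fn a b n + c)) : ℝ) := by
        refine sum_le_sum fun c _ => ?_
        have h3 : (Ioc x1 x).filter (fun n => ∃ j : ℕ, Rough z j ∧ Squarefree j ∧ u < j ∧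
            (j : ℝ) ≤ u * (x : ℝ) ^ κ ∧ j ∣ Fn a b n + c) ⊆
            W.biUnion (fun j => (Ioc x1 x).filter (fun n => j ∣ Fn a b n + c)) := by
          intro n hn
          rw [mem_filter] at hn
          obtain ⟨hn1, j, hj1, hj2, hj3, hj4, hj5⟩ := hn
          rw [mem_biUnion]
          exact ⟨j, hmem j hj1 hj2 hj3 hj4, mem_filter.2 ⟨hn1, hj5⟩⟩
        exact_mod_cast (card_le_card h3).trans card_biUnion_le
    _ = ∑ j ∈ W, ∑ c ∈ Icc 1 C, (#((Ioc x1 x).filter (fun n => j ∣ Fn a b n + c)) : ℝ) := sum_comm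
    _ ≤ ∑ j ∈ W, K1 * (C * x / j) := by
        refine sum_le_sum fun j hj => ?_
        rw [hW, mem_filter, mem_Icc] at hj
        exact h1 j hx1 hR hC hCx hj.1.1 (hup j hj.2.2.2.2)
    _ = K1 * (C * x) * ∑ j ∈ W, 1 / (j : ℝ) := by
        rw [mul_sum]
        exact sum_congr rfl fun j _ => by ring
    _ ≤ K1 * (C * x) * (K2 * (κ / η ^ 2)) := mul_le_mul_of_nonneg_left h2 (by positivity)
    _ = K1 * K2 * (κ / η ^ 2) * (C * x) := by ring

end Pool.Agent.N792.CH
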