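import Mathlib
import Pool.Agent.N792.CH.FinD
import Pool.Agent.N792.CH.MvU
import Pool.Agent.N792.CH.FinBU
import Pool.Agent.N792.CH.WNU
import Pool.Agent.N792.CH.TAU
import Pool.Agent.N792.CH.TSU
import Pool.Agent.N792.CH.TLU
import Pool.Agent.N792.CH.T2U
import Pool.Agent.N792.CH.BSU
import Pool.Agent.N792.CH.CLU
import Pool.Agent.N792.CH.TrV

/-!
All the uniform lemmas together (helper792).
-/

set_option autoImplicit false

namespace Pool.Agent.N792.CH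

open Finset Filter Topology
open Pool.Agent.N792 (Fn rho Rough R2 fv)
open Pool.Agent.N791.C2 (lam)

theorem mvU' (a : ℤ) (ha : 0 < a) (Λ : ℝ) (hΛ : 1 ≤ Λ) : MVU a Λ :=
  mvU a ha Λ hΛ bl bp ps (bsU a ha Λ hΛ) (wnU a Λ (clU a ha Λ hΛ) rw1) (tsU a ha Λ hΛ (taU a ha) (gdU a ha))
    (t2U a ha Λ hΛ (tlU a ha Λ hΛ tk tb tn) pt pf pm pb (bsU a ha Λ hΛ)) (pw cb) (pv pb)

theorem mainU : MainU := fun a ha Λ hΛ ε τ Q hε hτ => finMU mvU' bsU a ha Λ hΛ ε τ Q hε hτ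

end Pool.Agent.N792.CH
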