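import Mathlib
import Pool.Agent.N792.CH.TrV
import Pool.Agent.Results.MP_648c71_nt.ConstantTerms

/-!
The pairs `(b, c)` with `|b|, |c| ≤ H` and the arguments up to `N`, `H ≤ N ≤ H² / K`, from the starting theorem
`MP_648c71_nt.ConstantTerms` (helper792).
-/

set_option autoImplicit false

namespace Pool.Agent.N792.CH

open Finset Filter Topology
open Pool.Agent.N792 (Fn rho Rough R2 fv)
open Pool.Agent.N791.U (sh cc sh_b sh_bd cc_bd card_exc)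

lemma two_shift (G : ℤ → ℝ) (a b c s : ℤ) (q : ℕ) (r u v : ℤ) :
    ∑ n ∈ (Icc u v).filter (fun n => n ≡ r [ZMOD q]), G (a * n ^ 2 + b * n + c) =
      ∑ m ∈ (Icc (u - s) (v - s)).filter (fun m => m ≡ r - s [ZMOD q]),
        G (a * m ^ 2 + (b + 2 * a * s) * m + (c + b * s + a * s ^ 2)) := by
  refine sum_nbij' (fun n => n - s) (fun m => m + s) ?_ ?_ ?_ ?_ ?_
  · intro n hn
    rw [mem_filter, mem_Icc] at hn ⊢
    exact ⟨by omega, hn.2.sub_right s⟩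
  · intro m hm
    rw [mem_filter, mem_Icc] at hm ⊢
    refine ⟨by omega, ?_⟩
    have := hm.2.add_right s
    rwa [sub_add_cancel] at this
  · intro n _
    simp
  · intro m _
    simp
  · intro n _
    congr 1
    ring

lemma twoP_shift {a b c s : ℤ} {Q : ℕ} {E : ℝ} {x X : ℕ} (hX : x + s.natAbs ≤ X)
    (h : TwoP a Q E X (b + 2 * a * s) (c + b * s + a * s ^ 2)) : TwoP a Q E x b c := by
  intro q hq hqQ r u v hu hv
  obtain ⟨h1, h2⟩ := h q hq hqQ (r - s) (u - s) (v - s) (by omega) (by omega)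
  rw [two_shift lamZ a b c s, two_shift mobZ a b c s]
  exact ⟨h1, h2⟩

lemma ct_S (G : ℤ → ℝ) (F : ℤ → ℂ) (hF : ∀ m, F m = ((G m : ℝ) : ℂ)) (a r h : ℤ) (q s t : ℕ) :
    Pool.Agent.Results.MP_648c71_nt.ConstantTerms.S F
      (Polynomial.C a * Polynomial.X ^ 2 + Polynomial.C r * Polynomial.X + Polynomial.C 0) 0 h q s 0 t =
    ((∑ n ∈ (Icc 1 t).filter (fun n => n ≡ s [MOD q]), G (fv a r h n) : ℝ) : ℂ) := by
  unfold Pool.Agent.Results.MP_648c71_nt.ConstantTerms.S Pool.Agent.Results.MP_648c71_nt.ConstantTerms.e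
  push_cast
  refine sum_congr (by congr 1) fun n _ => ?_
  rw [hF]
  simp only [Polynomial.eval_zero, Complex.ofReal_zero, mul_zero, Complex.exp_zero, one_mul, Polynomial.eval_add,
    Polynomial.eval_mul, Polynomial.eval_C, Polynomial.eval_pow, Polynomial.eval_X, add_zero]
  rfl

lemma num_ex (H' : ℕ) (P1 P2 : ℕ → Prop) (ε : ℝ)
    (h1 : Pool.Agent.Results.MP_648c71_nt.ConstantTerms.num H' (fun i => ¬ P1 i) ≤ ε * H')
    (h2 : Pool.Agent.Results.MP_648c71_nt.ConstantTerms.num H' (fun i => ¬ P2 i) ≤ ε * H') :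
    ∃ Ex ⊆ Icc 1 H', (#Ex : ℝ) ≤ 2 * ε * H' ∧ ∀ i ∈ Icc 1 H', i ∉ Ex → P1 i ∧ P2 i := by
  classical
  unfold Pool.Agent.Results.MP_648c71_nt.ConstantTerms.num at h1 h2
  refine ⟨(Icc 1 H').filter (fun i => ¬ P1 i) ∪ (Icc 1 H').filter (fun i => ¬ P2 i),
    union_subset (filter_subset _ _) (filter_subset _ _), ?_, ?_⟩
  · have h3 : (#((Icc 1 H').filter (fun i => ¬ P1 i) ∪ (Icc 1 H').filter (fun i => ¬ P2 i)) : ℝ) ≤
        #((Icc 1 H').filter (fun i => ¬ P1 i)) + #((Icc 1 H').filter (fun i => ¬ P2 i)) := by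
      exact_mod_cast card_union_le _ _
    have h4 : (#((Icc 1 H').filter (fun i => ¬ P1 i)) : ℝ) ≤ ε * H' := by convert h1
    have h5 : (#((Icc 1 H').filter (fun i => ¬ P2 i)) : ℝ) ≤ ε * H' := by convert h2
    linarith
  · intro i hi hiE
    rw [mem_union, not_or, mem_filter, mem_filter, not_and, not_and, not_not, not_not] at hiE
    exact ⟨hiE.1 hi, hiE.2 hi⟩

/-- the starting theorem for one polynomial `a T² + r T` -/
lemma lcOne (a r : ℤ) (ha : 0 < a) (B Q : ℕ) (ε : ℝ) (hε : 0 < ε) : ∃ K N0 : ℕ, ∀ N H' : ℕ, N0 ≤ N → K * N ≤ H' →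
    H' ≤ B * N ^ 2 → ∀ M : ℤ, |M| ≤ B * N ^ 2 → ∃ Ex ⊆ Icc 1 H', (#Ex : ℝ) ≤ 2 * ε * H' ∧
      ∀ i ∈ Icc 1 H', i ∉ Ex → OneP a Q (ε * N) N r (M + (i : ℕ)) := by
  classical
  have hdeg : (Polynomial.C a * Polynomial.X ^ 2 + Polynomial.C r * Polynomial.X + Polynomial.C 0 :
      Polynomial ℤ).natDegree = 2 := Polynomial.natDegree_quadratic ha.ne'
  obtain ⟨K, N0, h⟩ := Pool.Agent.Results.MP_648c71_nt.ConstantTerms.result
    (Polynomial.C a * Polynomial.X ^ 2 + Polynomial.C r * Polynomial.X + Polynomial.C 0) (by rw [hdeg]; norm_num) B Q ε hε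
  rw [hdeg] at h
  refine ⟨K, N0, fun N H' hN hK hB M hM => ?_⟩
  obtain ⟨h1, h2⟩ := h N H' hN (by rw [pow_one]; exact hK) hB M hM 0 (by simp)
  obtain ⟨Ex, p1, p2, p3⟩ := num_ex H' _ _ ε h1 h2
  refine ⟨Ex, p1, p2, ?_⟩
  intro i hi hiE
  obtain ⟨g1', g2'⟩ := p3 i hi hiE
  intro q s t hq hqQ ht
  have k1 := g1' q s 0 t hq hqQ (by omega) ht
  have k2 := g2' q s 0 t hq hqQ (by omega) ht
  rw [ct_S lamZ _ (fun m => by
    unfold Pool.Agent.Results.MP_648c71_nt.ConstantTerms.lam lamZ Pool.Agent.N791.C2.lam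
    split_ifs
    · simp
    · push_cast; rfl), Complex.norm_real, Real.norm_eq_abs] at k1
  rw [ct_S mobZ _ (fun m => by
    unfold Pool.Agent.Results.MP_648c71_nt.ConstantTerms.mob mobZ
    push_cast; rfl), Complex.norm_real, Real.norm_eq_abs] at k2
  exact ⟨k1, k2⟩

/-- **Pairs, the arguments between the height and (about) its square.** -/
theorem pair_low (a : ℤ) (ha : 0 < a) (τ : ℝ) (Q : ℕ) (hτ : 0 < τ) :
    ∃ K H0 : ℕ, ∀ H : ℕ, H0 ≤ H → ∀ N : ℕ, H ≤ N → K * N ≤ H ^ 2 →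
      ∃ Ex ⊆ Icc (-(H : ℤ)) H ×ˢ Icc (-(H : ℤ)) H, (#Ex : ℝ) ≤ τ * H ^ 2 ∧
        ∀ p ∈ Icc (-(H : ℤ)) H ×ˢ Icc (-(H : ℤ)) H, p ∉ Ex → TwoP a Q (τ * N) N p.1 p.2 := by
  classical
  obtain ⟨A, hA⟩ : ∃ A : ℕ, (A : ℤ) = a := ⟨a.toNat, by omega⟩
  have hA1 : 1 ≤ A := by omega
  have hAr : (A : ℝ) = a := by exact_mod_cast hA
  have haR : (1 : ℝ) ≤ a := by exact_mod_cast ha
  obtain ⟨δ, hδ⟩ : ∃ δ : ℝ, δ = min 1 (τ / 18) := ⟨_, rfl⟩
  have hδ0 : 0 < δ := by rw [hδ]; positivity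
  have hδ1 : δ ≤ 1 := by rw [hδ]; exact min_le_left _ _
  have hδ2 : δ ≤ τ / 18 := by rw [hδ]; exact min_le_right _ _
  obtain ⟨ε, hε⟩ : ∃ ε : ℝ, ε = min (τ / 16) (τ * δ / (320 * a ^ 3)) := ⟨_, rfl⟩
  have hε0 : 0 < ε := by rw [hε]; positivity
  have hε1 : ε ≤ τ / 16 := by rw [hε]; exact min_le_left _ _
  have hε2 : ε ≤ τ * δ / (320 * a ^ 3) := by rw [hε]; exact min_le_right _ _
  choose K N0 hlc using fun r : ℤ => lcOne a r ha (3 * A) Q ε hε0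
  obtain ⟨Ks, hKs⟩ : ∃ Ks : ℕ, Ks = ∑ r ∈ Icc (-(2 * a)) (2 * a), K r := ⟨_, rfl⟩
  obtain ⟨Ns, hNs⟩ : ∃ Ns : ℕ, Ns = ∑ r ∈ Icc (-(2 * a)) (2 * a), N0 r := ⟨_, rfl⟩
  have hKr : ∀ r ∈ Icc (-(2 * a)) (2 * a), K r ≤ Ks := fun r hr => by
    rw [hKs]; exact single_le_sum (fun _ _ => Nat.zero_le _) hr
  have hNr : ∀ r ∈ Icc (-(2 * a)) (2 * a), N0 r ≤ Ns := fun r hr => by
    rw [hNs]; exact single_le_sum (fun _ _ => Nat.zero_le _) hr
  refine ⟨Ks, Ns + ⌈1 / δ⌉₊ + ⌈1 / (τ / 2)⌉₊ + 4, fun H hH N hHN hKN => ?_⟩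
  have hHδ : 1 ≤ δ * H := x_large hδ0 (by omega)
  have hNτ : 1 ≤ τ / 2 * N := x_large (by linarith) (by omega)
  have hH4 : 4 ≤ H := by omega
  obtain ⟨C, hC⟩ : ∃ C : ℕ, C = 2 * A * H ^ 2 := ⟨_, rfl⟩
  have hCr : (C : ℝ) = 2 * a * H ^ 2 := by rw [hC, ← hAr]; push_cast; ring
  have hHN2 : H ^ 2 ≤ N ^ 2 := Nat.pow_le_pow_left hHN 2
  have hCN : C ≤ 3 * A * (2 * N) ^ 2 := by
    rw [hC]
    nlinarith
  have key : ∀ r : ℤ, 0 ≤ r → r < 2 * a → ∃ E : Finset ℕ, (#E : ℝ) ≤ 4 * ε * C ∧ ∀ c ∈ Icc 1 C, c ∉ E →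
      TwoP a Q (τ * N) (2 * N) r (-(r * H + a * H ^ 2) + (c : ℕ)) := by
    intro r hr0 hr1
    have hr : r ∈ Icc (-(2 * a)) (2 * a) := by rw [mem_Icc]; omega
    have hr' : -r ∈ Icc (-(2 * a)) (2 * a) := by rw [mem_Icc]; omega
    have hM : |-(r * (H : ℤ) + a * (H : ℤ) ^ 2)| ≤ ((3 * A : ℕ) : ℤ) * ((2 * N : ℕ) : ℤ) ^ 2 := by
      have e0 : (0 : ℤ) ≤ H := by omega
      have e1 : 0 ≤ r * (H : ℤ) + a * (H : ℤ) ^ 2 := by positivity
      rw [abs_neg, abs_of_nonneg e1]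
      push_cast
      rw [hA]
      have e2 : ((H : ℤ)) ≤ N := by exact_mod_cast hHN
      have e3 : r * (H : ℤ) ≤ 2 * a * (H : ℤ) ^ 2 := by nlinarith
      have e4 : (H : ℤ) ^ 2 ≤ (N : ℤ) ^ 2 := by exact_mod_cast hHN2
      nlinarith
    have hKC : ∀ r' ∈ Icc (-(2 * a)) (2 * a), K r' * (2 * N) ≤ C := by
      intro r' hr'
      have := hKr r' hr'
      calc K r' * (2 * N) ≤ Ks * (2 * N) := Nat.mul_le_mul_right _ this
        _ = 2 * (Ks * N) := by ring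
        _ ≤ 2 * H ^ 2 := Nat.mul_le_mul_left _ hKN
        _ ≤ C := by rw [hC]; nlinarith
    obtain ⟨E1, -, p2, p3⟩ := hlc r (2 * N) C (by have := hNr r hr; omega) (hKC r hr) hCN _ hM
    obtain ⟨E2, -, q2, q3⟩ := hlc (-r) (2 * N) C (by have := hNr (-r) hr'; omega) (hKC (-r) hr') hCN _ hM
    refine ⟨E1 ∪ E2, ?_, ?_⟩
    · refine (Nat.cast_le.2 (card_union_le _ _)).trans ?_
      push_cast
      linarith
    · intro c hc hcE
      rw [mem_union, not_or] at hcE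
      refine twoP_mono ?_ (twoP_of_oneP (p3 c hc hcE.1) (q3 c hc hcE.2))
      push_cast
      have : ε * (2 * N) ≤ τ / 8 * N := by
        have := mul_le_mul_of_nonneg_right hε1 (Nat.cast_nonneg (α := ℝ) N)
        linarith
      linarith
  have key2 : ∀ r : ℤ, ∃ E : Finset ℕ, (#E : ℝ) ≤ 4 * ε * C ∧ (0 ≤ r → r < 2 * a → ∀ c ∈ Icc 1 C, c ∉ E →
      TwoP a Q (τ * N) (2 * N) r (-(r * H + a * H ^ 2) + (c : ℕ))) := by
    intro r
    by_cases hr : 0 ≤ r ∧ r < 2 * a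
    · obtain ⟨E, h1, h2⟩ := key r hr.1 hr.2
      exact ⟨E, h1, fun _ _ => h2⟩
    · refine ⟨∅, ?_, fun h1 h2 => absurd ⟨h1, h2⟩ hr⟩
      rw [card_empty, Nat.cast_zero]
      positivity
  choose E hE1 hE2 using key2
  refine ⟨(Icc (-(H : ℤ)) H ×ˢ Icc (-(H : ℤ)) H).filter
      (fun q : ℤ × ℤ => (cc a H q.1 q.2).toNat ∈ E (q.1 % (2 * a))), filter_subset _ _, ?_, ?_⟩
  · refine (card_exc ha hH4 E hδ0 hE1 hHδ hδ1).trans ?_
    rw [hCr]
    have h1 : 4 * (a : ℝ) * (5 * a / δ) * (4 * ε * (2 * a * H ^ 2)) = 160 * a ^ 3 * ε / δ * H ^ 2 := by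
      field_simp
      ring
    rw [h1]
    have h2 : 160 * (a : ℝ) ^ 3 * ε / δ ≤ τ / 2 := by
      rw [div_le_iff₀ hδ0]
      rw [le_div_iff₀ (by positivity)] at hε2
      linarith
    have h3 := mul_le_mul_of_nonneg_right h2 (sq_nonneg (H : ℝ))
    have h4 := mul_le_mul_of_nonneg_right hδ2 (sq_nonneg (H : ℝ))
    linarith
  · intro q hq hqE
    have hq' := hq
    rw [mem_product, mem_Icc, mem_Icc] at hq'
    have hb : |q.1| ≤ (H : ℤ) := abs_le.2 hq'.1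
    have hc : |q.2| ≤ (H : ℤ) := abs_le.2 hq'.2
    obtain ⟨k1, k2⟩ := cc_bd ha hH4 hb hc
    have h2a : 0 < 2 * a := by omega
    obtain ⟨r, hr⟩ : ∃ r : ℤ, r = q.1 % (2 * a) := ⟨_, rfl⟩
    have hr0 : 0 ≤ r := by rw [hr]; exact Int.emod_nonneg _ h2a.ne'
    have hr1 : r < 2 * a := by rw [hr]; exact Int.emod_lt_of_pos _ h2a
    have hcn : (((cc a H q.1 q.2).toNat : ℕ) : ℤ) = cc a H q.1 q.2 := by omega
    have h := hE2 (q.1 % (2 * a)) (by rw [← hr]; exact hr0) (by rw [← hr]; exact hr1) (cc a H q.1 q.2).toNat ?_ ?_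
    · rw [hcn, ← hr] at h
      have hsb := sh_b a H q.1
      rw [← hr] at hsb
      -- the shift by `sh - H`
      have hs : (sh a H q.1 - H).natAbs ≤ N := by
        have e1 : 2 * a * (sh a H q.1 - H) = r - q.1 := by linear_combination hsb
        have e2 : |2 * a * (sh a H q.1 - H)| ≤ 2 * a + H := by
          rw [e1]
          refine (abs_sub _ _).trans ?_
          rw [abs_of_nonneg hr0]
          omega
        rw [abs_mul, abs_of_pos h2a] at e2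
        have e3 : |sh a H q.1 - H| ≤ H := by
          by_contra hcon
          push Not at hcon
          nlinarith
        rw [abs_le] at e3
        omega
      refine twoP_shift (s := sh a H q.1 - H) (X := 2 * N) (by omega) ?_
      have e1 : q.1 + 2 * a * (sh a H q.1 - H) = r := by linear_combination hsb
      have e2 : q.2 + q.1 * (sh a H q.1 - H) + a * (sh a H q.1 - H) ^ 2 =
          -(r * H + a * H ^ 2) + cc a H q.1 q.2 := by
        unfold cc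
        linear_combination (-(H : ℤ)) * hsb
      rw [e1, e2]
      exact h
    · rw [mem_Icc]
      refine ⟨by omega, ?_⟩
      have h4 : (((cc a H q.1 q.2).toNat : ℕ) : ℤ) ≤ (C : ℤ) := by
        rw [hcn, hC]
        push_cast
        rw [hA]
        exact k2
      exact_mod_cast h4
    · intro hcon
      exact hqE (mem_filter.2 ⟨hq, hcon⟩)

lemma twoP_restrict {a b c : ℤ} {Q : ℕ} {E : ℝ} {x X : ℕ} (hX : x ≤ X) (h : TwoP a Q E X b c) : TwoP a Q E x b c :=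
  fun q hq hqQ r u v hu hv => h q hq hqQ r u v (by omega) (by omega)

/-- **Pairs, all lengths between the height and its power `12/5`.** -/
theorem pair_full_pos (hM : MainU) (a : ℤ) (ha : 0 < a) (ε τ : ℝ) (Q : ℕ) (hε : 0 < ε) (hτ : 0 < τ) :
    ∃ H0 : ℕ, ∀ H : ℕ, H0 ≤ H → ∀ N : ℕ, H ≤ N → (N : ℝ) ≤ (H : ℝ) ^ (12 / 5 - ε) →
      ∃ Ex ⊆ Icc (-(H : ℤ)) H ×ˢ Icc (-(H : ℤ)) H, (#Ex : ℝ) ≤ τ * H ^ 2 ∧
        ∀ p ∈ Icc (-(H : ℤ)) H ×ˢ Icc (-(H : ℤ)) H, p ∉ Ex → TwoP a Q (τ * N) N p.1 p.2 := by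
  classical
  obtain ⟨K, H1, h1⟩ := pair_low a ha τ Q hτ
  obtain ⟨H2, h2⟩ := pair_two_pos hM a ha ε τ Q hε hτ
  obtain ⟨τ', hτ'⟩ : ∃ τ' : ℝ, τ' = τ / (K + 1) := ⟨_, rfl⟩
  have hK0 : (0 : ℝ) ≤ K := Nat.cast_nonneg _
  have hτ0 : 0 < τ' := by rw [hτ']; positivity
  have hτ1 : τ' ≤ τ := by
    rw [hτ']
    exact div_le_self hτ.le (by linarith)
  have hτ2 : τ' * K ≤ τ := by
    rw [hτ', div_mul_eq_mul_div, div_le_iff₀ (by positivity)]
    nlinarith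
  obtain ⟨H3, h3⟩ := pair_two_pos hM a ha (2 / 5) τ' Q (by norm_num) hτ0
  refine ⟨H1 + H2 + H3 + 1, fun H hH N hHN hN => ?_⟩
  rcases le_or_gt (K * N) (H ^ 2) with hK | hK
  · exact h1 H (by omega) N hHN hK
  · rcases le_or_gt (H ^ 2) N with hN2 | hN2
    · exact h2 H (by omega) N hN2 hN
    · have hH1 : (1 : ℝ) ≤ H := by exact_mod_cast (by omega : 1 ≤ H)
      obtain ⟨Ex, p1, p2, p3⟩ := h3 H (by omega) (H ^ 2) (le_refl _) (by
        push_cast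
        rw [← Real.rpow_natCast]
        apply Real.rpow_le_rpow_of_exponent_le hH1
        norm_num)
      refine ⟨Ex, p1, p2.trans (mul_le_mul_of_nonneg_right hτ1 (by positivity)), fun p hp hpE => ?_⟩
      refine twoP_mono ?_ (twoP_restrict hN2.le (p3 p hp hpE))
      have h4 : (((H ^ 2 : ℕ) : ℝ)) ≤ K * N := by exact_mod_cast hK.le
      calc τ' * ((H ^ 2 : ℕ) : ℝ) ≤ τ' * (K * N) := mul_le_mul_of_nonneg_left h4 hτ0.le
        _ = τ' * K * N := by ring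
        _ ≤ τ * N := mul_le_mul_of_nonneg_right hτ2 (Nat.cast_nonneg _)

/-- pairs, all lengths between the height and its power `12/5`, all leading coefficients -/
theorem pair_full (hM : MainU) (a : ℤ) (ha : a ≠ 0) (ε τ : ℝ) (Q : ℕ) (hε : 0 < ε) (hτ : 0 < τ) :
    ∃ H0 : ℕ, ∀ H : ℕ, H0 ≤ H → ∀ N : ℕ, H ≤ N → (N : ℝ) ≤ (H : ℝ) ^ (12 / 5 - ε) →
      ∃ Ex ⊆ Icc (-(H : ℤ)) H ×ˢ Icc (-(H : ℤ)) H, (#Ex : ℝ) ≤ τ * H ^ 2 ∧
        ∀ p ∈ Icc (-(H : ℤ)) H ×ˢ Icc (-(H : ℤ)) H, p ∉ Ex → TwoP a Q (τ * N) N p.1 p.2 := by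
  classical
  rcases lt_or_gt_of_ne ha with h | h
  · obtain ⟨H0, h0⟩ := pair_full_pos hM (-a) (by omega) ε τ Q hε hτ
    refine ⟨H0, fun H hH N hHN hN => ?_⟩
    obtain ⟨Ex, p1, p2, p3⟩ := h0 H hH N hHN hN
    refine ⟨Ex.image (fun p => (-p.1, -p.2)), ?_, ?_, ?_⟩
    · intro p hp
      rw [mem_image] at hp
      obtain ⟨p', hp', rfl⟩ := hp
      have := p1 hp'
      rw [mem_product, mem_Icc, mem_Icc] at this ⊢
      simp only
      omega
    · refine le_trans ?_ p2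
      exact_mod_cast card_image_le
    · intro p hp hpE
      apply twoP_neg
      apply p3 (-p.1, -p.2)
      · rw [mem_product, mem_Icc, mem_Icc] at hp ⊢
        simp only
        omega
      · intro hcon
        apply hpE
        rw [mem_image]
        refine ⟨(-p.1, -p.2), hcon, ?_⟩
        simp
  · exact pair_full_pos hM a h ε τ Q hε hτ

end Pool.Agent.N792.CH
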